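import Pool.Agent.FLN.StN

/-!
# Random homomorphisms to `PSL_n(q)`: the geometric maximal subgroups

MP_5b5212_al. If one period `m_i` satisfies `1 / m_i < σ - 2` (oriented, genus `0`), resp. `1 / m_i < σ - 1`
(non-oriented, genus `1`), the image of a random homomorphism is, with probability tending to `1`,
imprimitive, normalizes a field extension of `F` in the matrix ring, preserves a tensor
decomposition, is realizable over a subfield up to scalars, or preserves a symmetric, skew or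
hermitian form up to scalars only with probability `q ^ (- c n)`. Together with irreducibility these are
all classes `C1`, `C2`, `C3`, `C4`, `C5`, `C8` of Aschbacher's theorem.

`S_X` is the statement of module `X`; the module proves `theorem t_X : M_X` (or `t_X : S_X` if there is
no `M_X`) in `Pool/Agent/FGE/X.lean`, namespace `FGE`, importing this file. The statements without prefix
are those of `RSF` (`S_PI`, `S_T`, `S_IA`, `S_SUB`) and `FL0` (`S_EVS`, `S_CLS`, `S_DIA`, `S_LOW`). `q = Nat.card F`.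

Method: union bound over the structures `T` of the number of the tuples that preserve `T`; one of the
elliptic generators is determined by the others. Loss factors `(n+1)^(C n) q^(C n)` do not matter.
-/

namespace FGE

open RSF FL0 Polynomial

noncomputable section

/-! ## Definitions -/

/-- the upper bound `(n + 1) ^ (C n) * q ^ (C n + e)` -/
def Bd (C : ℝ) (n : ℕ) (F : Type) (e : ℝ) : ℝ :=
  ((n : ℝ) + 1) ^ (C * n) * (Nat.card F : ℝ) ^ (C * n + e)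

/-- all preimages in `SL_n(F)` of all elements of `H` have the property `Q` -/
def All {n : ℕ} {F : Type} [Field F] (H : Subgroup (PS n F))
    (Q : Matrix (Fin n) (Fin n) F → Prop) : Prop :=
  ∀ g ∈ H, ∀ A : Matrix.SpecialLinearGroup (Fin n) F, mk A = g → Q A.1

/-- `M` permutes the subspaces `V i` -/
def P2 {n t : ℕ} {F : Type} [Field F] (V : Fin t → Submodule F (Fin n → F))
    (M : Matrix (Fin n) (Fin n) F) : Prop :=
  ∀ i, ∃ j, (V i).map (Matrix.toLin' M) = V j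

/-- `M` normalizes `K` -/
def P3 {n : ℕ} {F : Type} [Field F] (K : Subalgebra F (Matrix (Fin n) (Fin n) F))
    (M : Matrix (Fin n) (Fin n) F) : Prop :=
  ∀ x ∈ K, M * x * M⁻¹ ∈ K

/-- `P M P⁻¹` is a tensor product -/
def P4 {n a b : ℕ} {F : Type} [Field F] (e : Fin n ≃ Fin a × Fin b) (P : GL (Fin n) F)
    (M : Matrix (Fin n) (Fin n) F) : Prop :=
  ∃ (B : Matrix (Fin a) (Fin a) F) (C : Matrix (Fin b) (Fin b) F),
    P.1 * M * P.1⁻¹ = Matrix.of fun i j => B (e i).1 (e j).1 * C (e i).2 (e j).2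

/-- `P M P⁻¹` is a scalar times a matrix over the subfield `K` -/
def P5 {n : ℕ} {F : Type} [Field F] (K : Subfield F) (P : GL (Fin n) F)
    (M : Matrix (Fin n) (Fin n) F) : Prop :=
  ∃ c : F, c ≠ 0 ∧ ∀ i j, c * (P.1 * M * P.1⁻¹) i j ∈ K

/-- `M` preserves the form `J` up to a scalar -/
def P8 {n : ℕ} {F : Type} [Field F] (τ : F ≃+* F) (J M : Matrix (Fin n) (Fin n) F) : Prop :=
  ∃ c : F, M.transpose * J * M.map τ = c • J

/-- `J` is symmetric, skew, hermitian or skew hermitian (`τ ^ 2 = 1`, `ε = 1` or `ε = -1`) -/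
def Her {n : ℕ} {F : Type} [Field F] (τ : F ≃+* F) (ε : F) (J : Matrix (Fin n) (Fin n) F) : Prop :=
  (∀ x, τ (τ x) = x) ∧ (ε = 1 ∨ ε = -1) ∧ J.transpose = ε • J.map τ

/-- imprimitive: a decomposition of `F^n` in `t ≥ 2` nonzero subspaces is permuted -/
def C2 {n : ℕ} {F : Type} [Field F] (H : Subgroup (PS n F)) : Prop :=
  ∃ (t : ℕ) (V : Fin t → Submodule F (Fin n → F)), 2 ≤ t ∧ (∀ i, V i ≠ ⊥) ∧
    DirectSum.IsInternal V ∧ All H (P2 V)

/-- a field `K` of matrices larger than `F` is normalized -/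
def C3 {n : ℕ} {F : Type} [Field F] (H : Subgroup (PS n F)) : Prop :=
  ∃ K : Subalgebra F (Matrix (Fin n) (Fin n) F), K ≠ ⊥ ∧ IsField K ∧ All H (P3 K)

/-- a tensor decomposition is preserved -/
def C4 {n : ℕ} {F : Type} [Field F] (H : Subgroup (PS n F)) : Prop :=
  ∃ (a b : ℕ) (e : Fin n ≃ Fin a × Fin b) (P : GL (Fin n) F), 2 ≤ a ∧ 2 ≤ b ∧ All H (P4 e P)

/-- realizable over a proper subfield up to scalars -/
def C5 {n : ℕ} {F : Type} [Field F] (H : Subgroup (PS n F)) : Prop :=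
  ∃ (K : Subfield F) (P : GL (Fin n) F), K ≠ ⊤ ∧ All H (P5 K P)

/-- a nonzero symmetric, skew, hermitian or skew hermitian form is preserved up to scalars -/
def C8 {n : ℕ} {F : Type} [Field F] (H : Subgroup (PS n F)) : Prop :=
  ∃ (τ : F ≃+* F) (ε : F) (J : Matrix (Fin n) (Fin n) F), Her τ ε J ∧ J ≠ 0 ∧ All H (P8 τ J)

/-- `H` preserves one of these structures. -/
def Geo {n : ℕ} {F : Type} [Field F] (H : Subgroup (PS n F)) : Prop :=
  C2 H ∨ C3 H ∨ C4 H ∨ C5 H ∨ C8 H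

/-! ## 1. The union bound -/

/-- **PRO**. For one `T`: the number of the `ρ` with `All ρ.range (Q T)` is at most the number of the tuples `t j`,
`t j ^ m_j = 1`, product `1` (`FL0.S_HO0`), all whose preimages satisfy `Q T`, hence at most the product over the `j ≠ i` of
the number of the possible `t j` (`t i` is determined by the others). The number of these `t ∈ PSL_n`, `t^k = 1`, is at most
that of the `y ∈ GL_n`, `y^k = 1`, `Q T y`: `A` a preimage, `A^k = λ`, `λ = c^k` (`FL0.S_ROT`), `y = c⁻¹ A`; `t` is determined by `y`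
(two multiples of `y` of determinant `1` differ by a central element of `SL_n`). So the number is at most
`Bd C ((1-μ) n²) ∏_(j≠i) Bd C (μ (1-1/m_j) n²)`, `∑_(j≠i) (1 - 1/m_j) = σ - 1 + 1/m_i`. Divide by `FL0.S_LOW`
(`q^((σ-1) n² - C')`): the exponent is `((1-μ) (2-σ) + μ / m_i) n² ≤ - c₀ n²`, `c₀ = (σ - 2 - 1/m_i) / 2` (`μ ≤ 1/2`), and
`(n+1)^(d C n) q^(d C n + C') ≤ q^(c₀ n² - 2 n)` for `n ≥ r`. -/
def S_PRO : Prop :=
  ∀ m : List ℕ, (∀ k ∈ m, 2 ≤ k) → 2 < sig m → (∃ k ∈ m, 1 / (k : ℝ) < sig m - 2) →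
    ∀ C : ℝ, 0 ≤ C → ∃ r : ℕ, ∀ n, r ≤ n → ∀ (F : Type) [Field F] [Finite F],
    (∀ k ∈ m, k ∣ Nat.card F - 1) → (∀ k ∈ m, Ord n F k) →
    ∀ (I : Type) [Finite I] (Q : I → Matrix (Fin n) (Fin n) F → Prop) (μ : ℝ), 0 ≤ μ → μ ≤ 1 / 2 →
      (∀ T M (c : F), c ≠ 0 → Q T M → Q T (c • M)) →
      (Nat.card I : ℝ) ≤ Bd C n F ((1 - μ) * (n : ℝ) ^ 2) →
      (∀ T, ∀ k ∈ m, (Nat.card {y : GL (Fin n) F // y ^ k = 1 ∧ Q T y.1} : ℝ) ≤
        Bd C n F (μ * (1 - 1 / (k : ℝ)) * (n : ℝ) ^ 2)) →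
      prob (OGroup 0 m) (PS n F) (fun ρ => ∃ T, All ρ.range (Q T)) ≤
        (Nat.card F : ℝ) ^ (-(2 * (n : ℝ)))

def M_PRO : Prop := FL0.S_HO0 → FL0.S_ROT → FL0.S_LOW → S_PRO

/-- **PRN**, the same for the non-oriented groups (`FLN.S_HO`, `FLN.S_LOW`): also the number of the images of the
generator `a` is bounded; exponent `(1-μ) + μ (σ - 1 + 1/m_i) + μ - σ = (1-μ) (1-σ) + μ / m_i ≤ (1 - σ + 1/m_i) / 2`. -/
def S_PRN : Prop :=
  ∀ m : List ℕ, (∀ k ∈ m, 2 ≤ k) → 1 < sig m → (∃ k ∈ m, 1 / (k : ℝ) < sig m - 1) →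
    ∀ C : ℝ, 0 ≤ C → ∃ r : ℕ, ∀ n, r ≤ n → ∀ (F : Type) [Field F] [Finite F],
    (∀ k ∈ m, k ∣ Nat.card F - 1) → (∀ k ∈ m, Ord n F k) →
    ∀ (I : Type) [Finite I] (Q : I → Matrix (Fin n) (Fin n) F → Prop) (μ : ℝ), 0 ≤ μ → μ ≤ 1 / 2 →
      (∀ T M (c : F), c ≠ 0 → Q T M → Q T (c • M)) →
      (Nat.card I : ℝ) ≤ Bd C n F ((1 - μ) * (n : ℝ) ^ 2) →
      (∀ T, ∀ k ∈ m, (Nat.card {y : GL (Fin n) F // y ^ k = 1 ∧ Q T y.1} : ℝ) ≤
        Bd C n F (μ * (1 - 1 / (k : ℝ)) * (n : ℝ) ^ 2)) →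
      (∀ T, (Nat.card {y : GL (Fin n) F // Q T y.1} : ℝ) ≤ Bd C n F (μ * (n : ℝ) ^ 2)) →
      prob (NGroup 1 m) (PS n F) (fun ρ => ∃ T, All ρ.range (Q T)) ≤
        (Nat.card F : ℝ) ^ (-(2 * (n : ℝ)))

def M_PRN : Prop := FLN.S_HO → FL0.S_ROT → FLN.S_LOW → S_PRN

/-! ## 2. Tools -/

/-- **SQS**. The `y` with `y^k = 1` form at most `(n+1)^k` classes (`S_EVS` 4, 1), a class has at most
`4^k q^(n² - sq)` elements (`S_CLS`), and `sq ≥ n²/k` (`S_EVS` 2). -/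
def S_SQS : Prop :=
  ∀ (F : Type) [Field F] [Finite F] (n k : ℕ), 1 ≤ k → k ∣ Nat.card F - 1 → ∀ α : ℝ, 0 ≤ α → α ≤ 1 →
    ∑ᶠ y : {y : GL (Fin n) F // y ^ k = 1}, (Nat.card F : ℝ) ^ (α * (sq (lm y.1.1) : ℝ)) ≤
      4 ^ k * ((n : ℝ) + 1) ^ k *
        (Nat.card F : ℝ) ^ ((n : ℝ) ^ 2 - (1 - α) * (n : ℝ) ^ 2 / (k : ℝ))

def M_SQS : Prop := S_EVS → S_CLS → S_SQS

/-- **JGL**. `RSF.S_T` for `X^k - β` and the dimension `0` (`nT` with `W = ⊥`, `QQ n 0 = n²`). -/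
def S_JGL : Prop :=
  ∀ (F V : Type) [Field F] [Finite F] [AddCommGroup V] [Module F V] [FiniteDimensional F V] (k : ℕ)
    (β : F), 1 ≤ k →
    (Nat.card {A : Module.End F V // A ^ k = β • (1 : Module.End F V)} : ℝ) ≤
      (16 * ((Module.finrank F V : ℝ) + 1) ^ 2) ^ k *
        (Nat.card F : ℝ) ^ ((Module.finrank F V : ℝ) ^ 2 * (1 - 1 / (k : ℝ)))

def M_JGL : Prop := RSF.S_T → S_JGL

/-- **ORB**. Conjugation by `g` gives a bijection between the `y ∈ Y` with `R y x` and those with `R y (g • x)`: sum the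
number of the pairs `(y, x')` with `x'` in the orbit of `x`; orbit-stabilizer. -/
def S_ORB : Prop :=
  ∀ (G X : Type) [Group G] [Finite G] [Finite X] [MulAction G X] (Y : Set G) (R : G → X → Prop),
    (∀ g, ∀ y ∈ Y, g * y * g⁻¹ ∈ Y) → (∀ g y x, R y x → R (g * y * g⁻¹) (g • x)) → ∀ x : X,
    Nat.card G * Nat.card {y : G // y ∈ Y ∧ R y x} ≤
      Nat.card (MulAction.stabilizer G x) * ∑ᶠ y : Y, Nat.card {x' : X // R y.1 x'}

/-! ## 3. Imprimitive groups -/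

/-- the decompositions in `t` subspaces of dimension `a` -/
def I2 (F : Type) [Field F] (n t a : ℕ) : Type :=
  {V : Fin t → Submodule F (Fin n → F) // DirectSum.IsInternal V ∧
    ∀ i, Module.finrank F (V i) = a}

/-- **C2R**. For `i` let `U` be the sum of the `V j` such that `A (V i) = V j` for some preimage `A` of an element of `H`; `U` is
invariant, so `U = ⊤` (`Irr`), so all `j` occur (`IsInternal`, `V j ≠ ⊥`) and all `V j` have the same dimension. -/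
def S_C2R : Prop :=
  ∀ (F : Type) [Field F] (n : ℕ) (H : Subgroup (PS n F)), 1 ≤ n → Irr H → C2 H →
    ∃ (t a : ℕ) (V : I2 F n t a), 2 ≤ t ∧ 1 ≤ a ∧ t * a = n ∧ All H (P2 V.1)

/-- **C2N**. `GL_n` acts transitively on `I2`; the elements that preserve every `V i` form `GL_a^t`: so
`|I2| |GL_a|^t ≤ |GL_n|` (for a basis of `F^n` adapted to `V` ...: the map from the families of bases of the `V i` to the
bases of `F^n`), `|GL_a| ≥ q^(a²) / 4`, `|GL_n| ≤ q^(n²)`, `4^t ≤ q^(2n)`. -/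
def S_C2N : Prop :=
  ∀ (F : Type) [Field F] [Finite F] (n t a : ℕ), 1 ≤ a → 1 ≤ t → t * a = n →
    (Nat.card (I2 F n t a) : ℝ) ≤ Bd 2 n F ((1 - 1 / (t : ℝ)) * (n : ℝ) ^ 2)

def M_C2N : Prop := S_PI → S_C2N

/-- **C2Y**. `y` permutes the `V i` by a permutation `π` (at most `t! ≤ (n+1)^n` possibilities), `π^k = 1`. Identify `V i` with
`F^a`: `y` is given by `g_i ∈ GL_a`, `g_i : V i → V (π i)`, and on a cycle of `π` of length `ℓ ∣ k` starting at `i`, the product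
`h = g_(π^(ℓ-1) i) ⋯ g_i` satisfies `h^(k/ℓ) = 1`: at most `|GL_a|^(ℓ-1) (16 (a+1)²)^k q^(a² (1 - ℓ/k))` possibilities
(`S_JGL`), `|GL_a| ≤ q^(a²)`. The product over the cycles is at most `(16 (a+1)²)^(k t) q^(t a² (1 - 1/k))`,
`t a² = n² / t`. (Alternative to the cycle count: the number of the `y` for a fixed `π` is the product over the cycles.) -/
def S_C2Y : Prop :=
  ∀ k : ℕ, 1 ≤ k → ∃ C : ℝ, 0 ≤ C ∧ ∀ (F : Type) [Field F] [Finite F] (n t a : ℕ), 1 ≤ a → 1 ≤ t →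
    t * a = n → ∀ V : I2 F n t a,
    (Nat.card {y : GL (Fin n) F // y ^ k = 1 ∧ P2 V.1 y.1} : ℝ) ≤
      Bd C n F (1 / (t : ℝ) * (1 - 1 / (k : ℝ)) * (n : ℝ) ^ 2)

def M_C2Y : Prop := S_JGL → S_C2Y

/-- **C2S**. At most `t! |GL_a|^t ≤ (n+1)^n q^(t a²)`. -/
def S_C2S : Prop :=
  ∀ (F : Type) [Field F] [Finite F] (n t a : ℕ), 1 ≤ a → 1 ≤ t → t * a = n → ∀ V : I2 F n t a,
    (Nat.card {y : GL (Fin n) F // P2 V.1 y.1} : ℝ) ≤ Bd 1 n F (1 / (t : ℝ) * (n : ℝ) ^ 2)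

/-! ## 4. Field extensions -/

/-- the fields of matrices with `q^b` elements -/
def I3 (F : Type) [Field F] (n b : ℕ) : Type :=
  {K : Subalgebra F (Matrix (Fin n) (Fin n) F) // IsField K ∧ Nat.card K = Nat.card F ^ b}

/-- **C3R**. `K` has `q^f` elements, `f ≥ 2`; for a prime `b ∣ f` let `K₁` be the set of the `x ∈ K` with `x^(q^b) = x`, the subfield
with `q^b` elements; it is a subalgebra and invariant under conjugation. `F^n` is a vector space over `K₁`, so `b ∣ n`. -/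
def S_C3R : Prop :=
  ∀ (F : Type) [Field F] [Finite F] (n : ℕ) (H : Subgroup (PS n F)), 1 ≤ n → C3 H →
    ∃ (b : ℕ) (K : I3 F n b), b.Prime ∧ b ∣ n ∧ All H (P3 K.1)

/-- **C3N**. Let `f` be a monic irreducible polynomial of degree `b` over `F`. Every `K ∈ I3` contains a root `κ` of `f`, and
`K = F[κ]` (same cardinality). So the number of the `K` is at most that of the `κ` with `f(κ) = 0`: `RSF.S_IA`. -/
def S_C3N : Prop :=
  ∀ (F : Type) [Field F] [Finite F] (n b : ℕ), 1 ≤ b →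
    (Nat.card (I3 F n b) : ℝ) ≤ (Nat.card F : ℝ) ^ ((1 - 1 / (b : ℝ)) * (n : ℝ) ^ 2)

def M_C3N : Prop := RSF.S_IA → S_C3N

/-- **CTK**. `F^n` is a vector space of dimension `n / b` over the field `F[κ] ≅ F[X]/(f)`, the matrices commuting with `κ` are
its endomorphisms: `q^(b (n/b)²)` elements. -/
def S_CTK : Prop :=
  ∀ (F : Type) [Field F] [Finite F] (n : ℕ) (f : F[X]), Irreducible f →
    ∀ κ : Matrix (Fin n) (Fin n) F, aeval κ f = 0 →
    (Nat.card {A : Matrix (Fin n) (Fin n) F // A * κ = κ * A} : ℝ) ≤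
      (Nat.card F : ℝ) ^ ((n : ℝ) ^ 2 / f.natDegree)

/-- **KAP**. `κ` maps the eigenspace `V ζ` of `y` to `V (ω ζ)`, bijectively. On an orbit `ζ, ω ζ, …, ω^(b-1) ζ` of eigenvalues (all
of the same multiplicity `d`) `κ` is determined by its restrictions to `V (ω^i ζ)`, `0 ≤ i ≤ b - 2`, because `κ^b = ν`: at
most `q^((b-1) d²)`, and `∑ (b - 1) d² = (1 - 1/b) sq y`. -/
def S_KAP : Prop :=
  ∀ (F : Type) [Field F] [Finite F] (n k b : ℕ), 1 ≤ k → k ∣ Nat.card F - 1 → b.Prime →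
    ∀ (y : GL (Fin n) F) (ω ν : F), y ^ k = 1 → ω ≠ 1 → ω ^ b = 1 → ν ≠ 0 →
    (Nat.card {κ : Matrix (Fin n) (Fin n) F // y.1 * κ = ω • (κ * y.1) ∧ κ ^ b = ν • 1} : ℝ) ≤
      (Nat.card F : ℝ) ^ ((1 - 1 / (b : ℝ)) * (sq (lm y.1) : ℝ))

def M_KAP : Prop := S_DIA → S_KAP

/-- **C3A**. The `y` that commute with `K`: endomorphisms of the `K`-vector space `F^n` of dimension `n / b`: `S_JGL` over the
field `K`, exponent `b (n/b)² (1 - 1/k)`. -/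
def S_C3A : Prop :=
  ∀ k : ℕ, 1 ≤ k → ∃ C : ℝ, 0 ≤ C ∧ ∀ (F : Type) [Field F] [Finite F] (n b : ℕ), 1 ≤ b → 1 ≤ n →
    ∀ K : I3 F n b,
    (Nat.card {y : GL (Fin n) F // y ^ k = 1 ∧ ∀ x ∈ K.1, y.1 * x = x * y.1} : ℝ) ≤
      Bd C n F (1 / (b : ℝ) * (1 - 1 / (k : ℝ)) * (n : ℝ) ^ 2)

def M_C3A : Prop := S_JGL → S_C3A

/-- **C3B**. `S_ORB` with `G = GL_n` acting on the matrices by conjugation, `Y = {y | y^k = 1}`, `R y κ` the relation
`y κ = ω κ y`, `κ^b = ν`: `|GL_n| (number) ≤ |C(κ)| ∑_y q^((1-1/b) sq y)` (`S_KAP`), `|C(κ)| ≤ q^(n²/b)` (`S_CTK`, `X^b - ν` is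
irreducible), `S_SQS` with `α = 1 - 1/b`, `|GL_n| ≥ q^(n²) / 4`: exponent `n²/b + n² - n²/(b k) - n²`. -/
def S_C3B : Prop :=
  ∀ k : ℕ, 1 ≤ k → ∃ C : ℝ, 0 ≤ C ∧ ∀ (F : Type) [Field F] [Finite F] (n b : ℕ), 1 ≤ n →
    k ∣ Nat.card F - 1 → b.Prime → ∀ (ω ν : F), ω ≠ 1 → ω ^ b = 1 → ν ≠ 0 →
    Irreducible (X ^ b - Polynomial.C ν : F[X]) → ∀ κ : Matrix (Fin n) (Fin n) F, κ ^ b = ν • 1 →
    (Nat.card {y : GL (Fin n) F // y ^ k = 1 ∧ y.1 * κ = ω • (κ * y.1)} : ℝ) ≤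
      Bd C n F (1 / (b : ℝ) * (1 - 1 / (k : ℝ)) * (n : ℝ) ^ 2)

def M_C3B : Prop := S_PI → S_ORB → S_CTK → S_KAP → S_SQS → S_C3B

/-- **C3Y**. Let `y`, `y^k = 1`, normalize `K`, `φ` the automorphism `x ↦ y x y⁻¹` of `K` over `F`. If `φ = 1`: `S_C3A`. Otherwise `φ` has
order `b` (the automorphism group of `K / F` has prime order `b`), `b ∣ k` because `φ^k = 1`, so `b ∣ q - 1` and `φ` is
diagonalizable over `F` (`φ^b = 1`): there are `κ ∈ K`, `κ ≠ 0`, `ω ≠ 1`, `ω^b = 1` with `φ(κ) = ω κ`. `φ(κ^b) = κ^b`, so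
`κ^b = ν ∈ F` (fixed field), `κ ∉ F`, so `K = F[κ]` and `X^b - ν` is the minimal polynomial. At most `q^b q` pairs
`(κ, ω)`, `b ≤ n` (`b ∣ n`), `S_C3B` for each. -/
def S_C3Y : Prop :=
  ∀ k : ℕ, 1 ≤ k → ∃ C : ℝ, 0 ≤ C ∧ ∀ (F : Type) [Field F] [Finite F] (n b : ℕ), 1 ≤ n → b ∣ n →
    k ∣ Nat.card F - 1 → b.Prime → ∀ K : I3 F n b,
    (Nat.card {y : GL (Fin n) F // y ^ k = 1 ∧ P3 K.1 y.1} : ℝ) ≤
      Bd C n F (1 / (b : ℝ) * (1 - 1 / (k : ℝ)) * (n : ℝ) ^ 2)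

def M_C3Y : Prop := S_C3A → S_C3B → S_C3Y

/-- **C3S**. Two `y` that induce the same automorphism of `K` differ by an element of the centralizer of `K = F[κ]`, at
most `q^(n²/b)` elements (`S_CTK`); an automorphism is determined by the image of `κ`: at most `q^b ≤ q^n`. -/
def S_C3S : Prop :=
  ∀ (F : Type) [Field F] [Finite F] (n b : ℕ), 1 ≤ n → 1 ≤ b → b ∣ n → ∀ K : I3 F n b,
    (Nat.card {y : GL (Fin n) F // P3 K.1 y.1} : ℝ) ≤ Bd 1 n F (1 / (b : ℝ) * (n : ℝ) ^ 2)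

def M_C3S : Prop := S_CTK → S_C3S

/-! ## 5. Tensor products -/

/-- the sets of matrices that preserve a tensor decomposition -/
def I4 (F : Type) [Field F] (n a b : ℕ) : Type :=
  {T : Set (Matrix (Fin n) (Fin n) F) // ∃ (e : Fin n ≃ Fin a × Fin b) (P : GL (Fin n) F),
    T = {M | P4 e P M}}

/-- **C4N**. For one `e` (there are `n! ≤ (n+1)^n`): the set of `P` does not change if `P` is replaced by `(B ⊗ C) P`, and there are
at least `|GL_a| |GL_b| / q` different invertible `B ⊗ C` (`B ⊗ C` determines `B`, `C` up to a scalar). -/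
def S_C4N : Prop :=
  ∀ (F : Type) [Field F] [Finite F] (n a b : ℕ), 1 ≤ a → 1 ≤ b → a * b = n →
    (Nat.card (I4 F n a b) : ℝ) ≤ Bd 5 n F ((n : ℝ) ^ 2 - ((a : ℝ) ^ 2 + (b : ℝ) ^ 2))

def M_C4N : Prop := S_PI → S_C4N

/-- **C4Y**. `P y P⁻¹ = B ⊗ C` with `B^k ⊗ C^k = 1`, so `B^k = β`, `C^k = β⁻¹` are scalars: `q` values of `β`, `S_JGL`. -/
def S_C4Y : Prop :=
  ∀ k : ℕ, 1 ≤ k → ∃ K : ℝ, 0 ≤ K ∧ ∀ (F : Type) [Field F] [Finite F] (n a b : ℕ), 1 ≤ a → 1 ≤ b →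
    a * b = n → ∀ T : I4 F n a b,
    (Nat.card {y : GL (Fin n) F // y ^ k = 1 ∧ y.1 ∈ T.1} : ℝ) ≤
      Bd K n F ((1 - 1 / (k : ℝ)) * ((a : ℝ) ^ 2 + (b : ℝ) ^ 2))

def M_C4Y : Prop := S_JGL → S_C4Y

/-- **C4S**. At most `q^(a² + b²)` pairs `(B, C)`. -/
def S_C4S : Prop :=
  ∀ (F : Type) [Field F] [Finite F] (n a b : ℕ), 1 ≤ a → 1 ≤ b → a * b = n → ∀ T : I4 F n a b,
    (Nat.card {y : GL (Fin n) F // y.1 ∈ T.1} : ℝ) ≤ Bd 0 n F ((a : ℝ) ^ 2 + (b : ℝ) ^ 2)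

/-! ## 6. Subfields -/

/-- the sets of matrices of the form scalar times matrix over `K`, for some basis -/
def I5 (F : Type) [Field F] (n : ℕ) (K : Subfield F) : Type :=
  {T : Set (Matrix (Fin n) (Fin n) F) // ∃ P : GL (Fin n) F, T = {M | P5 K P M}}

/-- **C5N**. The set does not change if `P` is replaced by `g P`, `g ∈ GL_n(K)`: `|I5| |GL_n(K)| ≤ |GL_n(F)|`,
`|GL_n(K)| ≥ |K|^(n²) / 4`. -/
def S_C5N : Prop :=
  ∀ (F : Type) [Field F] [Finite F] (n r : ℕ) (K : Subfield F), 1 ≤ n → 1 ≤ r →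
    Nat.card K ^ r = Nat.card F →
    (Nat.card (I5 F n K) : ℝ) ≤ Bd 2 n F ((1 - 1 / (r : ℝ)) * (n : ℝ) ^ 2)

def M_C5N : Prop := S_PI → S_C5N

/-- **C5Y**. `c P y P⁻¹ = y₀` has entries in `K` and `y₀^k = c^k` is a scalar in `K`: at most `q` values of `c`, and `|K|` values of
`c^k`, `S_JGL` over `K`. -/
def S_C5Y : Prop :=
  ∀ k : ℕ, 1 ≤ k → ∃ C : ℝ, 0 ≤ C ∧ ∀ (F : Type) [Field F] [Finite F] (n r : ℕ) (K : Subfield F),
    1 ≤ n → 1 ≤ r → Nat.card K ^ r = Nat.card F → ∀ T : I5 F n K,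
    (Nat.card {y : GL (Fin n) F // y ^ k = 1 ∧ y.1 ∈ T.1} : ℝ) ≤
      Bd C n F (1 / (r : ℝ) * (1 - 1 / (k : ℝ)) * (n : ℝ) ^ 2)

def M_C5Y : Prop := S_JGL → S_C5Y

/-- **C5S**. At most `q |K|^(n²)`. -/
def S_C5S : Prop :=
  ∀ (F : Type) [Field F] [Finite F] (n r : ℕ) (K : Subfield F), 1 ≤ n → 1 ≤ r →
    Nat.card K ^ r = Nat.card F → ∀ T : I5 F n K,
    (Nat.card {y : GL (Fin n) F // y.1 ∈ T.1} : ℝ) ≤ Bd 1 n F (1 / (r : ℝ) * (n : ℝ) ^ 2)

/-! ## 7. Forms -/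

/-- the nondegenerate symmetric, skew, hermitian, skew hermitian forms -/
def I8 (F : Type) [Field F] (n : ℕ) : Type :=
  {z : (F ≃+* F) × F × Matrix (Fin n) (Fin n) F // Her z.1 z.2.1 z.2.2 ∧ IsUnit z.2.2}

/-- **C8R**. The set of the `v` with `vᵀ J = 0` is an invariant subspace (`vᵀ Aᵀ J A^τ = c vᵀ J = 0`, `A` invertible), not
everything, so `0` (`Irr`). -/
def S_C8R : Prop :=
  ∀ (F : Type) [Field F] (n : ℕ) (H : Subgroup (PS n F)), 1 ≤ n → Irr H → C8 H →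
    ∃ z : I8 F n, All H (P8 z.1.1 z.1.2.2)

/-- **C8N**. `J` is determined by the entries `J i j`, `i ≤ j`: at most `q^(n (n+1)/2)`; `ε` has at most two values, and there are at
most `q` automorphisms of `F` (determined by the image of a generator of `F^*`). -/
def S_C8N : Prop :=
  ∀ (F : Type) [Field F] [Finite F] (n : ℕ), 1 ≤ n → Finite (I8 F n) ∧
    (Nat.card (I8 F n) : ℝ) ≤ Bd 3 n F (1 / 2 * (n : ℝ) ^ 2)

/-- **ISO**. The columns `v_1, …, v_n` of `g`: `v_iᵀ J (v_j)^τ = J i j` for `i < j`, given `v_1, …, v_(j-1)` (linearly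
independent) these are `j - 1` independent affine conditions for `(v_j)^τ`: `q^(n-j+1)` possibilities. -/
def S_ISO : Prop :=
  ∀ (F : Type) [Field F] [Finite F] (n : ℕ) (τ : F ≃+* F) (J : Matrix (Fin n) (Fin n) F),
    IsUnit J →
    (Nat.card {g : GL (Fin n) F // g.1.transpose * J * g.1.map τ = J} : ℝ) ≤
      (Nat.card F : ℝ) ^ (((n : ℝ) ^ 2 + n) / 2)

/-- **FXJ**. Let `J ≠ 0` with the scalar `c` (at most `q` values; `c ≠ 0`). Transposing `yᵀ J y^τ = c J` gives `τ c = c`. For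
eigenvectors `u`, `v` of `y` with eigenvalues `ζ`, `η`: `ζ τ(η) J(u,v) = c J(u,v)`, so the block of `J` for the eigenspaces
`V ζ`, `V η` is `0` unless `ζ τ(η) = c`, i.e. `η = ζ'`, `ζ' = τ(c/ζ)`; `ζ'' = ζ`. `J(v,u) = ε τ(J(u,v))`: so `J` is determined by one
of the blocks `(ζ, ζ')`, `(ζ', ζ)` for `ζ ≠ ζ'` (`q^(d d')` possibilities, `d`, `d'` the dimensions) and by half of the entries of the
block `(ζ, ζ)` for `ζ = ζ'` (`q^(d (d+1)/2)`): exponent at most `(1/2) ∑_ζ d_ζ d_ζ' + (1/2) ∑ d_ζ ≤ (sq y + n) / 2`. -/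
def S_FXJ : Prop :=
  ∀ (F : Type) [Field F] [Finite F] (n k : ℕ) (τ : F ≃+* F) (ε : F) (y : GL (Fin n) F), 1 ≤ k →
    k ∣ Nat.card F - 1 → y ^ k = 1 →
    (Nat.card {J : Matrix (Fin n) (Fin n) F // Her τ ε J ∧ P8 τ J y.1} : ℝ) ≤
      (Nat.card F : ℝ) ^ (1 + ((sq (lm y.1) : ℝ) + n) / 2)

def M_FXJ : Prop := S_DIA → S_FXJ

/-- **C8Y**. `S_ORB`: `g ∈ GL_n` acts on the matrices by `J ↦ (g⁻¹)ᵀ J (g⁻¹)^τ`, which preserves `Her`; `Y = {y | y^k = 1}`, `R y J` the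
relation `Her τ ε J`, `P8 τ J y`. `|GL_n| (number) ≤ |Isom J| ∑_y q^(1 + (sq y + n)/2)` (`S_ISO`, `S_FXJ`), `S_SQS` with `α = 1/2`,
`|GL_n| ≥ q^(n²)/4`: exponent `n²/2 + n² - n²/(2k) - n²`. -/
def S_C8Y : Prop :=
  ∀ k : ℕ, 1 ≤ k → ∃ C : ℝ, 0 ≤ C ∧ ∀ (F : Type) [Field F] [Finite F] (n : ℕ), 1 ≤ n →
    k ∣ Nat.card F - 1 → ∀ z : I8 F n,
    (Nat.card {y : GL (Fin n) F // y ^ k = 1 ∧ P8 z.1.1 z.1.2.2 y.1} : ℝ) ≤
      Bd C n F (1 / 2 * (1 - 1 / (k : ℝ)) * (n : ℝ) ^ 2)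

def M_C8Y : Prop := S_PI → S_ORB → S_ISO → S_FXJ → S_SQS → S_C8Y

/-- **C8S**. For each `c` the set is empty or a coset of the isometry group (`S_ISO`). -/
def S_C8S : Prop :=
  ∀ (F : Type) [Field F] [Finite F] (n : ℕ), 1 ≤ n → ∀ z : I8 F n,
    (Nat.card {y : GL (Fin n) F // P8 z.1.1 z.1.2.2 y.1} : ℝ) ≤ Bd 2 n F (1 / 2 * (n : ℝ) ^ 2)

def M_C8S : Prop := S_ISO → S_C8S

/-! ## 8. The end -/

/-- **GE0**. Union over the (at most `n`) `t`, `b`, `(a, b)`, the subfields (at most `q`: determined by the cardinality, or by a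
generator) and the forms; each of them by `S_PRO` with `μ = 1/t`, `1/b`, `(a² + b²)/n² ≤ 1/2`, `1/r`, `1/2`; `C` the maximum of the
constants over the `k ∈ m`. The properties do not change if `M` is multiplied by a scalar. In total at most
`(3 n + q + 1) q^(-2n) ≤ q^(-n/2)`. (`Bd` is monotone in `C`.) -/
def S_GE0 : Prop :=
  ∀ m : List ℕ, (∀ k ∈ m, 2 ≤ k) → 2 < sig m → (∃ k ∈ m, 1 / (k : ℝ) < sig m - 2) →
    ∃ r : ℕ, ∀ n, r ≤ n → ∀ (F : Type) [Field F] [Finite F], (∀ k ∈ m, k ∣ Nat.card F - 1) →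
    (∀ k ∈ m, Ord n F k) →
      prob (OGroup 0 m) (PS n F) (fun ρ => Irr ρ.range ∧ Geo ρ.range) ≤
        (Nat.card F : ℝ) ^ (-((n : ℝ) / 2))

def M_GE0 : Prop := S_PRO → S_C2R → S_C2N → S_C2Y → S_C3R → S_C3N → S_C3Y → S_C4N → S_C4Y →
  S_C5N → S_C5Y → S_C8R → S_C8N → S_C8Y → S_GE0

/-- **GE1**, the same with `S_PRN`. -/
def S_GE1 : Prop :=
  ∀ m : List ℕ, (∀ k ∈ m, 2 ≤ k) → 1 < sig m → (∃ k ∈ m, 1 / (k : ℝ) < sig m - 1) →
    ∃ r : ℕ, ∀ n, r ≤ n → ∀ (F : Type) [Field F] [Finite F], (∀ k ∈ m, k ∣ Nat.card F - 1) →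
    (∀ k ∈ m, Ord n F k) →
      prob (NGroup 1 m) (PS n F) (fun ρ => Irr ρ.range ∧ Geo ρ.range) ≤
        (Nat.card F : ℝ) ^ (-((n : ℝ) / 2))

def M_GE1 : Prop := S_PRN → S_C2R → S_C2N → S_C2Y → S_C2S → S_C3R → S_C3N → S_C3Y → S_C3S →
  S_C4N → S_C4Y → S_C4S → S_C5N → S_C5Y → S_C5S → S_C8R → S_C8N → S_C8Y → S_C8S → S_GE1

end

end FGE
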