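import Mathlib
import Pool.Agent.FGE.StE
import Pool.Agent.RSF.A

/-!
# GE0: the union bound over the geometric structures

`ge0_general` is the union bound for an arbitrary group; with `w = True` the bounds for the third
generator are used too.
-/

set_option autoImplicit false

namespace FGE

open RSF FL0 Polynomial

noncomputable section

/-! ## Probabilities -/

theorem ge0_prob_mono {Γ G : Type} [Group Γ] [Group G] [Finite (Γ →* G)] (P Q : (Γ →* G) → Prop)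
    (h : ∀ ρ, P ρ → Q ρ) : prob Γ G P ≤ prob Γ G Q := by
  unfold prob
  refine div_le_div_of_nonneg_right ?_ (Nat.cast_nonneg _)
  refine Nat.cast_le.2 (Nat.card_le_card_of_injective (fun x => ⟨x.1, h _ x.2⟩) ?_)
  intro a b hab
  have h1 : a.1 = b.1 := congrArg (fun x : {ρ : Γ →* G // Q ρ} => x.1) hab
  exact Subtype.ext h1

theorem ge0_prob_or {Γ G : Type} [Group Γ] [Group G] [Finite (Γ →* G)] (P Q : (Γ →* G) → Prop) :
    prob Γ G (fun ρ => P ρ ∨ Q ρ) ≤ prob Γ G P + prob Γ G Q := by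
  classical
  unfold prob
  rw [← add_div]
  refine div_le_div_of_nonneg_right ?_ (Nat.cast_nonneg _)
  have h : Nat.card {ρ : Γ →* G // P ρ ∨ Q ρ} ≤
      Nat.card {ρ : Γ →* G // P ρ} + Nat.card {ρ : Γ →* G // Q ρ} := by
    rw [← Nat.card_sum]
    refine Nat.card_le_card_of_injective
      (fun x => if hx : P x.1 then Sum.inl ⟨x.1, hx⟩ else Sum.inr ⟨x.1, x.2.resolve_left hx⟩) ?_
    intro a b hab
    by_cases ha : P a.1
    · by_cases hb : P b.1
      · simp only [ha, hb, dite_true] at hab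
        have h1 : a.1 = b.1 := congrArg (fun x : {ρ : Γ →* G // P ρ} => x.1) (Sum.inl.inj hab)
        exact Subtype.ext h1
      · simp only [ha, hb, dite_true, dite_false] at hab
        exact absurd hab (by simp)
    · by_cases hb : P b.1
      · simp only [ha, hb, dite_true, dite_false] at hab
        exact absurd hab (by simp)
      · simp only [ha, hb, dite_false] at hab
        have h1 : a.1 = b.1 := congrArg (fun x : {ρ : Γ →* G // Q ρ} => x.1) (Sum.inr.inj hab)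
        exact Subtype.ext h1
  exact_mod_cast h

theorem ge0_prob_false {Γ G : Type} [Group Γ] [Group G] (P : (Γ →* G) → Prop)
    (h : ∀ ρ, ¬ P ρ) : prob Γ G P = 0 := by
  unfold prob
  have : IsEmpty {ρ : Γ →* G // P ρ} := ⟨fun x => h _ x.2⟩
  rw [Nat.card_of_isEmpty]
  simp

theorem ge0_prob_ex {Γ G : Type} [Group Γ] [Group G] [Finite (Γ →* G)] {ι : Type}
    (s : Finset ι) (P : ι → (Γ →* G) → Prop) (δ : ℝ) (hδ : ∀ i, prob Γ G (P i) ≤ δ) :
    prob Γ G (fun ρ => ∃ i ∈ s, P i ρ) ≤ s.card * δ := by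
  classical
  induction s using Finset.induction_on with
  | empty =>
    rw [ge0_prob_false _ (by simp)]
    simp
  | insert a s ha ih =>
    have h1 : prob Γ G (fun ρ => ∃ i ∈ insert a s, P i ρ) ≤
        prob Γ G (fun ρ => P a ρ ∨ ∃ i ∈ s, P i ρ) := by
      refine ge0_prob_mono _ _ fun ρ hρ => ?_
      obtain ⟨i, hi, hP⟩ := hρ
      rcases Finset.mem_insert.1 hi with rfl | hi
      · exact Or.inl hP
      · exact Or.inr ⟨i, hi, hP⟩
    refine (h1.trans (ge0_prob_or _ _)).trans ?_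
    rw [Finset.card_insert_of_notMem ha]
    push_cast
    have h2 := hδ a
    linarith

/-! ## The function `Bd` -/

theorem ge0_one_le (F : Type) [Field F] [Finite F] : (1 : ℝ) ≤ (Nat.card F : ℝ) := by
  exact_mod_cast Nat.card_pos

theorem ge0_Bd_mono (C C' : ℝ) (h : C ≤ C') (n : ℕ) (F : Type) [Field F] [Finite F] (e : ℝ) :
    Bd C n F e ≤ Bd C' n F e := by
  unfold Bd
  have hq := ge0_one_le F
  have hn : (0 : ℝ) ≤ n := Nat.cast_nonneg n
  have h1 : C * n ≤ C' * n := mul_le_mul_of_nonneg_right h hn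
  refine mul_le_mul ?_ ?_ (Real.rpow_nonneg (by linarith) _) (Real.rpow_nonneg (by linarith) _)
  · exact Real.rpow_le_rpow_of_exponent_le (by linarith) h1
  · exact Real.rpow_le_rpow_of_exponent_le hq (by linarith)

theorem ge0_pow_le_Bd (C : ℝ) (h : 0 ≤ C) (n : ℕ) (F : Type) [Field F] [Finite F] (e : ℝ) :
    (Nat.card F : ℝ) ^ e ≤ Bd C n F e := by
  have h1 := ge0_Bd_mono 0 C h n F e
  refine le_trans (le_of_eq ?_) h1
  unfold Bd
  simp

/-- a common constant for the elements of a list -/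
theorem ge0_common (P : ℕ → ℝ → Prop) (hmono : ∀ k C C', P k C → C ≤ C' → P k C')
    (hex : ∀ k, 1 ≤ k → ∃ C, 0 ≤ C ∧ P k C) (m : List ℕ) (hm : ∀ k ∈ m, 1 ≤ k) :
    ∃ C, 0 ≤ C ∧ ∀ k ∈ m, P k C := by
  induction m with
  | nil => exact ⟨0, le_rfl, by simp⟩
  | cons a m ih =>
    obtain ⟨C, hC, h⟩ := ih fun k hk => hm k (List.mem_cons_of_mem _ hk)
    obtain ⟨C', hC', h'⟩ := hex a (hm a List.mem_cons_self)
    refine ⟨max C C', le_max_of_le_left hC, fun k hk => ?_⟩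
    rcases List.mem_cons.1 hk with rfl | hk
    · exact hmono _ _ _ h' (le_max_right _ _)
    · exact hmono _ _ _ (h k hk) (le_max_left _ _)

/-! ## The bound for one family -/

/-- the conclusion of `S_PRO` and `S_PRN` for the group `Γ` -/
def ge0_HP (w : Prop) (m : List ℕ) (C : ℝ) (n : ℕ) (F : Type) [Field F] (Γ : Type) [Group Γ] :
    Prop :=
  ∀ (I : Type) [Finite I] (Q : I → Matrix (Fin n) (Fin n) F → Prop) (μ : ℝ), 0 ≤ μ → μ ≤ 1 / 2 →
    (∀ T M (c : F), c ≠ 0 → Q T M → Q T (c • M)) →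
    (Nat.card I : ℝ) ≤ Bd C n F ((1 - μ) * (n : ℝ) ^ 2) →
    (∀ T, ∀ k ∈ m, (Nat.card {y : GL (Fin n) F // y ^ k = 1 ∧ Q T y.1} : ℝ) ≤
      Bd C n F (μ * (1 - 1 / (k : ℝ)) * (n : ℝ) ^ 2)) →
    (w → ∀ T, (Nat.card {y : GL (Fin n) F // Q T y.1} : ℝ) ≤ Bd C n F (μ * (n : ℝ) ^ 2)) →
    prob Γ (PS n F) (fun ρ => ∃ T, All ρ.range (Q T)) ≤
      (Nat.card F : ℝ) ^ (-(2 * (n : ℝ)))

/-- the bound of `S_C2Y` for `k` with the constant `C` -/
def ge0_Y2 (k : ℕ) (C : ℝ) : Prop :=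
  ∀ (F : Type) [Field F] [Finite F] (n t a : ℕ), 1 ≤ a → 1 ≤ t → t * a = n → ∀ V : I2 F n t a,
    (Nat.card {y : GL (Fin n) F // y ^ k = 1 ∧ P2 V.1 y.1} : ℝ) ≤
      Bd C n F (1 / (t : ℝ) * (1 - 1 / (k : ℝ)) * (n : ℝ) ^ 2)

def ge0_Y3 (k : ℕ) (C : ℝ) : Prop :=
  ∀ (F : Type) [Field F] [Finite F] (n b : ℕ), 1 ≤ n → b ∣ n →
    k ∣ Nat.card F - 1 → b.Prime → ∀ K : I3 F n b,
    (Nat.card {y : GL (Fin n) F // y ^ k = 1 ∧ P3 K.1 y.1} : ℝ) ≤
      Bd C n F (1 / (b : ℝ) * (1 - 1 / (k : ℝ)) * (n : ℝ) ^ 2)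

def ge0_Y4 (k : ℕ) (C : ℝ) : Prop :=
  ∀ (F : Type) [Field F] [Finite F] (n a b : ℕ), 1 ≤ a → 1 ≤ b → a * b = n → ∀ T : I4 F n a b,
    (Nat.card {y : GL (Fin n) F // y ^ k = 1 ∧ y.1 ∈ T.1} : ℝ) ≤
      Bd C n F ((1 - 1 / (k : ℝ)) * ((a : ℝ) ^ 2 + (b : ℝ) ^ 2))

def ge0_Y5 (k : ℕ) (C : ℝ) : Prop :=
  ∀ (F : Type) [Field F] [Finite F] (n r : ℕ) (K : Subfield F),
    1 ≤ n → 1 ≤ r → Nat.card K ^ r = Nat.card F → ∀ T : I5 F n K,
    (Nat.card {y : GL (Fin n) F // y ^ k = 1 ∧ y.1 ∈ T.1} : ℝ) ≤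
      Bd C n F (1 / (r : ℝ) * (1 - 1 / (k : ℝ)) * (n : ℝ) ^ 2)

def ge0_Y8 (k : ℕ) (C : ℝ) : Prop :=
  ∀ (F : Type) [Field F] [Finite F] (n : ℕ), 1 ≤ n → k ∣ Nat.card F - 1 → ∀ z : I8 F n,
    (Nat.card {y : GL (Fin n) F // y ^ k = 1 ∧ P8 z.1.1 z.1.2.2 y.1} : ℝ) ≤
      Bd C n F (1 / 2 * (1 - 1 / (k : ℝ)) * (n : ℝ) ^ 2)

theorem ge0_inv_smul {n : ℕ} {F : Type} [Field F] (M : Matrix (Fin n) (Fin n) F) (c : F)
    (hc : c ≠ 0) : (c • M)⁻¹ = c⁻¹ • M⁻¹ := by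
  by_cases h : IsUnit M.det
  · have h1 := Matrix.inv_smul' M (Units.mk0 c hc) h
    simpa [Units.smul_def] using h1
  · have h2 : ¬ IsUnit (c • M).det := by
      rw [Matrix.det_smul]
      intro h3
      exact h (isUnit_of_mul_isUnit_right h3)
    rw [Matrix.nonsing_inv_apply_not_isUnit _ h, Matrix.nonsing_inv_apply_not_isUnit _ h2,
      smul_zero]

theorem ge0_c2 (w : Prop) (m : List ℕ) (C : ℝ) (hC : 5 ≤ C) (n : ℕ) (F : Type) [Field F]
    [Finite F] (Γ : Type) [Group Γ] [Finite (Γ →* PS n F)] (hHP : ge0_HP w m C n F Γ)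
    (hN : S_C2N) (hY : ∀ k ∈ m, ge0_Y2 k C) (hS : w → S_C2S) (t : ℕ) :
    prob Γ (PS n F) (fun ρ => ∃ (a : ℕ) (V : I2 F n t a), 2 ≤ t ∧ 1 ≤ a ∧ t * a = n ∧
      All ρ.range (P2 V.1)) ≤ (Nat.card F : ℝ) ^ (-(2 * (n : ℝ))) := by
  by_cases h : ∃ a, 2 ≤ t ∧ 1 ≤ a ∧ t * a = n
  · obtain ⟨a, ht, ha, hta⟩ := h
    refine (ge0_prob_mono _ (fun ρ => ∃ V : I2 F n t a, All ρ.range (P2 V.1)) ?_).trans ?_
    · rintro ρ ⟨a', V, -, -, h3, h4⟩
      have h5 : a' = a := Nat.eq_of_mul_eq_mul_left (by omega) (h3.trans hta.symm)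
      subst h5
      exact ⟨V, h4⟩
    · have hfin : Finite (I2 F n t a) := by
        unfold I2
        infer_instance
      have ht0 : (2 : ℝ) ≤ t := by exact_mod_cast ht
      refine hHP (I2 F n t a) (fun V => P2 V.1) (1 / t) (by positivity) ?_ ?_ ?_ ?_ ?_
      · exact one_div_le_one_div_of_le (by norm_num) ht0
      · intro V M c hc hM i
        obtain ⟨j, hj⟩ := hM i
        refine ⟨j, ?_⟩
        rw [map_smul, Submodule.map_smul _ _ _ hc, hj]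
      · exact (hN F n t a ha (by omega) hta).trans (ge0_Bd_mono _ _ (by linarith) _ _ _)
      · intro V k hk
        exact hY k hk F n t a ha (by omega) hta V
      · intro hw V
        exact (hS hw F n t a ha (by omega) hta V).trans (ge0_Bd_mono _ _ (by linarith) _ _ _)
  · rw [ge0_prob_false]
    · positivity
    · rintro ρ ⟨a, V, h1, h2, h3, -⟩
      exact h ⟨a, h1, h2, h3⟩

theorem ge0_c3 (w : Prop) (m : List ℕ) (C : ℝ) (hC : 5 ≤ C) (n : ℕ) (hn : 1 ≤ n) (F : Type)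
    [Field F] [Finite F] (hF : ∀ k ∈ m, k ∣ Nat.card F - 1)
    (Γ : Type) [Group Γ] [Finite (Γ →* PS n F)] (hHP : ge0_HP w m C n F Γ)
    (hN : S_C3N) (hY : ∀ k ∈ m, ge0_Y3 k C) (hS : w → S_C3S) (b : ℕ) :
    prob Γ (PS n F) (fun ρ => ∃ K : I3 F n b, b.Prime ∧ b ∣ n ∧ All ρ.range (P3 K.1)) ≤
      (Nat.card F : ℝ) ^ (-(2 * (n : ℝ))) := by
  by_cases h : b.Prime ∧ b ∣ n
  · obtain ⟨hb, hbn⟩ := h
    refine (ge0_prob_mono _ (fun ρ => ∃ K : I3 F n b, All ρ.range (P3 K.1)) ?_).trans ?_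
    · rintro ρ ⟨K, -, -, h4⟩
      exact ⟨K, h4⟩
    · have hfin0 : Finite (Subalgebra F (Matrix (Fin n) (Fin n) F)) :=
        Finite.of_injective (fun K => (K : Set (Matrix (Fin n) (Fin n) F))) SetLike.coe_injective
      have hfin : Finite (I3 F n b) := by
        unfold I3
        infer_instance
      have ht0 : (2 : ℝ) ≤ b := by exact_mod_cast hb.two_le
      refine hHP (I3 F n b) (fun K => P3 K.1) (1 / b) (by positivity) ?_ ?_ ?_ ?_ ?_
      · exact one_div_le_one_div_of_le (by norm_num) ht0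
      · intro K M c hc hM x hx
        have h1 := hM x hx
        have h2 : (c • M) * x * (c • M)⁻¹ = M * x * M⁻¹ := by
          rw [ge0_inv_smul M c hc, Matrix.smul_mul, Matrix.smul_mul, Matrix.mul_smul, smul_smul,
            mul_inv_cancel₀ hc, one_smul]
        rw [h2]
        exact h1
      · exact (hN F n b hb.one_le).trans (ge0_pow_le_Bd _ (by linarith) _ _ _)
      · intro K k hk
        exact hY k hk F n b hn hbn (hF k hk) hb K
      · intro hw K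
        exact (hS hw F n b hn hb.one_le hbn K).trans (ge0_Bd_mono _ _ (by linarith) _ _ _)
  · rw [ge0_prob_false]
    · positivity
    · rintro ρ ⟨K, h1, h2, -⟩
      exact h ⟨h1, h2⟩

theorem ge0_c4 (w : Prop) (m : List ℕ) (C : ℝ) (hC : 5 ≤ C) (n : ℕ) (hn : 1 ≤ n) (F : Type)
    [Field F] [Finite F] (Γ : Type) [Group Γ] [Finite (Γ →* PS n F)] (hHP : ge0_HP w m C n F Γ)
    (hN : S_C4N) (hY : ∀ k ∈ m, ge0_Y4 k C) (hS : w → S_C4S) (a : ℕ) :
    prob Γ (PS n F) (fun ρ => ∃ (b : ℕ) (T : I4 F n a b), 2 ≤ a ∧ 2 ≤ b ∧ a * b = n ∧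
      All ρ.range (fun M => M ∈ T.1)) ≤ (Nat.card F : ℝ) ^ (-(2 * (n : ℝ))) := by
  by_cases h : ∃ b, 2 ≤ a ∧ 2 ≤ b ∧ a * b = n
  · obtain ⟨b, ha, hb, hab⟩ := h
    refine (ge0_prob_mono _ (fun ρ => ∃ T : I4 F n a b, All ρ.range (fun M => M ∈ T.1))
      ?_).trans ?_
    · rintro ρ ⟨b', T, -, -, h3, h4⟩
      have h5 : b' = b := Nat.eq_of_mul_eq_mul_left (by omega) (h3.trans hab.symm)
      subst h5
      exact ⟨T, h4⟩
    · have hfin : Finite (I4 F n a b) := by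
        unfold I4
        infer_instance
      have ha0 : (2 : ℝ) ≤ a := by exact_mod_cast ha
      have hb0 : (2 : ℝ) ≤ b := by exact_mod_cast hb
      have hn0 : (0 : ℝ) < (n : ℝ) ^ 2 := by
        have : (1 : ℝ) ≤ n := by exact_mod_cast hn
        positivity
      have hnab : (n : ℝ) = a * b := by
        rw [← hab]
        push_cast
        rfl
      have hμ : ((a : ℝ) ^ 2 + (b : ℝ) ^ 2) / (n : ℝ) ^ 2 * (n : ℝ) ^ 2 =
          (a : ℝ) ^ 2 + (b : ℝ) ^ 2 := div_mul_cancel₀ _ hn0.ne'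
      refine hHP (I4 F n a b) (fun T M => M ∈ T.1) (((a : ℝ) ^ 2 + (b : ℝ) ^ 2) / (n : ℝ) ^ 2)
        (by positivity) ?_ ?_ ?_ ?_ ?_
      · rw [div_le_iff₀ hn0, hnab]
        nlinarith [mul_nonneg (sub_nonneg.2 (show (4 : ℝ) ≤ (a : ℝ) ^ 2 by nlinarith))
          (sub_nonneg.2 (show (4 : ℝ) ≤ (b : ℝ) ^ 2 by nlinarith)),
          show (4 : ℝ) ≤ (a : ℝ) ^ 2 by nlinarith, show (4 : ℝ) ≤ (b : ℝ) ^ 2 by nlinarith]
      · rintro ⟨T, e, P, rfl⟩ M c hc ⟨B, D, hBD⟩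
        refine ⟨c • B, D, ?_⟩
        rw [Matrix.mul_smul, Matrix.smul_mul, hBD]
        ext i j
        simp only [Matrix.smul_apply, Matrix.of_apply, smul_eq_mul]
        ring
      · have h1 := hN F n a b (by omega) (by omega) hab
        refine h1.trans ((ge0_Bd_mono _ _ hC _ _ _).trans (le_of_eq ?_))
        congr 1
        rw [sub_mul, one_mul, hμ]
      · intro T k hk
        have h1 := hY k hk F n a b (by omega) (by omega) hab T
        refine h1.trans (le_of_eq ?_)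
        congr 1
        rw [mul_assoc, mul_comm (1 - 1 / (k : ℝ)) ((n : ℝ) ^ 2), ← mul_assoc, hμ, mul_comm]
      · intro hw T
        have h1 := hS hw F n a b (by omega) (by omega) hab T
        rw [hμ]
        exact h1.trans (ge0_Bd_mono _ _ (by linarith) _ _ _)
  · rw [ge0_prob_false]
    · positivity
    · rintro ρ ⟨b, T, h1, h2, h3, -⟩
      exact h ⟨b, h1, h2, h3⟩

theorem ge0_sub (F : Type) [Field F] [Finite F] (K : Subfield F) (hK : K ≠ ⊤) :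
    ∃ r : ℕ, 2 ≤ r ∧ Nat.card K ^ r = Nat.card F := by
  have hfin : Module.Finite K F := Module.Finite.of_finite
  have h1 : Nat.card F = Nat.card K ^ Module.finrank K F := Module.natCard_eq_pow_finrank
  refine ⟨Module.finrank K F, ?_, h1.symm⟩
  by_contra h
  have h2 : 1 < Nat.card F := Finite.one_lt_card
  have h3 : Module.finrank K F = 1 := by
    have h4 : Module.finrank K F ≠ 0 := by
      intro h0
      rw [h0, pow_zero] at h1
      omega
    omega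
  rw [h3, pow_one] at h1
  apply hK
  refine SetLike.coe_injective ?_
  rw [Subfield.coe_top]
  refine Set.eq_of_subset_of_ncard_le (Set.subset_univ _) ?_ Set.finite_univ
  rw [Set.ncard_univ, h1]
  exact le_of_eq (Nat.card_coe_set_eq (K : Set F))

theorem ge0_card_sub (F : Type) [Field F] [Finite F] : Nat.card (Subfield F) ≤ Nat.card F := by
  have h1 : ∀ K : Subfield F, ∃ g : F, K = Subfield.closure {g} := by
    intro K
    obtain ⟨g, hg⟩ := IsCyclic.exists_generator (α := Kˣ)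
    refine ⟨((g : K) : F), le_antisymm ?_ ?_⟩
    · intro x hx
      by_cases hx0 : x = 0
      · rw [hx0]
        exact zero_mem _
      · obtain ⟨i, hi⟩ := hg (Units.mk0 (⟨x, hx⟩ : K) (by
          intro h
          exact hx0 (congrArg Subtype.val h)))
        have h2 : x = ((g : K) : F) ^ i := by
          have h3 := congrArg (fun u : Kˣ => ((u : K) : F)) hi
          simp only [Units.val_zpow_eq_zpow_val, Units.val_mk0] at h3
          rw [← h3]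
          rfl
        rw [h2]
        exact zpow_mem (Subfield.subset_closure (Set.mem_singleton _)) i
    · rw [Subfield.closure_le, Set.singleton_subset_iff]
      exact (g : K).2
  choose f hf using h1
  refine Nat.card_le_card_of_injective f ?_
  intro K L h
  rw [hf K, hf L, h]

theorem ge0_c5 (w : Prop) (m : List ℕ) (C : ℝ) (hC : 5 ≤ C) (n : ℕ) (hn : 1 ≤ n) (F : Type)
    [Field F] [Finite F] (Γ : Type) [Group Γ] [Finite (Γ →* PS n F)] (hHP : ge0_HP w m C n F Γ)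
    (hN : S_C5N) (hY : ∀ k ∈ m, ge0_Y5 k C) (hS : w → S_C5S) (K : Subfield F) :
    prob Γ (PS n F) (fun ρ => K ≠ ⊤ ∧ ∃ T : I5 F n K, All ρ.range (fun M => M ∈ T.1)) ≤
      (Nat.card F : ℝ) ^ (-(2 * (n : ℝ))) := by
  by_cases hK : K = ⊤
  · rw [ge0_prob_false]
    · positivity
    · rintro ρ ⟨h1, -⟩
      exact h1 hK
  · obtain ⟨r, hr, hKr⟩ := ge0_sub F K hK
    refine (ge0_prob_mono _ (fun ρ => ∃ T : I5 F n K, All ρ.range (fun M => M ∈ T.1))
      (fun ρ h => h.2)).trans ?_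
    have hfin : Finite (I5 F n K) := by
      unfold I5
      infer_instance
    have hr0 : (2 : ℝ) ≤ r := by exact_mod_cast hr
    refine hHP (I5 F n K) (fun T M => M ∈ T.1) (1 / r) (by positivity) ?_ ?_ ?_ ?_ ?_
    · exact one_div_le_one_div_of_le (by norm_num) hr0
    · rintro ⟨T, P, rfl⟩ M c hc ⟨d, hd, hdM⟩
      refine ⟨d * c⁻¹, mul_ne_zero hd (inv_ne_zero hc), fun i j => ?_⟩
      have h1 := hdM i j
      have h2 : d * c⁻¹ * (P.1 * (c • M) * P.1⁻¹) i j = d * (P.1 * M * P.1⁻¹) i j := by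
        rw [Matrix.mul_smul, Matrix.smul_mul, Matrix.smul_apply, smul_eq_mul]
        field_simp
      rw [h2]
      exact h1
    · exact (hN F n r K hn (by omega) hKr).trans (ge0_Bd_mono _ _ (by linarith) _ _ _)
    · intro T k hk
      exact hY k hk F n r K hn (by omega) hKr T
    · intro hw T
      exact (hS hw F n r K hn (by omega) hKr T).trans (ge0_Bd_mono _ _ (by linarith) _ _ _)

theorem ge0_c8 (w : Prop) (m : List ℕ) (C : ℝ) (hC : 5 ≤ C) (n : ℕ) (hn : 1 ≤ n) (F : Type)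
    [Field F] [Finite F] (hF : ∀ k ∈ m, k ∣ Nat.card F - 1)
    (Γ : Type) [Group Γ] [Finite (Γ →* PS n F)] (hHP : ge0_HP w m C n F Γ)
    (hN : S_C8N) (hY : ∀ k ∈ m, ge0_Y8 k C) (hS : w → S_C8S) :
    prob Γ (PS n F) (fun ρ => ∃ z : I8 F n, All ρ.range (P8 z.1.1 z.1.2.2)) ≤
      (Nat.card F : ℝ) ^ (-(2 * (n : ℝ))) := by
  have hfin : Finite (I8 F n) := (hN F n hn).1
  refine hHP (I8 F n) (fun z => P8 z.1.1 z.1.2.2) (1 / 2) (by norm_num) le_rfl ?_ ?_ ?_ ?_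
  · rintro z M c hc ⟨d, hd⟩
    refine ⟨c * z.1.1 c * d, ?_⟩
    have h1 : (c • M).map z.1.1 = z.1.1 c • M.map z.1.1 := by
      ext i j
      simp [Matrix.map_apply]
    rw [h1, Matrix.transpose_smul, Matrix.smul_mul, Matrix.smul_mul, Matrix.mul_smul, hd,
      smul_smul, smul_smul]
  · refine ((hN F n hn).2.trans (ge0_Bd_mono _ _ (by linarith) _ _ _)).trans (le_of_eq ?_)
    congr 1
    ring
  · intro z k hk
    exact hY k hk F n hn (hF k hk) z
  · intro hw z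
    exact (hS hw F n hn z).trans (ge0_Bd_mono _ _ (by linarith) _ _ _)

/-! ## The union -/

theorem ge0_final (n : ℕ) (hn : 4 ≤ n) (q : ℝ) (hq : 2 ≤ q) :
    (3 * ((n : ℝ) + 1) + q + 1) * q ^ (-(2 * (n : ℝ))) ≤ q ^ (-((n : ℝ) / 2)) := by
  have hq0 : 0 < q := by linarith
  have h1 : 3 * ((n : ℝ) + 1) + q + 1 ≤ q ^ ((3 : ℝ) * n / 2) := by
    have h2 : (2 : ℝ) ^ n ≤ q ^ n := pow_le_pow_left₀ (by norm_num) hq n
    have h3 : 3 * ((n : ℝ) + 1) + 1 ≤ 2 * 2 ^ n := by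
      induction n, hn using Nat.le_induction with
      | base => norm_num
      | succ n hn ih =>
        have h4 := ih (pow_le_pow_left₀ (by norm_num) hq n)
        have h5 : (16 : ℝ) ≤ 2 ^ n := by
          calc (16 : ℝ) = 2 ^ 4 := by norm_num
            _ ≤ 2 ^ n := pow_le_pow_right₀ (by norm_num) hn
        push_cast
        rw [pow_succ]
        linarith
    have h6 : q ≤ q ^ n := by
      calc q = q ^ 1 := (pow_one q).symm
        _ ≤ q ^ n := pow_le_pow_right₀ (by linarith) (by omega)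
    have h7 : 3 * ((n : ℝ) + 1) + q + 1 ≤ 4 * q ^ n := by
      have : 0 < q ^ n := pow_pos hq0 n
      linarith
    have h8 : 4 * q ^ n ≤ q ^ (n + 2) := by
      rw [pow_add]
      have h10 : 0 < q ^ n := pow_pos hq0 n
      have h11 : 4 ≤ q ^ 2 := by nlinarith
      have h12 := mul_le_mul_of_nonneg_left h11 h10.le
      linarith
    have h9 : q ^ (n + 2) ≤ q ^ ((3 : ℝ) * n / 2) := by
      rw [← Real.rpow_natCast]
      refine Real.rpow_le_rpow_of_exponent_le (by linarith) ?_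
      have : (4 : ℝ) ≤ n := by exact_mod_cast hn
      push_cast
      linarith
    linarith
  calc (3 * ((n : ℝ) + 1) + q + 1) * q ^ (-(2 * (n : ℝ))) ≤
      q ^ ((3 : ℝ) * n / 2) * q ^ (-(2 * (n : ℝ))) :=
        mul_le_mul_of_nonneg_right h1 (Real.rpow_nonneg hq0.le _)
    _ = q ^ (-((n : ℝ) / 2)) := by
        rw [← Real.rpow_add hq0]
        congr 1
        ring

/-- the union bound for one group -/
theorem ge0_union (w : Prop) (m : List ℕ) (C : ℝ) (hC : 5 ≤ C)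
    (hR2 : S_C2R) (hN2 : S_C2N) (hY2 : ∀ k ∈ m, ge0_Y2 k C) (hS2 : w → S_C2S)
    (hR3 : S_C3R) (hN3 : S_C3N) (hY3 : ∀ k ∈ m, ge0_Y3 k C) (hS3 : w → S_C3S)
    (hN4 : S_C4N) (hY4 : ∀ k ∈ m, ge0_Y4 k C) (hS4 : w → S_C4S)
    (hN5 : S_C5N) (hY5 : ∀ k ∈ m, ge0_Y5 k C) (hS5 : w → S_C5S)
    (hR8 : S_C8R) (hN8 : S_C8N) (hY8 : ∀ k ∈ m, ge0_Y8 k C) (hS8 : w → S_C8S)
    (n : ℕ) (hn : 4 ≤ n) (F : Type) [Field F] [Finite F] (hF : ∀ k ∈ m, k ∣ Nat.card F - 1)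
    (Γ : Type) [Group Γ] [Finite (Γ →* PS n F)] (hHP : ge0_HP w m C n F Γ) :
    prob Γ (PS n F) (fun ρ => Irr ρ.range ∧ Geo ρ.range) ≤
      (Nat.card F : ℝ) ^ (-((n : ℝ) / 2)) := by
  classical
  have hfin0 : Finite (Subfield F) :=
    Finite.of_injective (fun K => (K : Set F)) SetLike.coe_injective
  have hft : Fintype (Subfield F) := Fintype.ofFinite _
  have hn1 : 1 ≤ n := by omega
  set δ : ℝ := (Nat.card F : ℝ) ^ (-(2 * (n : ℝ))) with hδ
  have b2 := ge0_prob_ex (Finset.range (n + 1)) _ δ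
    (fun t => ge0_c2 w m C hC n F Γ hHP hN2 hY2 hS2 t)
  have b3 := ge0_prob_ex (Finset.range (n + 1)) _ δ
    (fun b => ge0_c3 w m C hC n hn1 F hF Γ hHP hN3 hY3 hS3 b)
  have b4 := ge0_prob_ex (Finset.range (n + 1)) _ δ
    (fun a => ge0_c4 w m C hC n hn1 F Γ hHP hN4 hY4 hS4 a)
  have b5 := ge0_prob_ex (Finset.univ : Finset (Subfield F)) _ δ
    (fun K => ge0_c5 w m C hC n hn1 F Γ hHP hN5 hY5 hS5 K)
  have b8 := ge0_c8 w m C hC n hn1 F hF Γ hHP hN8 hY8 hS8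
  have hδ0 : 0 ≤ δ := Real.rpow_nonneg (Nat.cast_nonneg _) _
  have hsub : ((Finset.univ : Finset (Subfield F)).card : ℝ) ≤ Nat.card F := by
    have := ge0_card_sub F
    rw [Nat.card_eq_fintype_card (α := Subfield F)] at this
    rw [Finset.card_univ]
    exact_mod_cast this
  rw [Finset.card_range] at b2 b3 b4
  refine le_trans ?_ (ge0_final n hn (Nat.card F) (by
    have : 1 < Nat.card F := Finite.one_lt_card
    exact_mod_cast this))
  have key : prob Γ (PS n F) (fun ρ => Irr ρ.range ∧ Geo ρ.range) ≤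
      prob Γ (PS n F) (fun ρ => (∃ t ∈ Finset.range (n + 1),
        ∃ (a : ℕ) (V : I2 F n t a), 2 ≤ t ∧ 1 ≤ a ∧ t * a = n ∧ All ρ.range (P2 V.1)) ∨
      (∃ b ∈ Finset.range (n + 1), ∃ K : I3 F n b, b.Prime ∧ b ∣ n ∧ All ρ.range (P3 K.1)) ∨
      (∃ a ∈ Finset.range (n + 1), ∃ (b : ℕ) (T : I4 F n a b), 2 ≤ a ∧ 2 ≤ b ∧ a * b = n ∧
        All ρ.range (fun M => M ∈ T.1)) ∨
      (∃ K ∈ (Finset.univ : Finset (Subfield F)), K ≠ ⊤ ∧
        ∃ T : I5 F n K, All ρ.range (fun M => M ∈ T.1)) ∨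
      (∃ z : I8 F n, All ρ.range (P8 z.1.1 z.1.2.2))) := by
    refine ge0_prob_mono _ _ ?_
    rintro ρ ⟨hirr, h2 | h3 | h4 | h5 | h8⟩
    · obtain ⟨t, a, V, ht, ha, hta, hV⟩ := hR2 F n ρ.range hn1 hirr h2
      refine Or.inl ⟨t, Finset.mem_range.2 ?_, a, V, ht, ha, hta, hV⟩
      have : t ≤ n := by
        rw [← hta]
        exact Nat.le_mul_of_pos_right t (by omega)
      omega
    · obtain ⟨b, K, hb, hbn, hK⟩ := hR3 F n ρ.range hn1 h3
      refine Or.inr (Or.inl ⟨b, Finset.mem_range.2 ?_, K, hb, hbn, hK⟩)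
      have := Nat.le_of_dvd (by omega) hbn
      omega
    · obtain ⟨a, b, e, P, ha, hb, hP⟩ := h4
      have hab : a * b = n := by
        have h := Fintype.card_congr e
        rw [Fintype.card_prod, Fintype.card_fin, Fintype.card_fin, Fintype.card_fin] at h
        exact h.symm
      refine Or.inr (Or.inr (Or.inl ⟨a, Finset.mem_range.2 ?_, b, ⟨{M | P4 e P M}, e, P, rfl⟩,
        ha, hb, hab, hP⟩))
      have : a ≤ n := by
        rw [← hab]
        exact Nat.le_mul_of_pos_right a (by omega)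
      omega
    · obtain ⟨K, P, hK, hP⟩ := h5
      exact Or.inr (Or.inr (Or.inr (Or.inl ⟨K, Finset.mem_univ _, hK,
        ⟨{M | P5 K P M}, P, rfl⟩, hP⟩)))
    · obtain ⟨z, hz⟩ := hR8 F n ρ.range hn1 hirr h8
      exact Or.inr (Or.inr (Or.inr (Or.inr ⟨z, hz⟩)))
  refine key.trans ?_
  refine (ge0_prob_or _ _).trans ?_
  refine (add_le_add b2 ((ge0_prob_or _ _).trans (add_le_add b3 ((ge0_prob_or _ _).trans
    (add_le_add b4 ((ge0_prob_or _ _).trans (add_le_add b5 b8))))))).trans ?_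
  have h9 : ((Finset.univ : Finset (Subfield F)).card : ℝ) * δ ≤ Nat.card F * δ :=
    mul_le_mul_of_nonneg_right hsub hδ0
  push_cast
  linarith

/-- the constants -/
theorem ge0_const (hY2 : S_C2Y) (hY3 : S_C3Y) (hY4 : S_C4Y) (hY5 : S_C5Y) (hY8 : S_C8Y)
    (m : List ℕ) (hm : ∀ k ∈ m, 2 ≤ k) : ∃ C : ℝ, 5 ≤ C ∧ (∀ k ∈ m, ge0_Y2 k C) ∧
      (∀ k ∈ m, ge0_Y3 k C) ∧ (∀ k ∈ m, ge0_Y4 k C) ∧ (∀ k ∈ m, ge0_Y5 k C) ∧
      (∀ k ∈ m, ge0_Y8 k C) := by
  have m2 : ∀ k C C', ge0_Y2 k C → C ≤ C' → ge0_Y2 k C' := by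
    intro k C C' h hC F _ _ n t a ha ht hta V
    exact (h F n t a ha ht hta V).trans (ge0_Bd_mono _ _ hC _ _ _)
  have m3 : ∀ k C C', ge0_Y3 k C → C ≤ C' → ge0_Y3 k C' := by
    intro k C C' h hC F _ _ n b h1 h2 h3 h4 K
    exact (h F n b h1 h2 h3 h4 K).trans (ge0_Bd_mono _ _ hC _ _ _)
  have m4 : ∀ k C C', ge0_Y4 k C → C ≤ C' → ge0_Y4 k C' := by
    intro k C C' h hC F _ _ n a b h1 h2 h3 K
    exact (h F n a b h1 h2 h3 K).trans (ge0_Bd_mono _ _ hC _ _ _)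
  have m5 : ∀ k C C', ge0_Y5 k C → C ≤ C' → ge0_Y5 k C' := by
    intro k C C' h hC F _ _ n r K h1 h2 h3 T
    exact (h F n r K h1 h2 h3 T).trans (ge0_Bd_mono _ _ hC _ _ _)
  have m8 : ∀ k C C', ge0_Y8 k C → C ≤ C' → ge0_Y8 k C' := by
    intro k C C' h hC F _ _ n h1 h2 z
    exact (h F n h1 h2 z).trans (ge0_Bd_mono _ _ hC _ _ _)
  have hm1 : ∀ k ∈ m, 1 ≤ k := fun k hk => by
    have := hm k hk
    omega
  obtain ⟨C2, h20, h2⟩ := ge0_common ge0_Y2 m2 (fun k hk => by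
    obtain ⟨C, hC, h⟩ := hY2 k hk
    exact ⟨C, hC, fun F _ _ n t a ha ht hta V => h F n t a ha ht hta V⟩) m hm1
  obtain ⟨C3, h30, h3⟩ := ge0_common ge0_Y3 m3 (fun k hk => by
    obtain ⟨C, hC, h⟩ := hY3 k hk
    exact ⟨C, hC, fun F _ _ n b h1 h2 h3 h4 K => h F n b h1 h2 h3 h4 K⟩) m hm1
  obtain ⟨C4, h40, h4⟩ := ge0_common ge0_Y4 m4 (fun k hk => by
    obtain ⟨C, hC, h⟩ := hY4 k hk
    exact ⟨C, hC, fun F _ _ n a b h1 h2 h3 T => h F n a b h1 h2 h3 T⟩) m hm1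
  obtain ⟨C5, h50, h5⟩ := ge0_common ge0_Y5 m5 (fun k hk => by
    obtain ⟨C, hC, h⟩ := hY5 k hk
    exact ⟨C, hC, fun F _ _ n r K h1 h2 h3 T => h F n r K h1 h2 h3 T⟩) m hm1
  obtain ⟨C8, h80, h8⟩ := ge0_common ge0_Y8 m8 (fun k hk => by
    obtain ⟨C, hC, h⟩ := hY8 k hk
    exact ⟨C, hC, fun F _ _ n h1 h2 z => h F n h1 h2 z⟩) m hm1
  refine ⟨5 + C2 + C3 + C4 + C5 + C8, by linarith, ?_, ?_, ?_, ?_, ?_⟩
  · exact fun k hk => m2 k _ _ (h2 k hk) (by linarith)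
  · exact fun k hk => m3 k _ _ (h3 k hk) (by linarith)
  · exact fun k hk => m4 k _ _ (h4 k hk) (by linarith)
  · exact fun k hk => m5 k _ _ (h5 k hk) (by linarith)
  · exact fun k hk => m8 k _ _ (h8 k hk) (by linarith)

/-- **General form.** `w = True` for the groups with a further generator. -/
theorem ge0_general (w : Prop)
    (hR2 : S_C2R) (hN2 : S_C2N) (hY2 : S_C2Y) (hS2 : w → S_C2S)
    (hR3 : S_C3R) (hN3 : S_C3N) (hY3 : S_C3Y) (hS3 : w → S_C3S)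
    (hN4 : S_C4N) (hY4 : S_C4Y) (hS4 : w → S_C4S)
    (hN5 : S_C5N) (hY5 : S_C5Y) (hS5 : w → S_C5S)
    (hR8 : S_C8R) (hN8 : S_C8N) (hY8 : S_C8Y) (hS8 : w → S_C8S)
    (m : List ℕ) (hm : ∀ k ∈ m, 2 ≤ k) : ∃ C : ℝ, 0 ≤ C ∧ ∀ n, 4 ≤ n →
      ∀ (F : Type) [Field F] [Finite F], (∀ k ∈ m, k ∣ Nat.card F - 1) →
      ∀ (Γ : Type) [Group Γ] [Finite (Γ →* PS n F)], ge0_HP w m C n F Γ →
      prob Γ (PS n F) (fun ρ => Irr ρ.range ∧ Geo ρ.range) ≤
        (Nat.card F : ℝ) ^ (-((n : ℝ) / 2)) := by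
  obtain ⟨C, hC, h2, h3, h4, h5, h8⟩ := ge0_const hY2 hY3 hY4 hY5 hY8 m hm
  refine ⟨C, by linarith, fun n hn F _ _ hF Γ _ _ hHP => ?_⟩
  exact ge0_union w m C hC hR2 hN2 h2 hS2 hR3 hN3 h3 hS3 hN4 h4 hS4 hN5 h5 hS5 hR8 hN8 h8 hS8
    n hn F hF Γ hHP

theorem t_GE0 : M_GE0 := by
  intro hPRO hR2 hN2 hY2 hR3 hN3 hY3 hN4 hY4 hN5 hY5 hR8 hN8 hY8 m hm hsig hk
  obtain ⟨C, hC, h⟩ := ge0_general False hR2 hN2 hY2 (fun h => h.elim) hR3 hN3 hY3
    (fun h => h.elim) hN4 hY4 (fun h => h.elim) hN5 hY5 (fun h => h.elim) hR8 hN8 hY8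
    (fun h => h.elim) m hm
  obtain ⟨r, hr⟩ := hPRO m hm hsig hk C hC
  refine ⟨max r 4, fun n hn F _ _ hF hOrd => ?_⟩
  have hfin : Finite (OGroup 0 m →* PS n F) := RSF.A.finite_ohom 0 m (PS n F)
  refine h n (le_trans (le_max_right _ _) hn) F hF (OGroup 0 m) ?_
  intro I _ Q μ h0 h1 h2 h3 h4 _
  exact hr n (le_trans (le_max_left _ _) hn) F hF hOrd I Q μ h0 h1 h2 h3 h4

end

end FGE
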