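import Mathlib
import Pool.Agent.FGE.StE
import Pool.Agent.FL0.FIII
import Pool.Agent.FL0.POL
import Pool.Agent.FL0.SMC
import Pool.Agent.FL0.LFH
import Pool.Agent.RSF.B
import Pool.Agent.RSF.E

/-!
# FGE_PRN: the union bound, non-oriented groups of genus 1
-/

set_option autoImplicit false

open RSF

namespace FGE

open FL0

/-- all preimages of `g` in `SL_n` have the property `Q` -/
def prn_A {n : ℕ} {F : Type} [Field F] (Q : Matrix (Fin n) (Fin n) F → Prop) (g : PS n F) : Prop :=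
  ∀ A : Matrix.SpecialLinearGroup (Fin n) F, mk A = g → Q A.1

/-- one factor is determined by the others and the product -/
theorem prn_det {G : Type} [Group G] : ∀ (d : ℕ) (t t' : Fin d → G) (i : Fin d),
    (∀ j, j ≠ i → t j = t' j) → (List.ofFn t).prod = (List.ofFn t').prod → t i = t' i := by
  intro d
  induction d with
  | zero => intro t t' i; exact i.elim0
  | succ d ih =>
    intro t t' i h1 h2
    rw [List.ofFn_succ, List.ofFn_succ, List.prod_cons, List.prod_cons] at h2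
    refine Fin.cases (fun h1 => ?_) (fun i h1 => ?_) i h1
    · have h3 : (fun j : Fin d => t j.succ) = fun j : Fin d => t' j.succ := by
        funext j
        exact h1 _ (Fin.succ_ne_zero j)
      rw [h3] at h2
      exact mul_right_cancel h2
    · have h3 := h1 0 (Fin.succ_ne_zero i).symm
      rw [h3] at h2
      exact ih _ _ i (fun j hj => h1 _ (fun h => hj (Fin.succ_injective _ h))) (mul_left_cancel h2)

/-- the number of the tuples for one structure -/
theorem prn_tup {G : Type} [Group G] [Finite G] {d : ℕ} (i : Fin d) (P : Fin d → G → Prop)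
    (R : G → Prop) :
    Nat.card {t : (Fin d → G) × G // (∀ j, P j (t.1 j)) ∧ R t.2 ∧
        (List.ofFn t.1).prod * t.2 ^ 2 = 1} ≤
      (∏ j ∈ Finset.univ.erase i, Nat.card {g : G // P j g}) * Nat.card {g : G // R g} := by
  classical
  have h1 : Nat.card {t : (Fin d → G) × G // (∀ j, P j (t.1 j)) ∧ R t.2 ∧
        (List.ofFn t.1).prod * t.2 ^ 2 = 1} ≤
      Nat.card (((j : {j : Fin d // j ≠ i}) → {g : G // P j.1 g}) × {g : G // R g}) := by
    refine Nat.card_le_card_of_injective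
      (fun t => (fun j => ⟨t.1.1 j.1, t.2.1 j.1⟩, ⟨t.1.2, t.2.2.1⟩)) ?_
    intro t t' h
    simp only [Prod.mk.injEq] at h
    obtain ⟨h2, h3⟩ := h
    have h4 : t.1.2 = t'.1.2 := congrArg Subtype.val h3
    have h5 : ∀ j, j ≠ i → t.1.1 j = t'.1.1 j := fun j hj =>
      congrArg Subtype.val (congrFun h2 ⟨j, hj⟩)
    have h6 : (List.ofFn t.1.1).prod = (List.ofFn t'.1.1).prod := by
      have h7 := t.2.2.2
      have h8 := t'.2.2.2
      rw [h4] at h7
      exact mul_right_cancel (h7.trans h8.symm)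
    apply Subtype.ext
    refine Prod.ext ?_ h4
    funext j
    by_cases hj : j = i
    · subst hj
      exact prn_det d _ _ _ h5 h6
    · exact h5 j hj
  refine h1.trans (le_of_eq ?_)
  rw [Nat.card_prod, Nat.card_pi]
  congr 1
  exact (Finset.prod_subtype (Finset.univ.erase i) (fun j => by simp)
    (fun j => Nat.card {g : G // P j g})).symm

section

variable {n : ℕ} {F : Type} [Field F]

theorem prn_dn_val (c : Fˣ) (A : SL n F) : (SMC.dn c A).1 = ((c⁻¹ : Fˣ) : F) • A.1 := by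
  change Matrix.scalar (Fin n) ((c⁻¹ : Fˣ) : F) * A.1 = _
  rw [Matrix.scalar_apply, ← Matrix.smul_eq_diagonal_mul]

/-- two elements of `SL_n` that differ by a scalar have the same image -/
theorem prn_mk (hn : 1 ≤ n) (A B : SL n F) (c : F) (h : A.1 = c • B.1) : (mk A : PS n F) = mk B := by
  have : Nonempty (Fin n) := ⟨⟨0, hn⟩⟩
  have h1 : (mk (A * B⁻¹) : PS n F) = 1 := by
    rw [FL0.LFH.mk_one, SMC.mem_center_iff']
    refine ⟨c, ?_, ?_⟩
    · have h2 := A.2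
      rw [h, Matrix.det_smul, B.2, Fintype.card_fin, mul_one] at h2
      exact h2
    · change Matrix.scalar (Fin n) c = A.1 * (B⁻¹).1
      rw [h, Matrix.smul_mul]
      have h3 : B.1 * (B⁻¹).1 = 1 := by
        have := congrArg Subtype.val (mul_inv_cancel B)
        exact this
      rw [h3, Matrix.scalar_apply, Matrix.smul_one_eq_diagonal]
  have h4 : A = (A * B⁻¹) * B := by group
  have h5 : (mk A : PS n F) = mk (A * B⁻¹) * mk B := by
    conv_lhs => rw [h4]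
    rfl
  rw [h5, h1, one_mul]

/-- the images of the elements of finite order -/
theorem prn_el [Finite F] (hn : 1 ≤ n) (hR : S_ROT) (k : ℕ) (hk : 1 ≤ k) (ho : Ord n F k)
    (Q : Matrix (Fin n) (Fin n) F → Prop) (hQ : ∀ M (c : F), c ≠ 0 → Q M → Q (c • M)) :
    Nat.card {g : PS n F // g ^ k = 1 ∧ prn_A Q g} ≤
      Nat.card {y : GL (Fin n) F // y ^ k = 1 ∧ Q y.1} := by
  have hfin : Finite (GL (Fin n) F) := SMC.finite_GL
  have key : ∀ g : {g : PS n F // g ^ k = 1 ∧ prn_A Q g}, ∃ (A : SL n F) (c : Fˣ),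
      mk A = g.1 ∧ SMC.dn c A ^ k = 1 ∧ Q (SMC.dn c A).1 := by
    rintro ⟨g, hg1, hg2⟩
    obtain ⟨A, hA⟩ := QuotientGroup.mk_surjective g
    have hA' : (mk A : PS n F) = g := hA
    have h1 : A ^ k ∈ Subgroup.center (SL n F) := by
      rw [← FL0.LFH.mk_pow_one, hA', hg1]
    obtain ⟨c, hc⟩ := SMC.exists_root hR hn hk ho A h1
    refine ⟨A, c, hA', hc, ?_⟩
    rw [prn_dn_val]
    exact hQ _ _ (Units.ne_zero _) (hg2 A hA')
  choose A c h1 h2 h3 using key
  refine Nat.card_le_card_of_injective (fun g => ⟨SMC.dn (c g) (A g), h2 g, h3 g⟩) ?_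
  intro g g' h
  have h4 : (SMC.dn (c g) (A g)).1 = (SMC.dn (c g') (A g')).1 :=
    congrArg (fun y => (Subtype.val y).1) h
  rw [prn_dn_val, prn_dn_val] at h4
  apply Subtype.ext
  rw [← h1 g, ← h1 g']
  refine prn_mk hn _ _ ((c g : F) * (((c g')⁻¹ : Fˣ) : F)) ?_
  rw [mul_smul, ← h4, smul_smul, Units.mul_inv, one_smul]

/-- the images of all elements -/
theorem prn_el2 [Finite F] (Q : Matrix (Fin n) (Fin n) F → Prop) :
    Nat.card {g : PS n F // prn_A Q g} ≤ Nat.card {y : GL (Fin n) F // Q y.1} := by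
  have hfin : Finite (GL (Fin n) F) := SMC.finite_GL
  have key : ∀ g : {g : PS n F // prn_A Q g}, ∃ A : SL n F, mk A = g.1 := by
    rintro ⟨g, hg⟩
    exact QuotientGroup.mk_surjective g
  choose A h1 using key
  refine Nat.card_le_card_of_injective
    (fun g => ⟨Matrix.SpecialLinearGroup.toGL (A g), g.2 (A g) (h1 g)⟩) ?_
  intro g g' h
  have h4 : (A g).1 = (A g').1 := congrArg (fun y => (Subtype.val y).1) h
  have h5 : A g = A g' := Subtype.ext h4
  apply Subtype.ext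
  rw [← h1 g, ← h1 g', h5]

end

/-- union over a finite index type -/
theorem prn_un {I T : Type} [Finite I] [Finite T] (P : I → T → Prop) (X : ℝ)
    (hX : ∀ i, (Nat.card {t : T // P i t} : ℝ) ≤ X) :
    (Nat.card {t : T // ∃ i, P i t} : ℝ) ≤ Nat.card I * X := by
  classical
  letI : Fintype I := Fintype.ofFinite I
  have h1 : Nat.card {t : T // ∃ i, P i t} ≤ Nat.card (Σ i : I, {t : T // P i t}) := by
    refine Nat.card_le_card_of_injective
      (fun t => ⟨t.2.choose, ⟨t.1, t.2.choose_spec⟩⟩) ?_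
    intro t t' h
    simp only [Sigma.mk.injEq] at h
    obtain ⟨h2, h3⟩ := h
    apply Subtype.ext
    have key : ∀ (i i' : I) (x : {t : T // P i t}) (x' : {t : T // P i' t}), i = i' →
        HEq x x' → x.1 = x'.1 := by
      rintro i i' x x' rfl hx
      rw [eq_of_heq hx]
    exact key _ _ _ _ h2 h3
  have h2 : (Nat.card (Σ i : I, {t : T // P i t}) : ℝ) =
      ∑ i : I, (Nat.card {t : T // P i t} : ℝ) := by
    rw [Nat.card_sigma]
    push_cast
    rfl
  calc (Nat.card {t : T // ∃ i, P i t} : ℝ)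
      ≤ (Nat.card (Σ i : I, {t : T // P i t}) : ℝ) := by exact_mod_cast h1
    _ = ∑ i : I, (Nat.card {t : T // P i t} : ℝ) := h2
    _ ≤ ∑ _i : I, X := Finset.sum_le_sum fun i _ => hX i
    _ = Nat.card I * X := by
        rw [Finset.sum_const, Finset.card_univ, nsmul_eq_mul, ← Nat.card_eq_fintype_card]

theorem prn_bd_pos (C : ℝ) (n : ℕ) (F : Type) [Finite F] [Nonempty F] (e : ℝ) :
    0 ≤ Bd C n F e := by
  unfold Bd
  positivity

/-- products of the bounds -/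
theorem prn_bd_mul (C D : ℝ) (n : ℕ) (F : Type) [Finite F] [Nonempty F] (e f : ℝ) :
    Bd C n F e * Bd D n F f = Bd (C + D) n F (e + f) := by
  have h1 : (0 : ℝ) < (n : ℝ) + 1 := by positivity
  have h2 : (0 : ℝ) < Nat.card F := by exact_mod_cast Nat.card_pos
  unfold Bd
  have h3 : (C + D) * (n : ℝ) = C * n + D * n := by ring
  have h4 : C * (n : ℝ) + D * n + (e + f) = (C * n + e) + (D * n + f) := by ring
  rw [h3, h4, Real.rpow_add h1, Real.rpow_add h2 (C * (n : ℝ) + e)]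
  ring

theorem prn_bd_prod {ι : Type} [DecidableEq ι] (s : Finset ι) (C : ℝ) (n : ℕ) (F : Type)
    [Finite F] [Nonempty F] (e : ι → ℝ) :
    ∏ j ∈ s, Bd C n F (e j) = Bd (s.card * C) n F (∑ j ∈ s, e j) := by
  induction s using Finset.induction_on with
  | empty => simp [Bd]
  | insert a s ha ih =>
    rw [Finset.prod_insert ha, ih, prn_bd_mul, Finset.card_insert_of_notMem ha,
      Finset.sum_insert ha]
    congr 1
    push_cast
    ring

/-- absorption of the loss factors -/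
theorem prn_abs (K C' c₀ : ℝ) (hK : 0 ≤ K) (hC' : 0 ≤ C') (hc : 0 < c₀) :
    ∃ r : ℕ, ∀ n : ℕ, r ≤ n → ∀ (F : Type) [Finite F] [Nontrivial F],
      ∀ e : ℝ, e ≤ -(c₀ * (n : ℝ) ^ 2) →
      Bd K n F (e + C') ≤ (Nat.card F : ℝ) ^ (-(2 * (n : ℝ))) := by
  obtain ⟨r0, hr0⟩ := FL0.t_POL c₀ K hc hK
  obtain ⟨r1, hr1⟩ := exists_nat_ge ((C' + 2 + 2) / (c₀ / 2))
  refine ⟨max r0 (max r1 1), fun n hn F _ _ e he => ?_⟩
  have hn0 : r0 ≤ n := (le_max_left _ _).trans hn
  have hn1 : r1 ≤ n := (le_max_left _ _).trans ((le_max_right _ _).trans hn)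
  have hn2 : 1 ≤ n := (le_max_right _ _).trans ((le_max_right _ _).trans hn)
  obtain ⟨q, hq⟩ : ∃ q : ℝ, q = Nat.card F := ⟨_, rfl⟩
  have hq2 : 2 ≤ q := by
    rw [hq]
    exact_mod_cast (Finite.one_lt_card : 1 < Nat.card F)
  have hq0 : 0 < q := by linarith
  have hq1 : 1 ≤ q := by linarith
  have h1 := hr0 n hn0 q hq2
  have hN : (0 : ℝ) < (n : ℝ) + 1 := by positivity
  have hnr : (1 : ℝ) ≤ n := by exact_mod_cast hn2
  -- the power
  have h2 : (((n : ℝ) + 1) ^ K * q ^ (K - c₀ * (n : ℝ))) ^ n ≤ (q ^ (-(c₀ / 2) * (n : ℝ))) ^ n :=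
    pow_le_pow_left₀ (by positivity) h1 n
  rw [mul_pow, ← Real.rpow_mul_natCast hN.le, ← Real.rpow_mul_natCast hq0.le,
    ← Real.rpow_mul_natCast hq0.le] at h2
  unfold Bd
  rw [← hq]
  have h3 : q ^ (K * (n : ℝ) + (e + C')) ≤
      q ^ ((K - c₀ * (n : ℝ)) * n) * q ^ C' := by
    rw [← Real.rpow_add hq0]
    apply Real.rpow_le_rpow_of_exponent_le hq1
    nlinarith
  calc ((n : ℝ) + 1) ^ (K * n) * q ^ (K * (n : ℝ) + (e + C'))
      ≤ ((n : ℝ) + 1) ^ (K * n) * (q ^ ((K - c₀ * (n : ℝ)) * n) * q ^ C') :=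
        mul_le_mul_of_nonneg_left h3 (by positivity)
    _ = (((n : ℝ) + 1) ^ (K * n) * q ^ ((K - c₀ * (n : ℝ)) * n)) * q ^ C' := by ring
    _ ≤ q ^ (-(c₀ / 2) * (n : ℝ) * n) * q ^ C' :=
        mul_le_mul_of_nonneg_right h2 (by positivity)
    _ = q ^ (-(c₀ / 2) * (n : ℝ) * n + C') := (Real.rpow_add hq0 _ _).symm
    _ ≤ q ^ (-(2 * (n : ℝ))) := by
        apply Real.rpow_le_rpow_of_exponent_le hq1
        have h4 : (C' + 2 + 2) / (c₀ / 2) ≤ n := hr1.trans (by exact_mod_cast hn1)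
        rw [div_le_iff₀ (by positivity)] at h4
        have h5 : (C' + 2 + 2) * n ≤ n * (c₀ / 2) * n := mul_le_mul_of_nonneg_right h4 (by linarith)
        have h6 : C' ≤ C' * n := le_mul_of_one_le_right hC' hnr
        nlinarith

theorem prn_sum (m : List ℕ) (i : Fin m.length) :
    ∑ j ∈ Finset.univ.erase i, (1 - 1 / (m.get j : ℝ)) = sig m - (1 - 1 / (m.get i : ℝ)) := by
  have h1 : ∑ j : Fin m.length, (1 - 1 / (m.get j : ℝ)) = sig m := by
    unfold sig
    have h2 : (m.map fun k : ℕ => 1 - 1 / (k : ℝ)) =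
        List.ofFn fun j : Fin m.length => (1 - 1 / (m.get j : ℝ)) := by
      conv_lhs => rw [← List.ofFn_get m]
      rw [List.map_ofFn]
      rfl
    rw [h2, List.sum_ofFn]
  rw [← h1, ← Finset.add_sum_erase _ _ (Finset.mem_univ i)]
  ring

theorem t_PRN : M_PRN := by
  classical
  intro hHO hR hLOW m hm hs hi C hC
  obtain ⟨k0, hk0, hk1⟩ := hi
  obtain ⟨i, hi⟩ := List.mem_iff_get.1 hk0
  obtain ⟨C', r0, hC', hL⟩ := hLOW m hm hs
  obtain ⟨c₀, hc₀⟩ : ∃ c₀ : ℝ, c₀ = (sig m - 1 - 1 / (k0 : ℝ)) / 2 := ⟨_, rfl⟩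
  have hc : 0 < c₀ := by rw [hc₀]; linarith
  obtain ⟨K, hK⟩ : ∃ K : ℝ, K = C + ((Finset.univ.erase i).card * C + C) := ⟨_, rfl⟩
  have hK0 : 0 ≤ K := by rw [hK]; positivity
  obtain ⟨r1, hr1⟩ := prn_abs K C' c₀ hK0 hC' hc
  refine ⟨max r0 (max r1 1), fun n hn F _ _ hF1 hF2 I _ Q μ hμ0 hμ1 hQ hI hy ha => ?_⟩
  have hn0 : r0 ≤ n := (le_max_left _ _).trans hn
  have hn1 : r1 ≤ n := (le_max_left _ _).trans ((le_max_right _ _).trans hn)
  have hn2 : 1 ≤ n := (le_max_right _ _).trans ((le_max_right _ _).trans hn)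
  have hfin : Finite (PS n F) := RSF.B.fin_ps n F
  have hlow := hL n hn0 F hF1 hF2
  have hpos : ∀ (D e : ℝ), 0 ≤ Bd D n F e := fun D e => prn_bd_pos D n F e
  -- one structure
  have hone : ∀ T : I, (Nat.card {t : (Fin m.length → PS n F) × PS n F //
      (∀ j, t.1 j ^ m.get j = 1 ∧ prn_A (Q T) (t.1 j)) ∧ prn_A (Q T) t.2 ∧
        (List.ofFn t.1).prod * t.2 ^ 2 = 1} : ℝ) ≤
      (∏ j ∈ Finset.univ.erase i, Bd C n F (μ * (1 - 1 / (m.get j : ℝ)) * (n : ℝ) ^ 2)) *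
        Bd C n F (μ * (n : ℝ) ^ 2) := by
    intro T
    have h1 := prn_tup (G := PS n F) i (fun j g => g ^ m.get j = 1 ∧ prn_A (Q T) g) (prn_A (Q T))
    have h2 : (Nat.card {t : (Fin m.length → PS n F) × PS n F //
        (∀ j, t.1 j ^ m.get j = 1 ∧ prn_A (Q T) (t.1 j)) ∧ prn_A (Q T) t.2 ∧
          (List.ofFn t.1).prod * t.2 ^ 2 = 1} : ℝ) ≤
        (∏ j ∈ Finset.univ.erase i,
          (Nat.card {g : PS n F // g ^ m.get j = 1 ∧ prn_A (Q T) g} : ℝ)) *
          (Nat.card {g : PS n F // prn_A (Q T) g} : ℝ) := by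
      exact_mod_cast h1
    refine h2.trans ?_
    refine mul_le_mul ?_ ?_ (Nat.cast_nonneg _) (Finset.prod_nonneg fun j _ => hpos _ _)
    · refine Finset.prod_le_prod (fun j _ => Nat.cast_nonneg _) fun j _ => ?_
      have hmj := List.get_mem m j
      have h3 := prn_el hn2 hR (m.get j) (le_trans (by norm_num) (hm _ hmj)) (hF2 _ hmj) (Q T)
        (hQ T)
      have h4 : (Nat.card {g : PS n F // g ^ m.get j = 1 ∧ prn_A (Q T) g} : ℝ) ≤
          Nat.card {y : GL (Fin n) F // y ^ m.get j = 1 ∧ Q T y.1} := by exact_mod_cast h3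
      exact h4.trans (hy T _ hmj)
    · have h3 := prn_el2 (n := n) (F := F) (Q T)
      have h4 : (Nat.card {g : PS n F // prn_A (Q T) g} : ℝ) ≤
          Nat.card {y : GL (Fin n) F // Q T y.1} := by exact_mod_cast h3
      exact h4.trans (ha T)
  -- the numerator
  have hnum : (Nat.card {ρ : NGroup 1 m →* PS n F // ∃ T, All ρ.range (Q T)} : ℝ) ≤
      Nat.card I * ((∏ j ∈ Finset.univ.erase i,
        Bd C n F (μ * (1 - 1 / (m.get j : ℝ)) * (n : ℝ) ^ 2)) * Bd C n F (μ * (n : ℝ) ^ 2)) := by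
    have h1 : Nat.card {ρ : NGroup 1 m →* PS n F // ∃ T, All ρ.range (Q T)} ≤
        Nat.card {ρ : NGroup 1 m →* PS n F //
          (fun (t : Fin m.length → PS n F) (b : PS n F) => ∃ T,
            (∀ j, prn_A (Q T) (t j)) ∧ prn_A (Q T) b)
            (fun j => ρ (nx 1 m j)) (ρ (FLN.n1 m))} := by
      have hfinhom : Finite (NGroup 1 m →* PS n F) := RSF.E.finite_nhom 1 m (PS n F)
      refine Nat.card_le_card_of_injective (fun ρ => ⟨ρ.1, ?_⟩) ?_
      · obtain ⟨T, hT⟩ := ρ.2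
        exact ⟨T, fun j => hT _ ⟨_, rfl⟩, hT _ ⟨_, rfl⟩⟩
      · intro ρ ρ' h
        simp only [Subtype.mk.injEq] at h
        exact Subtype.ext h
    have hc := hHO (PS n F) m (fun t b => ∃ T, (∀ j, prn_A (Q T) (t j)) ∧ prn_A (Q T) b)
    have h2 : Nat.card {t : (Fin m.length → PS n F) × PS n F // (∀ j, t.1 j ^ m.get j = 1) ∧
        (∃ T, (∀ j, prn_A (Q T) (t.1 j)) ∧ prn_A (Q T) t.2) ∧
          (List.ofFn t.1).prod * t.2 ^ 2 = 1} ≤
        Nat.card {t : (Fin m.length → PS n F) × PS n F // ∃ T,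
          (∀ j, t.1 j ^ m.get j = 1 ∧ prn_A (Q T) (t.1 j)) ∧ prn_A (Q T) t.2 ∧
            (List.ofFn t.1).prod * t.2 ^ 2 = 1} := by
      refine Nat.card_le_card_of_injective (fun t => ⟨t.1, ?_⟩) ?_
      · obtain ⟨h3, ⟨T, h4, h5⟩, h6⟩ := t.2
        exact ⟨T, fun j => ⟨h3 j, h4 j⟩, h5, h6⟩
      · intro t t' h
        simp only [Subtype.mk.injEq] at h
        exact Subtype.ext h
    have h3 := prn_un (I := I) (T := (Fin m.length → PS n F) × PS n F)
      (fun T t => (∀ j, t.1 j ^ m.get j = 1 ∧ prn_A (Q T) (t.1 j)) ∧ prn_A (Q T) t.2 ∧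
            (List.ofFn t.1).prod * t.2 ^ 2 = 1) _ hone
    have h4 : (Nat.card {ρ : NGroup 1 m →* PS n F // ∃ T, All ρ.range (Q T)} : ℝ) ≤
        Nat.card {t : (Fin m.length → PS n F) × PS n F // ∃ T,
          (∀ j, t.1 j ^ m.get j = 1 ∧ prn_A (Q T) (t.1 j)) ∧ prn_A (Q T) t.2 ∧
            (List.ofFn t.1).prod * t.2 ^ 2 = 1} := by
      exact_mod_cast (h1.trans (le_of_eq hc)).trans h2
    exact h4.trans h3
  -- the exponents
  have hsum : ∑ j ∈ Finset.univ.erase i, μ * (1 - 1 / (m.get j : ℝ)) * (n : ℝ) ^ 2 =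
      μ * (sig m - (1 - 1 / (k0 : ℝ))) * (n : ℝ) ^ 2 := by
    rw [← Finset.sum_mul, ← Finset.mul_sum, prn_sum, hi]
  have hnum2 : (Nat.card {ρ : NGroup 1 m →* PS n F // ∃ T, All ρ.range (Q T)} : ℝ) ≤
      Bd K n F ((1 - μ) * (n : ℝ) ^ 2 +
        (μ * (sig m - (1 - 1 / (k0 : ℝ))) * (n : ℝ) ^ 2 + μ * (n : ℝ) ^ 2)) := by
    rw [prn_bd_prod, hsum, prn_bd_mul] at hnum
    refine hnum.trans ?_
    refine (mul_le_mul_of_nonneg_right hI (hpos _ _)).trans (le_of_eq ?_)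
    rw [prn_bd_mul, ← hK]
  -- division
  have hq1 : (1 : ℝ) < Nat.card F := by exact_mod_cast (Finite.one_lt_card : 1 < Nat.card F)
  have hq0 : (0 : ℝ) < Nat.card F := by linarith
  unfold prob
  have hden : 0 < (Nat.card F : ℝ) ^ (sig m * (n : ℝ) ^ 2 - C') := Real.rpow_pos_of_pos hq0 _
  refine (div_le_div₀ (hpos _ _) hnum2 hden hlow).trans ?_
  have hdiv : Bd K n F ((1 - μ) * (n : ℝ) ^ 2 +
        (μ * (sig m - (1 - 1 / (k0 : ℝ))) * (n : ℝ) ^ 2 + μ * (n : ℝ) ^ 2)) /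
      (Nat.card F : ℝ) ^ (sig m * (n : ℝ) ^ 2 - C') =
      Bd K n F (((1 - μ) * (1 - sig m) + μ / k0) * (n : ℝ) ^ 2 + C') := by
    unfold Bd
    rw [mul_div_assoc, ← Real.rpow_sub hq0]
    congr 2
    ring
  rw [hdiv]
  refine hr1 n hn1 F _ ?_
  have hN : 0 ≤ (n : ℝ) ^ 2 := by positivity
  have hk0' : 0 ≤ 1 / (k0 : ℝ) := by positivity
  have h1 : (1 - μ) * (1 - sig m) + μ / k0 ≤ -c₀ := by
    rw [hc₀]
    have h2 : (1 - μ) * (1 - sig m) ≤ (1 - sig m) / 2 := by nlinarith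
    have h3 : μ / k0 ≤ 1 / (k0 : ℝ) / 2 := by
      rw [div_eq_mul_one_div]
      nlinarith
    linarith
  calc ((1 - μ) * (1 - sig m) + μ / k0) * (n : ℝ) ^ 2 ≤ -c₀ * (n : ℝ) ^ 2 :=
        mul_le_mul_of_nonneg_right h1 hN
    _ = -(c₀ * (n : ℝ) ^ 2) := by ring

end FGE
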