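import Pool.Agent.FGE.StE
import Pool.Agent.RSF.SUB

/-!
# Module C2N (MP_5b5212_al): the number of the decompositions
-/

set_option autoImplicit false

namespace FGE

open RSF FL0 Polynomial Module

/-- the number of the bases of a space of dimension `a` -/
def c2n_c (q a : ℕ) : ℕ := ∏ i : Fin a, (q ^ a - q ^ i.val)

theorem c2n_bases {F V : Type} [Field F] [Finite F] [AddCommGroup V] [Module F V]
    [FiniteDimensional F V] (a : ℕ) (W : Submodule F V) (hW : finrank F W = a) :
    Nat.card {s : Fin a → W // LinearIndependent F s} = c2n_c (Nat.card F) a := by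
  classical
  have : Fintype F := Fintype.ofFinite F
  have : Finite V := Module.finite_of_finite F
  have h := card_linearIndependent (K := F) (V := W) (k := a) (le_of_eq hW.symm)
  rw [h, hW, Nat.card_eq_fintype_card]
  rfl

theorem c2n_main (F : Type) [Field F] [Finite F] (n t a : ℕ) :
    Nat.card (I2 F n t a) * c2n_c (Nat.card F) a ^ t ≤ Nat.card F ^ (t * a * n) := by
  classical
  have : Fintype F := Fintype.ofFinite F
  have : Finite (Submodule F (Fin n → F)) := Finite.of_injective
    (fun W : Submodule F (Fin n → F) => (W : Set (Fin n → F))) SetLike.coe_injective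
  have : Finite (I2 F n t a) := by unfold I2; infer_instance
  have : Fintype (I2 F n t a) := Fintype.ofFinite _
  let B : I2 F n t a → Type := fun V => (i : Fin t) → {s : Fin a → V.1 i // LinearIndependent F s}
  have hB : ∀ V : I2 F n t a, Nat.card (B V) = c2n_c (Nat.card F) a ^ t := by
    intro V
    show Nat.card ((i : Fin t) → {s : Fin a → V.1 i // LinearIndependent F s}) = _
    rw [Nat.card_pi]
    rw [Finset.prod_congr rfl fun i _ => c2n_bases a (V.1 i) (V.2.2 i), Finset.prod_const,
      Finset.card_univ, Fintype.card_fin]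
  have h1 : Nat.card (Σ V : I2 F n t a, B V) =
      Nat.card (I2 F n t a) * c2n_c (Nat.card F) a ^ t := by
    rw [Nat.card_sigma, Finset.sum_congr rfl fun V _ => hB V, Finset.sum_const, smul_eq_mul,
      Finset.card_univ, ← Nat.card_eq_fintype_card]
  have h2 : Nat.card (Fin t → Fin a → Fin n → F) = Nat.card F ^ (t * a * n) := by
    rw [Nat.card_eq_fintype_card, Nat.card_eq_fintype_card, Fintype.card_fun, Fintype.card_fun,
      Fintype.card_fun, Fintype.card_fin, Fintype.card_fin, Fintype.card_fin, ← pow_mul,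
      ← pow_mul]
    congr 1
    ring
  rw [← h1, ← h2]
  have hspan : ∀ (V : I2 F n t a) (s : B V) (i : Fin t),
      Submodule.span F (Set.range fun j => ((s i).1 j : Fin n → F)) = V.1 i := by
    intro V s i
    have hli : LinearIndependent F fun j => ((s i).1 j : Fin n → F) :=
      (s i).2.map' (Submodule.subtype _) (Submodule.ker_subtype _)
    apply Submodule.eq_of_le_of_finrank_eq
    · rw [Submodule.span_le]
      rintro _ ⟨j, rfl⟩
      exact ((s i).1 j).2
    · rw [finrank_span_eq_card hli, Fintype.card_fin, V.2.2 i]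
  refine Nat.card_le_card_of_injective
    (fun x : (Σ V : I2 F n t a, B V) => fun i j => ((x.2 i).1 j : Fin n → F)) ?_
  rintro ⟨V, s⟩ ⟨V', s'⟩ h
  have hV : V = V' := by
    apply Subtype.ext
    funext i
    rw [← hspan V s i, ← hspan V' s' i]
    have h3 := congrFun h i
    simp only at h3
    rw [h3]
  subst hV
  congr 1
  funext i
  apply Subtype.ext
  funext j
  apply Subtype.ext
  exact congrFun (congrFun h i) j

theorem t_C2N : M_C2N := by
  intro hPI F _ _ n t a ha ht hta
  have hq : 2 ≤ Nat.card F := Finite.one_lt_card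
  set q : ℕ := Nat.card F with hqd
  have h1 := c2n_main F n t a
  rw [← hqd] at h1
  have h2 : q ^ (a * a) ≤ 4 * c2n_c q a := SUB.up hPI hq
  have h3 : q ^ (a * a * t) ≤ 4 ^ t * c2n_c q a ^ t := by
    rw [pow_mul, ← mul_pow]
    exact Nat.pow_le_pow_left h2 t
  have h4 : 4 ^ t ≤ q ^ (2 * n) := by
    have h5 : t ≤ n := by
      rw [← hta]
      exact Nat.le_mul_of_pos_right _ ha
    calc 4 ^ t = 2 ^ (2 * t) := by rw [pow_mul]; norm_num
      _ ≤ q ^ (2 * t) := Nat.pow_le_pow_left hq _
      _ ≤ q ^ (2 * n) := Nat.pow_le_pow_right (by omega) (by omega)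
  have h5 : Nat.card (I2 F n t a) * q ^ (a * n) ≤ q ^ (2 * n) * q ^ (n * n) := by
    have h6 : a * a * t = a * n := by rw [← hta]; ring
    rw [h6] at h3
    calc Nat.card (I2 F n t a) * q ^ (a * n)
        ≤ Nat.card (I2 F n t a) * (4 ^ t * c2n_c q a ^ t) := Nat.mul_le_mul_left _ h3
      _ = 4 ^ t * (Nat.card (I2 F n t a) * c2n_c q a ^ t) := by ring
      _ ≤ q ^ (2 * n) * q ^ (t * a * n) := Nat.mul_le_mul h4 h1
      _ = q ^ (2 * n) * q ^ (n * n) := by rw [hta]
  have hqr : (2 : ℝ) ≤ (q : ℝ) := by exact_mod_cast hq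
  have hq0 : (0 : ℝ) < (q : ℝ) := by linarith
  have ht0 : (0 : ℝ) < (t : ℝ) := by exact_mod_cast ht
  have h7 : (Nat.card (I2 F n t a) : ℝ) * (q : ℝ) ^ ((a : ℝ) * n) ≤
      (q : ℝ) ^ (2 * (n : ℝ) + (n : ℝ) ^ 2) := by
    have h8 : ((Nat.card (I2 F n t a) * q ^ (a * n) : ℕ) : ℝ) ≤
        ((q ^ (2 * n) * q ^ (n * n) : ℕ) : ℝ) := by exact_mod_cast h5
    push_cast at h8
    rw [← pow_add] at h8
    rw [← Real.rpow_natCast, ← Real.rpow_natCast] at h8
    push_cast at h8
    rw [pow_two]
    exact h8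
  have h9 : (a : ℝ) * n = (1 / (t : ℝ)) * (n : ℝ) ^ 2 := by
    have h10 : (n : ℝ) = t * a := by rw [← hta]; push_cast; ring
    rw [h10]
    field_simp
  have h11 : (Nat.card (I2 F n t a) : ℝ) ≤
      (q : ℝ) ^ (2 * (n : ℝ) + (1 - 1 / (t : ℝ)) * (n : ℝ) ^ 2) := by
    have h12 : (q : ℝ) ^ (2 * (n : ℝ) + (n : ℝ) ^ 2) =
        (q : ℝ) ^ (2 * (n : ℝ) + (1 - 1 / (t : ℝ)) * (n : ℝ) ^ 2) *
          (q : ℝ) ^ ((a : ℝ) * n) := by
      rw [← Real.rpow_add hq0, h9]
      congr 1
      ring
    rw [h12] at h7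
    exact le_of_mul_le_mul_right h7 (Real.rpow_pos_of_pos hq0 _)
  refine h11.trans ?_
  unfold Bd
  rw [← hqd]
  refine le_mul_of_one_le_left (Real.rpow_nonneg hq0.le _) ?_
  exact Real.one_le_rpow (by have : (0 : ℝ) ≤ (n : ℝ) := Nat.cast_nonneg n
                             linarith) (by positivity)

end FGE
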