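import Mathlib
import Pool.Agent.FGE.StE

set_option autoImplicit false

namespace FGE

open RSF FL0 Polynomial

theorem c2r_inv {n : ℕ} {F : Type} [Field F] (H : Subgroup (PS n F)) {t : ℕ}
    (V : Fin t → Submodule F (Fin n → F)) (h : All H (P2 V)) (i : Fin t) :
    ∀ g ∈ H, Pres g (⨆ j : {j : Fin t // ∃ A : Matrix.SpecialLinearGroup (Fin n) F,
      mk A ∈ H ∧ (V i).map (Matrix.toLin' A.1) = V j}, V j.1) := by
  intro g hg A hA w hw
  have key : (⨆ j : {j : Fin t // ∃ A : Matrix.SpecialLinearGroup (Fin n) F,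
      mk A ∈ H ∧ (V i).map (Matrix.toLin' A.1) = V j}, V j.1) ≤
      (⨆ j : {j : Fin t // ∃ A : Matrix.SpecialLinearGroup (Fin n) F,
      mk A ∈ H ∧ (V i).map (Matrix.toLin' A.1) = V j}, V j.1).comap (Matrix.toLin' A.1) := by
    refine iSup_le ?_
    rintro ⟨j, B, hB, hBj⟩ x hx
    obtain ⟨k, hk⟩ := h g hg A hA j
    have hAB : (V i).map (Matrix.toLin' (A * B).1) = V k := by
      rw [Matrix.SpecialLinearGroup.coe_mul, Matrix.toLin'_mul, Submodule.map_comp, hBj, hk]
    have hABH : mk (A * B) ∈ H := by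
      have h1 : mk (A * B) = mk A * mk B := rfl
      rw [h1, hA]
      exact H.mul_mem hg hB
    rw [Submodule.mem_comap]
    refine Submodule.mem_iSup_of_mem ⟨k, A * B, hABH, hAB⟩ ?_
    show Matrix.toLin' A.1 x ∈ V k
    rw [← hk]
    exact Submodule.mem_map_of_mem hx
  have h2 := key hw
  rw [Submodule.mem_comap, Matrix.toLin'_apply] at h2
  exact h2

theorem c2r_rank {n : ℕ} {F : Type} [Field F] (A : Matrix.SpecialLinearGroup (Fin n) F)
    (W : Submodule F (Fin n → F)) :
    Module.finrank F (W.map (Matrix.toLin' A.1)) = Module.finrank F W := by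
  have hinj : Function.Injective (Matrix.toLin' A.1) := by
    have h1 : Function.LeftInverse (Matrix.toLin' (A⁻¹).1) (Matrix.toLin' A.1) := by
      intro x
      rw [Matrix.toLin'_apply, Matrix.toLin'_apply, Matrix.mulVec_mulVec,
        ← Matrix.SpecialLinearGroup.coe_mul, inv_mul_cancel, Matrix.SpecialLinearGroup.coe_one,
        Matrix.one_mulVec]
    exact h1.injective
  exact (Submodule.equivMapOfInjective _ hinj W).finrank_eq.symm

theorem t_C2R : S_C2R := by
  intro F _ n H hn hirr hC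
  obtain ⟨t, V, ht, hV, hint, hall⟩ := hC
  have ht0 : 0 < t := by omega
  set i₀ : Fin t := ⟨0, ht0⟩ with hi₀
  have hinv := c2r_inv H V hall i₀
  -- the sum is everything
  have htop : (⨆ j : {j : Fin t // ∃ A : Matrix.SpecialLinearGroup (Fin n) F,
      mk A ∈ H ∧ (V i₀).map (Matrix.toLin' A.1) = V j}, V j.1) = ⊤ := by
    rcases hirr _ hinv with h | h
    · exfalso
      have h0 : (V i₀).map (Matrix.toLin' (1 : Matrix.SpecialLinearGroup (Fin n) F).1) = V i₀ := by
        rw [Matrix.SpecialLinearGroup.coe_one, Matrix.toLin'_one, Submodule.map_id]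
      have h1 : mk (1 : Matrix.SpecialLinearGroup (Fin n) F) ∈ H := by
        have : mk (1 : Matrix.SpecialLinearGroup (Fin n) F) = 1 := rfl
        rw [this]
        exact H.one_mem
      have h2 : V i₀ ≤ (⨆ j : {j : Fin t // ∃ A : Matrix.SpecialLinearGroup (Fin n) F,
        mk A ∈ H ∧ (V i₀).map (Matrix.toLin' A.1) = V j}, V j.1) :=
        le_iSup (fun j : {j : Fin t // ∃ A : Matrix.SpecialLinearGroup (Fin n) F,
          mk A ∈ H ∧ (V i₀).map (Matrix.toLin' A.1) = V j} => V j.1) ⟨i₀, 1, h1, h0⟩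
      rw [h] at h2
      exact hV i₀ (le_bot_iff.mp h2)
    · exact h
  have hocc : ∀ j : Fin t, ∃ A : Matrix.SpecialLinearGroup (Fin n) F,
      mk A ∈ H ∧ (V i₀).map (Matrix.toLin' A.1) = V j := by
    intro j
    by_contra hno
    have hind := hint.submodule_iSupIndep j
    have hle : (⊤ : Submodule F (Fin n → F)) ≤ ⨆ (k : Fin t) (_ : k ≠ j), V k := by
      rw [← htop]
      refine iSup_le ?_
      rintro ⟨k, hk⟩
      have hkj : k ≠ j := by
        rintro rfl
        exact hno hk
      exact le_iSup₂_of_le k hkj le_rfl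
    have h3 : Disjoint (V j) ⊤ := hind.mono_right hle
    exact hV j (disjoint_top.mp h3)
  have hrank : ∀ j : Fin t, Module.finrank F (V j) = Module.finrank F (V i₀) := by
    intro j
    obtain ⟨A, _, hA⟩ := hocc j
    rw [← hA, c2r_rank]
  refine ⟨t, Module.finrank F (V i₀), ⟨V, hint, hrank⟩, ht, ?_, ?_, hall⟩
  · have h4 : Module.finrank F (V i₀) ≠ 0 := by
      intro h
      exact hV i₀ (Submodule.finrank_eq_zero.mp h)
    omega
  · have hb : ∀ j, Module.Basis (Fin (Module.finrank F (V j))) F (V j) :=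
      fun j => Module.finBasis F (V j)
    have h5 := Module.finrank_eq_card_basis (hint.collectedBasis hb)
    rw [Module.finrank_fin_fun, Fintype.card_sigma] at h5
    refine Eq.trans ?_ h5.symm
    simp [hrank]

end FGE
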