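import Mathlib
import Pool.Agent.FGE.StE

/-!
# The matrices that permute the subspaces of a decomposition: their number
-/

set_option autoImplicit false

namespace FGE

open RSF FL0

theorem c2s_card (F : Type) [Field F] [Finite F] (n t a : ℕ) (V : I2 F n t a) :
    Nat.card {y : GL (Fin n) F // P2 V.1 y.1} ≤ t ^ t * (Nat.card F ^ (a * a)) ^ t := by
  classical
  obtain ⟨V, hV, hd⟩ := V
  -- coordinates
  let b : ∀ i, V i ≃ₗ[F] (Fin a → F) := fun i =>
    LinearEquiv.ofFinrankEq _ _ (by rw [hd i]; simp)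
  have hf : ∀ y : {y : GL (Fin n) F // P2 V y.1}, ∃ p : Fin t → Fin t, ∀ i,
      (V i).map (Matrix.toLin' y.1.1) = V (p i) := fun y => by
    choose p hp using y.2
    exact ⟨p, hp⟩
  choose p hp using hf
  have hmem : ∀ (y : {y : GL (Fin n) F // P2 V y.1}) (i : Fin t) (v : V i),
      Matrix.toLin' y.1.1 v ∈ V (p y i) := fun y i v => by
    rw [← hp y i]
    exact ⟨v, v.2, rfl⟩
  let g : {y : GL (Fin n) F // P2 V y.1} → (Fin t → Fin t) × (Fin t → Matrix (Fin a) (Fin a) F) :=
    fun y => (p y, fun i => LinearMap.toMatrix' ((b (p y i)).toLinearMap ∘ₗ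
      (LinearMap.restrict (Matrix.toLin' y.1.1) (fun v hv => hmem y i ⟨v, hv⟩) :
        V i →ₗ[F] V (p y i)) ∘ₗ (b i).symm.toLinearMap))
  have hg : Function.Injective g := by
    intro y y' h
    have h1 : p y = p y' := congrArg Prod.fst h
    have h2 := congrArg Prod.snd h
    apply Subtype.ext
    apply Units.ext
    apply Matrix.toLin'.injective
    have hle : (⨆ i, V i) ≤ LinearMap.eqLocus (Matrix.toLin' y.1.1) (Matrix.toLin' y'.1.1) := by
      apply iSup_le
      intro i v hv
      have h3 := congrFun h2 i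
      simp only [g] at h3
      have h4 := LinearMap.toMatrix'.injective h3
      have h5 := LinearMap.congr_fun h4 (b i ⟨v, hv⟩)
      simp only [LinearMap.comp_apply, LinearEquiv.coe_coe, LinearEquiv.symm_apply_apply] at h5
      rw [LinearMap.mem_eqLocus]
      have h6 : ∀ (j j' : Fin t) (hj : j = j') (x : V j) (x' : V j'), b j x = b j' x' →
          (x : Fin n → F) = x' := by
        intro j j' hj x x' hx
        subst hj
        rw [(b j).injective hx]
      exact h6 _ _ (congrFun h1 i) _ _ h5
    rw [hV.submodule_iSup_eq_top] at hle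
    exact LinearMap.ext fun v => hle Submodule.mem_top
  have h1 := Nat.card_le_card_of_injective g hg
  rw [Nat.card_prod] at h1
  simpa [Nat.card_fun, Matrix, Nat.card_pi, pow_mul] using h1

theorem t_C2S : S_C2S := by
  intro F _ _ n t a ha ht hn V
  have h1 : (Nat.card {y : GL (Fin n) F // P2 V.1 y.1} : ℝ) ≤
      (t : ℝ) ^ t * ((Nat.card F : ℝ) ^ (a * a)) ^ t := by
    exact_mod_cast c2s_card F n t a V
  have htn : t ≤ n := by rw [← hn]; exact Nat.le_mul_of_pos_right t ha
  have hq : (1 : ℝ) ≤ Nat.card F := by exact_mod_cast Nat.card_pos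
  have e1 : (n : ℝ) = t * a := by rw [← hn]; push_cast; ring
  have ht0 : (0 : ℝ) < t := by exact_mod_cast ht
  unfold Bd
  refine h1.trans (mul_le_mul ?_ ?_ (by positivity) (by positivity))
  · rw [one_mul, Real.rpow_natCast]
    calc (t : ℝ) ^ t ≤ ((n : ℝ) + 1) ^ t := by
          apply pow_le_pow_left₀ (by positivity)
          have : (t : ℝ) ≤ n := by exact_mod_cast htn
          linarith
      _ ≤ ((n : ℝ) + 1) ^ n := pow_le_pow_right₀ (by have : (0:ℝ) ≤ n := Nat.cast_nonneg n; linarith) htn
  · rw [← pow_mul, ← Real.rpow_natCast]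
    apply Real.rpow_le_rpow_of_exponent_le hq
    push_cast
    have : 1 / (t : ℝ) * (n : ℝ) ^ 2 = a * a * t := by
      rw [e1]; field_simp
    rw [this]
    have : (0:ℝ) ≤ n := Nat.cast_nonneg n
    linarith

end FGE
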