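import Mathlib
import Pool.Agent.FGE.StE

/-!
# Module `C2Y`: the elements of order dividing `k` of an imprimitive group
-/

set_option autoImplicit false

namespace FGE

open Finset

/-! ### Products along a path -/

section Path

variable {U : Type} {R : Type} [Field R] [AddCommGroup U] [Module R U] {t : ℕ}

/-- the product of the `s` maps along the path that starts at `i` -/
def c2y_pg (π : Fin t → Fin t) (g : Fin t → Module.End R U) : ℕ → Fin t → Module.End R U
  | 0, _ => 1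
  | j + 1, i => g (π^[j] i) * c2y_pg π g j i

theorem c2y_pg_add (π : Fin t → Fin t) (g : Fin t → Module.End R U) (r s : ℕ) (i : Fin t) :
    c2y_pg π g (r + s) i = c2y_pg π g r (π^[s] i) * c2y_pg π g s i := by
  induction r with
  | zero => rw [Nat.zero_add]; exact (one_mul _).symm
  | succ r ih =>
    rw [Nat.add_right_comm]
    show g (π^[r + s] i) * c2y_pg π g (r + s) i = (g (π^[r] (π^[s] i)) * _) * _
    rw [ih, Function.iterate_add_apply, mul_assoc]

theorem c2y_pg_mul (π : Fin t → Fin t) (g : Fin t → Module.End R U) {l : ℕ} {i : Fin t}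
    (h : π^[l] i = i) (m : ℕ) : c2y_pg π g (l * m) i = c2y_pg π g l i ^ m := by
  have h1 : ∀ m, π^[l * m] i = i := by
    intro m
    rw [Function.iterate_mul]
    exact Function.iterate_fixed h m
  induction m with
  | zero => rfl
  | succ m ih =>
    rw [Nat.mul_succ, Nat.add_comm, c2y_pg_add, h1, ih, pow_succ']

theorem c2y_pg_congr (π : Fin t → Fin t) {g g' : Fin t → Module.End R U} {i : Fin t} {s : ℕ}
    (h : ∀ j < s, g (π^[j] i) = g' (π^[j] i)) : c2y_pg π g s i = c2y_pg π g' s i := by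
  induction s with
  | zero => rfl
  | succ s ih =>
    show g (π^[s] i) * c2y_pg π g s i = g' (π^[s] i) * c2y_pg π g' s i
    rw [h s (Nat.lt_succ_self s), ih fun j hj => h j (hj.trans (Nat.lt_succ_self s))]

theorem c2y_pg_inj (π : Fin t → Fin t) {g : Fin t → Module.End R U}
    (h : ∀ i, Function.Injective (g i)) (s : ℕ) (i : Fin t) :
    Function.Injective (c2y_pg π g s i) := by
  induction s with
  | zero => exact fun _ _ h => h
  | succ s ih => exact (h _).comp ih

end Path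

/-! ### Periodic points -/

section Period

variable {t k : ℕ} {π : Fin t → Fin t}

/-- `j` is on the orbit of `i` -/
def c2y_R (π : Fin t → Fin t) (i j : Fin t) : Prop := ∃ m : ℕ, π^[m] i = j

theorem c2y_R_equiv (hk : 1 ≤ k) (h : ∀ i, π^[k] i = i) : Equivalence (c2y_R π) := by
  refine ⟨fun i => ⟨0, rfl⟩, ?_, ?_⟩
  · rintro i j ⟨m, rfl⟩
    refine ⟨(k - 1) * m, ?_⟩
    rw [← Function.iterate_add_apply]
    have h1 : (k - 1) * m + m = k * m := by
      obtain ⟨k, rfl⟩ := Nat.exists_eq_add_of_le' hk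
      rw [Nat.add_sub_cancel]
      ring
    rw [h1, Function.iterate_mul]
    exact Function.iterate_fixed (h i) m
  · rintro i j l ⟨m, rfl⟩ ⟨m', rfl⟩
    exact ⟨m' + m, Function.iterate_add_apply _ _ _ _⟩

theorem c2y_per_pos (hk : 1 ≤ k) (h : ∀ i, π^[k] i = i) (i : Fin t) :
    0 < Function.minimalPeriod π i :=
  Function.IsPeriodicPt.minimalPeriod_pos hk (h i)

theorem c2y_per_dvd (h : ∀ i, π^[k] i = i) (i : Fin t) : Function.minimalPeriod π i ∣ k :=
  Function.IsPeriodicPt.minimalPeriod_dvd (h i)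

open Classical in
theorem c2y_card_orb (hk : 1 ≤ k) (h : ∀ i, π^[k] i = i) (i : Fin t) :
    #{j | c2y_R π i j} = Function.minimalPeriod π i := by
  have h1 : ({j | c2y_R π i j} : Finset (Fin t)) =
      (range (Function.minimalPeriod π i)).image (fun m => π^[m] i) := by
    ext j
    simp only [mem_filter, mem_univ, true_and, mem_image, mem_range]
    constructor
    · rintro ⟨m, rfl⟩
      exact ⟨m % Function.minimalPeriod π i, Nat.mod_lt _ (c2y_per_pos hk h i),
        Function.iterate_mod_minimalPeriod_eq⟩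
    · rintro ⟨m, _, rfl⟩
      exact ⟨m, rfl⟩
  rw [h1, card_image_of_injOn, card_range]
  intro a ha b hb hab
  rw [mem_coe, mem_range] at ha hb
  exact Function.iterate_injOn_Iio_minimalPeriod ha hb hab

/-- the representative of the orbit -/
noncomputable def c2y_rep (hk : 1 ≤ k) (h : ∀ i, π^[k] i = i) (i : Fin t) : Fin t :=
  (Quotient.mk ⟨c2y_R π, c2y_R_equiv hk h⟩ i).out

theorem c2y_rep_R (hk : 1 ≤ k) (h : ∀ i, π^[k] i = i) (i : Fin t) :
    c2y_R π (c2y_rep hk h i) i :=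
  Quotient.mk_out (s := ⟨c2y_R π, c2y_R_equiv hk h⟩) i

theorem c2y_rep_eq (hk : 1 ≤ k) (h : ∀ i, π^[k] i = i) {i j : Fin t} (hij : c2y_R π i j) :
    c2y_rep hk h i = c2y_rep hk h j := by
  unfold c2y_rep
  rw [Quotient.sound (s := ⟨c2y_R π, c2y_R_equiv hk h⟩) hij]

open Classical in
theorem c2y_sum (hk : 1 ≤ k) (h : ∀ i, π^[k] i = i) :
    ∑ i, (if c2y_rep hk h i = i then Function.minimalPeriod π i else 0) = t := by
  have h1 : #(univ : Finset (Fin t)) = ∑ b ∈ ({i | c2y_rep hk h i = i} : Finset (Fin t)),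
      #{i ∈ (univ : Finset (Fin t)) | c2y_rep hk h i = b} := by
    refine card_eq_sum_card_fiberwise fun i _ => ?_
    rw [mem_coe, mem_filter]
    exact ⟨mem_univ _, c2y_rep_eq hk h (c2y_rep_R hk h i)⟩
  rw [card_univ, Fintype.card_fin] at h1
  rw [← sum_filter]
  refine Eq.trans (sum_congr rfl fun b hb => ?_) h1.symm
  rw [mem_filter] at hb
  rw [← c2y_card_orb hk h b]
  congr 1
  ext i
  simp only [mem_filter, mem_univ, true_and]
  constructor
  · intro hi
    rw [← hb.2]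
    exact (c2y_rep_eq hk h hi).symm
  · intro hi
    rw [← hi]
    exact c2y_rep_R hk h i

end Period

/-! ### The bound for a given permutation -/

section Bound

variable {F : Type} [Field F] [Finite F] {a t k : ℕ}

/-- the components: the product around the orbit at the representatives -/
def c2y_X (F : Type) [Field F] (a k : ℕ) (l : ℕ) (B : Prop) : Type :=
  {A : Module.End F (Fin a → F) // B → A ^ (k / l) = 1}

omit [Finite F] in
theorem c2y_card_End : Nat.card (Module.End F (Fin a → F)) = Nat.card F ^ (a * a) := by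
  have h := Module.natCard_eq_pow_finrank (K := F) (V := Module.End F (Fin a → F))
  rw [Module.finrank_linearMap, Module.finrank_fintype_fun_eq_card, Fintype.card_fin] at h
  exact h

instance c2y_finEnd : Finite (Module.End F (Fin a → F)) :=
  Module.finite_of_finite F

theorem c2y_cardX (hJ : S_JGL) (hk : 1 ≤ k) {l : ℕ} (hl : 0 < l) (hlk : l ∣ k) (B : Prop)
    [Decidable B] :
    (Nat.card (c2y_X F a k l B) : ℝ) ≤ (16 * ((a : ℝ) + 1) ^ 2) ^ k *
      (Nat.card F : ℝ) ^ ((a : ℝ) ^ 2 * (1 - ((if B then l else 0 : ℕ) : ℝ) / (k : ℝ))) := by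
  have h16 : (1 : ℝ) ≤ 16 * ((a : ℝ) + 1) ^ 2 := by nlinarith [(Nat.cast_nonneg a : (0 : ℝ) ≤ a)]
  have hq : (0 : ℝ) < Nat.card F := by exact_mod_cast Nat.card_pos
  by_cases hB : B
  · rw [if_pos hB]
    obtain ⟨r, rfl⟩ := hlk
    have hr : 1 ≤ r := by
      rcases Nat.eq_zero_or_pos r with h | h
      · rw [h, Nat.mul_zero] at hk
        omega
      · exact h
    have h1 := hJ F (Fin a → F) r 1 hr
    rw [Module.finrank_fintype_fun_eq_card, Fintype.card_fin, one_smul] at h1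
    have h2 : Nat.card (c2y_X F a (l * r) l B) =
        Nat.card {A : Module.End F (Fin a → F) // A ^ r = 1} := by
      refine Nat.card_congr (Equiv.subtypeEquivRight fun A => ?_)
      rw [Nat.mul_div_cancel_left r hl]
      exact ⟨fun h => h hB, fun h _ => h⟩
    rw [h2]
    refine h1.trans ?_
    have h3 : ((l : ℕ) : ℝ) / ((l * r : ℕ) : ℝ) = 1 / (r : ℝ) := by
      push_cast
      have : (0 : ℝ) < l := by exact_mod_cast hl
      have : (0 : ℝ) < r := by exact_mod_cast hr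
      field_simp
    rw [h3]
    refine mul_le_mul_of_nonneg_right ?_ (Real.rpow_nonneg hq.le _)
    exact pow_le_pow_right₀ h16 (Nat.le_mul_of_pos_left r hl)
  · rw [if_neg hB]
    have h2 : Nat.card (c2y_X F a k l B) ≤ Nat.card (Module.End F (Fin a → F)) :=
      Nat.card_le_card_of_injective (fun A => A.1) Subtype.val_injective
    rw [c2y_card_End] at h2
    have h3 : (Nat.card (c2y_X F a k l B) : ℝ) ≤ (Nat.card F : ℝ) ^ ((a : ℝ) ^ 2) := by
      have h4 : (Nat.card F : ℝ) ^ ((a : ℝ) ^ 2) = ((Nat.card F ^ (a * a) : ℕ) : ℝ) := by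
        rw [Nat.cast_pow, ← Real.rpow_natCast (Nat.card F : ℝ) (a * a)]
        congr 1
        push_cast
        ring
      rw [h4]
      exact_mod_cast h2
    have h5 : (a : ℝ) ^ 2 * (1 - ((0 : ℕ) : ℝ) / (k : ℝ)) = (a : ℝ) ^ 2 := by
      simp
    rw [h5]
    calc (Nat.card (c2y_X F a k l B) : ℝ) ≤ 1 * (Nat.card F : ℝ) ^ ((a : ℝ) ^ 2) := by
          rw [one_mul]; exact h3
      _ ≤ _ := by
        refine mul_le_mul_of_nonneg_right ?_ (Real.rpow_nonneg hq.le _)
        exact one_le_pow₀ h16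

open Classical in
theorem c2y_prod (hJ : S_JGL) (hk : 1 ≤ k) {π : Fin t → Fin t} (h : ∀ i, π^[k] i = i) :
    (Nat.card (∀ i : Fin t, c2y_X F a k (Function.minimalPeriod π i)
      (c2y_rep hk h i = i)) : ℝ) ≤ ((16 * ((a : ℝ) + 1) ^ 2) ^ k) ^ t *
      (Nat.card F : ℝ) ^ ((a : ℝ) ^ 2 * (t * (1 - 1 / (k : ℝ)))) := by
  have hq : (0 : ℝ) < Nat.card F := by exact_mod_cast Nat.card_pos
  have hk0 : (0 : ℝ) < k := by exact_mod_cast hk
  rw [Nat.card_pi]
  push_cast
  refine (Finset.prod_le_prod (fun i _ => Nat.cast_nonneg _) fun i _ =>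
    c2y_cardX hJ hk (c2y_per_pos hk h i) (c2y_per_dvd h i) (c2y_rep hk h i = i)).trans
      (le_of_eq ?_)
  rw [Finset.prod_mul_distrib, Finset.prod_const, Finset.card_univ, Fintype.card_fin,
    ← Real.rpow_sum_of_pos hq]
  congr 2
  rw [← Finset.mul_sum]
  congr 1
  rw [Finset.sum_sub_distrib, Finset.sum_const, Finset.card_univ, Fintype.card_fin,
    ← Finset.sum_div, ← Nat.cast_sum, c2y_sum hk h]
  simp only [nsmul_eq_mul, mul_one]
  ring

end Bound

/-! ### The coordinates -/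

section Coord

variable {F : Type} [Field F] {n t a k : ℕ}

theorem c2y_coord (V : I2 F n t a) : ∃ (u : Fin t → (Fin a → F) →ₗ[F] (Fin n → F))
    (r : Fin t → (Fin n → F) →ₗ[F] (Fin a → F)),
    (∀ i, LinearMap.range (u i) = V.1 i) ∧ ∀ i x, r i (u i x) = x := by
  have h1 : ∀ i, ∃ u : (Fin a → F) →ₗ[F] (Fin n → F), LinearMap.range u = V.1 i ∧
      LinearMap.ker u = ⊥ := by
    intro i
    have e : (Fin a → F) ≃ₗ[F] V.1 i := LinearEquiv.ofFinrankEq _ _ (by
      rw [V.2.2 i, Module.finrank_fintype_fun_eq_card, Fintype.card_fin])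
    refine ⟨(V.1 i).subtype ∘ₗ e.toLinearMap, ?_, ?_⟩
    · rw [LinearMap.range_comp, LinearEquiv.range, Submodule.map_top, Submodule.range_subtype]
    · rw [LinearMap.ker_eq_bot]
      exact (Submodule.subtype_injective _).comp e.injective
  choose u hu hk using h1
  have h2 : ∀ i, ∃ r : (Fin n → F) →ₗ[F] (Fin a → F), r ∘ₗ u i = LinearMap.id := fun i =>
    LinearMap.exists_leftInverse_of_injective (u i) (hk i)
  choose r hr using h2
  exact ⟨u, r, hu, fun i x => LinearMap.congr_fun (hr i) x⟩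

variable {V : I2 F n t a} {u : Fin t → (Fin a → F) →ₗ[F] (Fin n → F)}
  {r : Fin t → (Fin n → F) →ₗ[F] (Fin a → F)}

/-- the components of `y` -/
def c2y_g (u : Fin t → (Fin a → F) →ₗ[F] (Fin n → F))
    (r : Fin t → (Fin n → F) →ₗ[F] (Fin a → F)) (π : Fin t → Fin t)
    (y : Matrix (Fin n) (Fin n) F) (i : Fin t) : Module.End F (Fin a → F) :=
  r (π i) ∘ₗ Matrix.toLin' y ∘ₗ u i

theorem c2y_g_spec (hu : ∀ i, LinearMap.range (u i) = V.1 i) (hr : ∀ i x, r i (u i x) = x)
    {π : Fin t → Fin t} {y : Matrix (Fin n) (Fin n) F}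
    (hy : ∀ i, (V.1 i).map (Matrix.toLin' y) = V.1 (π i)) (i : Fin t) (x : Fin a → F) :
    u (π i) (c2y_g u r π y i x) = Matrix.toLin' y (u i x) := by
  have h1 : Matrix.toLin' y (u i x) ∈ LinearMap.range (u (π i)) := by
    rw [hu, ← hy]
    exact Submodule.mem_map_of_mem (by rw [← hu]; exact ⟨x, rfl⟩)
  obtain ⟨w, hw⟩ := h1
  show u (π i) (r (π i) (Matrix.toLin' y (u i x))) = _
  rw [← hw, hr]

theorem c2y_iter (hu : ∀ i, LinearMap.range (u i) = V.1 i) (hr : ∀ i x, r i (u i x) = x)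
    {π : Fin t → Fin t} {y : Matrix (Fin n) (Fin n) F}
    (hy : ∀ i, (V.1 i).map (Matrix.toLin' y) = V.1 (π i)) (i : Fin t) (x : Fin a → F) (s : ℕ) :
    u (π^[s] i) (c2y_pg π (c2y_g u r π y) s i x) = (Matrix.toLin' y ^ s) (u i x) := by
  induction s with
  | zero => rfl
  | succ s ih =>
    rw [Function.iterate_succ_apply']
    show u (π (π^[s] i)) (c2y_g u r π y (π^[s] i) (c2y_pg π (c2y_g u r π y) s i x)) = _
    rw [c2y_g_spec hu hr hy, ih, pow_succ']
    rfl

theorem c2y_pow (y : GL (Fin n) F) (hyk : y ^ k = 1) :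
    (Matrix.toLin' y.1) ^ k = 1 := by
  rw [← Matrix.toLin'_pow]
  have h : y.1 ^ k = 1 := by
    rw [← Units.val_pow_eq_pow_val, hyk]
    rfl
  rw [h, Matrix.toLin'_one]
  rfl

theorem c2y_inj_y (y : GL (Fin n) F) : Function.Injective (Matrix.toLin' y.1) := by
  intro v w hvw
  have h : ∀ v, Matrix.toLin' (y⁻¹).1 (Matrix.toLin' y.1 v) = v := by
    intro v
    rw [← Matrix.toLin'_mul_apply]
    have h1 : (y⁻¹).1 * y.1 = 1 := by
      rw [← Units.val_mul, inv_mul_cancel]
      rfl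
    rw [h1, Matrix.toLin'_one]
    rfl
  rw [← h v, ← h w, hvw]

theorem c2y_inj_g (hu : ∀ i, LinearMap.range (u i) = V.1 i) (hr : ∀ i x, r i (u i x) = x)
    {π : Fin t → Fin t} (y : GL (Fin n) F)
    (hy : ∀ i, (V.1 i).map (Matrix.toLin' y.1) = V.1 (π i)) (i : Fin t) :
    Function.Injective (c2y_g u r π y.1 i) := by
  intro x x' h
  have h1 := c2y_g_spec hu hr hy i x
  have h2 := c2y_g_spec hu hr hy i x'
  rw [h, h2] at h1
  have h3 := c2y_inj_y y h1
  rw [← hr i x, ← hr i x', h3]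

theorem c2y_period (hu : ∀ i, LinearMap.range (u i) = V.1 i) (hr : ∀ i x, r i (u i x) = x)
    (ha : 1 ≤ a) {π : Fin t → Fin t} (y : GL (Fin n) F) (hyk : y ^ k = 1)
    (hy : ∀ i, (V.1 i).map (Matrix.toLin' y.1) = V.1 (π i)) (i : Fin t) : π^[k] i = i := by
  obtain ⟨x, hx⟩ : ∃ x : Fin a → F, x ≠ 0 := ⟨fun _ => 1, fun h => by
    have := congrFun h ⟨0, ha⟩
    simp at this⟩
  have h1 := c2y_iter hu hr hy i x k
  rw [c2y_pow y hyk] at h1
  have h2 : u i x ∈ V.1 i := by rw [← hu]; exact ⟨x, rfl⟩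
  have h3 : u i x ∈ V.1 (π^[k] i) := by
    rw [← hu]
    exact ⟨_, h1⟩
  by_contra hne
  have h4 := V.2.1.submodule_iSupIndep.pairwiseDisjoint hne
  have h5 := Submodule.disjoint_def.1 h4 _ h3 h2
  apply hx
  rw [← hr i x, h5, map_zero]

theorem c2y_pgk (hu : ∀ i, LinearMap.range (u i) = V.1 i) (hr : ∀ i x, r i (u i x) = x)
    (ha : 1 ≤ a) {π : Fin t → Fin t} (y : GL (Fin n) F) (hyk : y ^ k = 1)
    (hy : ∀ i, (V.1 i).map (Matrix.toLin' y.1) = V.1 (π i)) (i : Fin t) :
    c2y_pg π (c2y_g u r π y.1) k i = 1 := by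
  refine LinearMap.ext fun x => ?_
  have h1 := c2y_iter hu hr hy i x k
  rw [c2y_pow y hyk, c2y_period hu hr ha y hyk hy i] at h1
  have h2 := congrArg (r i) h1
  rw [hr] at h2
  rw [h2]
  exact hr i x

end Coord

/-! ### The injection -/

section Inj

variable {F : Type} [Field F] {n t a k : ℕ}

open Classical in
theorem c2y_le [Finite F] (hJ : S_JGL) (hk : 1 ≤ k) (ha : 1 ≤ a) (V : I2 F n t a)
    (π : Fin t → Fin t) :
    (Nat.card {y : GL (Fin n) F // y ^ k = 1 ∧
        ∀ i, (V.1 i).map (Matrix.toLin' y.1) = V.1 (π i)} : ℝ) ≤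
      ((16 * ((a : ℝ) + 1) ^ 2) ^ k) ^ t *
        (Nat.card F : ℝ) ^ ((a : ℝ) ^ 2 * (t * (1 - 1 / (k : ℝ)))) := by
  obtain ⟨u, r, hu, hr⟩ := c2y_coord V
  by_cases hne : Nonempty {y : GL (Fin n) F // y ^ k = 1 ∧
      ∀ i, (V.1 i).map (Matrix.toLin' y.1) = V.1 (π i)}
  swap
  · rw [not_nonempty_iff] at hne
    rw [Nat.card_of_isEmpty]
    have hq : (0 : ℝ) ≤ Nat.card F := Nat.cast_nonneg _
    push_cast
    positivity
  obtain ⟨y₀, hy₀, hy₀'⟩ := hne
  have h : ∀ i, π^[k] i = i := c2y_period hu hr ha y₀ hy₀ hy₀'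
  refine le_trans ?_ (c2y_prod (F := F) (a := a) hJ hk h)
  have : ∀ i : Fin t, Finite (c2y_X F a k (Function.minimalPeriod π i)
      (c2y_rep hk h i = i)) := fun i => Subtype.finite
  refine Nat.cast_le.2 (Nat.card_le_card_of_injective
    (fun y i => ⟨if c2y_rep hk h i = i then
      c2y_pg π (c2y_g u r π y.1.1) (Function.minimalPeriod π i) i else
        c2y_g u r π y.1.1 i, ?_⟩) ?_)
  · intro hB
    rw [if_pos hB, ← c2y_pg_mul π _ (Function.iterate_minimalPeriod),
      Nat.mul_div_cancel' (c2y_per_dvd h i)]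
    exact c2y_pgk hu hr ha y.1 y.2.1 y.2.2 i
  · intro y y' hyy
    have e1 : ∀ i, (if c2y_rep hk h i = i then
      c2y_pg π (c2y_g u r π y.1.1) (Function.minimalPeriod π i) i else c2y_g u r π y.1.1 i) =
      (if c2y_rep hk h i = i then
      c2y_pg π (c2y_g u r π y'.1.1) (Function.minimalPeriod π i) i else
        c2y_g u r π y'.1.1 i) := fun i =>
      congrArg Subtype.val (congrFun hyy i)
    have e2 : ∀ i, c2y_rep hk h i ≠ i → c2y_g u r π y.1.1 i = c2y_g u r π y'.1.1 i := by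
      intro i hi
      have h1 := e1 i
      rwa [if_neg hi, if_neg hi] at h1
    have e3 : ∀ i, c2y_g u r π y.1.1 i = c2y_g u r π y'.1.1 i := by
      intro i
      by_cases hi : c2y_rep hk h i = i
      swap
      · exact e2 i hi
      have h1 := e1 i
      rw [if_pos hi, if_pos hi] at h1
      obtain ⟨s, hs⟩ : ∃ s, Function.minimalPeriod π i = s + 1 :=
        Nat.exists_eq_succ_of_ne_zero (c2y_per_pos hk h i).ne'
      rw [hs, c2y_pg_add, c2y_pg_add] at h1
      have h2 : c2y_pg π (c2y_g u r π y.1.1) s (π^[1] i) =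
          c2y_pg π (c2y_g u r π y'.1.1) s (π^[1] i) := by
        refine c2y_pg_congr π fun j hj => e2 _ ?_
        rw [← Function.iterate_add_apply]
        intro hcon
        have h3 : c2y_rep hk h (π^[j + 1] i) = i :=
          (c2y_rep_eq hk h (⟨j + 1, rfl⟩ : c2y_R π i (π^[j + 1] i))).symm.trans hi
        rw [hcon] at h3
        have h4 : π^[j + 1] i = π^[0] i := h3
        have h5 := Function.iterate_injOn_Iio_minimalPeriod (f := π) (x := i)
          (Set.mem_Iio.2 (by omega)) (Set.mem_Iio.2 (by omega)) h4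
        omega
      rw [h2] at h1
      refine LinearMap.ext fun x => ?_
      have h3 := LinearMap.congr_fun h1 x
      exact c2y_pg_inj π (fun i => c2y_inj_g hu hr y'.1 y'.2.2 i) s (π^[1] i) h3
    have e4 : Matrix.toLin' y.1.1 = Matrix.toLin' y'.1.1 := by
      refine LinearMap.ext fun v => ?_
      have hv : v ∈ ⨆ i, V.1 i := by
        rw [V.2.1.submodule_iSup_eq_top]
        trivial
      refine Submodule.iSup_induction V.1 (motive := fun v => Matrix.toLin' y.1.1 v =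
        Matrix.toLin' y'.1.1 v) hv ?_ ?_ ?_
      · intro i w hw
        rw [← hu] at hw
        obtain ⟨x, rfl⟩ := hw
        rw [← c2y_g_spec hu hr y.2.2, ← c2y_g_spec hu hr y'.2.2, e3]
      · rw [map_zero, map_zero]
      · intro w w' hw hw'
        rw [map_add, map_add, hw, hw']
    exact Subtype.ext (Units.ext (Matrix.toLin'.injective e4))

end Inj

theorem t_C2Y : M_C2Y := by
  classical
  intro hJ k hk
  refine ⟨1 + 6 * k, by positivity, ?_⟩
  intro F _ _ n t a ha ht hta V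
  have hq1 : (1 : ℝ) ≤ Nat.card F := by exact_mod_cast Nat.card_pos
  have hq : (0 : ℝ) < Nat.card F := by linarith
  have : Finite (GL (Fin n) F) := inferInstance
  -- the union over the permutations
  set Y : (Fin t → Fin t) → Type := fun π => {y : GL (Fin n) F // y ^ k = 1 ∧
        ∀ i, (V.1 i).map (Matrix.toLin' y.1) = V.1 (π i)} with hY
  have h1 : Nat.card {y : GL (Fin n) F // y ^ k = 1 ∧ P2 V.1 y.1} ≤
      Nat.card (Σ π : Fin t → Fin t, Y π) := by
    have : ∀ π, Finite (Y π) := fun π => Subtype.finite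
    have hch : ∀ y : {y : GL (Fin n) F // y ^ k = 1 ∧ P2 V.1 y.1}, ∃ π : Fin t → Fin t,
        ∀ i, (V.1 i).map (Matrix.toLin' y.1.1) = V.1 (π i) := fun y => by
      choose π hπ using y.2.2
      exact ⟨π, hπ⟩
    choose p hp using hch
    refine Nat.card_le_card_of_injective (fun y => ⟨p y, ⟨y.1, y.2.1, hp y⟩⟩) ?_
    intro y y' hyy
    refine Subtype.ext ?_
    exact congrArg (fun z : (Σ π : Fin t → Fin t, Y π) => z.2.1) hyy
  rw [Nat.card_sigma] at h1
  set M : ℝ := ((16 * ((a : ℝ) + 1) ^ 2) ^ k) ^ t *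
        (Nat.card F : ℝ) ^ ((a : ℝ) ^ 2 * (t * (1 - 1 / (k : ℝ)))) with hM
  have h2 : (Nat.card {y : GL (Fin n) F // y ^ k = 1 ∧ P2 V.1 y.1} : ℝ) ≤
      (t : ℝ) ^ t * M := by
    have h3 : (Nat.card {y : GL (Fin n) F // y ^ k = 1 ∧ P2 V.1 y.1} : ℝ) ≤
        ∑ π : Fin t → Fin t, (Nat.card (Y π) : ℝ) := by exact_mod_cast h1
    refine h3.trans ((Finset.sum_le_sum fun π _ => c2y_le hJ hk ha V π).trans (le_of_eq ?_))
    rw [Finset.sum_const, Finset.card_univ, Fintype.card_fun, Fintype.card_fin, nsmul_eq_mul]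
    push_cast
    rfl
  refine h2.trans ?_
  have hn1 : (1 : ℝ) ≤ (n : ℝ) + 1 := by linarith [(Nat.cast_nonneg n : (0 : ℝ) ≤ n)]
  have hnat : t ≤ n := by rw [← hta]; exact Nat.le_mul_of_pos_right t ha
  have hnaa : a ≤ n := by rw [← hta]; exact Nat.le_mul_of_pos_left a ht
  have hnt : (t : ℝ) ≤ (n : ℝ) + 1 := by
    have : (t : ℝ) ≤ n := by exact_mod_cast hnat
    linarith
  have hn2 : (2 : ℝ) ≤ (n : ℝ) + 1 := by
    have h4 : 1 ≤ n := le_trans ht hnat
    have h5 : (1 : ℝ) ≤ n := by exact_mod_cast h4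
    linarith
  have hna : (a : ℝ) + 1 ≤ (n : ℝ) + 1 := by
    have : (a : ℝ) ≤ n := by exact_mod_cast hnaa
    linarith
  have e1 : (t : ℝ) ^ t ≤ ((n : ℝ) + 1) ^ n :=
    (pow_le_pow_left₀ (Nat.cast_nonneg t) hnt t).trans (pow_le_pow_right₀ hn1 hnat)
  have e2 : ((16 * ((a : ℝ) + 1) ^ 2) ^ k) ^ t ≤ ((n : ℝ) + 1) ^ (6 * k * n) := by
    have h6 : 16 * ((a : ℝ) + 1) ^ 2 ≤ ((n : ℝ) + 1) ^ 6 := by
      have h7 : (16 : ℝ) ≤ ((n : ℝ) + 1) ^ 4 := by
        calc (16 : ℝ) = 2 ^ 4 := by norm_num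
          _ ≤ _ := pow_le_pow_left₀ (by norm_num) hn2 4
      have h8 : ((a : ℝ) + 1) ^ 2 ≤ ((n : ℝ) + 1) ^ 2 :=
        pow_le_pow_left₀ (by positivity) hna 2
      calc 16 * ((a : ℝ) + 1) ^ 2 ≤ ((n : ℝ) + 1) ^ 4 * ((n : ℝ) + 1) ^ 2 :=
            mul_le_mul h7 h8 (by positivity) (by positivity)
        _ = ((n : ℝ) + 1) ^ 6 := by ring
    rw [← pow_mul]
    refine (pow_le_pow_left₀ (by positivity) h6 (k * t)).trans ?_
    rw [← pow_mul]
    refine pow_le_pow_right₀ hn1 ?_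
    rw [← mul_assoc]
    exact Nat.mul_le_mul_left _ hnat
  have e3 : (a : ℝ) ^ 2 * (t * (1 - 1 / (k : ℝ))) = 1 / (t : ℝ) * (1 - 1 / (k : ℝ)) *
      (n : ℝ) ^ 2 := by
    have h9 : (n : ℝ) = t * a := by rw [← hta]; push_cast; ring
    have h10 : (0 : ℝ) < t := by exact_mod_cast ht
    rw [h9]
    field_simp
  unfold Bd
  have e4 : ((n : ℝ) + 1) ^ ((1 + 6 * (k : ℝ)) * (n : ℝ)) =
      ((n : ℝ) + 1) ^ n * ((n : ℝ) + 1) ^ (6 * k * n) := by
    rw [← pow_add, ← Real.rpow_natCast]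
    congr 1
    push_cast
    ring
  rw [e4, hM, e3]
  have e5 : (Nat.card F : ℝ) ^ (1 / (t : ℝ) * (1 - 1 / (k : ℝ)) * (n : ℝ) ^ 2) ≤
      (Nat.card F : ℝ) ^ ((1 + 6 * (k : ℝ)) * (n : ℝ) +
        1 / (t : ℝ) * (1 - 1 / (k : ℝ)) * (n : ℝ) ^ 2) := by
    refine Real.rpow_le_rpow_of_exponent_le hq1 ?_
    have : 0 ≤ (1 + 6 * (k : ℝ)) * (n : ℝ) := by positivity
    linarith
  rw [← mul_assoc]
  refine mul_le_mul (mul_le_mul e1 e2 (by positivity) (by positivity)) e5
    (Real.rpow_nonneg hq.le _) (by positivity)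

end FGE
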