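import Mathlib
import Pool.Agent.FGE.StE

set_option autoImplicit false

namespace FGE

noncomputable section

open Module in
theorem c3a_main (hJ : S_JGL) (F K : Type) [Field F] [Finite F] [Field K] [Finite K]
    (n b k : ℕ) (hn : 1 ≤ n) (hb : 1 ≤ b) (hk : 1 ≤ k) (hc : Nat.card K = Nat.card F ^ b)
    (φ : K →+* Matrix (Fin n) (Fin n) F) :
    (Nat.card {y : GL (Fin n) F // y ^ k = 1 ∧ ∀ x : K, y.1 * φ x = φ x * y.1} : ℝ) ≤
      Bd (4 * k) n F (1 / (b : ℝ) * (1 - 1 / (k : ℝ)) * (n : ℝ) ^ 2) := by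
  classical
  let inst : Module K (Fin n → F) := Module.compHom (Fin n → F)
    (((Matrix.toLinAlgEquiv' (R := F) (n := Fin n)).toRingEquiv.toRingHom).comp φ)
  have hsm : ∀ (x : K) (v : Fin n → F), x • v = (φ x).mulVec v := fun x v => rfl
  have hfin : Module.Finite K (Fin n → F) := Module.Finite.of_finite
  set d : ℕ := finrank K (Fin n → F) with hd
  have hq : 2 ≤ Nat.card F := by
    have := Finite.one_lt_card (α := F)
    omega
  have hcard : b * d = n := by
    have h1 : Nat.card (Fin n → F) = Nat.card K ^ d := Module.natCard_eq_pow_finrank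
    have h2 : Nat.card (Fin n → F) = Nat.card F ^ n := by
      rw [Nat.card_fun, Nat.card_eq_fintype_card (α := Fin n), Fintype.card_fin]
    rw [h2, hc, ← pow_mul] at h1
    exact (Nat.pow_right_injective hq h1).symm
  -- the injection
  let g : {y : GL (Fin n) F // y ^ k = 1 ∧ ∀ x : K, y.1 * φ x = φ x * y.1} →
      Module.End K (Fin n → F) :=
    fun y => { toFun := fun v => y.1.1.mulVec v
               map_add' := fun v w => Matrix.mulVec_add _ _ _
               map_smul' := fun x v => by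
                 simp only [hsm, RingHom.id_apply]
                 rw [Matrix.mulVec_mulVec, Matrix.mulVec_mulVec, y.2.2 x] }
  have hg : ∀ y v, g y v = y.1.1.mulVec v := fun y v => rfl
  have hpow : ∀ y (j : ℕ) v, (g y ^ j) v = ((y.1 ^ j : GL (Fin n) F)).1.mulVec v := by
    intro y j
    induction j with
    | zero => intro v; simp
    | succ j ih =>
      intro v
      rw [pow_succ, Module.End.mul_apply, ih, hg, Matrix.mulVec_mulVec, pow_succ]
      rfl
  let f : {y : GL (Fin n) F // y ^ k = 1 ∧ ∀ x : K, y.1 * φ x = φ x * y.1} →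
      {A : Module.End K (Fin n → F) // A ^ k = (1 : K) • (1 : Module.End K (Fin n → F))} :=
    fun y => ⟨g y, by
      rw [one_smul]
      ext1 v
      rw [hpow, y.2.1, Module.End.one_apply]
      simp⟩
  have hf : Function.Injective f := by
    intro y y' h
    have h1 : g y = g y' := congrArg Subtype.val h
    apply Subtype.ext
    apply Units.ext
    apply Matrix.toLin'.injective
    apply LinearMap.ext
    intro v
    rw [Matrix.toLin'_apply, Matrix.toLin'_apply, ← hg, ← hg, h1]
  have hE : Finite (Module.End K (Fin n → F)) :=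
    Finite.of_injective (fun A : Module.End K (Fin n → F) => (A : (Fin n → F) → (Fin n → F)))
      DFunLike.coe_injective
  have h1 := Nat.card_le_card_of_injective f hf
  have h2 := hJ K (Fin n → F) k 1 hk
  rw [← hd] at h2
  have hqR : (1 : ℝ) ≤ Nat.card F := by exact_mod_cast (by omega : 1 ≤ Nat.card F)
  have hqR2 : (2 : ℝ) ≤ Nat.card F := by exact_mod_cast hq
  have hq0 : (0 : ℝ) < Nat.card F := by linarith
  have hnR : (1 : ℝ) ≤ n := by exact_mod_cast hn
  have hbR : (1 : ℝ) ≤ b := by exact_mod_cast hb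
  have hdn : (d : ℝ) ≤ n := by
    have : d ≤ n := by rw [← hcard]; exact Nat.le_mul_of_pos_left d hb
    exact_mod_cast this
  have hbd : (b : ℝ) * d = n := by exact_mod_cast hcard
  -- the polynomial factor
  have h3 : (16 * ((d : ℝ) + 1) ^ 2) ^ k ≤
      ((n : ℝ) + 1) ^ ((4 * k : ℝ) * n) * (Nat.card F : ℝ) ^ ((4 * k : ℝ) * n) := by
    have e1 : (16 * ((d : ℝ) + 1) ^ 2) ^ k ≤ ((n : ℝ) + 1) ^ (2 * k) * (Nat.card F : ℝ) ^ (4 * k) := by
      rw [mul_pow, ← pow_mul, mul_comm]
      apply mul_le_mul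
      · exact pow_le_pow_left₀ (by positivity) (by linarith) _
      · rw [pow_mul]
        apply pow_le_pow_left₀ (by norm_num)
        calc (16 : ℝ) = 2 ^ 4 := by norm_num
          _ ≤ (Nat.card F : ℝ) ^ 4 := pow_le_pow_left₀ (by norm_num) hqR2 4
      · positivity
      · positivity
    refine e1.trans ?_
    have hk0 : (0 : ℝ) ≤ k := Nat.cast_nonneg k
    apply mul_le_mul
    · rw [← Real.rpow_natCast]
      apply Real.rpow_le_rpow_of_exponent_le (by linarith)
      push_cast
      nlinarith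
    · rw [← Real.rpow_natCast]
      apply Real.rpow_le_rpow_of_exponent_le hqR
      push_cast
      nlinarith
    · positivity
    · positivity
  -- the exponent
  have h4 : (Nat.card K : ℝ) ^ ((d : ℝ) ^ 2 * (1 - 1 / (k : ℝ))) =
      (Nat.card F : ℝ) ^ (1 / (b : ℝ) * (1 - 1 / (k : ℝ)) * (n : ℝ) ^ 2) := by
    rw [hc]
    push_cast
    rw [← Real.rpow_natCast, ← Real.rpow_mul hq0.le]
    congr 1
    rw [← hbd]
    field_simp
  calc (Nat.card {y : GL (Fin n) F // y ^ k = 1 ∧ ∀ x : K, y.1 * φ x = φ x * y.1} : ℝ)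
      ≤ (Nat.card {A : Module.End K (Fin n → F) //
          A ^ k = (1 : K) • (1 : Module.End K (Fin n → F))} : ℝ) := by exact_mod_cast h1
    _ ≤ (16 * ((d : ℝ) + 1) ^ 2) ^ k * (Nat.card K : ℝ) ^ ((d : ℝ) ^ 2 * (1 - 1 / (k : ℝ))) := h2
    _ ≤ (((n : ℝ) + 1) ^ ((4 * k : ℝ) * n) * (Nat.card F : ℝ) ^ ((4 * k : ℝ) * n)) *
        (Nat.card F : ℝ) ^ (1 / (b : ℝ) * (1 - 1 / (k : ℝ)) * (n : ℝ) ^ 2) := by
      rw [h4]
      exact mul_le_mul_of_nonneg_right h3 (by positivity)
    _ = Bd (4 * k) n F (1 / (b : ℝ) * (1 - 1 / (k : ℝ)) * (n : ℝ) ^ 2) := by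
      unfold Bd
      rw [mul_assoc, ← Real.rpow_add hq0]

theorem t_C3A : M_C3A := by
  intro hJ k hk
  refine ⟨4 * k, by positivity, ?_⟩
  intro F _ _ n b hb hn K
  have hfin : Finite K.1 := inferInstance
  have h := @c3a_main hJ F K.1 _ _ K.2.1.toField hfin n b k hn hb hk K.2.2
    (K.1.val.toRingHom)
  refine le_trans (le_of_eq ?_) h
  congr 1
  apply Nat.card_congr
  exact Equiv.subtypeEquivRight fun y =>
    ⟨fun hy => ⟨hy.1, fun x => hy.2 x.1 x.2⟩, fun hy => ⟨hy.1, fun x hx => hy.2 ⟨x, hx⟩⟩⟩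

end

end FGE
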