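import Mathlib
import Pool.Agent.FGE.StE
import Pool.Agent.RSF.LG

/-!
# Module C3B: the elements of order dividing `k` which multiply a generator of the field by a root
of unity
-/

set_option autoImplicit false

namespace FGE

open RSF FL0 Polynomial

noncomputable section

/-- the conjugation action of `GL_n` on matrices -/
@[reducible] def c3b_act (n : ℕ) (F : Type) [Field F] :
    MulAction (GL (Fin n) F) (Matrix (Fin n) (Fin n) F) where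
  smul g κ := g.1 * κ * (g⁻¹).1
  one_smul κ := by
    show (1 : GL (Fin n) F).1 * κ * ((1 : GL (Fin n) F)⁻¹).1 = κ
    rw [inv_one]
    simp
  mul_smul g h κ := by
    show (g * h).1 * κ * ((g * h)⁻¹).1 = g.1 * (h.1 * κ * (h⁻¹).1) * (g⁻¹).1
    rw [mul_inv_rev, Units.val_mul, Units.val_mul]
    simp only [mul_assoc]

theorem c3b_inv_mul {n : ℕ} {F : Type} [Field F] (g : GL (Fin n) F) : (g⁻¹).1 * g.1 = 1 :=
  g.inv_mul

theorem c3b_mul_inv {n : ℕ} {F : Type} [Field F] (g : GL (Fin n) F) : g.1 * (g⁻¹).1 = 1 :=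
  g.mul_inv

theorem c3b_conj_mul {n : ℕ} {F : Type} [Field F] (g : GL (Fin n) F)
    (a b : Matrix (Fin n) (Fin n) F) :
    (g.1 * a * (g⁻¹).1) * (g.1 * b * (g⁻¹).1) = g.1 * (a * b) * (g⁻¹).1 := by
  calc (g.1 * a * (g⁻¹).1) * (g.1 * b * (g⁻¹).1) = g.1 * a * ((g⁻¹).1 * g.1) * b * (g⁻¹).1 := by
        simp only [mul_assoc]
    _ = g.1 * (a * b) * (g⁻¹).1 := by rw [c3b_inv_mul, mul_one]; simp only [mul_assoc]

theorem c3b_conj_pow {n : ℕ} {F : Type} [Field F] (g : GL (Fin n) F)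
    (a : Matrix (Fin n) (Fin n) F) (b : ℕ) :
    (g.1 * a * (g⁻¹).1) ^ b = g.1 * (a ^ b) * (g⁻¹).1 := by
  induction b with
  | zero => rw [pow_zero, pow_zero, mul_one, c3b_mul_inv]
  | succ b ih => rw [pow_succ, ih, c3b_conj_mul, ← pow_succ]

/-- the relation -/
def c3b_R {n : ℕ} {F : Type} [Field F] (b : ℕ) (ω ν : F) (y : GL (Fin n) F)
    (κ : Matrix (Fin n) (Fin n) F) : Prop :=
  y.1 * κ = ω • (κ * y.1) ∧ κ ^ b = ν • (1 : Matrix (Fin n) (Fin n) F)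

theorem c3b_R_conj {n : ℕ} {F : Type} [Field F] (b : ℕ) (ω ν : F) (g y : GL (Fin n) F)
    (κ : Matrix (Fin n) (Fin n) F) (h : c3b_R b ω ν y κ) :
    c3b_R b ω ν (g * y * g⁻¹) (g.1 * κ * (g⁻¹).1) := by
  obtain ⟨h1, h2⟩ := h
  refine ⟨?_, ?_⟩
  · rw [Units.val_mul, Units.val_mul, c3b_conj_mul, c3b_conj_mul, h1, Matrix.mul_smul,
      Matrix.smul_mul]
  · rw [c3b_conj_pow, h2, Matrix.mul_smul, Matrix.smul_mul, mul_one, c3b_mul_inv]

theorem t_C3B : M_C3B := by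
  intro hPI hORB hCTK hKAP hSQS
  intro k hk
  refine ⟨2 * ((k : ℝ) + 1), by positivity, ?_⟩
  intro F _ _ n b hn hkq hb ω ν hω hωb hν hirr κ hκ
  classical
  have hq2 : 2 ≤ Nat.card F := Finite.one_lt_card
  have hq : (2 : ℝ) ≤ (Nat.card F : ℝ) := by exact_mod_cast hq2
  have hq0 : (0 : ℝ) < (Nat.card F : ℝ) := by linarith
  have hb0 : (0 : ℝ) < (b : ℝ) := by exact_mod_cast hb.pos
  have hb1 : (1 : ℝ) ≤ (b : ℝ) := by exact_mod_cast hb.one_lt.le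
  have hk0 : (0 : ℝ) < (k : ℝ) := by exact_mod_cast hk
  -- the orbit count
  have key := @hORB (GL (Fin n) F) (Matrix (Fin n) (Fin n) F) _ _ _ (c3b_act n F)
    {y | y ^ k = 1} (c3b_R b ω ν)
    (by
      intro g y hy
      have hy' : y ^ k = 1 := hy
      show (g * y * g⁻¹) ^ k = 1
      rw [conj_pow, hy', mul_one, mul_inv_cancel])
    (fun g y x h => c3b_R_conj b ω ν g y x h) κ
  -- the number in question
  set N := Nat.card {y : GL (Fin n) F // y ^ k = 1 ∧ y.1 * κ = ω • (κ * y.1)} with hN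
  have hNe : Nat.card {y : GL (Fin n) F // y ∈ {y : GL (Fin n) F | y ^ k = 1} ∧
      c3b_R b ω ν y κ} = N := by
    rw [hN]
    refine Nat.card_congr (Equiv.subtypeEquivRight ?_)
    intro y
    constructor
    · rintro ⟨h1, h2, -⟩
      exact ⟨h1, h2⟩
    · rintro ⟨h1, h2⟩
      exact ⟨h1, h2, hκ⟩
  rw [hNe] at key
  -- the stabilizer
  set S := Nat.card (@MulAction.stabilizer (GL (Fin n) F) (Matrix (Fin n) (Fin n) F) _
    (c3b_act n F) κ) with hS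
  have hS1 : S ≤ Nat.card {A : Matrix (Fin n) (Fin n) F // A * κ = κ * A} := by
    refine Nat.card_le_card_of_injective (fun g => ⟨g.1.1, ?_⟩) ?_
    · have h1 : g.1.1 * κ * ((g.1)⁻¹).1 = κ :=
        (@MulAction.mem_stabilizer_iff _ _ _ (c3b_act n F) κ g.1).1 g.2
      calc g.1.1 * κ = g.1.1 * κ * (((g.1)⁻¹).1 * g.1.1) := by rw [c3b_inv_mul, mul_one]
        _ = (g.1.1 * κ * ((g.1)⁻¹).1) * g.1.1 := by simp only [mul_assoc]
        _ = κ * g.1.1 := by rw [h1]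
    · intro g h hgh
      have h1 := congrArg Subtype.val hgh
      exact Subtype.ext (Units.ext h1)
  have hdeg : (X ^ b - Polynomial.C ν : F[X]).natDegree = b := natDegree_X_pow_sub_C
  have hS2 := hCTK F n (X ^ b - Polynomial.C ν) hirr κ (by
    rw [map_sub, map_pow, aeval_X, aeval_C, hκ, Algebra.algebraMap_eq_smul_one, sub_self])
  rw [hdeg] at hS2
  have hS3 : (S : ℝ) ≤ (Nat.card F : ℝ) ^ ((n : ℝ) ^ 2 / (b : ℝ)) :=
    le_trans (by exact_mod_cast hS1) hS2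
  -- the sum
  set T := ∑ᶠ y : ({y : GL (Fin n) F | y ^ k = 1} : Set (GL (Fin n) F)),
    Nat.card {x' : Matrix (Fin n) (Fin n) F // c3b_R b ω ν y.1 x'} with hT
  have hα0 : (0 : ℝ) ≤ 1 - 1 / (b : ℝ) := by
    have := (div_le_one hb0).2 hb1
    linarith
  have hα1 : 1 - 1 / (b : ℝ) ≤ 1 := by
    have : 0 ≤ 1 / (b : ℝ) := by positivity
    linarith
  have hT1 : (T : ℝ) ≤ 4 ^ k * ((n : ℝ) + 1) ^ k *
      (Nat.card F : ℝ) ^ ((n : ℝ) ^ 2 - (1 - (1 - 1 / (b : ℝ))) * (n : ℝ) ^ 2 / (k : ℝ)) := by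
    refine le_trans ?_ (hSQS F n k hk hkq (1 - 1 / (b : ℝ)) hα0 hα1)
    have hT' : T = ∑ᶠ y : {y : GL (Fin n) F // y ^ k = 1},
        Nat.card {x' : Matrix (Fin n) (Fin n) F // c3b_R b ω ν y.1 x'} :=
      finsum_eq_of_bijective (Equiv.subtypeEquivRight fun _ => Iff.rfl) (Equiv.bijective _)
        (fun _ => rfl)
    have : Fintype {y : GL (Fin n) F // y ^ k = 1} := Fintype.ofFinite _
    rw [hT', finsum_eq_sum_of_fintype, finsum_eq_sum_of_fintype, Nat.cast_sum]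
    exact Finset.sum_le_sum fun y _ => hKAP F n k b hk hkq hb y.1 ω ν y.2 hω hωb hν
  -- the group
  have hG := LG.card_GL_ge (n := n) (F := F) hPI
  have key' : (Nat.card (GL (Fin n) F) : ℝ) * (N : ℝ) ≤ (S : ℝ) * (T : ℝ) := by
    exact_mod_cast key
  rw [← Real.rpow_natCast, Nat.cast_pow] at hG
  have e1 : (n : ℝ) ^ 2 - (1 - (1 - 1 / (b : ℝ))) * (n : ℝ) ^ 2 / (k : ℝ) =
      (n : ℝ) ^ 2 - (n : ℝ) ^ 2 / (b * k) := by
    field_simp
    ring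
  rw [e1] at hT1
  have hN1 : (N : ℝ) ≤ 4 ^ (k + 1) * ((n : ℝ) + 1) ^ k *
      (Nat.card F : ℝ) ^ (1 / (b : ℝ) * (1 - 1 / (k : ℝ)) * (n : ℝ) ^ 2) := by
    have hpos : (0 : ℝ) < (Nat.card F : ℝ) ^ ((n : ℝ) ^ 2) := Real.rpow_pos_of_pos hq0 _
    have h1 : (Nat.card F : ℝ) ^ ((n : ℝ) ^ 2) / 4 * (N : ℝ) ≤
        (Nat.card F : ℝ) ^ ((n : ℝ) ^ 2 / (b : ℝ)) * (4 ^ k * ((n : ℝ) + 1) ^ k *
          (Nat.card F : ℝ) ^ ((n : ℝ) ^ 2 - (n : ℝ) ^ 2 / (b * k))) := by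
      refine (mul_le_mul_of_nonneg_right hG (Nat.cast_nonneg _)).trans (key'.trans ?_)
      exact mul_le_mul hS3 hT1 (Nat.cast_nonneg _) (Real.rpow_nonneg hq0.le _)
    have h2 : (Nat.card F : ℝ) ^ ((n : ℝ) ^ 2 / (b : ℝ)) * (4 ^ k * ((n : ℝ) + 1) ^ k *
          (Nat.card F : ℝ) ^ ((n : ℝ) ^ 2 - (n : ℝ) ^ 2 / (b * k))) =
        (Nat.card F : ℝ) ^ ((n : ℝ) ^ 2) / 4 * (4 ^ (k + 1) * ((n : ℝ) + 1) ^ k *
      (Nat.card F : ℝ) ^ (1 / (b : ℝ) * (1 - 1 / (k : ℝ)) * (n : ℝ) ^ 2)) := by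
      have e2 : (Nat.card F : ℝ) ^ ((n : ℝ) ^ 2 / (b : ℝ)) *
          (Nat.card F : ℝ) ^ ((n : ℝ) ^ 2 - (n : ℝ) ^ 2 / (b * k)) =
          (Nat.card F : ℝ) ^ ((n : ℝ) ^ 2) *
          (Nat.card F : ℝ) ^ (1 / (b : ℝ) * (1 - 1 / (k : ℝ)) * (n : ℝ) ^ 2) := by
        rw [← Real.rpow_add hq0, ← Real.rpow_add hq0]
        congr 1
        field_simp
        ring
      calc _ = (4 ^ k * ((n : ℝ) + 1) ^ k) * ((Nat.card F : ℝ) ^ ((n : ℝ) ^ 2 / (b : ℝ)) *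
          (Nat.card F : ℝ) ^ ((n : ℝ) ^ 2 - (n : ℝ) ^ 2 / (b * k))) := by ring
        _ = _ := by rw [e2]; ring
    rw [h2] at h1
    exact le_of_mul_le_mul_left h1 (by positivity)
  refine hN1.trans ?_
  rw [Bd, Real.rpow_add hq0]
  have hn1 : (1 : ℝ) ≤ (n : ℝ) := by exact_mod_cast hn
  have h3 : (4 : ℝ) ^ (k + 1) ≤ (Nat.card F : ℝ) ^ (2 * ((k : ℝ) + 1) * (n : ℝ)) := by
    calc (4 : ℝ) ^ (k + 1) = (2 : ℝ) ^ (2 * (k + 1)) := by rw [pow_mul]; norm_num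
      _ ≤ (Nat.card F : ℝ) ^ (2 * (k + 1)) := pow_le_pow_left₀ (by norm_num) hq _
      _ = (Nat.card F : ℝ) ^ (2 * ((k : ℝ) + 1)) := by
        rw [← Real.rpow_natCast]
        push_cast
        rfl
      _ ≤ (Nat.card F : ℝ) ^ (2 * ((k : ℝ) + 1) * (n : ℝ)) := by
        refine Real.rpow_le_rpow_of_exponent_le (by linarith) ?_
        nlinarith
  have h4 : ((n : ℝ) + 1) ^ k ≤ ((n : ℝ) + 1) ^ (2 * ((k : ℝ) + 1) * (n : ℝ)) := by
    rw [← Real.rpow_natCast]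
    refine Real.rpow_le_rpow_of_exponent_le (by linarith) ?_
    nlinarith
  have h5 : (0 : ℝ) ≤ (Nat.card F : ℝ) ^ (1 / (b : ℝ) * (1 - 1 / (k : ℝ)) * (n : ℝ) ^ 2) :=
    Real.rpow_nonneg hq0.le _
  calc 4 ^ (k + 1) * ((n : ℝ) + 1) ^ k *
      (Nat.card F : ℝ) ^ (1 / (b : ℝ) * (1 - 1 / (k : ℝ)) * (n : ℝ) ^ 2)
      ≤ (Nat.card F : ℝ) ^ (2 * ((k : ℝ) + 1) * (n : ℝ)) *
        ((n : ℝ) + 1) ^ (2 * ((k : ℝ) + 1) * (n : ℝ)) *
      (Nat.card F : ℝ) ^ (1 / (b : ℝ) * (1 - 1 / (k : ℝ)) * (n : ℝ) ^ 2) :=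
        mul_le_mul_of_nonneg_right (mul_le_mul h3 h4 (by positivity) (by positivity)) h5
    _ = _ := by ring

end

end FGE
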