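import Mathlib
import Pool.Agent.FGE.StE

set_option autoImplicit false

/-!
# Module C3N: the number of the fields of matrices with `q ^ b` elements
-/

namespace FGE

open RSF FL0 Polynomial

/-- two finite field extensions of `F` with the same number of elements -/
theorem c3n_iso (F R : Type) [Field F] [Finite F] [Ring R] [Algebra F R] (h : IsField R)
    (N : ℕ) (hN : N ≠ 0) (hc : Nat.card R = N) :
    Nonempty (R ≃ₐ[F] (X ^ N - X : F[X]).SplittingField) := by
  have : Finite R := Nat.finite_of_card_ne_zero (by rw [hc]; exact hN)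
  let : Field R := h.toField
  let : Fintype R := Fintype.ofFinite R
  have h1 : IsSplittingField F R (X ^ N - X : F[X]) := by
    have h2 := FiniteField.isSplittingField_sub R F
    rw [← Nat.card_eq_fintype_card, hc] at h2
    exact h2
  exact ⟨@Polynomial.IsSplittingField.algEquiv F R _ _ _ (X ^ N - X : F[X]) h1⟩

/-- the primitive element -/
theorem c3n_prim (F L : Type) [Field F] [Finite F] [Field L] [Algebra F L] (b : ℕ)
    (hc : Nat.card L = Nat.card F ^ b) :
    ∃ (α : L) (f : F[X]), f.Monic ∧ Irreducible f ∧ f.natDegree = b ∧ aeval α f = 0 ∧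
      Algebra.adjoin F {α} = ⊤ := by
  have hF : 1 < Nat.card F := Finite.one_lt_card
  have : Finite L := Nat.finite_of_card_ne_zero (by rw [hc]; positivity)
  have : FiniteDimensional F L := Module.Finite.of_finite
  obtain ⟨α, hα⟩ := Field.exists_primitive_element F L
  have hint : IsIntegral F α := Algebra.IsIntegral.isIntegral α
  refine ⟨α, minpoly F α, minpoly.monic hint, minpoly.irreducible hint, ?_, minpoly.aeval F α, ?_⟩
  · have h1 : Module.finrank F L = (minpoly F α).natDegree := by
      rw [← IntermediateField.adjoin.finrank hint, hα, IntermediateField.finrank_top']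
    have h2 : Nat.card L = Nat.card F ^ Module.finrank F L := Module.natCard_eq_pow_finrank
    rw [← h1]
    exact (Nat.pow_right_injective hF (h2.symm.trans hc)).symm ▸ rfl
  · rw [← IntermediateField.adjoin_simple_toSubalgebra_of_isAlgebraic hint.isAlgebraic, hα]
    rfl

theorem t_C3N : M_C3N := by
  intro hIA F _ _ n b _
  rcases isEmpty_or_nonempty (I3 F n b) with he | ⟨⟨K₀, hK₀, hc₀⟩⟩
  · rw [Nat.card_of_isEmpty, Nat.cast_zero]
    positivity
  have hF : 1 < Nat.card F := Finite.one_lt_card
  have hN : Nat.card F ^ b ≠ 0 := by positivity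
  set N := Nat.card F ^ b with hNdef
  obtain ⟨e₀⟩ := c3n_iso F K₀ hK₀ N hN hc₀
  obtain ⟨α, f, hf1, hf2, hf3, hf4, hf5⟩ := c3n_prim F (X ^ N - X : F[X]).SplittingField b
    ((Nat.card_congr e₀.symm.toEquiv).trans hc₀)
  have hiso : ∀ K : I3 F n b, ∃ e : (X ^ N - X : F[X]).SplittingField ≃ₐ[F] K.1, True := by
    intro K
    obtain ⟨e⟩ := c3n_iso F K.1 K.2.1 N hN K.2.2
    exact ⟨e.symm, trivial⟩
  choose e he using hiso
  let Φ : I3 F n b → {A : Module.End F (Fin n → F) // aeval A f = 0} := fun K =>
    ⟨Matrix.toLinAlgEquiv' ((e K α : K.1) : Matrix (Fin n) (Fin n) F), by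
      have h1 : aeval ((e K α : K.1) : Matrix (Fin n) (Fin n) F) f = 0 := by
        have h2 : aeval (e K α) f = 0 := by
          have h3 := Polynomial.aeval_algHom_apply (e K).toAlgHom α f
          rw [hf4, map_zero] at h3
          exact h3
        have h4 := Polynomial.aeval_algHom_apply K.1.val (e K α) f
        rw [h2, map_zero] at h4
        exact h4
      have h5 := Polynomial.aeval_algHom_apply
        (Matrix.toLinAlgEquiv' (R := F) (n := Fin n)).toAlgHom
        ((e K α : K.1) : Matrix (Fin n) (Fin n) F) f
      rw [h1, map_zero] at h5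
      exact h5⟩
  have hΦ : Function.Injective Φ := by
    have hadj : ∀ K : I3 F n b,
        Algebra.adjoin F {((e K α : K.1) : Matrix (Fin n) (Fin n) F)} = K.1 := by
      intro K
      have h1 : (Algebra.adjoin F {α}).map ((K.1.val).comp (e K).toAlgHom) = K.1 := by
        rw [hf5]
        ext x
        simp only [Subalgebra.mem_map, Algebra.mem_top, true_and]
        constructor
        · rintro ⟨y, rfl⟩
          exact (e K y).2
        · intro hx
          exact ⟨(e K).symm ⟨x, hx⟩, by simp⟩
      rw [AlgHom.map_adjoin, Set.image_singleton] at h1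
      exact h1
    intro K K' hKK
    have h1 : ((e K α : K.1) : Matrix (Fin n) (Fin n) F) =
        ((e K' α : K'.1) : Matrix (Fin n) (Fin n) F) := by
      have h2 := congrArg Subtype.val hKK
      exact (Matrix.toLinAlgEquiv' (R := F) (n := Fin n)).injective h2
    apply Subtype.ext
    rw [← hadj K, ← hadj K', h1]
  have : Finite (Module.End F (Fin n → F)) :=
    Finite.of_equiv (Matrix (Fin n) (Fin n) F) (Matrix.toLinAlgEquiv' (R := F) (n := Fin n)).toEquiv
  have h1 : (Nat.card (I3 F n b) : ℝ) ≤
      (Nat.card {A : Module.End F (Fin n → F) // aeval A f = 0} : ℝ) := by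
    exact_mod_cast Nat.card_le_card_of_injective Φ hΦ
  refine h1.trans ((hIA F (Fin n → F) f hf1 hf2).trans (le_of_eq ?_))
  rw [hf3, Module.finrank_fin_fun, mul_comm]

end FGE
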