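import Mathlib
import Pool.Agent.FGE.StE

set_option autoImplicit false

namespace FGE

open RSF FL0 Polynomial

/-- the elements fixed by the power `Nat.card E` are those of the image of `E` -/
theorem c3r_mem (E K : Type) [Field E] [Finite E] [Field K] (φ : E →+* K) (x : K)
    (h : x ^ Nat.card E = x) : ∃ y, φ y = x := by
  classical
  have := Fintype.ofFinite E
  have hq : 1 < Nat.card E := Finite.one_lt_card
  have hne : (X ^ Nat.card E - X : K[X]) ≠ 0 := FiniteField.X_pow_card_sub_X_ne_zero K hq
  have hd : (X ^ Nat.card E - X : K[X]).natDegree = Nat.card E :=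
    FiniteField.X_pow_card_sub_X_natDegree_eq K hq
  have hroot : ∀ z : K, z ^ Nat.card E = z →
      z ∈ (X ^ Nat.card E - X : K[X]).roots.toFinset := by
    intro z hz
    rw [Multiset.mem_toFinset, mem_roots hne]
    simp only [IsRoot.def, eval_sub, eval_pow, eval_X, hz, sub_self]
  have hsub : (Finset.univ.image φ) ⊆ (X ^ Nat.card E - X : K[X]).roots.toFinset := by
    intro z hz
    obtain ⟨y, -, rfl⟩ := Finset.mem_image.mp hz
    refine hroot _ ?_
    rw [← map_pow, ← Fintype.card_eq_nat_card, FiniteField.pow_card]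
  have hc1 : (Finset.univ.image φ).card = Nat.card E := by
    rw [Finset.card_image_of_injective _ φ.injective, Finset.card_univ, Fintype.card_eq_nat_card]
  have hc2 : (X ^ Nat.card E - X : K[X]).roots.toFinset.card ≤ Nat.card E := by
    calc _ ≤ Multiset.card (X ^ Nat.card E - X : K[X]).roots := Multiset.toFinset_card_le _
      _ ≤ _ := card_roots' _
      _ = _ := hd
  have heq := Finset.eq_of_subset_of_card_le hsub (by rw [hc1]; exact hc2)
  have hx := hroot x h
  rw [← heq] at hx
  obtain ⟨y, -, hy⟩ := Finset.mem_image.mp hx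
  exact ⟨y, hy⟩

/-- a noncommutative algebra that is a field -/
theorem c3r_field (F R : Type) [Field F] [Finite F] [Ring R] [Algebra F R] [Finite R]
    (hR : IsField R) (hb : (⊥ : Subalgebra F R) ≠ ⊤) :
    ∃ b : ℕ, b.Prime ∧ ∃ (E : Type) (_ : Field E) (_ : Algebra F E) (φ : E →ₐ[F] R),
      Nat.card E = Nat.card F ^ b ∧ Function.Injective φ ∧
      ∀ x : R, x ^ Nat.card E = x → ∃ y, φ y = x := by
  classical
  obtain ⟨p, hp⟩ := CharP.exists F
  have hpp : Fact (Nat.Prime p) := ⟨CharP.char_is_prime F p⟩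
  letI i1 : Field R := hR.toField
  letI i2 : Algebra F R := ‹Algebra F R›
  have hf1 : Module.finrank F R ≠ 1 := by
    intro h
    exact hb (Subalgebra.bot_eq_top_iff_finrank_eq_one.mpr h)
  have hbp : (Module.finrank F R).minFac.Prime := Nat.minFac_prime hf1
  set b := (Module.finrank F R).minFac with hbdef
  have : NeZero b := ⟨hbp.ne_zero⟩
  have hfr : Module.finrank F (FiniteField.Extension F p b) = b := FiniteField.finrank_extension F p b
  obtain ⟨φ⟩ : Nonempty (FiniteField.Extension F p b →ₐ[F] R) := by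
    refine FiniteField.nonempty_algHom_of_finrank_dvd ?_
    rw [hfr]
    exact Nat.minFac_dvd _
  have hcard : Nat.card (FiniteField.Extension F p b) = Nat.card F ^ b := FiniteField.natCard_extension F p b
  refine ⟨b, hbp, FiniteField.Extension F p b, inferInstance, inferInstance, φ, hcard, φ.injective, ?_⟩
  intro x hx
  have : Finite (FiniteField.Extension F p b) := by
    refine Nat.finite_of_card_ne_zero ?_
    rw [hcard]
    exact pow_ne_zero _ Nat.card_pos.ne'
  exact c3r_mem (FiniteField.Extension F p b) R φ.toRingHom x hx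

theorem t_C3R : S_C3R := by
  classical
  intro F _ _ n H hn hC3
  obtain ⟨K, hK, hKf, hA⟩ := hC3
  have hfin : Finite K := inferInstance
  have hb : (⊥ : Subalgebra F K) ≠ ⊤ := by
    intro h
    apply hK
    rw [eq_bot_iff]
    intro x hx
    have h1 : (⟨x, hx⟩ : K) ∈ (⊥ : Subalgebra F K) := by rw [h]; exact Algebra.mem_top
    obtain ⟨c, hc⟩ := Algebra.mem_bot.mp h1
    refine Algebra.mem_bot.mpr ⟨c, ?_⟩
    have := congrArg (Subtype.val) hc
    simpa using this
  obtain ⟨b, hbp, E, _, _, φ, hcard, hinj, hfix⟩ := c3r_field F K hKf hb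
  have hFE : Finite E := by
    refine Nat.finite_of_card_ne_zero ?_
    rw [hcard]
    exact pow_ne_zero _ Nat.card_pos.ne'
  have hψi : Function.Injective (K.val.comp φ) := fun x y h => hinj (Subtype.ext h)
  let e : E ≃ₐ[F] (K.val.comp φ).range := AlgEquiv.ofInjective _ hψi
  have hIs : IsField (K.val.comp φ).range :=
    MulEquiv.isField (Field.toIsField E) e.symm.toMulEquiv
  have hc : Nat.card (K.val.comp φ).range = Nat.card F ^ b := by
    rw [← hcard]
    exact (Nat.card_congr e.toEquiv).symm
  refine ⟨b, ⟨(K.val.comp φ).range, hIs, hc⟩, hbp, ?_, ?_⟩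
  · -- `b ∣ n`
    letI : Module E (Fin n → F) := Module.compHom (Fin n → F)
      ((Matrix.toLinAlgEquiv' (R := F) (n := Fin n)).toRingEquiv.toRingHom.comp
        (K.val.comp φ).toRingHom)
    have h1 : Nat.card (Fin n → F) = Nat.card E ^ Module.finrank E (Fin n → F) :=
      Module.natCard_eq_pow_finrank
    have h2 : Nat.card (Fin n → F) = Nat.card F ^ n := by
      rw [Nat.card_fun, Nat.card_fin]
    rw [h2, hcard, ← pow_mul] at h1
    have h3 := Nat.pow_right_injective (Finite.one_lt_card : 1 < Nat.card F) h1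
    exact ⟨_, h3⟩
  · intro g hg A hAg x hx
    obtain ⟨y, rfl⟩ := hx
    have hdet : IsUnit (A.1).det := by rw [A.2]; exact isUnit_one
    have hinv : (A.1)⁻¹ * A.1 = 1 := Matrix.nonsing_inv_mul _ hdet
    have hmem : A.1 * (K.val.comp φ) y * (A.1)⁻¹ ∈ K := hA g hg A hAg _ (φ y).2
    obtain ⟨z, hz⟩ := hfix ⟨_, hmem⟩ (by
      apply Subtype.ext
      have hpow : ∀ m : ℕ, (A.1 * (K.val.comp φ) y * (A.1)⁻¹) ^ m =
          A.1 * ((K.val.comp φ) y) ^ m * (A.1)⁻¹ := by
        intro m
        induction m with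
        | zero => simp [Matrix.mul_nonsing_inv _ hdet]
        | succ m ih =>
          rw [pow_succ, ih, pow_succ]
          calc A.1 * (K.val.comp φ) y ^ m * (A.1)⁻¹ * (A.1 * (K.val.comp φ) y * (A.1)⁻¹)
              = A.1 * (K.val.comp φ) y ^ m * ((A.1)⁻¹ * A.1) * (K.val.comp φ) y * (A.1)⁻¹ := by
                simp only [mul_assoc]
            _ = _ := by rw [hinv]; simp only [mul_assoc, one_mul]
      have h1 : ((K.val.comp φ) y) ^ Nat.card E = (K.val.comp φ) y := by
        have := Fintype.ofFinite E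
        rw [← map_pow, ← Fintype.card_eq_nat_card, FiniteField.pow_card]
      rw [Subalgebra.coe_pow]
      show (A.1 * (K.val.comp φ) y * (A.1)⁻¹) ^ Nat.card E = A.1 * (K.val.comp φ) y * (A.1)⁻¹
      rw [hpow, h1])
    refine ⟨z, ?_⟩
    have := congrArg Subtype.val hz
    exact this

end FGE
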