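import Mathlib
import Pool.Agent.FGE.StE
import Pool.Agent.FGE.C3N

set_option autoImplicit false

/-!
# Module C3S: the number of the matrices that normalize a field of matrices
-/

namespace FGE

open RSF FL0 Polynomial

noncomputable section

/-- the elements with conjugates of `κ` in a finite set -/
theorem c3s_count {G A : Type} [Group G] [Finite A] (S : Set G) (φ : S → A) (Z : Set G)
    (hZ : Z.Finite) (h : ∀ y y' : S, φ y = φ y' → (y : G)⁻¹ * y' ∈ Z) :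
    Nat.card S ≤ Nat.card A * Nat.card Z := by
  classical
  have : Finite Z := hZ
  let c : A → G := fun a => if h : ∃ y : S, φ y = a then (h.choose : G) else 1
  have hc : ∀ y : S, ∃ y' : S, φ y' = φ y ∧ c (φ y) = y' := by
    intro y
    have hy : ∃ y' : S, φ y' = φ y := ⟨y, rfl⟩
    refine ⟨hy.choose, hy.choose_spec, ?_⟩
    simp only [c]
    rw [dif_pos hy]
  rw [← Nat.card_prod]
  refine Nat.card_le_card_of_injective (fun y : S => (φ y, (⟨(c (φ y))⁻¹ * y, ?_⟩ : Z))) ?_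
  · obtain ⟨y', h1, h2⟩ := hc y
    rw [h2]
    exact h y' y h1
  · intro y y' hyy
    have h1 : φ y = φ y' := congrArg Prod.fst hyy
    have h2 : (c (φ y))⁻¹ * (y : G) = (c (φ y'))⁻¹ * (y' : G) :=
      congrArg Subtype.val (congrArg Prod.snd hyy)
    rw [h1] at h2
    exact Subtype.ext (mul_left_cancel h2)

theorem t_C3S : M_C3S := by
  intro hCTK F _ _ n b hn hb hbn K
  obtain ⟨α, f, -, hf2, hf3, hf4, -⟩ := @c3n_prim F K.1 _ _ K.2.1.toField _ b K.2.2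
  have : Fintype F := Fintype.ofFinite F
  have hq1 : (1 : ℝ) ≤ Nat.card F := by
    have : 0 < Nat.card F := Nat.card_pos
    exact_mod_cast this
  have hq0 : (0 : ℝ) < Nat.card F := by linarith
  set κ : Matrix (Fin n) (Fin n) F := (α : Matrix (Fin n) (Fin n) F) with hκ
  have hfκ : aeval κ f = 0 := by
    have h4 := Polynomial.aeval_algHom_apply K.1.val α f
    have h5 : aeval α f = 0 := hf4
    rw [h5, map_zero] at h4
    exact h4
  have hC := hCTK F n f hf2 κ hfκ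
  rw [hf3] at hC
  -- the count
  let S : Set (GL (Fin n) F) := {y | P3 K.1 y.1}
  let Z : Set (GL (Fin n) F) := {y | y.1 * κ = κ * y.1}
  have hinv : ∀ y : GL (Fin n) F, (y.1)⁻¹ = (y⁻¹).1 := fun y => (Matrix.coe_units_inv y).symm
  let φ : S → K.1 := fun y => ⟨y.1.1 * κ * (y.1.1)⁻¹, y.2 κ α.2⟩
  have h1 : Nat.card S ≤ Nat.card K.1 * Nat.card Z := by
    refine c3s_count S φ Z (Set.toFinite Z) ?_
    intro y y' hyy
    have h2 : y.1.1 * κ * (y.1.1)⁻¹ = y'.1.1 * κ * (y'.1.1)⁻¹ := congrArg Subtype.val hyy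
    rw [hinv, hinv] at h2
    change ((y.1)⁻¹ * y'.1).1 * κ = κ * ((y.1)⁻¹ * y'.1).1
    have e1 : (y.1⁻¹).1 * y.1.1 = 1 := y.1.inv_val
    have e2 : (y'.1⁻¹).1 * y'.1.1 = 1 := y'.1.inv_val
    have h3 : (y.1⁻¹).1 * (y.1.1 * κ * (y.1⁻¹).1) * y'.1.1 =
        (y.1⁻¹).1 * (y'.1.1 * κ * (y'.1⁻¹).1) * y'.1.1 := by rw [h2]
    have h4 : (y.1⁻¹).1 * (y.1.1 * κ * (y.1⁻¹).1) * y'.1.1 =
        ((y.1⁻¹).1 * y.1.1) * κ * ((y.1⁻¹).1 * y'.1.1) := by
      simp only [mul_assoc]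
    have h5 : (y.1⁻¹).1 * (y'.1.1 * κ * (y'.1⁻¹).1) * y'.1.1 =
        ((y.1⁻¹).1 * y'.1.1) * κ * ((y'.1⁻¹).1 * y'.1.1) := by
      simp only [mul_assoc]
    rw [h4, h5, e1, e2, one_mul, mul_one] at h3
    rw [Units.val_mul]
    exact h3.symm
  have h2 : Nat.card Z ≤ Nat.card {A : Matrix (Fin n) (Fin n) F // A * κ = κ * A} := by
    refine Nat.card_le_card_of_injective (fun y => ⟨y.1.1, y.2⟩) ?_
    intro y y' hyy
    exact Subtype.ext (Units.ext (congrArg Subtype.val hyy))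
  have h3 : (Nat.card {y : GL (Fin n) F // P3 K.1 y.1} : ℝ) ≤
      (Nat.card F : ℝ) ^ (b : ℝ) * (Nat.card F : ℝ) ^ ((n : ℝ) ^ 2 / b) := by
    have h4 : (Nat.card S : ℝ) ≤ (Nat.card K.1 : ℝ) * (Nat.card Z : ℝ) := by exact_mod_cast h1
    have h5 : (Nat.card Z : ℝ) ≤
        (Nat.card {A : Matrix (Fin n) (Fin n) F // A * κ = κ * A} : ℝ) := by exact_mod_cast h2
    have h6 : (Nat.card K.1 : ℝ) = (Nat.card F : ℝ) ^ (b : ℝ) := by
      rw [K.2.2, Real.rpow_natCast]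
      push_cast
      rfl
    rw [h6] at h4
    refine h4.trans ?_
    exact mul_le_mul_of_nonneg_left (h5.trans hC) (Real.rpow_nonneg hq0.le _)
  refine h3.trans ?_
  unfold Bd
  rw [← Real.rpow_add hq0]
  have hbn' : (b : ℝ) ≤ n := by exact_mod_cast Nat.le_of_dvd (by omega) hbn
  have h7 : (Nat.card F : ℝ) ^ ((b : ℝ) + (n : ℝ) ^ 2 / b) ≤
      (Nat.card F : ℝ) ^ (1 * (n : ℝ) + 1 / (b : ℝ) * (n : ℝ) ^ 2) := by
    apply Real.rpow_le_rpow_of_exponent_le hq1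
    have h8 : (n : ℝ) ^ 2 / b = 1 / (b : ℝ) * (n : ℝ) ^ 2 := by ring
    rw [h8]
    linarith
  refine h7.trans ?_
  have h9 : (1 : ℝ) ≤ ((n : ℝ) + 1) ^ (1 * (n : ℝ)) := by
    apply Real.one_le_rpow
    · have : (0 : ℝ) ≤ n := Nat.cast_nonneg n
      linarith
    · positivity
  exact le_mul_of_one_le_left (Real.rpow_nonneg hq0.le _) h9

end

end FGE
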