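import Mathlib
import Pool.Agent.FGE.StE

/-!
# Elements of finite order normalizing a field of matrices

`S_C3Y` of `Pool.Agent.FGE.StE`: Kummer theory of prime degree.
-/

set_option autoImplicit false

namespace FGE

open RSF FL0 Polynomial

/-! ## Kummer theory -/

/-- A nontrivial automorphism `σ` of a field extension of prime degree `b` of finite fields, of finite
order dividing `k ∣ q - 1`, is given by a Kummer generator. -/
theorem c3y_kummer (F L : Type) [Field F] [Finite F] [Field L] [Algebra F L] [Finite L] (b k : ℕ)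
    (hb : b.Prime) (hcard : Nat.card L = Nat.card F ^ b) (hk : k ∣ Nat.card F - 1)
    (σ : L ≃ₐ[F] L) (hσ : σ ^ k = 1) (hne : σ ≠ 1) :
    ∃ (α : L) (ω ν : F), ω ≠ 1 ∧ ω ^ b = 1 ∧ ν ≠ 0 ∧ Irreducible (X ^ b - Polynomial.C ν : F[X]) ∧
      α ^ b = algebraMap F L ν ∧ σ α = ω • α := by
  have : Fact b.Prime := ⟨hb⟩
  have hfd : FiniteDimensional F L := inferInstance
  have hF : 1 < Nat.card F := Finite.one_lt_card
  have hrank : Module.finrank F L = b := by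
    have h := Module.natCard_eq_pow_finrank (K := F) (V := L)
    rw [hcard] at h
    exact (Nat.pow_right_injective hF h).symm
  -- the order of `σ` is `b`
  have hgal : Nat.card (L ≃ₐ[F] L) = b := by
    rw [IsGalois.card_aut_eq_finrank, hrank]
  have hord : orderOf σ = b := by
    have h1 : orderOf σ ∣ b := hgal ▸ orderOf_dvd_natCard σ
    rcases (Nat.dvd_prime hb).1 h1 with h | h
    · exact absurd (orderOf_eq_one_iff.1 h) hne
    · exact h
  have hbk : b ∣ Nat.card F - 1 := (hord ▸ orderOf_dvd_of_pow_eq_one hσ).trans hk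
  -- a primitive root of unity
  have hroot : (primitiveRoots (Module.finrank F L) F).Nonempty := by
    obtain ⟨g, hg⟩ := IsCyclic.exists_generator (α := Fˣ)
    have hgo : orderOf g = Nat.card F - 1 := by
      rw [orderOf_eq_card_of_forall_mem_zpowers hg, Nat.card_units]
    obtain ⟨c, hc⟩ := hbk
    have hc0 : c ≠ 0 := by
      rintro rfl
      omega
    have ho : orderOf (g ^ c) = b := by
      rw [orderOf_pow' g hc0, hgo, hc, Nat.gcd_eq_right (Dvd.intro_left b rfl),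
        Nat.mul_div_cancel _ (Nat.pos_of_ne_zero hc0)]
    refine ⟨((g ^ c : Fˣ) : F), ?_⟩
    rw [hrank, mem_primitiveRoots hb.pos, IsPrimitiveRoot.coe_units_iff, ← ho]
    exact IsPrimitiveRoot.orderOf _
  obtain ⟨α, ⟨ν, hν⟩, hα⟩ := exists_root_adjoin_eq_top_of_isCyclic F L hroot
  have hirr := irreducible_X_pow_sub_C_of_root_adjoin_eq_top hν.symm hα
  rw [hrank] at hν hirr
  have hν0 : ν ≠ 0 := by
    rintro rfl
    rw [map_zero, sub_zero] at hirr
    exact not_irreducible_pow hb.ne_one hirr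
  have hα0 : α ≠ 0 := by
    rintro rfl
    rw [zero_pow hb.ne_zero] at hν
    exact hν0 ((map_eq_zero _).1 hν)
  obtain ⟨ζ, hζ⟩ := hroot
  rw [hrank, mem_primitiveRoots hb.pos] at hζ
  have hζ' : IsPrimitiveRoot (algebraMap F L ζ) b :=
    hζ.map_of_injective (algebraMap F L).injective
  have hw : (σ α / α) ^ b = 1 := by
    rw [div_pow, ← map_pow, ← hν, AlgEquiv.commutes, hν]
    exact div_self (pow_ne_zero _ hα0)
  have : NeZero b := ⟨hb.ne_zero⟩
  obtain ⟨i, -, hi⟩ := hζ'.eq_pow_of_pow_eq_one hw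
  have hσα : σ α = (ζ ^ i) • α := by
    rw [Algebra.smul_def, map_pow, hi, div_mul_cancel₀ _ hα0]
  refine ⟨α, ζ ^ i, ν, ?_, ?_, hν0, hirr, hν.symm, hσα⟩
  · intro h1
    rw [h1, one_smul] at hσα
    have htop : Algebra.adjoin F {α} = ⊤ := by
      rw [← IntermediateField.adjoin_simple_toSubalgebra_of_isAlgebraic
        (IsAlgebraic.of_finite F α), hα]
      rfl
    have h2 : (σ : L →ₐ[F] L) = AlgHom.id F L :=
      AlgHom.ext_of_adjoin_eq_top htop (by
        intro x hx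
        rw [Set.mem_singleton_iff] at hx
        subst hx
        exact hσα)
    refine hne (AlgEquiv.ext fun x => ?_)
    exact DFunLike.congr_fun h2 x
  · rw [← pow_mul, mul_comm, pow_mul, hζ.pow_eq_one, one_pow]

theorem c3y_kummer_ring (F L : Type) [Field F] [Finite F] [Ring L] [Algebra F L] [Finite L]
    (hL : IsField L) (b k : ℕ)
    (hb : b.Prime) (hcard : Nat.card L = Nat.card F ^ b) (hk : k ∣ Nat.card F - 1)
    (σ : L ≃ₐ[F] L) (hσ : σ ^ k = 1) (hne : σ ≠ 1) :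
    ∃ (α : L) (ω ν : F), ω ≠ 1 ∧ ω ^ b = 1 ∧ ν ≠ 0 ∧ Irreducible (X ^ b - Polynomial.C ν : F[X]) ∧
      α ^ b = algebraMap F L ν ∧ σ α = ω • α := by
  let _ : Field L := hL.toField
  exact c3y_kummer F L b k hb hcard hk σ hσ hne

/-! ## Conjugation -/

variable {F : Type} [Field F] {n : ℕ}

theorem c3y_inv (y : GL (Fin n) F) : (y.1)⁻¹ = (y⁻¹).1 := (Matrix.coe_units_inv y).symm

/-- Conjugation by `y` as an endomorphism of `K`. -/
noncomputable def c3y_hom (K : Subalgebra F (Matrix (Fin n) (Fin n) F)) (y : GL (Fin n) F)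
    (h : P3 K y.1) : K →ₐ[F] K :=
  AlgHom.ofLinearMap
    { toFun := fun x => ⟨y.1 * x.1 * (y.1)⁻¹, h x.1 x.2⟩
      map_add' := fun a b => Subtype.ext (by
        change y.1 * (a.1 + b.1) * (y.1)⁻¹ = y.1 * a.1 * (y.1)⁻¹ + y.1 * b.1 * (y.1)⁻¹
        rw [mul_add, add_mul])
      map_smul' := fun c a => Subtype.ext (by
        change y.1 * (c • a.1) * (y.1)⁻¹ = c • (y.1 * a.1 * (y.1)⁻¹)
        rw [mul_smul_comm, smul_mul_assoc]) }
    (Subtype.ext (by
      change y.1 * 1 * (y.1)⁻¹ = 1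
      rw [c3y_inv, mul_one]
      exact y.mul_inv))
    (fun a b => Subtype.ext (by
      change y.1 * (a.1 * b.1) * (y.1)⁻¹ = y.1 * a.1 * (y.1)⁻¹ * (y.1 * b.1 * (y.1)⁻¹)
      have h1 : (y.1)⁻¹ * y.1 = 1 := by
        rw [c3y_inv]
        exact y.inv_mul
      calc y.1 * (a.1 * b.1) * (y.1)⁻¹ = y.1 * a.1 * 1 * b.1 * (y.1)⁻¹ := by
            simp only [mul_assoc, one_mul]
        _ = y.1 * a.1 * ((y.1)⁻¹ * y.1) * b.1 * (y.1)⁻¹ := by rw [h1]
        _ = _ := by simp only [mul_assoc]))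

theorem c3y_hom_apply (K : Subalgebra F (Matrix (Fin n) (Fin n) F)) (y : GL (Fin n) F)
    (h : P3 K y.1) (x : K) : (c3y_hom K y h x).1 = y.1 * x.1 * (y.1)⁻¹ := rfl

theorem c3y_hom_inj (K : Subalgebra F (Matrix (Fin n) (Fin n) F)) (y : GL (Fin n) F)
    (h : P3 K y.1) : Function.Injective (c3y_hom K y h) := by
  intro a c hac
  have h1 : y.1 * a.1 * (y.1)⁻¹ = y.1 * c.1 * (y.1)⁻¹ := congrArg Subtype.val hac
  have h2 : (y.1)⁻¹ * y.1 = 1 := by
    rw [c3y_inv]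
    exact y.inv_mul
  have h3 : ∀ m : Matrix (Fin n) (Fin n) F, (y.1)⁻¹ * (y.1 * m * (y.1)⁻¹) * y.1 = m := by
    intro m
    calc (y.1)⁻¹ * (y.1 * m * (y.1)⁻¹) * y.1 = ((y.1)⁻¹ * y.1) * m * ((y.1)⁻¹ * y.1) := by
          simp only [mul_assoc]
      _ = m := by rw [h2, one_mul, mul_one]
  apply Subtype.ext
  rw [← h3 a.1, h1, h3]

/-- A field of matrices normalized by `y`, `y ^ k = 1`, is centralized by `y`, or it has a Kummer
generator which is an eigenvector of the conjugation. -/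
theorem c3y_alt [Finite F] (b k : ℕ) (hb : b.Prime) (hk : k ∣ Nat.card F - 1) (K : I3 F n b)
    (y : GL (Fin n) F) (hy : y ^ k = 1) (h : P3 K.1 y.1) :
    (∀ x ∈ K.1, y.1 * x = x * y.1) ∨
      ∃ (κ : K.1) (ω ν : F), ω ≠ 1 ∧ ω ^ b = 1 ∧ ν ≠ 0 ∧
        Irreducible (X ^ b - Polynomial.C ν : F[X]) ∧ κ.1 ^ b = ν • 1 ∧
          y.1 * κ.1 = ω • (κ.1 * y.1) := by
  have h2 : (y.1)⁻¹ * y.1 = 1 := by
    rw [c3y_inv]
    exact y.inv_mul
  have : Finite K.1 := inferInstance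
  have hbij : Function.Bijective (c3y_hom K.1 y h) :=
    (c3y_hom_inj K.1 y h).bijective_of_finite
  obtain ⟨σ, hσ⟩ : ∃ σ : K.1 ≃ₐ[F] K.1, ∀ x, σ x = c3y_hom K.1 y h x :=
    ⟨AlgEquiv.ofBijective _ hbij, fun x => rfl⟩
  have hpow : ∀ (j : ℕ) (x : K.1), ((σ ^ j) x).1 = (y ^ j).1 * x.1 * ((y ^ j)⁻¹).1 := by
    intro j
    induction j with
    | zero =>
      intro x
      rw [pow_zero, pow_zero, inv_one]
      change x.1 = 1 * x.1 * 1
      rw [one_mul, mul_one]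
    | succ j ih =>
      intro x
      rw [pow_succ', AlgEquiv.mul_apply, hσ, c3y_hom_apply, ih, pow_succ', mul_inv_rev, c3y_inv]
      simp only [Units.val_mul, mul_assoc]
  have hσk : σ ^ k = 1 := by
    refine AlgEquiv.ext fun x => Subtype.ext ?_
    rw [hpow, hy, inv_one]
    change 1 * x.1 * 1 = x.1
    rw [one_mul, mul_one]
  by_cases hne : σ = 1
  · left
    intro x hx
    have h3 : (σ ⟨x, hx⟩).1 = x := by rw [hne]; rfl
    rw [hσ, c3y_hom_apply] at h3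
    calc y.1 * x = y.1 * x * ((y.1)⁻¹ * y.1) := by rw [h2, mul_one]
      _ = (y.1 * x * (y.1)⁻¹) * y.1 := by simp only [mul_assoc]
      _ = x * y.1 := by rw [h3]
  · right
    obtain ⟨κ, ω, ν, h3, h4, h5, h6, h7, h8⟩ :=
      c3y_kummer_ring F K.1 K.2.1 b k hb K.2.2 hk σ hσk hne
    refine ⟨κ, ω, ν, h3, h4, h5, h6, ?_, ?_⟩
    · have h9 : (κ ^ b).1 = (algebraMap F K.1 ν).1 := congrArg Subtype.val h7
      rw [← Algebra.algebraMap_eq_smul_one]
      exact h9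
    · have h9 : (σ κ).1 = ω • κ.1 := by rw [h8]; rfl
      rw [hσ, c3y_hom_apply] at h9
      calc y.1 * κ.1 = (y.1 * κ.1 * (y.1)⁻¹) * y.1 := by
            rw [mul_assoc, h2, mul_one]
        _ = ω • (κ.1 * y.1) := by rw [h9, smul_mul_assoc]

/-! ## Counting -/

theorem c3y_bd (CA CB : ℝ) (F : Type) [Field F] [Finite F] (n b : ℕ)
    (hn : 1 ≤ n) (hb : b ≤ n) (e : ℝ) :
    Bd CA n F e + (Nat.card F : ℝ) ^ b * (Nat.card F : ℝ) * Bd CB n F e ≤
      Bd (max CA CB + 3) n F e := by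
  have hq : (2 : ℝ) ≤ Nat.card F := by exact_mod_cast Finite.one_lt_card (α := F)
  have hq0 : (0 : ℝ) < Nat.card F := by linarith
  have hn0 : (1 : ℝ) ≤ n := by exact_mod_cast hn
  have hn1 : (1 : ℝ) ≤ (n : ℝ) + 1 := by linarith
  set M := max CA CB with hM
  have hle : ∀ C' : ℝ, C' ≤ M → Bd C' n F e ≤
      ((n : ℝ) + 1) ^ (M * n) * (Nat.card F : ℝ) ^ (M * n + e) := by
    intro C' hC'
    have h1 : C' * n ≤ M * n := mul_le_mul_of_nonneg_right hC' (by linarith)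
    exact mul_le_mul (Real.rpow_le_rpow_of_exponent_le hn1 h1)
      (Real.rpow_le_rpow_of_exponent_le (by linarith) (by linarith)) (by positivity)
      (by positivity)
  have h1 := hle CA (le_max_left _ _)
  have h2 := hle CB (le_max_right _ _)
  set Z := ((n : ℝ) + 1) ^ (M * n) * (Nat.card F : ℝ) ^ (M * n + e) with hZ
  have hZ0 : 0 ≤ Z := by positivity
  have h3 : 1 + (Nat.card F : ℝ) ^ b * (Nat.card F : ℝ) ≤ (Nat.card F : ℝ) ^ (3 * (n : ℝ)) := by
    have h4 : 1 ≤ (Nat.card F : ℝ) ^ (b + 1) := one_le_pow₀ (by linarith)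
    have h5 : (Nat.card F : ℝ) ^ (b + 2) ≤ (Nat.card F : ℝ) ^ (3 * n) :=
      pow_le_pow_right₀ (by linarith) (by omega)
    have h6 : (Nat.card F : ℝ) ^ (3 * (n : ℝ)) = (Nat.card F : ℝ) ^ (3 * n) := by
      rw [← Real.rpow_natCast]
      push_cast
      rfl
    rw [h6]
    refine le_trans ?_ h5
    have h7 : (Nat.card F : ℝ) ^ (b + 2) = (Nat.card F : ℝ) ^ (b + 1) * Nat.card F := pow_succ _ _
    rw [← pow_succ, h7]
    nlinarith
  calc Bd CA n F e + (Nat.card F : ℝ) ^ b * (Nat.card F : ℝ) * Bd CB n F e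
      ≤ Z + (Nat.card F : ℝ) ^ b * (Nat.card F : ℝ) * Z := by
        gcongr
    _ = Z * (1 + (Nat.card F : ℝ) ^ b * (Nat.card F : ℝ)) := by ring
    _ ≤ Z * (Nat.card F : ℝ) ^ (3 * (n : ℝ)) := mul_le_mul_of_nonneg_left h3 hZ0
    _ = ((n : ℝ) + 1) ^ (M * n) * (Nat.card F : ℝ) ^ ((M + 3) * n + e) := by
        rw [hZ, mul_assoc, ← Real.rpow_add hq0]
        congr 2
        ring
    _ ≤ Bd (M + 3) n F e := by
        refine mul_le_mul_of_nonneg_right (Real.rpow_le_rpow_of_exponent_le hn1 ?_) (by positivity)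
        nlinarith

theorem t_C3Y : M_C3Y := by
  intro hA hB k hk
  obtain ⟨CA, hCA, hA⟩ := hA k hk
  obtain ⟨CB, hCB, hB⟩ := hB k hk
  refine ⟨max CA CB + 3, by positivity, ?_⟩
  intro F _ _ n b hn hbn hkF hb K
  classical
  have hbn' : b ≤ n := Nat.le_of_dvd (by omega) hbn
  have hAK := hA F n b hb.one_le hn K
  set e : ℝ := 1 / (b : ℝ) * (1 - 1 / (k : ℝ)) * (n : ℝ) ^ 2 with he
  set A := {y : GL (Fin n) F // y ^ k = 1 ∧ ∀ x ∈ K.1, y.1 * x = x * y.1} with hAdef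
  let Bp : K.1 × F → Type := fun p =>
    {y : GL (Fin n) F // (p.2 ≠ 1 ∧ p.2 ^ b = 1 ∧ ∃ ν : F, ν ≠ 0 ∧
        Irreducible (X ^ b - Polynomial.C ν : F[X]) ∧ p.1.1 ^ b = ν • 1) ∧
      y ^ k = 1 ∧ y.1 * p.1.1 = p.2 • (p.1.1 * y.1)}
  have hBp : ∀ p, (Nat.card (Bp p) : ℝ) ≤ Bd CB n F e := by
    intro p
    by_cases hp : p.2 ≠ 1 ∧ p.2 ^ b = 1 ∧ ∃ ν : F, ν ≠ 0 ∧
        Irreducible (X ^ b - Polynomial.C ν : F[X]) ∧ p.1.1 ^ b = ν • 1
    · obtain ⟨h1, h2, ν, h3, h4, h5⟩ := hp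
      refine le_trans ?_ (hB F n b hn hkF hb p.2 ν h1 h2 h3 h4 p.1.1 h5)
      have : Nat.card (Bp p) ≤
          Nat.card {y : GL (Fin n) F // y ^ k = 1 ∧ y.1 * p.1.1 = p.2 • (p.1.1 * y.1)} :=
        Nat.card_le_card_of_injective (fun y => ⟨y.1, y.2.2⟩)
          (fun y z hyz => by
            have h := congrArg Subtype.val hyz
            exact Subtype.ext h)
      exact_mod_cast this
    · have : IsEmpty (Bp p) := ⟨fun y => hp y.2.1⟩
      rw [Nat.card_of_isEmpty]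
      push_cast
      unfold Bd
      positivity
  -- the covering
  let g : A ⊕ (Σ p : K.1 × F, Bp p) → GL (Fin n) F :=
    Sum.elim (fun y => y.1) (fun z => z.2.1)
  have hcov : {y : GL (Fin n) F | y ^ k = 1 ∧ P3 K.1 y.1} ⊆ Set.range g := by
    rintro y ⟨hy, hP⟩
    rcases c3y_alt b k hb hkF K y hy hP with h | ⟨κ, ω, ν, h1, h2, h3, h4, h5, h6⟩
    · exact ⟨Sum.inl ⟨y, hy, h⟩, rfl⟩
    · exact ⟨Sum.inr ⟨(κ, ω), ⟨y, ⟨h1, h2, ν, h3, h4, h5⟩, hy, h6⟩⟩, rfl⟩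
  have : Fintype (K.1 × F) := Fintype.ofFinite _
  have : ∀ p, Finite (Bp p) := fun p => Subtype.finite
  have hcount : Nat.card {y : GL (Fin n) F // y ^ k = 1 ∧ P3 K.1 y.1} ≤
      Nat.card A + ∑ p, Nat.card (Bp p) := by
    calc Nat.card {y : GL (Fin n) F // y ^ k = 1 ∧ P3 K.1 y.1}
        = ({y : GL (Fin n) F | y ^ k = 1 ∧ P3 K.1 y.1}).ncard := rfl
      _ ≤ (Set.range g).ncard := Set.ncard_le_ncard hcov (Set.toFinite _)
      _ ≤ Nat.card (A ⊕ (Σ p : K.1 × F, Bp p)) := Finite.card_range_le g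
      _ = Nat.card A + ∑ p, Nat.card (Bp p) := by
          rw [Nat.card_sum, Nat.card_sigma]
  have hKF : (Nat.card (K.1 × F) : ℝ) = (Nat.card F : ℝ) ^ b * (Nat.card F : ℝ) := by
    rw [Nat.card_prod, K.2.2]
    push_cast
    rfl
  calc (Nat.card {y : GL (Fin n) F // y ^ k = 1 ∧ P3 K.1 y.1} : ℝ)
      ≤ ((Nat.card A + ∑ p, Nat.card (Bp p) : ℕ) : ℝ) := by exact_mod_cast hcount
    _ = (Nat.card A : ℝ) + ∑ p, (Nat.card (Bp p) : ℝ) := by push_cast; rfl
    _ ≤ Bd CA n F e + ∑ _p : K.1 × F, Bd CB n F e :=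
        add_le_add hAK (Finset.sum_le_sum fun p _ => hBp p)
    _ = Bd CA n F e + (Nat.card F : ℝ) ^ b * (Nat.card F : ℝ) * Bd CB n F e := by
        rw [Finset.sum_const, nsmul_eq_mul, Finset.card_univ, ← Nat.card_eq_fintype_card, hKF]
    _ ≤ Bd (max CA CB + 3) n F e := c3y_bd CA CB F n b hn hbn' e

end FGE
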