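import Mathlib
import Pool.Agent.FGE.StE
import Pool.Agent.FL0.CLS

/-!
# Module C4N: the number of tensor decompositions
-/

set_option autoImplicit false

namespace FGE

open RSF FL0
open scoped Kronecker

noncomputable section

/-- the tensor product of two matrices -/
def c4n_T {n a b : ℕ} {F : Type} [Field F] (e : Fin n ≃ Fin a × Fin b) :
    Matrix (Fin a) (Fin a) F × Matrix (Fin b) (Fin b) F →* Matrix (Fin n) (Fin n) F where
  toFun z := (z.1 ⊗ₖ z.2).submatrix e e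
  map_one' := by
    rw [Prod.fst_one, Prod.snd_one, Matrix.one_kronecker_one, Matrix.submatrix_one_equiv]
  map_mul' x y := by
    rw [Matrix.submatrix_mul_equiv, Prod.fst_mul, Prod.snd_mul, Matrix.mul_kronecker_mul]

/-- the tensor product of two invertible matrices -/
def c4n_h {n a b : ℕ} {F : Type} [Field F] (e : Fin n ≃ Fin a × Fin b) :
    GL (Fin a) F × GL (Fin b) F →* GL (Fin n) F :=
  (Units.map (c4n_T e)).comp MulEquiv.prodUnits.symm.toMonoidHom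

theorem c4n_h_val {n a b : ℕ} {F : Type} [Field F] (e : Fin n ≃ Fin a × Fin b)
    (z : GL (Fin a) F × GL (Fin b) F) : (c4n_h e z).1 = c4n_T e (z.1.1, z.2.1) := rfl

theorem c4n_P4 {n a b : ℕ} {F : Type} [Field F] (e : Fin n ≃ Fin a × Fin b) (P : GL (Fin n) F)
    (M : Matrix (Fin n) (Fin n) F) :
    P4 e P M ↔ ∃ z, P.1 * M * P.1⁻¹ = c4n_T e z := by
  constructor
  · rintro ⟨B, C, h⟩
    exact ⟨(B, C), h⟩
  · rintro ⟨⟨B, C⟩, h⟩
    exact ⟨B, C, h⟩

theorem c4n_mul {n a b : ℕ} {F : Type} [Field F] (e : Fin n ≃ Fin a × Fin b) (P : GL (Fin n) F)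
    (z : GL (Fin a) F × GL (Fin b) F) (M : Matrix (Fin n) (Fin n) F) (h : P4 e P M) :
    P4 e (c4n_h e z * P) M := by
  obtain ⟨w, hw⟩ := (c4n_P4 e P M).1 h
  refine (c4n_P4 e _ M).2 ⟨(z.1.1, z.2.1) * w * ((z⁻¹).1.1, (z⁻¹).2.1), ?_⟩
  rw [map_mul, map_mul, ← c4n_h_val, ← c4n_h_val, ← hw, map_inv, Matrix.coe_units_inv,
    Units.val_mul, Matrix.mul_inv_rev]
  simp only [Matrix.mul_assoc]

theorem c4n_set {n a b : ℕ} {F : Type} [Field F] (e : Fin n ≃ Fin a × Fin b) (P : GL (Fin n) F)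
    (z : GL (Fin a) F × GL (Fin b) F) :
    {M | P4 e (c4n_h e z * P) M} = {M | P4 e P M} := by
  ext M
  refine ⟨fun h => ?_, fun h => c4n_mul e P z M h⟩
  have h1 := c4n_mul e (c4n_h e z * P) z⁻¹ M h
  rwa [← mul_assoc, ← map_mul, inv_mul_cancel, map_one, one_mul] at h1

/-- the decompositions for one `e` -/
def c4n_I {n a b : ℕ} (F : Type) [Field F] (e : Fin n ≃ Fin a × Fin b) : Type :=
  {T : Set (Matrix (Fin n) (Fin n) F) // ∃ P : GL (Fin n) F, T = {M | P4 e P M}}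

theorem c4n_range {n a b : ℕ} {F : Type} [Field F] [Finite F] (e : Fin n ≃ Fin a × Fin b) :
    Nat.card (c4n_I F e) * Nat.card (c4n_h (F := F) e).range ≤ Nat.card (GL (Fin n) F) := by
  classical
  rw [← Nat.card_prod]
  refine Nat.card_le_card_of_injective
    (fun z : c4n_I F e × (c4n_h (F := F) e).range => z.2.1 * z.1.2.choose) ?_
  rintro ⟨T, d⟩ ⟨T', d'⟩ h
  simp only at h
  have key : ∀ (T : c4n_I F e) (d : (c4n_h (F := F) e).range),
      T.1 = {M | P4 e (d.1 * T.2.choose) M} := by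
    intro T d
    obtain ⟨z, hz⟩ := d.2
    rw [← hz, c4n_set]
    exact T.2.choose_spec
  have h1 : T = T' := by
    apply Subtype.ext
    rw [key T d, key T' d', h]
  subst h1
  have h2 : d = d' := Subtype.ext (mul_right_cancel h)
  rw [h2]

theorem c4n_ker {n a b : ℕ} {F : Type} [Field F] [Finite F] (ha : 1 ≤ a) (hb : 1 ≤ b)
    (e : Fin n ≃ Fin a × Fin b) : Nat.card (c4n_h (F := F) e).ker ≤ Nat.card F := by
  refine Nat.card_le_card_of_injective
    (fun z : (c4n_h (F := F) e).ker => z.1.1.1 ⟨0, ha⟩ ⟨0, ha⟩) ?_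
  have key : ∀ z : (c4n_h (F := F) e).ker, ∀ i j k l,
      z.1.1.1 i j * z.1.2.1 k l = (1 : Matrix (Fin a) (Fin a) F) i j *
        (1 : Matrix (Fin b) (Fin b) F) k l := by
    intro z i j k l
    have h1 : c4n_h e z.1 = 1 := z.2
    have h2 : c4n_T e (z.1.1.1, z.1.2.1) = c4n_T e (1, 1) := by
      rw [← c4n_h_val, h1]
      exact (map_one (c4n_T (F := F) e)).symm
    have h3 := congrFun (congrFun h2 (e.symm (i, k))) (e.symm (j, l))
    simp only [c4n_T, MonoidHom.coe_mk, OneHom.coe_mk, Matrix.submatrix_apply,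
      Matrix.kroneckerMap_apply, Equiv.apply_symm_apply] at h3
    exact h3
  rintro z z' h
  simp only at h
  have h00 : ∀ z : (c4n_h (F := F) e).ker,
      z.1.1.1 ⟨0, ha⟩ ⟨0, ha⟩ * z.1.2.1 ⟨0, hb⟩ ⟨0, hb⟩ = 1 := by
    intro z
    have := key z ⟨0, ha⟩ ⟨0, ha⟩ ⟨0, hb⟩ ⟨0, hb⟩
    simpa using this
  have hx : z.1.1.1 ⟨0, ha⟩ ⟨0, ha⟩ ≠ 0 := fun h0 => by
    have := h00 z
    rw [h0, zero_mul] at this
    exact zero_ne_one this
  have hy : z.1.2.1 ⟨0, hb⟩ ⟨0, hb⟩ ≠ 0 := fun h0 => by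
    have := h00 z
    rw [h0, mul_zero] at this
    exact zero_ne_one this
  have hyy : z.1.2.1 ⟨0, hb⟩ ⟨0, hb⟩ = z'.1.2.1 ⟨0, hb⟩ ⟨0, hb⟩ := by
    refine mul_left_cancel₀ hx ?_
    rw [h00 z, h, h00 z']
  apply Subtype.ext
  refine Prod.ext ?_ ?_
  · apply Units.ext
    ext i j
    refine mul_right_cancel₀ hy ?_
    have h1 := key z i j ⟨0, hb⟩ ⟨0, hb⟩
    have h2 := key z' i j ⟨0, hb⟩ ⟨0, hb⟩
    rw [← hyy] at h2
    rw [h1, h2]
  · apply Units.ext
    ext i j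
    refine mul_left_cancel₀ hx ?_
    have h1 := key z ⟨0, ha⟩ ⟨0, ha⟩ i j
    have h2 := key z' ⟨0, ha⟩ ⟨0, ha⟩ i j
    rw [← h] at h2
    rw [h1, h2]

theorem c4n_one {n a b : ℕ} {F : Type} [Field F] [Finite F] (ha : 1 ≤ a) (hb : 1 ≤ b)
    (e : Fin n ≃ Fin a × Fin b) :
    Nat.card (c4n_I F e) * (Nat.card (GL (Fin a) F) * Nat.card (GL (Fin b) F)) ≤
      Nat.card F * Nat.card (GL (Fin n) F) := by
  have h1 : Nat.card (GL (Fin a) F) * Nat.card (GL (Fin b) F) =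
      Nat.card (c4n_h (F := F) e).range * Nat.card (c4n_h (F := F) e).ker := by
    rw [← Nat.card_prod, Subgroup.card_eq_card_quotient_mul_card_subgroup (c4n_h (F := F) e).ker,
      Nat.card_congr (QuotientGroup.quotientKerEquivRange (c4n_h (F := F) e)).toEquiv]
  rw [h1, ← mul_assoc, mul_comm (Nat.card F)]
  exact Nat.mul_le_mul (c4n_range e) (c4n_ker ha hb e)

theorem t_C4N : M_C4N := by
  intro hPI F _ _ n a b ha hb hab
  classical
  have hn : 1 ≤ n := by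
    rw [← hab]
    exact Nat.mul_pos ha hb
  have hq2 : 2 ≤ Nat.card F := by
    have := Fintype.ofFinite F
    rw [Nat.card_eq_fintype_card]
    exact Fintype.one_lt_card
  have hq : (2 : ℝ) ≤ (Nat.card F : ℝ) := by exact_mod_cast hq2
  set q : ℝ := (Nat.card F : ℝ) with hqdef
  have hq0 : 0 < q := by linarith
  have hq1 : 1 ≤ q := by linarith
  have hGa : q ^ (a ^ 2) / 4 ≤ (Nat.card (GL (Fin a) F) : ℝ) := LG.card_GL_ge hPI
  have hGb : q ^ (b ^ 2) / 4 ≤ (Nat.card (GL (Fin b) F) : ℝ) := LG.card_GL_ge hPI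
  have hGn : (Nat.card (GL (Fin n) F) : ℝ) ≤ q ^ (n ^ 2) := by
    rw [hqdef]
    exact_mod_cast CLS.card_GL_le' (F := F) n
  -- one `e`
  have h1 : ∀ e : Fin n ≃ Fin a × Fin b,
      (Nat.card (c4n_I F e) : ℝ) ≤ 16 * q * q ^ (n ^ 2) / q ^ (a ^ 2 + b ^ 2) := by
    intro e
    have h2 : (Nat.card (c4n_I F e) : ℝ) *
        ((Nat.card (GL (Fin a) F) : ℝ) * (Nat.card (GL (Fin b) F) : ℝ)) ≤
        q * (Nat.card (GL (Fin n) F) : ℝ) := by
      rw [hqdef]
      exact_mod_cast c4n_one (F := F) ha hb e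
    rw [le_div_iff₀ (by positivity), pow_add]
    have h3 : q ^ (a ^ 2) / 4 * (q ^ (b ^ 2) / 4) ≤
        (Nat.card (GL (Fin a) F) : ℝ) * (Nat.card (GL (Fin b) F) : ℝ) :=
      mul_le_mul hGa hGb (by positivity) (by positivity)
    have h4 : (Nat.card (c4n_I F e) : ℝ) * (q ^ (a ^ 2) / 4 * (q ^ (b ^ 2) / 4)) ≤
        q * q ^ (n ^ 2) :=
      (mul_le_mul_of_nonneg_left h3 (by positivity)).trans
        (h2.trans (mul_le_mul_of_nonneg_left hGn hq0.le))
    nlinarith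
  -- all `e`
  have h5 : (Nat.card (I4 F n a b) : ℝ) ≤
      (n : ℝ) ^ n * (16 * q * q ^ (n ^ 2) / q ^ (a ^ 2 + b ^ 2)) := by
    have h6 : Nat.card (I4 F n a b) ≤ Nat.card (Σ e : Fin n ≃ Fin a × Fin b, c4n_I F e) := by
      have : ∀ e : Fin n ≃ Fin a × Fin b, Finite (c4n_I F e) := fun e => by
        unfold c4n_I
        infer_instance
      refine Nat.card_le_card_of_surjective
        (fun z : Σ e : Fin n ≃ Fin a × Fin b, c4n_I F e =>
          (⟨z.2.1, z.1, z.2.2⟩ : I4 F n a b)) ?_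
      rintro ⟨T, e, P, hT⟩
      exact ⟨⟨e, T, P, hT⟩, rfl⟩
    have h7 : Nat.card (Fin n ≃ Fin a × Fin b) ≤ n ^ n := by
      have h8 : Nat.card (Fin n ≃ Fin a × Fin b) ≤ Nat.card (Fin n → Fin a × Fin b) :=
        Nat.card_le_card_of_injective (fun e => ⇑e) fun e e' h => Equiv.coe_fn_injective h
      refine h8.trans (le_of_eq ?_)
      rw [Nat.card_fun, Nat.card_prod]
      simp only [Nat.card_eq_fintype_card, Fintype.card_fin]
      rw [hab]
    have h9 : Nat.card (Σ e : Fin n ≃ Fin a × Fin b, c4n_I F e) =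
        ∑ e : Fin n ≃ Fin a × Fin b, Nat.card (c4n_I F e) := by
      have : ∀ e : Fin n ≃ Fin a × Fin b, Finite (c4n_I F e) := fun e => by
        unfold c4n_I
        infer_instance
      exact Nat.card_sigma
    calc (Nat.card (I4 F n a b) : ℝ)
        ≤ (Nat.card (Σ e : Fin n ≃ Fin a × Fin b, c4n_I F e) : ℝ) := by exact_mod_cast h6
      _ = ∑ e : Fin n ≃ Fin a × Fin b, (Nat.card (c4n_I F e) : ℝ) := by
          rw [h9]
          push_cast
          rfl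
      _ ≤ ∑ _e : Fin n ≃ Fin a × Fin b, (16 * q * q ^ (n ^ 2) / q ^ (a ^ 2 + b ^ 2)) :=
          Finset.sum_le_sum fun e _ => h1 e
      _ = (Nat.card (Fin n ≃ Fin a × Fin b) : ℝ) *
            (16 * q * q ^ (n ^ 2) / q ^ (a ^ 2 + b ^ 2)) := by
          rw [Finset.sum_const, nsmul_eq_mul, Finset.card_univ, Nat.card_eq_fintype_card]
      _ ≤ (n : ℝ) ^ n * (16 * q * q ^ (n ^ 2) / q ^ (a ^ 2 + b ^ 2)) := by
          refine mul_le_mul_of_nonneg_right ?_ (by positivity)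
          exact_mod_cast h7
  refine h5.trans ?_
  unfold Bd
  rw [← hqdef]
  refine mul_le_mul ?_ ?_ (by positivity) (by positivity)
  · have h6 : ((n : ℝ) + 1) ^ ((n : ℝ)) ≤ ((n : ℝ) + 1) ^ (5 * (n : ℝ)) :=
      Real.rpow_le_rpow_of_exponent_le (by linarith [(Nat.cast_nonneg n : (0 : ℝ) ≤ n)])
        (by linarith [(Nat.cast_nonneg n : (0 : ℝ) ≤ n)])
    refine le_trans ?_ h6
    rw [Real.rpow_natCast]
    exact pow_le_pow_left₀ (Nat.cast_nonneg n) (by linarith) n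
  · have h6 : (16 : ℝ) ≤ q ^ 4 := by
      have := pow_le_pow_left₀ (by norm_num : (0 : ℝ) ≤ 2) hq 4
      linarith
    have h7 : 16 * q * q ^ (n ^ 2) / q ^ (a ^ 2 + b ^ 2) ≤
        q ^ 5 * q ^ (n ^ 2) / q ^ (a ^ 2 + b ^ 2) := by
      refine div_le_div_of_nonneg_right ?_ (by positivity)
      refine mul_le_mul_of_nonneg_right ?_ (by positivity)
      nlinarith
    refine h7.trans ?_
    have h8 : q ^ 5 * q ^ (n ^ 2) / q ^ (a ^ 2 + b ^ 2) =
        q ^ ((5 : ℝ) + (n : ℝ) ^ 2 - ((a : ℝ) ^ 2 + (b : ℝ) ^ 2)) := by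
      rw [← pow_add, ← Real.rpow_natCast, ← Real.rpow_natCast q (a ^ 2 + b ^ 2),
        ← Real.rpow_sub hq0]
      push_cast
      ring_nf
    rw [h8]
    refine Real.rpow_le_rpow_of_exponent_le hq1 ?_
    have h9 : (1 : ℝ) ≤ n := by exact_mod_cast hn
    linarith

end

end FGE
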