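import Mathlib
import Pool.Agent.FGE.StE

/-!
# FGE, module C4S: at most `q ^ (a² + b²)` elements preserve a tensor decomposition
-/

set_option autoImplicit false

namespace FGE

theorem t_C4S : S_C4S := by
  classical
  intro F _ _ n a b ha hb hab T
  obtain ⟨S, e, P, rfl⟩ := T
  have hP : P.1 * P.1⁻¹ = 1 := by
    apply Matrix.mul_nonsing_inv
    exact (Matrix.isUnit_iff_isUnit_det _).1 P.isUnit
  have hP' : P.1⁻¹ * P.1 = 1 := by
    apply Matrix.nonsing_inv_mul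
    exact (Matrix.isUnit_iff_isUnit_det _).1 P.isUnit
  have hrec : ∀ M : Matrix (Fin n) (Fin n) F, P.1⁻¹ * (P.1 * M * P.1⁻¹) * P.1 = M := by
    intro M
    calc P.1⁻¹ * (P.1 * M * P.1⁻¹) * P.1 = (P.1⁻¹ * P.1) * M * (P.1⁻¹ * P.1) := by
          simp only [Matrix.mul_assoc]
      _ = M := by rw [hP', Matrix.one_mul, Matrix.mul_one]
  let A := {y : GL (Fin n) F // y.1 ∈ {M | P4 e P M}}
  have hch : ∀ y : A, ∃ BC : Matrix (Fin a) (Fin a) F × Matrix (Fin b) (Fin b) F,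
      P.1 * y.1.1 * P.1⁻¹ = Matrix.of fun i j => BC.1 (e i).1 (e j).1 * BC.2 (e i).2 (e j).2 := by
    intro y
    obtain ⟨B, C, h⟩ := y.2
    exact ⟨(B, C), h⟩
  choose g hg using hch
  have hinj : Function.Injective g := by
    intro y z hyz
    apply Subtype.ext
    apply Units.ext
    have h1 := hg y
    have h2 := hg z
    rw [hyz, ← h2] at h1
    rw [← hrec y.1.1, h1, hrec]
  have hcard : Nat.card A ≤ Nat.card (Matrix (Fin a) (Fin a) F × Matrix (Fin b) (Fin b) F) :=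
    Nat.card_le_card_of_injective g hinj
  have hmat : ∀ m : ℕ, Nat.card (Matrix (Fin m) (Fin m) F) = Nat.card F ^ (m ^ 2) := by
    intro m
    have h1 : Nat.card (Matrix (Fin m) (Fin m) F) = Nat.card (Fin m → Fin m → F) := rfl
    rw [h1, Nat.card_fun, Nat.card_fun, Nat.card_fin, ← pow_mul, sq]
  rw [Nat.card_prod, hmat, hmat, ← pow_add] at hcard
  have hq : (0 : ℝ) < Nat.card F := by
    exact_mod_cast Nat.card_pos
  have hBd : Bd 0 n F ((a : ℝ) ^ 2 + (b : ℝ) ^ 2) = ((Nat.card F ^ (a ^ 2 + b ^ 2) : ℕ) : ℝ) := by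
    unfold Bd
    have e1 : ((a : ℝ) ^ 2 + (b : ℝ) ^ 2) = ((a ^ 2 + b ^ 2 : ℕ) : ℝ) := by push_cast; ring
    rw [e1, zero_mul, Real.rpow_zero, one_mul, zero_add, Real.rpow_natCast]
    push_cast
    ring
  rw [hBd]
  exact_mod_cast hcard

end FGE
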