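import Mathlib
import Pool.Agent.FGE.StE
import Pool.Agent.FL0.CLS

/-!
# FGE, module C5N: the number of the sets of matrices which are realizable over a subfield up to a
scalar
-/

set_option autoImplicit false

namespace FGE

open RSF FL0 Polynomial

noncomputable section

/-- the inclusion of the matrices over the subfield -/
def c5n_T {F : Type} [Field F] (n : ℕ) (K : Subfield F) :
    Matrix (Fin n) (Fin n) K →+* Matrix (Fin n) (Fin n) F :=
  RingHom.mapMatrix K.subtype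

theorem c5n_T_apply {F : Type} [Field F] {n : ℕ} {K : Subfield F}
    (N : Matrix (Fin n) (Fin n) K) (i j : Fin n) : c5n_T n K N i j = (N i j : F) := rfl

theorem c5n_T_inj {F : Type} [Field F] {n : ℕ} {K : Subfield F} :
    Function.Injective (c5n_T n K) := by
  intro M N h
  ext i j
  exact congrFun (congrFun h i) j

/-- the inclusion of the invertible matrices over the subfield -/
def c5n_h {F : Type} [Field F] (n : ℕ) (K : Subfield F) : GL (Fin n) K →* GL (Fin n) F :=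
  Units.map (c5n_T n K).toMonoidHom

theorem c5n_h_val {F : Type} [Field F] {n : ℕ} {K : Subfield F} (g : GL (Fin n) K) :
    (c5n_h n K g).1 = c5n_T n K g.1 := rfl

theorem c5n_h_inj {F : Type} [Field F] {n : ℕ} {K : Subfield F} :
    Function.Injective (c5n_h n K) := by
  intro g g' h
  exact Units.ext (c5n_T_inj (congrArg Units.val h))

theorem c5n_P5 {F : Type} [Field F] {n : ℕ} {K : Subfield F} (P : GL (Fin n) F)
    (M : Matrix (Fin n) (Fin n) F) :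
    P5 K P M ↔ ∃ c : F, c ≠ 0 ∧ ∃ N, c • (P.1 * M * P.1⁻¹) = c5n_T n K N := by
  constructor
  · rintro ⟨c, hc, h⟩
    refine ⟨c, hc, Matrix.of fun i j => ⟨c * (P.1 * M * P.1⁻¹) i j, h i j⟩, ?_⟩
    ext i j
    rw [c5n_T_apply, Matrix.smul_apply, smul_eq_mul, Matrix.of_apply]
  · rintro ⟨c, hc, N, h⟩
    refine ⟨c, hc, fun i j => ?_⟩
    have h1 := congrFun (congrFun h i) j
    rw [c5n_T_apply, Matrix.smul_apply, smul_eq_mul] at h1
    rw [h1]
    exact (N i j).2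

theorem c5n_mul {F : Type} [Field F] {n : ℕ} {K : Subfield F} (P : GL (Fin n) F)
    (g : GL (Fin n) K) (M : Matrix (Fin n) (Fin n) F) (h : P5 K P M) :
    P5 K (c5n_h n K g * P) M := by
  obtain ⟨c, hc, N, hN⟩ := (c5n_P5 P M).1 h
  refine (c5n_P5 _ M).2 ⟨c, hc, g.1 * N * (g⁻¹).1, ?_⟩
  rw [map_mul, map_mul, ← hN, ← c5n_h_val, ← c5n_h_val, map_inv, Matrix.coe_units_inv,
    Units.val_mul, Matrix.mul_inv_rev, Matrix.mul_smul, Matrix.smul_mul]
  simp only [Matrix.mul_assoc]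

theorem c5n_set {F : Type} [Field F] {n : ℕ} {K : Subfield F} (P : GL (Fin n) F)
    (g : GL (Fin n) K) : {M | P5 K (c5n_h n K g * P) M} = {M | P5 K P M} := by
  ext M
  refine ⟨fun h => ?_, fun h => c5n_mul P g M h⟩
  have h1 := c5n_mul (c5n_h n K g * P) g⁻¹ M h
  rwa [← mul_assoc, ← map_mul, inv_mul_cancel, map_one, one_mul] at h1

theorem c5n_card {F : Type} [Field F] [Finite F] (n : ℕ) (K : Subfield F) :
    Nat.card (I5 F n K) * Nat.card (GL (Fin n) K) ≤ Nat.card (GL (Fin n) F) := by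
  rw [← Nat.card_prod]
  refine Nat.card_le_card_of_injective
    (fun z : I5 F n K × GL (Fin n) K => c5n_h n K z.2 * z.1.2.choose) ?_
  rintro ⟨T, d⟩ ⟨T', d'⟩ h
  simp only at h
  have key : ∀ (T : I5 F n K) (d : GL (Fin n) K),
      T.1 = {M | P5 K (c5n_h n K d * T.2.choose) M} := by
    intro T d
    rw [c5n_set]
    exact T.2.choose_spec
  have h1 : T = T' := by
    apply Subtype.ext
    rw [key T d, key T' d', h]
  subst h1
  have h2 : d = d' := c5n_h_inj (mul_right_cancel h)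
  rw [h2]

theorem c5n_pow {q κ : ℝ} (hκ : 0 < κ) {r n : ℕ} (hr : 1 ≤ r) (h : κ ^ r = q) :
    κ ^ (n ^ 2) = q ^ (1 / (r : ℝ) * (n : ℝ) ^ 2) := by
  have hr0 : (r : ℝ) ≠ 0 := by
    have : (1 : ℝ) ≤ r := by exact_mod_cast hr
    linarith
  rw [← h, ← Real.rpow_natCast κ r, ← Real.rpow_mul hκ.le, ← Real.rpow_natCast κ (n ^ 2)]
  congr 1
  push_cast
  field_simp

theorem t_C5N : M_C5N := by
  intro hPI F _ _ n r K hn hr hK
  have hq2 : (2 : ℝ) ≤ (Nat.card F : ℝ) := by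
    exact_mod_cast Finite.one_lt_card (α := F)
  have hq0 : (0 : ℝ) < (Nat.card F : ℝ) := by linarith
  have hq1 : (1 : ℝ) ≤ (Nat.card F : ℝ) := by linarith
  have hκ : (0 : ℝ) < (Nat.card K : ℝ) := by exact_mod_cast Nat.card_pos
  have h1 : (Nat.card (I5 F n K) : ℝ) * (Nat.card (GL (Fin n) K) : ℝ) ≤
      (Nat.card F : ℝ) ^ (n ^ 2) := by
    exact_mod_cast (c5n_card n K).trans (CLS.card_GL_le' n)
  have h2 : (Nat.card K : ℝ) ^ (n ^ 2) / 4 ≤ (Nat.card (GL (Fin n) K) : ℝ) :=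
    LG.card_GL_ge hPI
  have h0 : (Nat.card K : ℝ) ^ r = (Nat.card F : ℝ) := by exact_mod_cast hK
  rw [c5n_pow hκ hr h0] at h2
  have hA : (0 : ℝ) < (Nat.card F : ℝ) ^ (1 / (r : ℝ) * (n : ℝ) ^ 2) :=
    Real.rpow_pos_of_pos hq0 _
  have hI : (0 : ℝ) ≤ (Nat.card (I5 F n K) : ℝ) := Nat.cast_nonneg _
  have h3 : (Nat.card (I5 F n K) : ℝ) * (Nat.card F : ℝ) ^ (1 / (r : ℝ) * (n : ℝ) ^ 2) ≤
      4 * (Nat.card F : ℝ) ^ (n ^ 2) := by
    have := (mul_le_mul_of_nonneg_left h2 hI).trans h1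
    linarith
  have h4 : (Nat.card F : ℝ) ^ (n ^ 2) = (Nat.card F : ℝ) ^ ((1 - 1 / (r : ℝ)) * (n : ℝ) ^ 2) *
      (Nat.card F : ℝ) ^ (1 / (r : ℝ) * (n : ℝ) ^ 2) := by
    rw [← Real.rpow_add hq0, ← Real.rpow_natCast]
    congr 1
    push_cast
    ring
  rw [h4, ← mul_assoc] at h3
  have h5 := le_of_mul_le_mul_right h3 hA
  have hn1 : (1 : ℝ) ≤ n := by exact_mod_cast hn
  have h6 : (4 : ℝ) ≤ (Nat.card F : ℝ) ^ (2 * (n : ℝ)) := by
    calc (4 : ℝ) ≤ (Nat.card F : ℝ) ^ (2 : ℝ) := by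
          rw [Real.rpow_two]
          nlinarith
      _ ≤ _ := Real.rpow_le_rpow_of_exponent_le hq1 (by linarith)
  have h7 : (1 : ℝ) ≤ ((n : ℝ) + 1) ^ (2 * (n : ℝ)) := Real.one_le_rpow (by linarith) (by linarith)
  have h8 : (0 : ℝ) ≤ (Nat.card F : ℝ) ^ ((1 - 1 / (r : ℝ)) * (n : ℝ) ^ 2) :=
    Real.rpow_nonneg hq0.le _
  have h9 : (0 : ℝ) ≤ (Nat.card F : ℝ) ^ (2 * (n : ℝ)) *
      (Nat.card F : ℝ) ^ ((1 - 1 / (r : ℝ)) * (n : ℝ) ^ 2) :=
    mul_nonneg (Real.rpow_nonneg hq0.le _) h8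
  refine h5.trans ?_
  unfold Bd
  rw [Real.rpow_add hq0]
  calc 4 * (Nat.card F : ℝ) ^ ((1 - 1 / (r : ℝ)) * (n : ℝ) ^ 2)
      ≤ (Nat.card F : ℝ) ^ (2 * (n : ℝ)) *
        (Nat.card F : ℝ) ^ ((1 - 1 / (r : ℝ)) * (n : ℝ) ^ 2) :=
        mul_le_mul_of_nonneg_right h6 h8
    _ ≤ _ := le_mul_of_one_le_left h9 h7

end

end FGE
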