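import Mathlib
import Pool.Agent.FGE.StE

/-!
# FGE, module C5S: the matrices which are realizable over a subfield up to a scalar
-/

set_option autoImplicit false

namespace FGE

open RSF FL0 Polynomial

noncomputable section

/-- A matrix which is a scalar times a matrix over `K` in the basis `P` is determined by the scalar
and the matrix over `K`. -/
theorem c5s_card {F : Type} [Field F] [Finite F] (n : ℕ) (K : Subfield F) (P : GL (Fin n) F) :
    Nat.card {y : GL (Fin n) F // P5 K P y.1} ≤ Nat.card F * Nat.card K ^ (n * n) := by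
  choose c hc hK using fun y : {y : GL (Fin n) F // P5 K P y.1} => y.2
  have h1 : Nat.card {y : GL (Fin n) F // P5 K P y.1} ≤
      Nat.card (F × (Fin n → Fin n → K)) := by
    refine Nat.card_le_card_of_injective (fun y => (c y, fun i j =>
      ⟨c y * (P.1 * y.1.1 * P.1⁻¹) i j, hK y i j⟩)) ?_
    intro y z h
    have e1 : c y = c z := congrArg Prod.fst h
    have e2 : P.1 * y.1.1 * P.1⁻¹ = P.1 * z.1.1 * P.1⁻¹ := by
      ext i j
      have e3 := congrArg Subtype.val (congrFun (congrFun (congrArg Prod.snd h) i) j)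
      change c y * (P.1 * y.1.1 * P.1⁻¹) i j = c z * (P.1 * z.1.1 * P.1⁻¹) i j at e3
      rw [← e1] at e3
      exact mul_left_cancel₀ (hc y) e3
    have e4 : P.1⁻¹ = ((P⁻¹ : GL (Fin n) F) : Matrix (Fin n) (Fin n) F) :=
      (Matrix.coe_units_inv P).symm
    rw [e4, Units.mul_left_inj, Units.mul_right_inj] at e2
    exact Subtype.ext (Units.ext e2)
  refine h1.trans (le_of_eq ?_)
  rw [Nat.card_prod, Nat.card_fun, Nat.card_fun, Nat.card_fin, ← pow_mul]

theorem c5s_pow {q κ : ℝ} (hκ : 0 < κ) {r n : ℕ} (hr : 1 ≤ r) (h : κ ^ r = q) :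
    κ ^ (n * n) = q ^ (1 / (r : ℝ) * (n : ℝ) ^ 2) := by
  have hr0 : (r : ℝ) ≠ 0 := by
    have : (1 : ℝ) ≤ r := by exact_mod_cast hr
    linarith
  rw [← h, ← Real.rpow_natCast κ r, ← Real.rpow_mul hκ.le, ← Real.rpow_natCast κ (n * n)]
  congr 1
  push_cast
  field_simp

theorem t_C5S : S_C5S := by
  intro F _ _ n r K hn hr hK T
  obtain ⟨S, P, rfl⟩ := T
  have hq : (1 : ℝ) ≤ (Nat.card F : ℝ) := by exact_mod_cast Nat.card_pos
  have hq0 : (0 : ℝ) < (Nat.card F : ℝ) := by linarith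
  have hκ : (0 : ℝ) < (Nat.card K : ℝ) := by exact_mod_cast Nat.card_pos
  have h1 := c5s_card n K P
  have h2 : (Nat.card {y : GL (Fin n) F // P5 K P y.1} : ℝ) ≤
      (Nat.card F : ℝ) * (Nat.card K : ℝ) ^ (n * n) := by exact_mod_cast h1
  have h3 : (Nat.card K : ℝ) ^ (n * n) = (Nat.card F : ℝ) ^ (1 / (r : ℝ) * (n : ℝ) ^ 2) :=
    c5s_pow hκ hr (by exact_mod_cast hK)
  rw [h3] at h2
  have hn1 : (1 : ℝ) ≤ n := by exact_mod_cast hn
  have h4 : (Nat.card F : ℝ) ≤ (Nat.card F : ℝ) ^ (1 * (n : ℝ)) := by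
    conv_lhs => rw [← Real.rpow_one (Nat.card F : ℝ)]
    exact Real.rpow_le_rpow_of_exponent_le hq (by linarith)
  have h5 : (1 : ℝ) ≤ ((n : ℝ) + 1) ^ (1 * (n : ℝ)) := Real.one_le_rpow (by linarith) (by linarith)
  refine h2.trans ?_
  unfold Bd
  rw [Real.rpow_add hq0]
  have h6 : (0 : ℝ) ≤ (Nat.card F : ℝ) ^ (1 / (r : ℝ) * (n : ℝ) ^ 2) := Real.rpow_nonneg hq0.le _
  have h7 : (0 : ℝ) ≤ (Nat.card F : ℝ) ^ (1 * (n : ℝ)) *
      (Nat.card F : ℝ) ^ (1 / (r : ℝ) * (n : ℝ) ^ 2) :=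
    mul_nonneg (Real.rpow_nonneg hq0.le _) h6
  calc (Nat.card F : ℝ) * (Nat.card F : ℝ) ^ (1 / (r : ℝ) * (n : ℝ) ^ 2)
      ≤ (Nat.card F : ℝ) ^ (1 * (n : ℝ)) * (Nat.card F : ℝ) ^ (1 / (r : ℝ) * (n : ℝ) ^ 2) :=
        mul_le_mul_of_nonneg_right h4 h6
    _ ≤ _ := le_mul_of_one_le_left h7 h5

end

end FGE
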