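import Mathlib
import Pool.Agent.FGE.StE

/-!
# Module C8N: the number of forms
-/

set_option autoImplicit false

namespace FGE

noncomputable section

/-- the entries `J i j` with `i ≤ j` -/
def c8n_s {F : Type} {n : ℕ} (J : Matrix (Fin n) (Fin n) F) : Sym2 (Fin n) → F :=
  Sym2.lift ⟨fun i j => J (min i j) (max i j), fun i j => by
    show J (min i j) (max i j) = J (min j i) (max j i)
    rw [min_comm, max_comm]⟩

/-- the data of a form: the value of the automorphism at a generator, the sign and the entries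
`J i j` with `i ≤ j` -/
def c8n_f (F : Type) [Field F] (n : ℕ) (g : F) (z : I8 F n) : F × F × (Sym2 (Fin n) → F) :=
  (z.1.1 g, z.1.2.1, c8n_s z.1.2.2)

theorem c8n_aut {F : Type} [Field F] (g : Fˣ) (hg : ∀ x : Fˣ, x ∈ Subgroup.zpowers g)
    (τ τ' : F ≃+* F) (h : τ g.1 = τ' g.1) : τ = τ' := by
  ext x
  by_cases hx : x = 0
  · rw [hx, map_zero, map_zero]
  · obtain ⟨k, hk⟩ := Subgroup.mem_zpowers_iff.1 (hg (Units.mk0 x hx))
    have h1 : x = g.1 ^ k := by
      have := congrArg Units.val hk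
      rw [Units.val_zpow_eq_zpow_val, Units.val_mk0] at this
      exact this.symm
    rw [h1, map_zpow₀, map_zpow₀, h]

theorem c8n_inj {F : Type} [Field F] (n : ℕ) (g : Fˣ) (hg : ∀ x : Fˣ, x ∈ Subgroup.zpowers g) :
    Function.Injective (c8n_f F n g.1) := by
  rintro ⟨⟨τ, ε, J⟩, hz⟩ ⟨⟨τ', ε', J'⟩, hz'⟩ h
  have h1 : τ g.1 = τ' g.1 := congrArg Prod.fst h
  have h2 : ε = ε' := congrArg (fun z => z.2.1) h
  have h3 : c8n_s J = c8n_s J' := congrArg (fun z => z.2.2) h
  have hJ : J.transpose = ε • J.map τ := hz.1.2.2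
  have hJ' : J'.transpose = ε' • J'.map τ' := hz'.1.2.2
  have h4 := c8n_aut g hg τ τ' h1
  subst h4
  subst h2
  have h5 : ∀ i j, i ≤ j → J i j = J' i j := by
    intro i j hij
    have h6 := congrFun h3 s(i, j)
    simp only [c8n_s, Sym2.lift_mk, min_eq_left hij, max_eq_right hij] at h6
    exact h6
  have h7 : J = J' := by
    ext i j
    rcases le_total i j with hij | hij
    · exact h5 i j hij
    · have a := congrFun (congrFun hJ j) i
      have b := congrFun (congrFun hJ' j) i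
      simp only [Matrix.transpose_apply, Matrix.smul_apply, Matrix.map_apply] at a b
      rw [a, b, h5 j i hij]
  subst h7
  rfl

theorem t_C8N : S_C8N := by
  intro F _ _ n hn
  classical
  obtain ⟨g, hg⟩ := IsCyclic.exists_generator (α := Fˣ)
  have hf := c8n_inj (F := F) n g hg
  refine ⟨Finite.of_injective _ hf, ?_⟩
  have h1 := Nat.card_le_card_of_injective _ hf
  have h2 : Nat.card (F × F × (Sym2 (Fin n) → F)) = Nat.card F ^ (2 + (n + 1).choose 2) := by
    rw [Nat.card_prod, Nat.card_prod, Nat.card_fun, Nat.card_eq_fintype_card (α := Sym2 (Fin n)),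
      Sym2.card, Fintype.card_fin]
    ring
  rw [h2] at h1
  have hq : (1 : ℝ) ≤ Nat.card F := by
    have : 0 < Nat.card F := Nat.card_pos
    exact_mod_cast this
  have hn' : (1 : ℝ) ≤ n := by exact_mod_cast hn
  unfold Bd
  have h3 : (1 : ℝ) ≤ ((n : ℝ) + 1) ^ ((3 : ℝ) * n) :=
    Real.one_le_rpow (by linarith) (by positivity)
  have h4 : ((Nat.card F : ℝ)) ^ (2 + (n + 1).choose 2) ≤
      (Nat.card F : ℝ) ^ ((3 : ℝ) * n + 1 / 2 * (n : ℝ) ^ 2) := by
    rw [← Real.rpow_natCast]
    refine Real.rpow_le_rpow_of_exponent_le hq ?_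
    push_cast [Nat.cast_choose_two]
    nlinarith
  calc (Nat.card (I8 F n) : ℝ) ≤ (Nat.card F : ℝ) ^ (2 + (n + 1).choose 2) := by
        exact_mod_cast h1
    _ ≤ (Nat.card F : ℝ) ^ ((3 : ℝ) * n + 1 / 2 * (n : ℝ) ^ 2) := h4
    _ ≤ _ := le_mul_of_one_le_left (by positivity) h3

end

end FGE
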