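import Mathlib
import Pool.Agent.FGE.StE

/-!
# Module `FGE_C8R`: the preserved forms of irreducible groups are nondegenerate
-/

set_option autoImplicit false

namespace FGE

open RSF FL0 Polynomial Matrix

/-- The left radical of `J`. -/
def c8r_rad {n : ℕ} {F : Type} [Field F] (J : Matrix (Fin n) (Fin n) F) :
    Submodule F (Fin n → F) where
  carrier := {v | v ᵥ* J = 0}
  add_mem' := by
    intro a b ha hb
    show (a + b) ᵥ* J = 0
    rw [Matrix.add_vecMul, show a ᵥ* J = 0 from ha, show b ᵥ* J = 0 from hb, add_zero]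
  zero_mem' := Matrix.zero_vecMul J
  smul_mem' := by
    intro c a ha
    show (c • a) ᵥ* J = 0
    rw [Matrix.smul_vecMul, show a ᵥ* J = 0 from ha, smul_zero]

theorem c8r_mem {n : ℕ} {F : Type} [Field F] (J : Matrix (Fin n) (Fin n) F) (v : Fin n → F) :
    v ∈ c8r_rad J ↔ v ᵥ* J = 0 := Iff.rfl

theorem c8r_inv {n : ℕ} {F : Type} [Field F] (τ : F ≃+* F) (J : Matrix (Fin n) (Fin n) F)
    (A : Matrix.SpecialLinearGroup (Fin n) F) (h : P8 τ J A.1) (v : Fin n → F)
    (hv : v ∈ c8r_rad J) : A.1.mulVec v ∈ c8r_rad J := by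
  obtain ⟨c, hc⟩ := h
  rw [c8r_mem] at hv ⊢
  have h1 : ((A.1 *ᵥ v) ᵥ* J) ᵥ* (A.1.map τ) = 0 := by
    rw [← Matrix.vecMul_transpose, Matrix.vecMul_vecMul, Matrix.vecMul_vecMul,
      ← Matrix.mul_assoc, hc, Matrix.vecMul_smul, hv, smul_zero]
  have h2 : A.1.map τ * (A⁻¹).1.map τ = 1 := by
    have h3 : A.1 * (A⁻¹).1 = 1 := by
      rw [← Matrix.SpecialLinearGroup.coe_mul, mul_inv_cancel, Matrix.SpecialLinearGroup.coe_one]
    have h4 : (A.1 * (A⁻¹).1).map τ = A.1.map τ * (A⁻¹).1.map τ :=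
      Matrix.map_mul (f := (τ : F →+* F))
    rw [← h4, h3]
    exact Matrix.map_one τ (map_zero τ) (map_one τ)
  have h5 := congrArg (fun w => w ᵥ* ((A⁻¹).1.map τ)) h1
  simp only [Matrix.vecMul_vecMul, Matrix.zero_vecMul] at h5
  rw [Matrix.mul_assoc, h2, Matrix.mul_one] at h5
  rw [Matrix.vecMul_vecMul] at *
  exact h5

theorem t_C8R : S_C8R := by
  intro F _ n H _ hirr hC
  obtain ⟨τ, ε, J, hH, hJ, hall⟩ := hC
  have hinv : ∀ g ∈ H, Pres g (c8r_rad J) := by
    intro g hg A hA w hw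
    exact c8r_inv τ J A (hall g hg A hA) w hw
  have hbot : c8r_rad J = ⊥ := by
    rcases hirr _ hinv with h | h
    · exact h
    · exfalso
      apply hJ
      ext i j
      have h1 : (Pi.single i (1 : F)) ∈ c8r_rad J := by rw [h]; trivial
      rw [c8r_mem, Matrix.single_one_vecMul] at h1
      exact congrFun h1 j
  have hunit : IsUnit J := by
    rw [← Matrix.vecMul_injective_iff_isUnit]
    intro v w hvw
    have h1 : v - w ∈ c8r_rad J := by
      rw [c8r_mem, Matrix.sub_vecMul, sub_eq_zero]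
      exact hvw
    rw [hbot, Submodule.mem_bot, sub_eq_zero] at h1
    exact h1
  exact ⟨⟨(τ, ε, J), hH, hunit⟩, hall⟩

end FGE
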