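import Mathlib
import Pool.Agent.FGE.StE

/-!
# FGE, module C8S: the similitudes of a form
-/

set_option autoImplicit false

namespace FGE

open RSF FL0 Polynomial

noncomputable section

/-- The transformation rule of a form. -/
theorem c8s_tr {F : Type} [Field F] {n : ℕ} (τ : F ≃+* F) (J a b : Matrix (Fin n) (Fin n) F) :
    (a * b).transpose * J * (a * b).map τ =
      b.transpose * (a.transpose * J * a.map τ) * b.map τ := by
  have h : (a * b).map τ = a.map τ * b.map τ :=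
    Matrix.map_mul (f := (τ : F →+* F))
  rw [h, Matrix.transpose_mul]
  simp only [Matrix.mul_assoc]

/-- Two similitudes with the same multiplier differ by an isometry. -/
theorem c8s_iso {F : Type} [Field F] {n : ℕ} (τ : F ≃+* F) (J : Matrix (Fin n) (Fin n) F)
    (c : F) (y y₀ : GL (Fin n) F) (h : y.1.transpose * J * y.1.map τ = c • J)
    (h₀ : y₀.1.transpose * J * y₀.1.map τ = c • J) :
    (y * y₀⁻¹).1.transpose * J * (y * y₀⁻¹).1.map τ = J := by
  have e1 : (y * y₀⁻¹).1 = y.1 * (y₀⁻¹).1 := rfl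
  have e2 : y₀.1 * (y₀⁻¹).1 = 1 := y₀.mul_inv
  rw [e1, c8s_tr, h, ← h₀, ← c8s_tr, e2, Matrix.transpose_one, Matrix.one_mul]
  have e3 : (1 : Matrix (Fin n) (Fin n) F).map τ = 1 :=
    Matrix.map_one τ (map_zero τ) (map_one τ)
  rw [e3, Matrix.mul_one]

/-- C8S. -/
theorem t_C8S : M_C8S := by
  classical
  intro hISO F _ _ n hn z
  obtain ⟨⟨τ, ε, J⟩, hHer, hJ⟩ := z
  change (Nat.card {y : GL (Fin n) F // P8 τ J y.1} : ℝ) ≤ Bd 2 n F (1 / 2 * (n : ℝ) ^ 2)
  have hI := hISO F n τ J hJ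
  have hfin : Finite {g : GL (Fin n) F // g.1.transpose * J * g.1.map τ = J} := inferInstance
  let y₀ : F → GL (Fin n) F := fun c =>
    if h : ∃ y : GL (Fin n) F, y.1.transpose * J * y.1.map τ = c • J then h.choose else 1
  have hy₀ : ∀ (c : F) (y : GL (Fin n) F), y.1.transpose * J * y.1.map τ = c • J →
      (y₀ c).1.transpose * J * (y₀ c).1.map τ = c • J := by
    intro c y h
    have hex : ∃ y : GL (Fin n) F, y.1.transpose * J * y.1.map τ = c • J := ⟨y, h⟩
    have e : y₀ c = hex.choose := dif_pos hex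
    rw [e]
    exact hex.choose_spec
  let f : {y : GL (Fin n) F // P8 τ J y.1} →
      F × {g : GL (Fin n) F // g.1.transpose * J * g.1.map τ = J} := fun y =>
    (y.2.choose, ⟨y.1 * (y₀ y.2.choose)⁻¹,
      c8s_iso τ J y.2.choose y.1 (y₀ y.2.choose) y.2.choose_spec
        (hy₀ _ _ y.2.choose_spec)⟩)
  have hf : Function.Injective f := by
    intro y y' h
    have h1 : y.2.choose = y'.2.choose := congrArg Prod.fst h
    have h2 : y.1 * (y₀ y.2.choose)⁻¹ = y'.1 * (y₀ y'.2.choose)⁻¹ :=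
      congrArg (fun p => (p.2 : GL (Fin n) F)) h
    rw [h1] at h2
    exact Subtype.ext (mul_right_cancel h2)
  have h1 : Nat.card {y : GL (Fin n) F // P8 τ J y.1} ≤
      Nat.card F * Nat.card {g : GL (Fin n) F // g.1.transpose * J * g.1.map τ = J} := by
    rw [← Nat.card_prod]
    exact Nat.card_le_card_of_injective f hf
  have hq : (1 : ℝ) ≤ (Nat.card F : ℝ) := by
    exact_mod_cast (Nat.one_le_iff_ne_zero.2 Nat.card_pos.ne')
  have hq0 : (0 : ℝ) < (Nat.card F : ℝ) := by linarith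
  have hn1 : (1 : ℝ) ≤ (n : ℝ) := by exact_mod_cast hn
  unfold Bd
  calc (Nat.card {y : GL (Fin n) F // P8 τ J y.1} : ℝ)
      ≤ (Nat.card F : ℝ) *
        (Nat.card {g : GL (Fin n) F // g.1.transpose * J * g.1.map τ = J} : ℝ) := by
        exact_mod_cast h1
    _ ≤ (Nat.card F : ℝ) * (Nat.card F : ℝ) ^ (((n : ℝ) ^ 2 + n) / 2) :=
        mul_le_mul_of_nonneg_left hI hq0.le
    _ = (Nat.card F : ℝ) ^ (1 + ((n : ℝ) ^ 2 + n) / 2) := by
        rw [Real.rpow_add hq0, Real.rpow_one]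
    _ ≤ (Nat.card F : ℝ) ^ (2 * (n : ℝ) + 1 / 2 * (n : ℝ) ^ 2) := by
        refine Real.rpow_le_rpow_of_exponent_le hq ?_
        linarith
    _ ≤ ((n : ℝ) + 1) ^ (2 * (n : ℝ)) *
        (Nat.card F : ℝ) ^ (2 * (n : ℝ) + 1 / 2 * (n : ℝ) ^ 2) := by
        refine le_mul_of_one_le_left (Real.rpow_nonneg hq0.le _) ?_
        exact Real.one_le_rpow (by linarith) (by linarith)

end

end FGE
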