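import Mathlib
import Pool.Agent.FGE.StE
import Pool.Agent.FL0.CLS

/-!
# Module C8Y: the elements of order `k` that preserve a form up to a scalar
-/

set_option autoImplicit false

namespace FGE

open RSF FL0 Polynomial

noncomputable section

/-- the matrices, as a space of forms -/
def c8y_X (F : Type) (n : ℕ) : Type := Matrix (Fin n) (Fin n) F

theorem c8y_fin (F : Type) [Finite F] (n : ℕ) : Finite (c8y_X F n) := by
  have : Finite (Fin n → Fin n → F) := inferInstance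
  exact this

theorem c8y_mm {F : Type} [Field F] {n : ℕ} (τ : F ≃+* F) (A B : Matrix (Fin n) (Fin n) F) :
    (A * B).map τ = A.map τ * B.map τ := by
  ext i j
  simp only [Matrix.map_apply, Matrix.mul_apply, map_sum, map_mul]

theorem c8y_m1 {F : Type} [Field F] {n : ℕ} (τ : F ≃+* F) :
    (1 : Matrix (Fin n) (Fin n) F).map τ = 1 :=
  Matrix.map_one τ (map_zero τ) (map_one τ)

/-- the action of `GL_n` on the forms -/
@[reducible] def c8y_act (F : Type) [Field F] (n : ℕ) (τ : F ≃+* F) :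
    MulAction (GL (Fin n) F) (c8y_X F n) where
  smul g J := ((g⁻¹).1.transpose * (show Matrix (Fin n) (Fin n) F from J) * (g⁻¹).1.map τ :
    Matrix (Fin n) (Fin n) F)
  one_smul J := by
    change ((1 : GL (Fin n) F)⁻¹).1.transpose * (show Matrix (Fin n) (Fin n) F from J) *
      ((1 : GL (Fin n) F)⁻¹).1.map τ = J
    rw [inv_one]
    change (1 : Matrix (Fin n) (Fin n) F).transpose * _ * (1 : Matrix (Fin n) (Fin n) F).map τ = _
    rw [c8y_m1, Matrix.transpose_one, one_mul, mul_one]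
  mul_smul g h J := by
    change ((g * h)⁻¹).1.transpose * (show Matrix (Fin n) (Fin n) F from J) *
      ((g * h)⁻¹).1.map τ = (g⁻¹).1.transpose * ((h⁻¹).1.transpose *
        (show Matrix (Fin n) (Fin n) F from J) * (h⁻¹).1.map τ) * (g⁻¹).1.map τ
    rw [mul_inv_rev, Units.val_mul, Matrix.transpose_mul, c8y_mm]
    simp only [mul_assoc]

theorem c8y_her {F : Type} [Field F] {n : ℕ} {τ : F ≃+* F} {ε : F}
    {J : Matrix (Fin n) (Fin n) F} (h : Her τ ε J) (A : Matrix (Fin n) (Fin n) F) :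
    Her τ ε (A.transpose * J * A.map τ) := by
  obtain ⟨h1, h2, h3⟩ := h
  refine ⟨h1, h2, ?_⟩
  have h4 : (A.map τ).map τ = A := by
    ext i j
    simp only [Matrix.map_apply, h1]
  rw [c8y_mm, c8y_mm, h4, Matrix.transpose_mul, Matrix.transpose_mul, Matrix.transpose_transpose,
    h3, ← Matrix.transpose_map, Matrix.smul_mul, Matrix.mul_smul, mul_assoc]

theorem c8y_p8 {F : Type} [Field F] {n : ℕ} {τ : F ≃+* F} {J : Matrix (Fin n) (Fin n) F}
    (g y : GL (Fin n) F) (h : P8 τ J y.1) :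
    P8 τ ((g⁻¹).1.transpose * J * (g⁻¹).1.map τ) (g * y * g⁻¹).1 := by
  obtain ⟨c, hc⟩ := h
  refine ⟨c, ?_⟩
  have h1 : g.1.transpose * (g⁻¹).1.transpose = 1 := by
    rw [← Matrix.transpose_mul, ← Units.val_mul, inv_mul_cancel, Units.val_one,
      Matrix.transpose_one]
  have h2 : (g⁻¹).1.map τ * g.1.map τ = 1 := by
    rw [← c8y_mm, ← Units.val_mul, inv_mul_cancel, Units.val_one, c8y_m1]
  rw [Units.val_mul, Units.val_mul, Matrix.transpose_mul, Matrix.transpose_mul, c8y_mm, c8y_mm]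
  calc (g⁻¹).1.transpose * (y.1.transpose * g.1.transpose) *
        ((g⁻¹).1.transpose * J * (g⁻¹).1.map τ) * (g.1.map τ * y.1.map τ * (g⁻¹).1.map τ)
      = (g⁻¹).1.transpose * (y.1.transpose * (g.1.transpose * (g⁻¹).1.transpose) * J *
          ((g⁻¹).1.map τ * g.1.map τ) * y.1.map τ) * (g⁻¹).1.map τ := by
        simp only [mul_assoc]
    _ = (g⁻¹).1.transpose * (y.1.transpose * J * y.1.map τ) * (g⁻¹).1.map τ := by
        rw [h1, h2, mul_one, mul_one]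
    _ = c • ((g⁻¹).1.transpose * J * (g⁻¹).1.map τ) := by
        rw [hc, Matrix.mul_smul, Matrix.smul_mul]

/-- the orbit estimate -/
theorem c8y_orb (hORB : S_ORB) {F : Type} [Field F] [Finite F] {n : ℕ} (k : ℕ) (τ : F ≃+* F) (ε : F)
    (J : Matrix (Fin n) (Fin n) F) (hJ : Her τ ε J) :
    Nat.card (GL (Fin n) F) * Nat.card {y : GL (Fin n) F // y ^ k = 1 ∧ P8 τ J y.1} ≤
      Nat.card {g : GL (Fin n) F // g.1.transpose * J * g.1.map τ = J} *
        ∑ᶠ y : {y : GL (Fin n) F // y ^ k = 1},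
          Nat.card {J : Matrix (Fin n) (Fin n) F // Her τ ε J ∧ P8 τ J y.1.1} := by
  let _ := c8y_act F n τ
  have hf := c8y_fin F n
  have h1 := hORB (GL (Fin n) F) (c8y_X F n) {y | y ^ k = 1}
    (fun y x => Her τ ε (show Matrix (Fin n) (Fin n) F from x) ∧
      P8 τ (show Matrix (Fin n) (Fin n) F from x) y.1) (by
      intro g y hy
      have hy' : y ^ k = 1 := hy
      change (g * y * g⁻¹) ^ k = 1
      rw [conj_pow, hy', mul_one, mul_inv_cancel]) (by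
      rintro g y x ⟨hx1, hx2⟩
      exact ⟨c8y_her hx1 _, c8y_p8 g y hx2⟩) J
  have h2 : Nat.card {y : GL (Fin n) F // y ^ k = 1 ∧ P8 τ J y.1} =
      Nat.card {y : GL (Fin n) F // y ∈ ({y | y ^ k = 1} : Set (GL (Fin n) F)) ∧
        (Her τ ε J ∧ P8 τ J y.1)} :=
    Nat.card_congr (Equiv.subtypeEquivRight fun y =>
      ⟨fun h => ⟨h.1, hJ, h.2⟩, fun h => ⟨h.1, h.2.2⟩⟩)
  have h3 : Nat.card (MulAction.stabilizer (GL (Fin n) F) (show c8y_X F n from J)) ≤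
      Nat.card {g : GL (Fin n) F // g.1.transpose * J * g.1.map τ = J} := by
    refine Nat.card_le_card_of_injective
      (fun g : MulAction.stabilizer (GL (Fin n) F) (show c8y_X F n from J) =>
        (⟨g.1⁻¹, g.2⟩ : {g : GL (Fin n) F // g.1.transpose * J * g.1.map τ = J})) ?_
    intro g g' h
    exact Subtype.ext (inv_injective (congrArg Subtype.val h))
  rw [h2]
  exact h1.trans (Nat.mul_le_mul_right _ h3)

/-- the numbers -/
theorem c8y_num (q : ℝ) (hq : 2 ≤ q) (n k : ℕ) (hn : 1 ≤ n) (G N I S : ℝ) (hN : 0 ≤ N)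
    (hG : q ^ (n ^ 2) / 4 ≤ G) (h : G * N ≤ I * S) (hI0 : 0 ≤ I)
    (hI : I ≤ q ^ (((n : ℝ) ^ 2 + n) / 2))
    (hS : S ≤ q ^ (1 + (n : ℝ) / 2) * (4 ^ k * ((n : ℝ) + 1) ^ k *
      q ^ ((n : ℝ) ^ 2 - (1 - 1 / 2) * (n : ℝ) ^ 2 / (k : ℝ)))) :
    N ≤ ((n : ℝ) + 1) ^ ((3 * (k : ℝ) + 2) * n) *
      q ^ ((3 * (k : ℝ) + 2) * n + 1 / 2 * (1 - 1 / (k : ℝ)) * (n : ℝ) ^ 2) := by
  have hq0 : (0 : ℝ) < q := by linarith
  have hq1 : (1 : ℝ) ≤ q := by linarith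
  have hn1 : (1 : ℝ) ≤ (n : ℝ) := by exact_mod_cast hn
  have hn2 : (2 : ℝ) ≤ (n : ℝ) + 1 := by linarith
  have hn0 : (0 : ℝ) < (n : ℝ) + 1 := by linarith
  have hk0 : (0 : ℝ) ≤ (k : ℝ) := Nat.cast_nonneg k
  have e1 : q ^ (n ^ 2) = q ^ ((n : ℝ) ^ 2) := by
    rw [← Real.rpow_natCast]
    push_cast
    rfl
  rw [e1] at hG
  set P : ℝ := q ^ ((n : ℝ) ^ 2) with hP
  have hP0 : 0 < P := Real.rpow_pos_of_pos hq0 _
  have h1 : P / 4 * N ≤ q ^ (((n : ℝ) ^ 2 + n) / 2) * (q ^ (1 + (n : ℝ) / 2) *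
      (4 ^ k * ((n : ℝ) + 1) ^ k * q ^ ((n : ℝ) ^ 2 - (1 - 1 / 2) * (n : ℝ) ^ 2 / (k : ℝ)))) := by
    calc P / 4 * N ≤ G * N := mul_le_mul_of_nonneg_right hG hN
      _ ≤ I * S := h
      _ ≤ I * _ := mul_le_mul_of_nonneg_left hS hI0
      _ ≤ _ := mul_le_mul_of_nonneg_right hI (by positivity)
  have h2 : q ^ (((n : ℝ) ^ 2 + n) / 2) * (q ^ (1 + (n : ℝ) / 2) *
      (4 ^ k * ((n : ℝ) + 1) ^ k * q ^ ((n : ℝ) ^ 2 - (1 - 1 / 2) * (n : ℝ) ^ 2 / (k : ℝ)))) =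
      P / 4 * (4 * 4 ^ k * ((n : ℝ) + 1) ^ k *
        q ^ ((n : ℝ) + 1 + 1 / 2 * (1 - 1 / (k : ℝ)) * (n : ℝ) ^ 2)) := by
    have h3 : q ^ (((n : ℝ) ^ 2 + n) / 2) * q ^ (1 + (n : ℝ) / 2) *
        q ^ ((n : ℝ) ^ 2 - (1 - 1 / 2) * (n : ℝ) ^ 2 / (k : ℝ)) =
        P * q ^ ((n : ℝ) + 1 + 1 / 2 * (1 - 1 / (k : ℝ)) * (n : ℝ) ^ 2) := by
      rw [hP, ← Real.rpow_add hq0, ← Real.rpow_add hq0, ← Real.rpow_add hq0]
      congr 1
      ring
    linear_combination (4 ^ k * ((n : ℝ) + 1) ^ k) * h3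
  rw [h2] at h1
  have h4 : N ≤ 4 * 4 ^ k * ((n : ℝ) + 1) ^ k *
      q ^ ((n : ℝ) + 1 + 1 / 2 * (1 - 1 / (k : ℝ)) * (n : ℝ) ^ 2) :=
    le_of_mul_le_mul_left h1 (by positivity)
  refine h4.trans ?_
  refine mul_le_mul ?_ ?_ (by positivity) (by positivity)
  · have h5 : (4 : ℝ) * 4 ^ k ≤ ((n : ℝ) + 1) ^ (2 * (k : ℝ) + 2) := by
      have h6 : (4 : ℝ) * 4 ^ k = 2 ^ (2 * (k : ℝ) + 2) := by
        rw [Real.rpow_add (by norm_num), Real.rpow_mul (by norm_num), Real.rpow_natCast]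
        norm_num
        ring
      rw [h6]
      exact Real.rpow_le_rpow (by norm_num) hn2 (by positivity)
    calc (4 : ℝ) * 4 ^ k * ((n : ℝ) + 1) ^ k
        ≤ ((n : ℝ) + 1) ^ (2 * (k : ℝ) + 2) * ((n : ℝ) + 1) ^ k :=
          mul_le_mul_of_nonneg_right h5 (by positivity)
      _ = ((n : ℝ) + 1) ^ (3 * (k : ℝ) + 2) := by
          rw [← Real.rpow_natCast ((n : ℝ) + 1) k, ← Real.rpow_add hn0]
          congr 1
          ring
      _ ≤ _ := by
          refine Real.rpow_le_rpow_of_exponent_le (by linarith) ?_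
          nlinarith
  · refine Real.rpow_le_rpow_of_exponent_le hq1 ?_
    nlinarith

theorem t_C8Y : M_C8Y := by
  classical
  intro hPI hORB hISO hFXJ hSQS k hk
  refine ⟨3 * (k : ℝ) + 2, by positivity, ?_⟩
  intro F _ _ n hn hkq z
  obtain ⟨⟨τ, ε, J⟩, hHer, hJ⟩ := z
  change Her τ ε J at hHer
  change IsUnit J at hJ
  change (Nat.card {y : GL (Fin n) F // y ^ k = 1 ∧ P8 τ J y.1} : ℝ) ≤ _
  have hq2 : (2 : ℝ) ≤ (Nat.card F : ℝ) := by
    exact_mod_cast Finite.one_lt_card (α := F)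
  have h1 := c8y_orb hORB k τ ε J hHer
  have h2 := hISO F n τ J hJ
  have : Fintype {y : GL (Fin n) F // y ^ k = 1} := Fintype.ofFinite _
  have hq0 : (0 : ℝ) < (Nat.card F : ℝ) := by linarith
  refine c8y_num (Nat.card F : ℝ) hq2 n k hn (Nat.card (GL (Fin n) F) : ℝ) _
    (Nat.card {g : GL (Fin n) F // g.1.transpose * J * g.1.map τ = J} : ℝ)
    ((∑ᶠ y : {y : GL (Fin n) F // y ^ k = 1},
          Nat.card {J : Matrix (Fin n) (Fin n) F // Her τ ε J ∧ P8 τ J y.1.1} : ℕ) : ℝ)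
    (Nat.cast_nonneg _) (LG.card_GL_ge hPI) ?_ (Nat.cast_nonneg _) h2 ?_
  · exact_mod_cast h1
  · have h3 := hSQS F n k hk hkq (1 / 2) (by norm_num) (by norm_num)
    rw [finsum_eq_sum_of_fintype] at h3 ⊢
    refine le_trans ?_ (mul_le_mul_of_nonneg_left h3 (Real.rpow_nonneg hq0.le _))
    rw [Nat.cast_sum, Finset.mul_sum]
    refine Finset.sum_le_sum fun y _ => ?_
    refine (hFXJ F n k τ ε y.1 hk hkq y.2).trans (le_of_eq ?_)
    rw [← Real.rpow_add hq0]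
    congr 1
    ring

end

end FGE
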