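import Mathlib
import Pool.Agent.FGE.StE

set_option autoImplicit false

namespace FGE

open Polynomial

theorem ctk_comm {F : Type} [Field F] {n : ℕ} {A κ : Matrix (Fin n) (Fin n) F}
    (h : A * κ = κ * A) (p : F[X]) : A * aeval κ p = aeval κ p * A := by
  have hc : Commute A κ := h
  induction p using Polynomial.induction_on' with
  | add p q hp hq => simp only [map_add, mul_add, add_mul, hp, hq]
  | monomial k a =>
    rw [aeval_monomial]
    have h1 : Commute A (algebraMap F (Matrix (Fin n) (Fin n) F) a) := (Algebra.commutes a A).symm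
    exact (h1.mul_right (hc.pow_right k))

/-- abstract form: a field `K` of degree `b` acting on `F^n` through matrices -/
theorem ctk_key {F : Type} [Field F] [Finite F] {n : ℕ} (K : Type) [Field K] [Algebra F K]
    [Module.Finite F K] (φ : K →ₐ[F] Module.End F (Fin n → F))
    (S : Set (Module.End F (Fin n → F))) (hS : ∀ A ∈ S, ∀ c : K, A * φ c = φ c * A) :
    (Nat.card S : ℝ) ≤ (Nat.card F : ℝ) ^ ((n : ℝ) ^ 2 / (Module.finrank F K : ℝ)) := by
  classical
  letI : Module K (Fin n → F) := Module.compHom (Fin n → F) φ.toRingHom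
  have hsm : ∀ (c : K) (v : Fin n → F), c • v = φ c v := fun c v => rfl
  haveI : IsScalarTower F K (Fin n → F) := ⟨by
    intro a c v
    rw [hsm, hsm, map_smul]
    rfl⟩
  haveI : Module.Finite K (Fin n → F) := Module.Finite.of_restrictScalars_finite F K (Fin n → F)
  have hd : Module.finrank F K * Module.finrank K (Fin n → F) = n := by
    rw [Module.finrank_mul_finrank F K (Fin n → F)]
    simp
  set d := Module.finrank K (Fin n → F) with hddef
  set b := Module.finrank F K with hbdef
  have hb : 0 < b := Module.finrank_pos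
  let B : Module.Basis (Fin d) K (Fin n → F) := Module.finBasis K (Fin n → F)
  have hlin : ∀ A ∈ S, ∀ (c : K) (v : Fin n → F), A (c • v) = c • A v := by
    intro A hA c v
    rw [hsm, hsm]
    have := congrArg (fun T : Module.End F (Fin n → F) => T v) (hS A hA c)
    exact this
  let g : S → (Fin d → (Fin n → F)) := fun A i => A.1 (B i)
  have hg : Function.Injective g := by
    intro A A' h
    apply Subtype.ext
    let LA : (Fin n → F) →ₗ[K] (Fin n → F) := ⟨A.1.toAddHom, hlin A.1 A.2⟩
    let LA' : (Fin n → F) →ₗ[K] (Fin n → F) := ⟨A'.1.toAddHom, hlin A'.1 A'.2⟩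
    have hL : LA = LA' := B.ext (fun i => congrFun h i)
    apply LinearMap.ext
    intro v
    exact congrArg (fun T : (Fin n → F) →ₗ[K] (Fin n → F) => T v) hL
  have h1 : Nat.card S ≤ Nat.card (Fin d → (Fin n → F)) := Nat.card_le_card_of_injective g hg
  have h2 : Nat.card (Fin d → (Fin n → F)) = Nat.card F ^ (n * d) := by
    rw [Nat.card_fun, Nat.card_fun]
    simp only [Nat.card_eq_fintype_card, Fintype.card_fin]
    rw [← pow_mul]
  rw [h2] at h1
  have h3 : ((n : ℝ) ^ 2 / (b : ℝ)) = ((n * d : ℕ) : ℝ) := by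
    have hb' : (b : ℝ) ≠ 0 := by positivity
    rw [div_eq_iff hb']
    have : (n : ℝ) = (b : ℝ) * (d : ℝ) := by exact_mod_cast hd.symm
    push_cast
    rw [this]
    ring
  rw [h3, Real.rpow_natCast]
  exact_mod_cast h1

theorem t_CTK : S_CTK := by
  intro F _ _ n f hf κ hκ
  haveI : Fact (Irreducible f) := ⟨hf⟩
  classical
  let φ0 : F[X] →ₐ[F] Module.End F (Fin n → F) :=
    (Matrix.toLinAlgEquiv' : Matrix (Fin n) (Fin n) F ≃ₐ[F] _).toAlgHom.comp (aeval κ)
  have h0 : ∀ p : F[X], φ0 p = Matrix.toLinAlgEquiv' (aeval κ p) := fun p => rfl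
  have hker : ∀ p : F[X], p ∈ Ideal.span {f} → (φ0 : F[X] →+* Module.End F (Fin n → F)) p = 0 := by
    intro p hp
    obtain ⟨q, rfl⟩ := Ideal.mem_span_singleton.mp hp
    show φ0 (f * q) = 0
    rw [h0, map_mul, hκ, zero_mul, map_zero]
  let φr : AdjoinRoot f →+* Module.End F (Fin n → F) :=
    Ideal.Quotient.lift (Ideal.span {f}) (φ0 : F[X] →+* Module.End F (Fin n → F)) hker
  have hmk : ∀ p : F[X], φr (AdjoinRoot.mk f p) = Matrix.toLinAlgEquiv' (aeval κ p) := fun p => rfl
  let φ : AdjoinRoot f →ₐ[F] Module.End F (Fin n → F) :=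
    { φr with
      commutes' := by
        intro r
        have h1 : algebraMap F (AdjoinRoot f) r = AdjoinRoot.mk f (Polynomial.C r) := rfl
        show φr (algebraMap F (AdjoinRoot f) r) = _
        rw [h1, hmk, aeval_C]
        exact AlgEquiv.commutes _ r }
  have hφ : ∀ p : F[X], φ (AdjoinRoot.mk f p) = Matrix.toLinAlgEquiv' (aeval κ p) := fun p => rfl
  haveI : Module.Finite F (AdjoinRoot f) :=
    (AdjoinRoot.powerBasis hf.ne_zero).finite
  have hfr : Module.finrank F (AdjoinRoot f) = f.natDegree :=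
    (AdjoinRoot.powerBasis hf.ne_zero).finrank.trans (AdjoinRoot.powerBasis_dim hf.ne_zero)
  have hkey := ctk_key (AdjoinRoot f) φ
    {T | ∃ A : Matrix (Fin n) (Fin n) F, A * κ = κ * A ∧ T = Matrix.toLinAlgEquiv' A} (by
      rintro T ⟨A, hA, rfl⟩ c
      obtain ⟨p, rfl⟩ := AdjoinRoot.mk_surjective c
      rw [hφ, ← map_mul, ← map_mul, ctk_comm hA])
  rw [hfr] at hkey
  refine le_trans ?_ hkey
  have hinj : Nat.card {A : Matrix (Fin n) (Fin n) F // A * κ = κ * A} ≤
      Nat.card {T | ∃ A : Matrix (Fin n) (Fin n) F, A * κ = κ * A ∧ T = Matrix.toLinAlgEquiv' A} := by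
    haveI : Finite {T : Module.End F (Fin n → F) |
        ∃ A : Matrix (Fin n) (Fin n) F, A * κ = κ * A ∧ T = Matrix.toLinAlgEquiv' A} := by
      haveI : Finite (Module.End F (Fin n → F)) :=
        Finite.of_equiv _ (Matrix.toLinAlgEquiv' : Matrix (Fin n) (Fin n) F ≃ₐ[F] _).toEquiv
      infer_instance
    refine Nat.card_le_card_of_injective
      (fun A => ⟨Matrix.toLinAlgEquiv' A.1, A.1, A.2, rfl⟩) ?_
    intro A A' h
    apply Subtype.ext
    have := congrArg Subtype.val h
    exact Matrix.toLinAlgEquiv'.injective this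
  exact_mod_cast hinj

end FGE
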