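import Mathlib
import Pool.Agent.FGE.StE

/-!
# FXJ: the number of the forms preserved up to scalars by an element of finite order
-/

set_option autoImplicit false

namespace FGE

open RSF FL0 Polynomial

noncomputable section

/-- the transformed form `Pᵀ J P^τ` -/
def fxj_tr {F : Type} [Field F] {n : ℕ} (τ : F ≃+* F) (P J : Matrix (Fin n) (Fin n) F) :
    Matrix (Fin n) (Fin n) F := P.transpose * J * P.map τ

theorem fxj_map_mul {F : Type} [Field F] {n : ℕ} (τ : F ≃+* F) (A B : Matrix (Fin n) (Fin n) F) :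
    (A * B).map τ = A.map τ * B.map τ := by
  ext i j
  simp only [Matrix.map_apply, Matrix.mul_apply, map_sum, map_mul]

theorem fxj_her {F : Type} [Field F] {n : ℕ} {τ : F ≃+* F} {ε : F}
    {J : Matrix (Fin n) (Fin n) F} (h : Her τ ε J) (P : Matrix (Fin n) (Fin n) F) :
    Her τ ε (fxj_tr τ P J) := by
  obtain ⟨h1, h2, h3⟩ := h
  refine ⟨h1, h2, ?_⟩
  have hPP : (P.map τ).map τ = P := by
    ext i j
    simp only [Matrix.map_apply, h1]
  unfold fxj_tr
  rw [Matrix.transpose_mul, Matrix.transpose_mul, Matrix.transpose_transpose, h3, fxj_map_mul,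
    fxj_map_mul, hPP, Matrix.transpose_map, Matrix.smul_mul, Matrix.mul_smul, Matrix.mul_assoc]

theorem fxj_diag {F : Type} [Field F] {n : ℕ} {τ : F ≃+* F}
    {P J y : Matrix (Fin n) (Fin n) F} {l : Fin n → F} {c : F}
    (hy : y * P = P * Matrix.diagonal l) (hJ : y.transpose * J * y.map τ = c • J) (i j : Fin n) :
    l i * fxj_tr τ P J i j * τ (l j) = c * fxj_tr τ P J i j := by
  have e1 : (y * P).transpose * J * (y * P).map τ =
      P.transpose * (y.transpose * J * y.map τ) * P.map τ := by
    rw [Matrix.transpose_mul, fxj_map_mul]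
    simp only [Matrix.mul_assoc]
  have e2 : (P * Matrix.diagonal l).transpose * J * (P * Matrix.diagonal l).map τ =
      Matrix.diagonal l * fxj_tr τ P J * (Matrix.diagonal l).map τ := by
    rw [Matrix.transpose_mul, fxj_map_mul, Matrix.diagonal_transpose]
    unfold fxj_tr
    simp only [Matrix.mul_assoc]
  have e3 : Matrix.diagonal l * fxj_tr τ P J * (Matrix.diagonal l).map τ =
      c • fxj_tr τ P J := by
    rw [← e2, ← hy, e1, hJ, Matrix.mul_smul, Matrix.smul_mul]
    rfl
  have e4 := congrFun (congrFun e3 i) j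
  have e5 : (Matrix.diagonal l).map τ = Matrix.diagonal (fun i => τ (l i)) := by
    rw [Matrix.diagonal_map (map_zero τ)]
  rw [e5, Matrix.mul_diagonal, Matrix.diagonal_mul, Matrix.smul_apply, smul_eq_mul] at e4
  exact e4

/-- the number of pairs -/
theorem fxj_pairs {F : Type} [Field F] [Fintype F] [DecidableEq F] {n : ℕ} (τ : F ≃+* F)
    (hτ : ∀ x, τ (τ x) = x) (l : Fin n → F) (hl : ∀ i, l i ≠ 0) {c : F} (hc : c ≠ 0)
    (hτc : τ c = c) :
    (Finset.univ.filter (fun p : Fin n × Fin n => l p.1 * τ (l p.2) = c)).card ≤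
      ∑ ζ : F, (Finset.univ.filter (fun i : Fin n => l i = ζ)).card ^ 2 := by
  have hφ : Function.Involutive (fun ζ : F => τ (c / ζ)) := by
    intro ζ
    by_cases h0 : ζ = 0
    · subst h0
      simp only [div_zero, map_zero]
    · change τ (c / τ (c / ζ)) = ζ
      rw [map_div₀, hτ, hτc, div_div_cancel₀ hc]
  set M : F → ℕ := fun ζ => (Finset.univ.filter (fun i : Fin n => l i = ζ)).card with hM
  have h1 : (Finset.univ.filter (fun p : Fin n × Fin n => l p.1 * τ (l p.2) = c)).card =
      ∑ ζ : F, M ζ * M (τ (c / ζ)) := by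
    rw [Finset.card_eq_sum_card_fiberwise (f := fun p : Fin n × Fin n => l p.1)
      (t := Finset.univ) (fun _ _ => Finset.mem_coe.2 (Finset.mem_univ _))]
    refine Finset.sum_congr rfl fun ζ _ => ?_
    rw [hM]
    simp only
    rw [← Finset.card_product]
    congr 1
    ext p
    simp only [Finset.mem_filter, Finset.mem_univ, true_and, Finset.mem_product]
    constructor
    · rintro ⟨h, h'⟩
      refine ⟨h', ?_⟩
      rw [← h', ← h, mul_div_cancel_left₀ _ (hl p.1), hτ]
    · rintro ⟨h, h'⟩
      refine ⟨?_, h⟩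
      rw [h', h, hτ, mul_div_cancel₀]
      rw [← h]
      exact hl p.1
  have h2 : ∑ ζ : F, M (τ (c / ζ)) ^ 2 = ∑ ζ : F, M ζ ^ 2 :=
    Equiv.sum_comp hφ.toPerm (fun ζ => M ζ ^ 2)
  have h3 : 2 * ∑ ζ : F, M ζ * M (τ (c / ζ)) ≤ ∑ ζ : F, M ζ ^ 2 + ∑ ζ : F, M (τ (c / ζ)) ^ 2 := by
    rw [Finset.mul_sum, ← Finset.sum_add_distrib]
    refine Finset.sum_le_sum fun ζ _ => ?_
    have := two_mul_le_add_sq (M ζ) (M (τ (c / ζ)))
    rw [← mul_assoc]
    exact this
  rw [h1]
  change _ ≤ ∑ ζ : F, M ζ ^ 2
  omega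

/-- the number of the pairs `i ≤ j` -/
theorem fxj_half {F : Type} [Field F] [Fintype F] [DecidableEq F] {n : ℕ} (τ : F ≃+* F)
    (hτ : ∀ x, τ (τ x) = x) (l : Fin n → F) (hl : ∀ i, l i ≠ 0) {c : F} (hc : c ≠ 0)
    (hτc : τ c = c) :
    2 * (Finset.univ.filter (fun p : Fin n × Fin n => p.1 ≤ p.2 ∧ l p.1 * τ (l p.2) = c)).card ≤
      (∑ ζ : F, (Finset.univ.filter (fun i : Fin n => l i = ζ)).card ^ 2) + n := by
  refine le_trans ?_ (Nat.add_le_add_right (fxj_pairs τ hτ l hl hc hτc) n)
  set T := Finset.univ.filter (fun p : Fin n × Fin n => p.1 ≤ p.2 ∧ l p.1 * τ (l p.2) = c) with hT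
  have h1 : (T.image Prod.swap).card = T.card :=
    Finset.card_image_of_injective _ Prod.swap_injective
  have h2 := Finset.card_union_add_card_inter T (T.image Prod.swap)
  have hmem : ∀ p, p ∈ T.image Prod.swap ↔ p.swap ∈ T := by
    intro p
    rw [Finset.mem_image]
    constructor
    · rintro ⟨q, hq, rfl⟩
      rwa [Prod.swap_swap]
    · intro h
      exact ⟨p.swap, h, Prod.swap_swap p⟩
  have h3 : T ∪ T.image Prod.swap ⊆
      Finset.univ.filter (fun p : Fin n × Fin n => l p.1 * τ (l p.2) = c) := by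
    intro p hp
    rw [Finset.mem_union, hmem, hT, Finset.mem_filter, Finset.mem_filter] at hp
    rw [Finset.mem_filter]
    refine ⟨Finset.mem_univ _, ?_⟩
    rcases hp with ⟨_, _, hp⟩ | ⟨_, _, hp⟩
    · exact hp
    · rw [Prod.fst_swap, Prod.snd_swap] at hp
      have := congrArg τ hp
      rw [map_mul, hτ, hτc, mul_comm] at this
      exact this
  have h4 : T ∩ T.image Prod.swap ⊆ Finset.univ.image (fun i : Fin n => (i, i)) := by
    intro p hp
    rw [Finset.mem_inter, hmem, hT, Finset.mem_filter, Finset.mem_filter] at hp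
    obtain ⟨⟨_, h, _⟩, _, h', _⟩ := hp
    rw [Prod.fst_swap, Prod.snd_swap] at h'
    rw [Finset.mem_image]
    exact ⟨p.1, Finset.mem_univ _, Prod.ext rfl (le_antisymm h h')⟩
  have h5 := Finset.card_le_card h3
  have h6 := (Finset.card_le_card h4).trans Finset.card_image_le
  rw [Finset.card_univ, Fintype.card_fin] at h6
  omega

theorem fxj_one_le {F : Type} [Field F] [Finite F] : (1 : ℝ) ≤ (Nat.card F : ℝ) := by
  exact_mod_cast Nat.one_le_iff_ne_zero.2 Nat.card_pos.ne'

/-- the number of the forms for one scalar `c`, for a diagonal element -/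
theorem fxj_count {F : Type} [Field F] [Fintype F] [DecidableEq F] {n : ℕ} (τ : F ≃+* F) (ε : F)
    (l : Fin n → F) (hl : ∀ i, l i ≠ 0) (c : F) (A : Set (Matrix (Fin n) (Fin n) F))
    (hA : ∀ J ∈ A, Her τ ε J ∧ ∀ i j, l i * J i j * τ (l j) = c * J i j) :
    (A.ncard : ℝ) ≤ (Nat.card F : ℝ) ^
      ((((∑ ζ : F, (Finset.univ.filter (fun i : Fin n => l i = ζ)).card ^ 2 : ℕ) : ℝ) + n) / 2) := by
  have hq : (1 : ℝ) ≤ (Nat.card F : ℝ) := fxj_one_le
  by_cases h0 : A ⊆ {0}
  · have h1 : A.ncard ≤ 1 := by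
      rw [← Set.ncard_singleton (0 : Matrix (Fin n) (Fin n) F)]
      exact Set.ncard_le_ncard h0 (Set.finite_singleton _)
    refine le_trans (Nat.cast_le.2 h1) ?_
    rw [Nat.cast_one]
    exact Real.one_le_rpow hq (by positivity)
  · rw [Set.not_subset] at h0
    obtain ⟨J₀, hJ₀, hne⟩ := h0
    obtain ⟨⟨hτ, hε, hher⟩, hd⟩ := hA J₀ hJ₀
    have hε0 : ε ≠ 0 := by
      rcases hε with h | h
      · rw [h]
        exact one_ne_zero
      · rw [h]
        exact neg_ne_zero.2 one_ne_zero
    obtain ⟨i, j, hij⟩ : ∃ i j, J₀ i j ≠ 0 := by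
      by_contra hcon
      push Not at hcon
      exact hne (Set.mem_singleton_iff.2 (by
        ext i j
        exact hcon i j))
    have hji : J₀ j i ≠ 0 := by
      have := congrFun (congrFun hher i) j
      rw [Matrix.transpose_apply, Matrix.smul_apply, Matrix.map_apply, smul_eq_mul] at this
      rw [this]
      exact mul_ne_zero hε0 (fun h => hij ((map_eq_zero τ).1 h))
    have e1 : l i * τ (l j) = c := by
      have := hd i j
      apply mul_right_cancel₀ hij
      rw [← this]
      ring
    have e2 : l j * τ (l i) = c := by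
      have := hd j i
      apply mul_right_cancel₀ hji
      rw [← this]
      ring
    have hc : c ≠ 0 := by
      rw [← e1]
      exact mul_ne_zero (hl i) (fun h => hl j ((map_eq_zero τ).1 h))
    have hτc : τ c = c := by
      rw [← e1, map_mul, hτ, e1, mul_comm, e2]
    set T := Finset.univ.filter (fun p : Fin n × Fin n => p.1 ≤ p.2 ∧ l p.1 * τ (l p.2) = c)
      with hT
    have hinj : Function.Injective (fun (J : A) (p : T) => J.1 p.1.1 p.1.2) := by
      intro J K hJK
      have key : ∀ i j, i ≤ j → J.1 i j = K.1 i j := by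
        intro i j hle
        by_cases hS : l i * τ (l j) = c
        · have hm : (i, j) ∈ T := by
            rw [hT, Finset.mem_filter]
            exact ⟨Finset.mem_univ _, hle, hS⟩
          exact congrFun hJK ⟨(i, j), hm⟩
        · have hz : ∀ J ∈ A, J i j = 0 := by
            intro J hJ
            by_contra hne
            apply hS
            apply mul_right_cancel₀ hne
            rw [← (hA J hJ).2 i j]
            ring
          rw [hz J.1 J.2, hz K.1 K.2]
      apply Subtype.ext
      ext i j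
      rcases le_total i j with h | h
      · exact key i j h
      · have hs : ∀ J ∈ A, J i j = ε * τ (J j i) := by
          intro J hJ
          have := congrFun (congrFun (hA J hJ).1.2.2 j) i
          rw [Matrix.transpose_apply, Matrix.smul_apply, Matrix.map_apply, smul_eq_mul] at this
          exact this
        rw [hs J.1 J.2, hs K.1 K.2, key j i h]
    have h1 : A.ncard ≤ Nat.card F ^ T.card := by
      have := Nat.card_le_card_of_injective _ hinj
      rw [Nat.card_fun, Nat.card_eq_fintype_card (α := T), Fintype.card_coe] at this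
      exact this
    have h2 := fxj_half τ hτ l hl hc hτc
    rw [← hT] at h2
    refine (Nat.cast_le.2 h1).trans ?_
    rw [Nat.cast_pow, ← Real.rpow_natCast]
    apply Real.rpow_le_rpow_of_exponent_le hq
    have h3 : (2 : ℝ) * T.card ≤
      ((∑ ζ : F, (Finset.univ.filter (fun i : Fin n => l i = ζ)).card ^ 2 : ℕ) : ℝ) + n := by
      exact_mod_cast h2
    linarith

theorem t_FXJ : M_FXJ := by
  intro hDIA F _ _ n k τ ε y hk hkq hy
  classical
  have : Fintype F := Fintype.ofFinite F
  have hq : (1 : ℝ) ≤ (Nat.card F : ℝ) := fxj_one_le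
  have hy1 : y.1 ^ k = 1 := by
    rw [← Units.val_pow_eq_pow_val, hy, Units.val_one]
  have hlm : lm y.1 ^ k = 1 := by
    unfold lm
    rw [← Matrix.toLin'_pow, hy1, Matrix.toLin'_one]
    rfl
  obtain ⟨b, l, hb, hl, hev⟩ := hDIA F (Fin n → F) k hk hkq (lm y.1) hlm
  have hfr : Module.finrank F (Fin n → F) = n := Module.finrank_fin_fun F
  set e := finCongr hfr with he
  set b' := b.reindex e with hb'
  set l' : Fin n → F := fun i => l (e.symm i) with hl'
  have hb1 : ∀ i, lm y.1 (b' i) = l' i • b' i := by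
    intro i
    rw [hb', Module.Basis.reindex_apply, hb]
  have hl0 : ∀ i, l' i ≠ 0 := by
    intro i h
    have := hl (e.symm i)
    rw [hl'] at h
    simp only at h
    rw [h, zero_pow (by omega)] at this
    exact zero_ne_one this
  set P : Matrix (Fin n) (Fin n) F := (Pi.basisFun F (Fin n)).toMatrix b' with hP
  have hPu : IsUnit P := by
    have := (Pi.basisFun F (Fin n)).invertibleToMatrix b'
    exact isUnit_of_invertible P
  have hPt : IsUnit P.transpose := by
    rw [Matrix.isUnit_iff_isUnit_det, Matrix.det_transpose, ← Matrix.isUnit_iff_isUnit_det]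
    exact hPu
  have hPτ : IsUnit (P.map τ) := by
    have := hPu.map (τ : F →+* F).mapMatrix
    exact this
  have hinj : Function.Injective (fxj_tr τ P) := by
    intro J K h
    unfold fxj_tr at h
    exact hPt.mul_left_cancel (hPτ.mul_right_cancel h)
  have hyP : y.1 * P = P * Matrix.diagonal l' := by
    ext i j
    rw [Matrix.mul_diagonal]
    have h := congrFun (hb1 j) i
    rw [Pi.smul_apply, smul_eq_mul] at h
    have hPij : ∀ i, P i j = b' j i := by
      intro i
      rw [hP, Module.Basis.toMatrix_apply, Pi.basisFun_repr]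
    rw [hPij i, mul_comm, ← h, Matrix.mul_apply]
    unfold lm
    rw [Matrix.toLin'_apply]
    simp only [Matrix.mulVec, dotProduct, hPij]
  have hsq : FL0.sq (lm y.1) =
      ∑ ζ : F, (Finset.univ.filter (fun i : Fin n => l' i = ζ)).card ^ 2 := by
    unfold FL0.sq
    rw [finsum_eq_sum_of_fintype]
    refine Finset.sum_congr rfl fun ζ _ => ?_
    rw [hev ζ, Nat.card_eq_fintype_card, Fintype.card_subtype]
    congr 1
    refine Finset.card_bij (fun i _ => e i) ?_ ?_ ?_
    · intro i hi
      rw [Finset.mem_filter] at hi ⊢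
      refine ⟨Finset.mem_univ _, ?_⟩
      rw [hl']
      simp only [Equiv.symm_apply_apply]
      exact hi.2
    · intro i _ j _ h
      exact e.injective h
    · intro i hi
      rw [Finset.mem_filter] at hi
      refine ⟨e.symm i, ?_, e.apply_symm_apply i⟩
      rw [Finset.mem_filter]
      exact ⟨Finset.mem_univ _, hi.2⟩
  set A : F → Set (Matrix (Fin n) (Fin n) F) := fun c =>
    {J | Her τ ε J ∧ y.1.transpose * J * y.1.map τ = c • J} with hAdef
  have hAc : ∀ c, ((A c).ncard : ℝ) ≤ (Nat.card F : ℝ) ^ (((FL0.sq (lm y.1) : ℝ) + n) / 2) := by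
    intro c
    rw [← Set.ncard_image_of_injective (A c) hinj, hsq]
    apply fxj_count τ ε l' hl0 c
    rintro _ ⟨J, ⟨hJ1, hJ2⟩, rfl⟩
    exact ⟨fxj_her hJ1 P, fun i j => fxj_diag hyP hJ2 i j⟩
  have hU : Nat.card {J : Matrix (Fin n) (Fin n) F // Her τ ε J ∧ P8 τ J y.1} =
      (⋃ c, A c).ncard := by
    have : {J : Matrix (Fin n) (Fin n) F | Her τ ε J ∧ P8 τ J y.1} = ⋃ c, A c := by
      ext J
      rw [Set.mem_iUnion]
      constructor
      · rintro ⟨h1, c, h2⟩
        exact ⟨c, h1, h2⟩
      · rintro ⟨c, h1, h2⟩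
        exact ⟨h1, c, h2⟩
    rw [← this]
    rfl
  rw [hU]
  have h1 := Set.ncard_iUnion_le_of_fintype A
  refine (Nat.cast_le.2 h1).trans ?_
  rw [Nat.cast_sum]
  refine (Finset.sum_le_sum fun c _ => hAc c).trans ?_
  rw [Finset.sum_const, Finset.card_univ, ← Nat.card_eq_fintype_card, nsmul_eq_mul,
    Real.rpow_add (by linarith), Real.rpow_one]

end

end FGE
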