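import Mathlib
import Pool.Agent.FGE.StE

/-!
# The number of isometries of a nondegenerate form over a finite field

MP_5b5212_al, module ISO of project FGE: the columns of an isometry are counted one after the other.
-/

set_option autoImplicit false

namespace FGE

open Matrix

/-- the solutions of `k` independent affine equations -/
lemma iso_fiber {F : Type} [Field F] [Finite F] {n k : ℕ} (J : Matrix (Fin n) (Fin n) F)
    (hJ : IsUnit J) (v : Matrix (Fin k) (Fin n) F) (hv : LinearIndependent F v) (d : Fin k → F) :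
    Nat.card {w : Fin n → F // (v * J) *ᵥ w = d} ≤ Nat.card F ^ (n - k) := by
  classical
  have hr : (v * J).rank = k := by
    rw [Matrix.rank_mul_eq_left_of_isUnit_det J v ((Matrix.isUnit_iff_isUnit_det J).1 hJ)]
    simpa using hv.rank_matrix
  have hk : Module.finrank F (LinearMap.ker (v * J).mulVecLin) = n - k := by
    have h1 := LinearMap.finrank_range_add_finrank_ker (v * J).mulVecLin
    have h2 : Module.finrank F (LinearMap.range (v * J).mulVecLin) = k := hr
    rw [h2, Module.finrank_fintype_fun_eq_card, Fintype.card_fin] at h1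
    omega
  by_cases hne : Nonempty {w : Fin n → F // (v * J) *ᵥ w = d}
  · obtain ⟨w0, hw0⟩ := hne
    have h3 : Nat.card {w : Fin n → F // (v * J) *ᵥ w = d} ≤
        Nat.card (LinearMap.ker (v * J).mulVecLin) := by
      refine Nat.card_le_card_of_injective (fun w => ⟨w.1 - w0, ?_⟩) ?_
      · rw [LinearMap.mem_ker, Matrix.mulVecLin_apply, Matrix.mulVec_sub, w.2, hw0, sub_self]
      · intro a b hab
        have h4 := congrArg Subtype.val hab
        exact Subtype.ext (sub_left_inj.1 h4)
    refine h3.trans (le_of_eq ?_)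
    rw [Module.natCard_eq_pow_finrank (K := F), hk]
  · rw [not_nonempty_iff] at hne
    rw [Nat.card_of_isEmpty]
    exact Nat.zero_le _

/-- independent families with prescribed values of the form on the pairs `i < l` -/
def iso_T {F : Type} [Field F] (n : ℕ) (τ : F ≃+* F) (J : Matrix (Fin n) (Fin n) F)
    (c : ℕ → ℕ → F) (k : ℕ) : Type :=
  {v : Fin k → Fin n → F // LinearIndependent F v ∧ ∀ i l : Fin k, i < l →
    ((Matrix.of v * J) *ᵥ (fun x => τ (v l x))) i = c i l}

instance iso_fin {F : Type} [Field F] [Finite F] (n : ℕ) (τ : F ≃+* F)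
    (J : Matrix (Fin n) (Fin n) F) (c : ℕ → ℕ → F) (k : ℕ) : Finite (iso_T n τ J c k) := by
  unfold iso_T
  infer_instance

lemma iso_step {F : Type} [Field F] [Finite F] (n : ℕ) (τ : F ≃+* F)
    (J : Matrix (Fin n) (Fin n) F) (hJ : IsUnit J) (c : ℕ → ℕ → F) (k : ℕ) :
    Nat.card (iso_T n τ J c (k + 1)) ≤ Nat.card (iso_T n τ J c k) * Nat.card F ^ (n - k) := by
  classical
  have h1 : Nat.card (iso_T n τ J c (k + 1)) ≤
      Nat.card (Σ v : iso_T n τ J c k,
        {w : Fin n → F // (Matrix.of v.1 * J) *ᵥ w = fun i : Fin k => c i k}) := by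
    refine Nat.card_le_card_of_injective (fun v =>
      ⟨⟨fun i => v.1 i.castSucc, v.2.1.comp _ (Fin.castSucc_injective k), ?_⟩,
        ⟨fun x => τ (v.1 (Fin.last k) x), ?_⟩⟩) ?_
    · intro i l hil
      exact v.2.2 i.castSucc l.castSucc (Fin.castSucc_lt_castSucc_iff.2 hil)
    · funext i
      exact v.2.2 i.castSucc (Fin.last k) (Fin.castSucc_lt_last i)
    · intro a b hab
      have h2 : (fun i : Fin k => a.1 i.castSucc) = fun i : Fin k => b.1 i.castSucc :=
        congrArg (fun s : (Σ v : iso_T n τ J c k,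
          {w : Fin n → F // (Matrix.of v.1 * J) *ᵥ w = fun i : Fin k => c i k}) => s.1.1) hab
      have h3 : (fun x => τ (a.1 (Fin.last k) x)) = fun x => τ (b.1 (Fin.last k) x) :=
        congrArg (fun s : (Σ v : iso_T n τ J c k,
          {w : Fin n → F // (Matrix.of v.1 * J) *ᵥ w = fun i : Fin k => c i k}) => s.2.1) hab
      refine Subtype.ext (funext fun i => ?_)
      refine Fin.lastCases ?_ (fun i => ?_) i
      · funext x
        exact τ.injective (congrFun h3 x)
      · exact congrFun h2 i
  refine h1.trans ?_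
  have := Fintype.ofFinite (iso_T n τ J c k)
  rw [Nat.card_sigma, Nat.card_eq_fintype_card (α := iso_T n τ J c k)]
  calc ∑ v : iso_T n τ J c k, Nat.card
          {w : Fin n → F // (Matrix.of v.1 * J) *ᵥ w = fun i : Fin k => c i k}
      ≤ ∑ _v : iso_T n τ J c k, Nat.card F ^ (n - k) :=
        Finset.sum_le_sum fun v _ => iso_fiber J hJ (Matrix.of v.1) v.2.1 _
    _ = Fintype.card (iso_T n τ J c k) * Nat.card F ^ (n - k) := by
        rw [Finset.sum_const, Finset.card_univ, smul_eq_mul]

lemma iso_T_card {F : Type} [Field F] [Finite F] (n : ℕ) (τ : F ≃+* F)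
    (J : Matrix (Fin n) (Fin n) F) (hJ : IsUnit J) (c : ℕ → ℕ → F) (k : ℕ) :
    Nat.card (iso_T n τ J c k) ≤ Nat.card F ^ (∑ j ∈ Finset.range k, (n - j)) := by
  induction k with
  | zero =>
    have h1 : Subsingleton (iso_T n τ J c 0) :=
      ⟨fun a b => Subtype.ext (funext fun i => i.elim0)⟩
    have h2 := Finite.card_le_one_iff_subsingleton.2 h1
    simpa using h2
  | succ k ih =>
    refine (iso_step n τ J hJ c k).trans ?_
    rw [Finset.sum_range_succ, pow_add]
    exact Nat.mul_le_mul_right _ ih

lemma iso_sum (n : ℕ) : 2 * ∑ j ∈ Finset.range n, (n - j) = n ^ 2 + n := by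
  have h1 : ∑ j ∈ Finset.range n, (n - j) = ∑ j ∈ Finset.range n, (j + 1) := by
    rw [← Finset.sum_range_reflect]
    refine Finset.sum_congr rfl fun j hj => ?_
    have := Finset.mem_range.1 hj
    omega
  rw [h1, Finset.sum_add_distrib, Finset.sum_const, Finset.card_range, smul_eq_mul, mul_one]
  have h2 := Finset.sum_range_id_mul_two n
  rcases n with _ | n
  · simp
  · simp only [Nat.add_sub_cancel] at h2
    nlinarith

theorem t_ISO : S_ISO := by
  intro F _ _ n τ J hJ
  classical
  set c : ℕ → ℕ → F := fun i l => if h : i < n ∧ l < n then J ⟨i, h.1⟩ ⟨l, h.2⟩ else 0 with hc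
  have h1 : Nat.card {g : GL (Fin n) F // g.1.transpose * J * g.1.map τ = J} ≤
      Nat.card (iso_T n τ J c n) := by
    refine Nat.card_le_card_of_injective (fun g => ⟨fun i => g.1.1.transpose i, ?_, ?_⟩) ?_
    · have h2 : IsUnit g.1.1.transpose := by
        rw [Matrix.isUnit_iff_isUnit_det, Matrix.det_transpose,
          ← Matrix.isUnit_iff_isUnit_det]
        exact g.1.isUnit
      exact Matrix.linearIndependent_rows_iff_isUnit.2 h2
    · intro i l _
      have h3 : c i l = J i l := by
        rw [hc]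
        exact dif_pos ⟨i.2, l.2⟩
      rw [h3]
      exact congrFun (congrFun g.2 i) l
    · intro a b hab
      have h4 : (fun i => a.1.1.transpose i) = fun i => b.1.1.transpose i :=
        congrArg (fun s : iso_T n τ J c n => s.1) hab
      refine Subtype.ext (Units.ext (Matrix.ext fun i j => ?_))
      exact congrFun (congrFun h4 j) i
  have h2 := h1.trans (iso_T_card n τ J hJ c n)
  have h3 : (((n : ℝ) ^ 2 + n) / 2) = ((∑ j ∈ Finset.range n, (n - j) : ℕ) : ℝ) := by
    have h4 := iso_sum n
    have h5 : (2 : ℝ) * ((∑ j ∈ Finset.range n, (n - j) : ℕ) : ℝ) = (n : ℝ) ^ 2 + n := by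
      exact_mod_cast h4
    linarith
  rw [h3, Real.rpow_natCast]
  exact_mod_cast h2

end FGE
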