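import Mathlib
import Pool.Agent.FGE.StE

/-!
# Module `JGL`: the number of the solutions of `A ^ k = β`
-/

set_option autoImplicit false

namespace FGE

open RSF FL0 Polynomial

theorem t_JGL : M_JGL := by
  intro hT F V _ _ _ _ _ k β hk
  have hV : Finite V := Module.finite_of_finite F
  have hE : Finite (Module.End F V) := Module.finite_of_finite F
  have hS : Finite (Submodule F V) := inferInstance
  have h1 : (X ^ k - Polynomial.C β : F[X]).Monic := monic_X_pow_sub_C β (by omega)
  have h2 : (X ^ k - Polynomial.C β : F[X]).natDegree = k := natDegree_X_pow_sub_C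
  have h3 := hT F V (X ^ k - Polynomial.C β) h1 (by rw [h2]; exact hk) 0
  rw [h2] at h3
  have h4 : Nat.card {A : Module.End F V // A ^ k = β • (1 : Module.End F V)} ≤
      nT F V (X ^ k - Polynomial.C β) 0 := by
    refine Nat.card_le_card_of_injective (fun A => (⟨(A.1, ⊥), ?_, ?_, ?_⟩ :
      {p : Module.End F V × Submodule F V // aeval p.1 (X ^ k - Polynomial.C β : F[X]) = 0 ∧
        Module.finrank F p.2 = 0 ∧ ∀ w ∈ p.2, p.1 w ∈ p.2})) ?_
    · show aeval A.1 (X ^ k - Polynomial.C β : F[X]) = 0
      rw [map_sub, map_pow, aeval_X, aeval_C, A.2, Algebra.algebraMap_eq_smul_one, sub_self]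
    · exact finrank_bot F V
    · intro w hw
      rw [Submodule.mem_bot] at hw
      rw [hw, map_zero]
      exact Submodule.zero_mem _
    · intro A B hAB
      have := congrArg (fun p => p.1.1) hAB
      exact Subtype.ext this
  have h5 : (Nat.card {A : Module.End F V // A ^ k = β • (1 : Module.End F V)} : ℝ) ≤
      (nT F V (X ^ k - Polynomial.C β) 0 : ℝ) := by exact_mod_cast h4
  refine h5.trans (h3.trans (le_of_eq ?_))
  congr 2
  rw [QQ]
  push_cast
  ring

end FGE
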