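import Mathlib
import Pool.Agent.FGE.StE

/-!
# KAP: the matrices that multiply the eigenvalues of `y` by `ω`
-/

set_option autoImplicit false

namespace FGE

open RSF FL0 Polynomial

/-- A transversal of the orbits of the multiplication by `ω`. -/
theorem kap_trans {F : Type} [Field F] [Finite F] (b : ℕ) (hb : b.Prime) (ω : F) (h1 : ω ≠ 1)
    (hω : ω ^ b = 1) :
    ∃ t : F → Prop, ∀ ζ : F, ζ ≠ 0 → (∃ i, i < b ∧ t (ω ^ i * ζ)) ∧
      ∀ i j, i < b → j < b → t (ω ^ i * ζ) → t (ω ^ j * ζ) → i = j := by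
  classical
  have : Fact b.Prime := ⟨hb⟩
  have hord : orderOf ω = b := orderOf_eq_prime hω h1
  obtain ⟨m, ⟨e⟩⟩ := Finite.exists_equiv_fin F
  refine ⟨fun ζ => ∀ i : ℕ, (e ζ).val ≤ (e (ω ^ i * ζ)).val, fun ζ hζ => ⟨?_, ?_⟩⟩
  · have hex : ∃ N : ℕ, ∃ i : ℕ, (e (ω ^ i * ζ)).val = N := ⟨_, 0, rfl⟩
    obtain ⟨i, hi⟩ := Nat.find_spec hex
    have hmod : ω ^ (i % b) = ω ^ i := by
      conv_rhs => rw [← Nat.div_add_mod i b, pow_add, pow_mul, hω, one_pow, one_mul]
    refine ⟨i % b, Nat.mod_lt _ hb.pos, fun j => ?_⟩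
    rw [hmod, hi]
    refine Nat.find_min' hex ⟨j + i, ?_⟩
    rw [pow_add, mul_assoc]
  · intro i j hi hj hti htj
    have key : ∀ i j : ℕ, i < b → (∀ s : ℕ, (e (ω ^ i * ζ)).val ≤ (e (ω ^ s * (ω ^ i * ζ))).val) →
        (e (ω ^ i * ζ)).val ≤ (e (ω ^ j * ζ)).val := by
      intro i j hi h
      have h2 := h (j + (b - i))
      have h3 : ω ^ (j + (b - i)) * (ω ^ i * ζ) = ω ^ j * ζ := by
        rw [← mul_assoc, ← pow_add, add_assoc, Nat.sub_add_cancel hi.le, pow_add, hω, mul_one]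
      rwa [h3] at h2
    have h4 : e (ω ^ i * ζ) = e (ω ^ j * ζ) :=
      Fin.ext (le_antisymm (key i j hi hti) (key j i hj htj))
    have h5 : ω ^ i = ω ^ j := mul_right_cancel₀ hζ (e.injective h4)
    rw [← hord] at hi hj
    exact pow_injOn_Iio_orderOf hi hj h5

/-- The number of the coordinates. -/
theorem kap_count {F : Type} [Field F] [Finite F] (n b : ℕ) (hb : b.Prime) (ω : F) (h1 : ω ≠ 1)
    (hω : ω ^ b = 1) (t : F → Prop)
    (ht : ∀ ζ : F, ζ ≠ 0 → (∃ i, i < b ∧ t (ω ^ i * ζ)) ∧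
      ∀ i j, i < b → j < b → t (ω ^ i * ζ) → t (ω ^ j * ζ) → i = j)
    (l : Fin n → F) (hl : ∀ i, l i ≠ 0) (D : F → ℕ) (hD : ∀ ζ, D ζ = Nat.card {i // l i = ζ})
    (hinv : ∀ ζ, D (ω * ζ) = D ζ) :
    b * Nat.card {p : Fin n × Fin n // l p.1 = ω * l p.2 ∧ ¬ t (ω * l p.2)} =
      (b - 1) * ∑ᶠ ζ, D ζ ^ 2 := by
  classical
  have := Fintype.ofFinite F
  have hω0 : ω ≠ 0 := by
    rintro rfl
    rw [zero_pow hb.ne_zero] at hω
    exact zero_ne_one hω
  have hinvi : ∀ (i : ℕ) (ζ : F), D (ω ^ i * ζ) = D ζ := by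
    intro i
    induction i with
    | zero => intro ζ; rw [pow_zero, one_mul]
    | succ i ih => intro ζ; rw [pow_succ', mul_assoc, hinv, ih]
  have hD' : ∀ ζ, D ζ = ∑ i : Fin n, if l i = ζ then 1 else 0 := by
    intro ζ
    rw [hD, Nat.card_eq_fintype_card, Fintype.card_subtype, Finset.card_filter]
  have hD0 : D 0 = 0 := by
    rw [hD']
    exact Finset.sum_eq_zero fun i _ => if_neg (hl i)
  rw [finsum_eq_sum_of_fintype]
  -- sums over the basis
  have hsum : ∀ g : F → ℕ, ∑ j : Fin n, g (l j) = ∑ ζ : F, D ζ * g ζ := by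
    intro g
    have : ∀ ζ : F, D ζ * g ζ = ∑ j : Fin n, if l j = ζ then g ζ else 0 := by
      intro ζ
      rw [hD', Finset.sum_mul]
      refine Finset.sum_congr rfl fun i _ => ?_
      rw [ite_mul, one_mul, zero_mul]
    rw [Finset.sum_congr rfl fun ζ _ => this ζ, Finset.sum_comm]
    refine Finset.sum_congr rfl fun j _ => ?_
    rw [Finset.sum_ite_eq, if_pos (Finset.mem_univ _)]
  have hS : Nat.card {p : Fin n × Fin n // l p.1 = ω * l p.2 ∧ ¬ t (ω * l p.2)} =
      ∑ ζ : F, if t (ω * ζ) then 0 else D ζ ^ 2 := by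
    rw [Nat.card_eq_fintype_card, Fintype.card_subtype, Finset.card_filter,
      ← Finset.univ_product_univ, Finset.sum_product_right]
    have e1 : ∀ j : Fin n, (∑ i : Fin n, if l i = ω * l j ∧ ¬ t (ω * l j) then 1 else 0) =
        (fun ζ : F => if t (ω * ζ) then 0 else D ζ) (l j) := by
      intro j
      by_cases h : t (ω * l j)
      · simp [h]
      · simp only [h, not_false_eq_true, and_true, if_false]
        rw [← hD', hinv]
    rw [Finset.sum_congr rfl fun j _ => e1 j,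
      hsum (fun ζ : F => if t (ω * ζ) then 0 else D ζ)]
    refine Finset.sum_congr rfl fun ζ _ => ?_
    split_ifs
    · rw [mul_zero]
    · rw [pow_two]
  have hM : ∀ i : ℕ, ∑ ζ : F, (if t (ω ^ i * ζ) then D ζ ^ 2 else 0) =
      ∑ ζ : F, (if t ζ then D ζ ^ 2 else 0) := by
    intro i
    refine Fintype.sum_equiv (Equiv.mulLeft₀ (ω ^ i) (pow_ne_zero i hω0)) _ _ fun ζ => ?_
    change _ = if t (ω ^ i * ζ) then D (ω ^ i * ζ) ^ 2 else 0
    rw [hinvi]
  have hN : b * ∑ ζ : F, (if t ζ then D ζ ^ 2 else 0) = ∑ ζ : F, D ζ ^ 2 := by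
    have e2 : ∑ i ∈ Finset.range b, ∑ ζ : F, (if t (ω ^ i * ζ) then D ζ ^ 2 else 0) =
        b * ∑ ζ : F, (if t ζ then D ζ ^ 2 else 0) := by
      rw [Finset.sum_congr rfl fun i _ => hM i, Finset.sum_const, Finset.card_range, smul_eq_mul]
    rw [← e2, Finset.sum_comm]
    refine Finset.sum_congr rfl fun ζ _ => ?_
    by_cases hζ : ζ = 0
    · subst hζ
      rw [hD0]
      simp
    · obtain ⟨⟨i, hi, hti⟩, huni⟩ := ht ζ hζ
      rw [Finset.sum_eq_single i]
      · rw [if_pos hti]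
      · intro j hj hji
        rw [if_neg]
        intro htj
        exact hji (huni j i (Finset.mem_range.mp hj) hi htj hti)
      · intro h
        exact absurd (Finset.mem_range.mpr hi) h
  have hadd : Nat.card {p : Fin n × Fin n // l p.1 = ω * l p.2 ∧ ¬ t (ω * l p.2)} +
      ∑ ζ : F, (if t ζ then D ζ ^ 2 else 0) = ∑ ζ : F, D ζ ^ 2 := by
    rw [hS, ← hM 1, ← Finset.sum_add_distrib]
    refine Finset.sum_congr rfl fun ζ _ => ?_
    rw [pow_one]
    split_ifs
    · rw [zero_add]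
    · rw [add_zero]
  obtain ⟨c, rfl⟩ : ∃ c, b = c + 1 := ⟨b - 1, (Nat.sub_add_cancel hb.pos).symm⟩
  rw [Nat.add_sub_cancel]
  nlinarith [hadd, hN]

/-- The coordinates determine the map. -/
theorem kap_inj {F V ι : Type} [Field F] [AddCommGroup V] [Module F V] [Fintype ι]
    (β : Module.Basis ι F V) (l : ι → F) (Y : V →ₗ[F] V) (hY : ∀ i, Y (β i) = l i • β i)
    (hl : ∀ i, l i ≠ 0) (b : ℕ) (hb : b.Prime) (ω ν : F) (hω : ω ^ b = 1)
    (hν : ν ≠ 0) (t : F → Prop)
    (ht : ∀ ζ : F, ζ ≠ 0 → ∀ i j, i < b → j < b → t (ω ^ i * ζ) → t (ω ^ j * ζ) → i = j)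
    (K K' : V →ₗ[F] V) (hK : ∀ v, Y (K v) = ω • K (Y v)) (hK' : ∀ v, Y (K' v) = ω • K' (Y v))
    (hKb : ∀ v, (K ^ b) v = ν • v) (hKb' : ∀ v, (K' ^ b) v = ν • v)
    (hag : ∀ i j, l i = ω * l j → ¬ t (ω * l j) →
      β.repr (K (β j)) i = β.repr (K' (β j)) i) : K = K' := by
  classical
  have hω0 : ω ≠ 0 := by
    rintro rfl
    rw [zero_pow hb.ne_zero] at hω
    exact zero_ne_one hω
  -- coordinates of `Y v`
  have hYr : ∀ v i, β.repr (Y v) i = l i * β.repr v i := by
    intro v i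
    conv_lhs => rw [← β.sum_repr v]
    rw [map_sum, map_sum, Finsupp.finsetSum_apply, Finset.sum_eq_single i]
    · rw [map_smul, hY, map_smul, map_smul, Finsupp.smul_apply, Finsupp.smul_apply,
        Module.Basis.repr_self, Finsupp.single_eq_same, smul_eq_mul, smul_eq_mul, mul_one,
        mul_comm]
    · intro j _ hji
      rw [map_smul, hY, map_smul, map_smul, Finsupp.smul_apply, Finsupp.smul_apply,
        Module.Basis.repr_self, Finsupp.single_eq_of_ne (Ne.symm hji), smul_zero, smul_zero]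
    · intro h
      exact absurd (Finset.mem_univ i) h
  -- coordinates of an eigenvector
  have hev : ∀ (ζ : F) (v : V), Y v = ζ • v → ∀ i, l i ≠ ζ → β.repr v i = 0 := by
    intro ζ v hv i hi
    have h1 := hYr v i
    rw [hv, map_smul, Finsupp.smul_apply, smul_eq_mul] at h1
    have h2 : (l i - ζ) * β.repr v i = 0 := by rw [sub_mul, h1, sub_self]
    rcases mul_eq_zero.mp h2 with h3 | h3
    · exact absurd (sub_eq_zero.mp h3) hi
    · exact h3
  -- `K` maps eigenspaces to eigenspaces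
  have hmap : ∀ (L : V →ₗ[F] V), (∀ v, Y (L v) = ω • L (Y v)) → ∀ (ζ : F) (v : V), Y v = ζ • v →
      Y (L v) = (ω * ζ) • L v := by
    intro L hL ζ v hv
    rw [hL, hv, map_smul, smul_smul]
  -- agreement on the basis
  have hbas : ∀ j, ¬ t (ω * l j) → K (β j) = K' (β j) := by
    intro j hj
    apply β.repr.injective
    ext i
    by_cases h : l i = ω * l j
    · exact hag i j h hj
    · rw [hev _ _ (hmap K hK _ _ (hY j)) i h, hev _ _ (hmap K' hK' _ _ (hY j)) i h]
  -- agreement on the eigenspaces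
  have hspace : ∀ (ζ : F) (v : V), Y v = ζ • v → ¬ t (ω * ζ) → K v = K' v := by
    intro ζ v hv hζ
    rw [← β.sum_repr v, map_sum, map_sum]
    refine Finset.sum_congr rfl fun i _ => ?_
    by_cases h : l i = ζ
    · rw [map_smul, map_smul, hbas i (by rw [h]; exact hζ)]
    · rw [hev ζ v hv i h, zero_smul, map_zero, map_zero]
  refine β.ext fun j => ?_
  by_cases hj : t (ω * l j)
  · have hζ : ω * l j ≠ 0 := mul_ne_zero hω0 (hl j)
    have hpow : ∀ m, m < b → ∀ w, Y w = (ω * l j) • w →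
        (K ^ m) w = (K' ^ m) w ∧ Y ((K ^ m) w) = (ω ^ m * (ω * l j)) • (K ^ m) w := by
      intro m
      induction m with
      | zero =>
        intro _ w hw
        refine ⟨by rw [pow_zero, pow_zero], ?_⟩
        rw [pow_zero, pow_zero, one_mul, Module.End.one_apply]
        exact hw
      | succ m ih =>
        intro hm w hw
        obtain ⟨i1, i2⟩ := ih (by omega) w hw
        have hnt : ¬ t (ω * (ω ^ m * (ω * l j))) := by
          rw [← mul_assoc, ← pow_succ']
          intro h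
          have := ht _ hζ (m + 1) 0 hm hb.pos h (by rw [pow_zero, one_mul]; exact hj)
          omega
        rw [pow_succ' K, pow_succ' K', Module.End.mul_apply, Module.End.mul_apply, ← i1]
        refine ⟨hspace _ _ i2 hnt, ?_⟩
        rw [hmap K hK _ _ i2, ← mul_assoc, ← pow_succ']
    have hu : Y (ν⁻¹ • K (β j)) = (ω * l j) • (ν⁻¹ • K (β j)) := by
      rw [map_smul, hmap K hK _ _ (hY j), smul_comm]
    obtain ⟨i1, _⟩ := hpow (b - 1) (by have := hb.pos; omega) _ hu
    have e1 : (K ^ (b - 1)) (ν⁻¹ • K (β j)) = β j := by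
      have : (K ^ (b - 1)) (K (β j)) = (K ^ b) (β j) := by
        conv_rhs => rw [← Nat.sub_add_cancel hb.pos, pow_add, pow_one, Module.End.mul_apply]
      rw [map_smul, this, hKb, smul_smul, inv_mul_cancel₀ hν, one_smul]
    have e2 : K' ((K' ^ (b - 1)) (ν⁻¹ • K (β j))) = K (β j) := by
      have : K' ((K' ^ (b - 1)) (ν⁻¹ • K (β j))) = (K' ^ b) (ν⁻¹ • K (β j)) := by
        conv_rhs => rw [← Nat.sub_add_cancel hb.pos, pow_succ', Module.End.mul_apply]
      rw [this, hKb', smul_smul, mul_inv_cancel₀ hν, one_smul]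
    rw [← e2, ← i1, e1]
  · exact hbas j hj

/-- The eigenspaces of the eigenvalues in an orbit have the same dimension. -/
theorem kap_ev {F V : Type} [Field F] [AddCommGroup V] [Module F V] [FiniteDimensional F V]
    (Y K : V →ₗ[F] V) (b : ℕ) (hb : b.Prime) (ω ν : F) (hω : ω ^ b = 1) (hν : ν ≠ 0)
    (hK : ∀ v, Y (K v) = ω • K (Y v)) (hKb : ∀ v, (K ^ b) v = ν • v) (ζ : F) :
    FL0.ev Y (ω * ζ) = FL0.ev Y ζ := by
  have hinj : Function.Injective K := by
    intro v w h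
    have h1 : (K ^ b) v = (K ^ b) w := by
      rw [← Nat.sub_add_cancel hb.pos, pow_succ, Module.End.mul_apply, Module.End.mul_apply, h]
    rw [hKb, hKb] at h1
    exact smul_right_injective V hν h1
  have hle : ∀ ζ : F, FL0.ev Y ζ ≤ FL0.ev Y (ω * ζ) := by
    intro ζ
    unfold FL0.ev
    have hm : ∀ v ∈ LinearMap.ker (Y - ζ • LinearMap.id),
        K v ∈ LinearMap.ker (Y - (ω * ζ) • LinearMap.id) := by
      intro v hv
      rw [LinearMap.mem_ker, LinearMap.sub_apply, LinearMap.smul_apply, LinearMap.id_apply,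
        sub_eq_zero] at hv ⊢
      rw [hK, hv, map_smul, smul_smul]
    refine LinearMap.finrank_le_finrank_of_injective (f := K.restrict hm) ?_
    intro v w h
    apply Subtype.ext
    apply hinj
    exact congrArg Subtype.val h
  have hpow : ∀ m : ℕ, ∀ ζ : F, FL0.ev Y ζ ≤ FL0.ev Y (ω ^ m * ζ) := by
    intro m
    induction m with
    | zero => intro ζ; rw [pow_zero, one_mul]
    | succ m ih =>
      intro ζ
      rw [pow_succ', mul_assoc]
      exact (ih ζ).trans (hle _)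
  refine le_antisymm ?_ (hle ζ)
  have h := hpow (b - 1) (ω * ζ)
  rw [← mul_assoc, ← pow_succ, Nat.sub_add_cancel hb.pos, hω, one_mul] at h
  exact h

theorem t_KAP : M_KAP := by
  classical
  intro hDIA F _ _ n k b hk hkq hb y ω ν hy h1 hω hν
  have := Fintype.ofFinite F
  set V := Fin n → F with hV
  set Y : V →ₗ[F] V := lm y.1 with hYdef
  have hX : Y ^ k = 1 := by
    have h1 : ((y ^ k : GL (Fin n) F) : Matrix (Fin n) (Fin n) F) = 1 := by
      rw [hy]
      rfl
    rw [Units.val_pow_eq_pow_val] at h1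
    change Matrix.toLin' (y : Matrix (Fin n) (Fin n) F) ^ k = 1
    rw [← Matrix.toLin'_pow, h1, Matrix.toLin'_one]
    rfl
  obtain ⟨β0, l0, hb0, hl0, hev0⟩ := hDIA F V k hk hkq Y hX
  have hn : Module.finrank F V = n := Module.finrank_fin_fun F
  set β : Module.Basis (Fin n) F V := β0.reindex (finCongr hn) with hβ
  set l : Fin n → F := fun i => l0 ((finCongr hn).symm i) with hldef
  have hY : ∀ i, Y (β i) = l i • β i := by
    intro i
    rw [hβ, Module.Basis.reindex_apply]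
    exact hb0 _
  have hl : ∀ i, l i ≠ 0 := by
    intro i h
    have h2 : l i ^ k = 1 := hl0 _
    rw [h, zero_pow (by omega)] at h2
    exact zero_ne_one h2
  have hD : ∀ ζ, FL0.ev Y ζ = Nat.card {i // l i = ζ} := by
    intro ζ
    refine (hev0 ζ).trans ?_
    exact Nat.card_congr ((finCongr hn).subtypeEquiv fun i => by simp [hldef])
  obtain ⟨t, ht⟩ := kap_trans b hb ω h1 hω
  -- the linear map of `κ`
  have hlin : ∀ κ : Matrix (Fin n) (Fin n) F, y.1 * κ = ω • (κ * y.1) → κ ^ b = ν • 1 →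
      (∀ v, Y (Matrix.toLin' κ v) = ω • Matrix.toLin' κ (Y v)) ∧
      (∀ v, (Matrix.toLin' κ ^ b) v = ν • v) := by
    intro κ hκ1 hκ2
    constructor
    · intro v
      have h2 : Matrix.toLin' (y.1 * κ) v = Matrix.toLin' (ω • (κ * y.1)) v := by rw [hκ1]
      rw [map_smul, LinearMap.smul_apply, Matrix.toLin'_mul, Matrix.toLin'_mul,
        LinearMap.comp_apply, LinearMap.comp_apply] at h2
      exact h2
    · intro v
      rw [← Matrix.toLin'_pow, hκ2, map_smul, Matrix.toLin'_one, LinearMap.smul_apply,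
        LinearMap.id_apply]
  have hq1 : (1 : ℝ) ≤ (Nat.card F : ℝ) := by
    exact_mod_cast Nat.card_pos
  by_cases hne : Nonempty {κ : Matrix (Fin n) (Fin n) F // y.1 * κ = ω • (κ * y.1) ∧ κ ^ b = ν • 1}
  · obtain ⟨κ₀, hκ₀1, hκ₀2⟩ := hne
    obtain ⟨hA, hB⟩ := hlin κ₀ hκ₀1 hκ₀2
    have hinv : ∀ ζ, FL0.ev Y (ω * ζ) = FL0.ev Y ζ := fun ζ =>
      kap_ev Y (Matrix.toLin' κ₀) b hb ω ν hω hν hA hB ζ
    have hcount := kap_count n b hb ω h1 hω t ht l hl (FL0.ev Y) hD hinv
    set S := {p : Fin n × Fin n // l p.1 = ω * l p.2 ∧ ¬ t (ω * l p.2)} with hS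
    have hsq : (∑ᶠ ζ, FL0.ev Y ζ ^ 2) = FL0.sq Y := rfl
    rw [hsq] at hcount
    -- the injection
    let φ : {κ : Matrix (Fin n) (Fin n) F // y.1 * κ = ω • (κ * y.1) ∧ κ ^ b = ν • 1} → (S → F) :=
      fun κ p => β.repr (Matrix.toLin' κ.1 (β p.1.2)) p.1.1
    have hφ : Function.Injective φ := by
      intro κ κ' h
      obtain ⟨a1, a2⟩ := hlin κ.1 κ.2.1 κ.2.2
      obtain ⟨c1, c2⟩ := hlin κ'.1 κ'.2.1 κ'.2.2
      apply Subtype.ext
      apply Matrix.toLin'.injective
      refine kap_inj β l Y hY hl b hb ω ν hω hν t (fun ζ hζ => (ht ζ hζ).2) _ _ a1 c1 a2 c2 ?_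
      intro i j hij htj
      exact congrFun h ⟨(i, j), hij, htj⟩
    have hcard : Nat.card {κ : Matrix (Fin n) (Fin n) F // y.1 * κ = ω • (κ * y.1) ∧
        κ ^ b = ν • 1} ≤ Nat.card F ^ Nat.card S := by
      refine (Nat.card_le_card_of_injective φ hφ).trans ?_
      rw [Nat.card_fun]
    have hbR : (b : ℝ) ≠ 0 := by exact_mod_cast hb.ne_zero
    have hreal : (Nat.card S : ℝ) = (1 - 1 / (b : ℝ)) * (FL0.sq Y : ℝ) := by
      have h3 : (b : ℝ) * (Nat.card S : ℝ) = ((b : ℝ) - 1) * (FL0.sq Y : ℝ) := by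
        have h4 : ((b * Nat.card S : ℕ) : ℝ) = (((b - 1) * FL0.sq Y : ℕ) : ℝ) := by
          rw [hcount]
        rw [Nat.cast_mul, Nat.cast_mul, Nat.cast_sub hb.pos, Nat.cast_one] at h4
        exact h4
      field_simp
      linarith
    rw [← hreal, Real.rpow_natCast]
    exact_mod_cast hcard
  · have h0 : Nat.card {κ : Matrix (Fin n) (Fin n) F // y.1 * κ = ω • (κ * y.1) ∧
        κ ^ b = ν • 1} = 0 := by
      rw [not_nonempty_iff] at hne
      exact Nat.card_of_isEmpty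
    rw [h0, Nat.cast_zero]
    positivity

end FGE
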