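import Mathlib
import Pool.Agent.FGE.StE

/-!
# FGE, module ORB: counting pairs along an orbit
-/

set_option autoImplicit false

namespace FGE

theorem t_ORB : S_ORB := by
  intro G X _ _ _ _ Y R hY hR x
  classical
  have : Fintype G := Fintype.ofFinite G
  have : Fintype X := Fintype.ofFinite X
  have : Fintype (MulAction.orbit G x) := Fintype.ofFinite _
  have : Fintype (MulAction.stabilizer G x) := Fintype.ofFinite _
  have : Fintype Y := Fintype.ofFinite _
  have h1 : Nat.card (MulAction.orbit G x) * Nat.card (MulAction.stabilizer G x) = Nat.card G := by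
    rw [Nat.card_eq_fintype_card, Nat.card_eq_fintype_card, Nat.card_eq_fintype_card]
    exact MulAction.card_orbit_mul_card_stabilizer_eq_card_group G x
  have h2 : ∀ o : MulAction.orbit G x, ∃ g : G, g • x = o.1 := fun o => o.2
  choose g hg using h2
  have h3 : Nat.card (MulAction.orbit G x × {y : G // y ∈ Y ∧ R y x}) ≤
      Nat.card (Σ y : Y, {x' : X // R y.1 x'}) := by
    refine Nat.card_le_card_of_injective
      (fun p => ⟨⟨g p.1 * p.2.1 * (g p.1)⁻¹, hY _ _ p.2.2.1⟩,
        ⟨p.1.1, by rw [← hg p.1]; exact hR _ _ _ p.2.2.2⟩⟩) ?_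
    rintro ⟨o, y⟩ ⟨o', y'⟩ h
    have e1 : g o * y.1 * (g o)⁻¹ = g o' * y'.1 * (g o')⁻¹ :=
      congrArg (fun s : (Σ y : Y, {x' : X // R y.1 x'}) => s.1.1) h
    have e3 : o.1 = o'.1 :=
      congrArg (fun s : (Σ y : Y, {x' : X // R y.1 x'}) => s.2.1) h
    have e4 : o = o' := Subtype.ext e3
    subst e4
    have e5 : y.1 = y'.1 := by
      have := mul_right_cancel e1
      exact mul_left_cancel this
    rw [Subtype.ext e5]
  rw [Nat.card_prod, Nat.card_sigma] at h3
  rw [finsum_eq_sum_of_fintype, ← h1]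
  calc Nat.card (MulAction.orbit G x) * Nat.card (MulAction.stabilizer G x) *
        Nat.card {y : G // y ∈ Y ∧ R y x}
      = Nat.card (MulAction.stabilizer G x) * (Nat.card (MulAction.orbit G x) *
        Nat.card {y : G // y ∈ Y ∧ R y x}) := by ring
    _ ≤ _ := Nat.mul_le_mul_left _ h3

end FGE
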