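import Mathlib
import Pool.Agent.FGE.StE
import Pool.Agent.FL0.FIII

/-!
# FGE_PRO: the union bound for the oriented groups
-/

set_option autoImplicit false

open RSF FL0

namespace FGE

open Matrix

/-! ## Elements of `PSL_n(F)` and of `GL_n(F)` -/

theorem pro_comm {n : ℕ} {F : Type} [Field F] (u : Fˣ) (A : GL (Fin n) F) :
    GeneralLinearGroup.scalar (Fin n) u * A = A * GeneralLinearGroup.scalar (Fin n) u := by
  refine Units.ext ?_
  change Matrix.scalar (Fin n) u.1 * A.1 = A.1 * Matrix.scalar (Fin n) u.1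
  exact Matrix.scalar_commute _ (fun _ => Commute.all _ _) _

theorem pro_lift {n : ℕ} {F : Type} [Field F] [Finite F] (hn : 1 ≤ n) (hROT : FL0.S_ROT) (k : ℕ)
    (hk : 1 ≤ k) (hO : Ord n F k) (Q : Matrix (Fin n) (Fin n) F → Prop)
    (hQ : ∀ M (c : F), c ≠ 0 → Q M → Q (c • M)) :
    Nat.card {x : PS n F // x ^ k = 1 ∧
      ∀ A : Matrix.SpecialLinearGroup (Fin n) F, mk A = x → Q A.1} ≤
    Nat.card {y : GL (Fin n) F // y ^ k = 1 ∧ Q y.1} := by
  classical
  have : Nonempty (Fin n) := ⟨⟨0, hn⟩⟩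
  have key : ∀ x : {x : PS n F // x ^ k = 1 ∧
      ∀ A : Matrix.SpecialLinearGroup (Fin n) F, mk A = x → Q A.1},
      ∃ (A : Matrix.SpecialLinearGroup (Fin n) F) (c : Fˣ)
        (y : {y : GL (Fin n) F // y ^ k = 1 ∧ Q y.1}), mk A = x.1 ∧
        SpecialLinearGroup.toGL A = GeneralLinearGroup.scalar (Fin n) c * y.1 := by
    rintro ⟨x, hx, hxQ⟩
    obtain ⟨A, hA⟩ := QuotientGroup.mk_surjective x
    have hA' : mk A = x := hA
    have hcen : A ^ k ∈ Subgroup.center (Matrix.SpecialLinearGroup (Fin n) F) := by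
      rw [← QuotientGroup.eq_one_iff]
      have h1 : (mk (A ^ k) : PS n F) = (mk A) ^ k := rfl
      change (mk (A ^ k) : PS n F) = 1
      rw [h1, hA', hx]
    obtain ⟨μ, hμ, hμ2⟩ := Matrix.SpecialLinearGroup.mem_center_iff.1 hcen
    rw [Fintype.card_fin] at hμ
    obtain ⟨c, hc, hc2⟩ := hROT F n k hn hk hO μ hμ
    have hu : GeneralLinearGroup.scalar (Fin n) (Units.mk0 c hc) ^ k =
        SpecialLinearGroup.toGL (A ^ k) := by
      rw [← map_pow]
      refine Units.ext ?_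
      change Matrix.scalar (Fin n) ((Units.mk0 c hc) ^ k : Fˣ).1 = (A ^ k).1
      rw [← hμ2, Units.val_pow_eq_pow_val, Units.val_mk0, hc2]
    refine ⟨A, Units.mk0 c hc, ⟨GeneralLinearGroup.scalar (Fin n) (Units.mk0 c hc)⁻¹ *
      SpecialLinearGroup.toGL A, ?_, ?_⟩, hA', ?_⟩
    · have hcm : Commute (GeneralLinearGroup.scalar (Fin n) (Units.mk0 c hc)⁻¹)
          (SpecialLinearGroup.toGL A) := pro_comm _ _
      rw [hcm.mul_pow, ← map_pow SpecialLinearGroup.toGL, ← hu, map_inv, inv_pow, inv_mul_cancel]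
    · have h4 : (GeneralLinearGroup.scalar (Fin n) (Units.mk0 c hc)⁻¹ *
          SpecialLinearGroup.toGL A).1 = c⁻¹ • A.1 := by
        change Matrix.scalar (Fin n) ((Units.mk0 c hc)⁻¹ : Fˣ).1 * A.1 = c⁻¹ • A.1
        rw [Matrix.scalar_apply, Units.val_inv_eq_inv_val, Units.val_mk0, ← Matrix.smul_one_eq_diagonal,
          Matrix.smul_mul, Matrix.one_mul]
      rw [h4]
      exact hQ _ _ (inv_ne_zero hc) (hxQ A hA')
    · rw [← mul_assoc, ← map_mul, mul_inv_cancel, map_one, one_mul]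
  choose A c y h1 h2 using key
  refine Nat.card_le_card_of_injective y ?_
  intro x x' hxx
  refine Subtype.ext ?_
  rw [← h1 x, ← h1 x']
  refine QuotientGroup.eq.mpr ?_
  rw [Subgroup.mem_center_iff]
  intro g
  apply SpecialLinearGroup.toGL_injective
  have e1 : (GeneralLinearGroup.scalar (Fin n) (c x) * (y x').1)⁻¹ *
      (GeneralLinearGroup.scalar (Fin n) (c x') * (y x').1) =
      GeneralLinearGroup.scalar (Fin n) ((c x)⁻¹ * c x') := by
    rw [_root_.mul_inv_rev, map_mul, map_inv, mul_assoc, pro_comm (c x') (y x').1,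
      ← mul_assoc (GeneralLinearGroup.scalar (Fin n) (c x))⁻¹]
    rw [← map_inv, pro_comm (c x)⁻¹ (y x').1, mul_assoc, ← mul_assoc ((y x').1)⁻¹, inv_mul_cancel,
      one_mul]
  have e2 : SpecialLinearGroup.toGL ((A x)⁻¹ * A x') =
      GeneralLinearGroup.scalar (Fin n) ((c x)⁻¹ * c x') := by
    rw [map_mul, map_inv, h2 x, h2 x', hxx]
    exact e1
  rw [map_mul SpecialLinearGroup.toGL g, map_mul SpecialLinearGroup.toGL _ g, e2]
  exact (pro_comm _ _).symm

/-! ## Tuples -/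

theorem pro_eq {G : Type} [Group G] : ∀ (d : ℕ) (t t' : Fin d → G) (i : Fin d),
    (∀ j, j ≠ i → t j = t' j) → (List.ofFn t).prod = (List.ofFn t').prod → t i = t' i := by
  intro d
  induction d with
  | zero => intro t t' i; exact i.elim0
  | succ d ih =>
    intro t t' i h hp
    rw [List.ofFn_succ, List.prod_cons, List.ofFn_succ, List.prod_cons] at hp
    induction i using Fin.cases with
    | zero =>
      have h1 : (fun j : Fin d => t j.succ) = fun j => t' j.succ := by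
        funext j
        exact h _ (Fin.succ_ne_zero j)
      rw [h1] at hp
      exact mul_right_cancel hp
    | succ i =>
      rw [h 0 (Fin.succ_ne_zero i).symm] at hp
      exact ih (fun j => t j.succ) (fun j => t' j.succ) i
        (fun j hj => h _ (fun hji => hj (Fin.succ_injective _ hji))) (mul_left_cancel hp)

theorem pro_prod {G : Type} [Group G] [Finite G] (d : ℕ) (i : Fin d) (P : Fin d → G → Prop) :
    Nat.card {t : Fin d → G // (∀ j, P j (t j)) ∧ (List.ofFn t).prod = 1} ≤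
      ∏ j ∈ Finset.univ.erase i, Nat.card {x : G // P j x} := by
  classical
  rw [Finset.prod_subtype (p := fun j => j ≠ i) (Finset.univ.erase i) (by simp)]
  rw [← Nat.card_pi]
  refine Nat.card_le_card_of_injective
    (fun t (j : {j : Fin d // j ≠ i}) => (⟨t.1 j.1, t.2.1 j.1⟩ : {x : G // P j.1 x})) ?_
  intro t t' h
  have h1 : ∀ j, j ≠ i → t.1 j = t'.1 j := fun j hj =>
    congrArg Subtype.val (congrFun h ⟨j, hj⟩)
  refine Subtype.ext (funext fun j => ?_)
  by_cases hj : j = i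
  · subst hj
    exact pro_eq d t.1 t'.1 j h1 (t.2.2.trans t'.2.2.symm)
  · exact h1 j hj

theorem pro_un {I T : Type} [Finite I] [Finite T] (P : I → T → Prop) (X : ℝ)
    (hX : ∀ i, (Nat.card {t : T // P i t} : ℝ) ≤ X) :
    (Nat.card {t : T // ∃ i, P i t} : ℝ) ≤ Nat.card I * X := by
  classical
  have : Fintype I := Fintype.ofFinite I
  have h1 : Nat.card {t : T // ∃ i, P i t} ≤ Nat.card (Σ i : I, {t : T // P i t}) := by
    refine Nat.card_le_card_of_injective (fun t => ⟨t.2.choose, ⟨t.1, t.2.choose_spec⟩⟩) ?_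
    intro t t' h
    have h2 := congrArg (fun s : Σ i : I, {t : T // P i t} => s.2.1) h
    exact Subtype.ext h2
  have h2 : (Nat.card (Σ i : I, {t : T // P i t}) : ℝ) =
      ∑ i : I, (Nat.card {t : T // P i t} : ℝ) := by
    rw [Nat.card_sigma]
    push_cast
    rfl
  calc (Nat.card {t : T // ∃ i, P i t} : ℝ)
      ≤ (Nat.card (Σ i : I, {t : T // P i t}) : ℝ) := by exact_mod_cast h1
    _ = ∑ i : I, (Nat.card {t : T // P i t} : ℝ) := h2
    _ ≤ ∑ _i : I, X := Finset.sum_le_sum fun i _ => hX i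
    _ = Nat.card I * X := by
        rw [Finset.sum_const, Finset.card_univ, nsmul_eq_mul, ← Nat.card_eq_fintype_card]

/-! ## Asymptotics -/

theorem pro_asym (c A B : ℝ) (hc : 0 < c) (hA : 0 ≤ A) (hB : 0 ≤ B) :
    ∃ r : ℕ, ∀ n : ℕ, r ≤ n → ∀ q : ℝ, 2 ≤ q →
      ((n : ℝ) + 1) ^ (A * n) ≤ q ^ (c * (n : ℝ) ^ 2 - B * n) := by
  have hl2 : 0 < Real.log 2 := Real.log_pos (by norm_num)
  set M : ℝ := (2 * A + B * Real.log 2) / (c * Real.log 2) + 1 with hM
  have hM1 : 1 ≤ M := by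
    have : 0 ≤ (2 * A + B * Real.log 2) / (c * Real.log 2) := by positivity
    linarith
  obtain ⟨r, hr⟩ := exists_nat_ge (M ^ 2)
  refine ⟨r, fun n hn q hq => ?_⟩
  have hn0 : (0 : ℝ) ≤ n := Nat.cast_nonneg n
  set s : ℝ := Real.sqrt n with hs
  have hs2 : s ^ 2 = n := Real.sq_sqrt hn0
  have hsM : M ≤ s := by
    apply Real.le_sqrt_of_sq_le
    exact hr.trans (by exact_mod_cast hn)
  have hs0 : 0 ≤ s := Real.sqrt_nonneg _
  have hlog : Real.log ((n : ℝ) + 1) ≤ 2 * s := by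
    rw [Real.log_le_iff_le_exp (by linarith)]
    have h1 := Real.quadratic_le_exp_of_nonneg (x := 2 * s) (by linarith)
    nlinarith
  have hMe : c * Real.log 2 * (M - 1) = 2 * A + B * Real.log 2 := by
    rw [hM, add_sub_cancel_right]
    field_simp
  have hmain : A * Real.log ((n : ℝ) + 1) + B * Real.log 2 ≤ c * Real.log 2 * n := by
    have h1 : A * Real.log ((n : ℝ) + 1) ≤ A * (2 * s) := mul_le_mul_of_nonneg_left hlog hA
    have h2 : B * Real.log 2 ≤ B * Real.log 2 * s := by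
      have h3 : 0 ≤ B * Real.log 2 := by positivity
      nlinarith
    have h3 : (2 * A + B * Real.log 2) * s ≤ c * Real.log 2 * s ^ 2 := by
      rw [← hMe]
      have h4 : 0 < c * Real.log 2 := by positivity
      have h5 : (M - 1) * s ≤ s * s := mul_le_mul_of_nonneg_right (by linarith) hs0
      calc c * Real.log 2 * (M - 1) * s = c * Real.log 2 * ((M - 1) * s) := by ring
        _ ≤ c * Real.log 2 * (s * s) := mul_le_mul_of_nonneg_left h5 h4.le
        _ = c * Real.log 2 * s ^ 2 := by ring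
    rw [hs2] at h3
    linarith
  have hx : 0 ≤ c * (n : ℝ) ^ 2 - B * n := by
    have h1 : 0 ≤ A * Real.log ((n : ℝ) + 1) :=
      mul_nonneg hA (Real.log_nonneg (by linarith))
    have h2 : B * Real.log 2 ≤ c * Real.log 2 * n := by linarith
    have h3 : B ≤ c * n := by
      have h4 : B * Real.log 2 ≤ (c * n) * Real.log 2 := by linarith
      exact le_of_mul_le_mul_right h4 hl2
    nlinarith
  have hq0 : 0 < q := by linarith
  rw [Real.rpow_def_of_pos (by linarith), Real.rpow_def_of_pos hq0]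
  apply Real.exp_le_exp.mpr
  have hlq : Real.log 2 ≤ Real.log q := Real.log_le_log (by norm_num) hq
  calc Real.log ((n : ℝ) + 1) * (A * n) = (A * Real.log ((n : ℝ) + 1)) * n := by ring
    _ ≤ (c * Real.log 2 * n - B * Real.log 2) * n :=
        mul_le_mul_of_nonneg_right (by linarith) hn0
    _ = Real.log 2 * (c * (n : ℝ) ^ 2 - B * n) := by ring
    _ ≤ Real.log q * (c * (n : ℝ) ^ 2 - B * n) := mul_le_mul_of_nonneg_right hlq hx

theorem pro_sig (m : List ℕ) : (∑ j : Fin m.length, (1 - 1 / ((m.get j : ℕ) : ℝ))) = sig m := by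
  have h := Fin.sum_univ_fun_getElem m (fun k : ℕ => 1 - 1 / (k : ℝ))
  unfold sig
  rw [← h]
  rfl

theorem pro_bd (C : ℝ) (n : ℕ) (F : Type) [Finite F] [Nontrivial F] {ι : Type} (s : Finset ι)
    (e : ι → ℝ) :
    ∏ j ∈ s, Bd C n F (e j) = ((n : ℝ) + 1) ^ (C * n * s.card) *
      (Nat.card F : ℝ) ^ (C * n * s.card + ∑ j ∈ s, e j) := by
  have hq : (0 : ℝ) < Nat.card F := by exact_mod_cast Nat.card_pos
  unfold Bd
  rw [Finset.prod_mul_distrib, Finset.prod_const, ← Real.rpow_sum_of_pos hq,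
    Finset.sum_add_distrib, Finset.sum_const, nsmul_eq_mul, mul_comm (s.card : ℝ) (C * n)]
  congr 1
  rw [Real.rpow_mul (by positivity) (C * n) s.card, Real.rpow_natCast]

end FGE

open FGE in
theorem FGE.t_PRO : FGE.M_PRO := by
  classical
  intro hHO hROT hLOW m hm hs hex C hC
  obtain ⟨k0, hk0, hk0s⟩ := hex
  obtain ⟨i, hi⟩ := List.mem_iff_get.mp hk0
  obtain ⟨C1, r0, hC1, hL⟩ := hLOW m hm hs
  have hd : 1 ≤ m.length := by
    have := i.2
    omega
  set c₀ : ℝ := (sig m - 2 - 1 / (k0 : ℝ)) / 2 with hc₀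
  have hc0 : 0 < c₀ := by rw [hc₀]; linarith
  obtain ⟨r1, hr1⟩ := pro_asym c₀ (C * m.length) (C * m.length + C1 + 2) hc0 (by positivity)
    (by positivity)
  refine ⟨max r0 (max r1 1), ?_⟩
  intro n hn F _ _ hF1 hF2 I _ Q μ hμ0 hμ2 hQ hI hT
  have hn0 : r0 ≤ n := (le_max_left _ _).trans hn
  have hn1 : r1 ≤ n := (le_max_left _ _).trans ((le_max_right _ _).trans hn)
  have hn2 : 1 ≤ n := (le_max_right _ _).trans ((le_max_right _ _).trans hn)
  have hfin : Finite (PS n F) := RSF.B.fin_ps n F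
  have hlow := hL n hn0 F hF1 hF2
  have hq1 : (1 : ℝ) < Nat.card F := by exact_mod_cast Finite.one_lt_card
  have hq2 : (2 : ℝ) ≤ Nat.card F := by
    exact_mod_cast (Finite.one_lt_card : 1 < Nat.card F)
  have hq0 : (0 : ℝ) < Nat.card F := by linarith
  have hN0 : (0 : ℝ) < (n : ℝ) + 1 := by positivity
  -- the homomorphisms form a finite set
  have hfinhom : Finite (OGroup 0 m →* PS n F) := by
    have h0 : (0 : ℝ) < hN n F m := lt_of_lt_of_le (Real.rpow_pos_of_pos hq0 _) hlow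
    have h1 : hN n F m ≠ 0 := by
      intro h
      rw [h] at h0
      simp at h0
    exact Nat.finite_of_card_ne_zero h1
  -- the numerator
  set X : ℝ := ∏ j ∈ Finset.univ.erase i,
    Bd C n F (μ * (1 - 1 / ((m.get j : ℕ) : ℝ)) * (n : ℝ) ^ 2) with hX
  have hX0 : 0 ≤ X := by
    rw [hX]
    refine Finset.prod_nonneg fun j _ => ?_
    unfold Bd
    positivity
  have hnum : (Nat.card {ρ : OGroup 0 m →* PS n F // ∃ T, All ρ.range (Q T)} : ℝ) ≤
      Bd C n F ((1 - μ) * (n : ℝ) ^ 2) * X := by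
    have h1 : Nat.card {ρ : OGroup 0 m →* PS n F // ∃ T, All ρ.range (Q T)} ≤
        Nat.card {ρ : OGroup 0 m →* PS n F //
          (fun t : Fin m.length → PS n F => ∃ T, ∀ j,
            ∀ A : Matrix.SpecialLinearGroup (Fin n) F, mk A = t j → Q T A.1)
            fun j => ρ (ox 0 m j)} := by
      refine Nat.card_le_card_of_injective (fun ρ => ⟨ρ.1, ?_⟩) ?_
      · obtain ⟨T, hT'⟩ := ρ.2
        exact ⟨T, fun j A hA => hT' _ ⟨_, rfl⟩ A hA⟩
      · intro ρ ρ' h
        have h' := congrArg Subtype.val h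
        exact Subtype.ext h'
    have hc := hHO (PS n F) m (fun t => ∃ T, ∀ j,
      ∀ A : Matrix.SpecialLinearGroup (Fin n) F, mk A = t j → Q T A.1)
    have h2 : Nat.card {t : Fin m.length → PS n F // (∀ j, t j ^ m.get j = 1) ∧
        (∃ T, ∀ j, ∀ A : Matrix.SpecialLinearGroup (Fin n) F, mk A = t j → Q T A.1) ∧
        (List.ofFn t).prod = 1} ≤
        Nat.card {t : Fin m.length → PS n F // ∃ T, (∀ j, t j ^ m.get j = 1 ∧
          ∀ A : Matrix.SpecialLinearGroup (Fin n) F, mk A = t j → Q T A.1) ∧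
          (List.ofFn t).prod = 1} := by
      refine Nat.card_le_card_of_injective (fun t => ⟨t.1, ?_⟩) ?_
      · obtain ⟨ht, ⟨T, hT'⟩, hp⟩ := t.2
        exact ⟨T, fun j => ⟨ht j, hT' j⟩, hp⟩
      · intro t t' h
        have h' := congrArg Subtype.val h
        exact Subtype.ext h'
    have h3 := pro_un (fun (T : I) (t : Fin m.length → PS n F) => (∀ j, t j ^ m.get j = 1 ∧
          ∀ A : Matrix.SpecialLinearGroup (Fin n) F, mk A = t j → Q T A.1) ∧
          (List.ofFn t).prod = 1) X (by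
      intro T
      have e1 := pro_prod m.length i (fun (j : Fin m.length) (x : PS n F) => x ^ m.get j = 1 ∧
          ∀ A : Matrix.SpecialLinearGroup (Fin n) F, mk A = x → Q T A.1)
      refine (Nat.cast_le.mpr e1).trans ?_
      rw [Nat.cast_prod, hX]
      refine Finset.prod_le_prod (fun j _ => Nat.cast_nonneg _) fun j _ => ?_
      have hj := List.get_mem m j
      have e2 := pro_lift hn2 hROT (m.get j) (by have := hm _ hj; omega) (hF2 _ hj) (Q T)
        (hQ T)
      exact (Nat.cast_le.mpr e2).trans (hT T _ hj))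
    have h4 : (Nat.card {ρ : OGroup 0 m →* PS n F // ∃ T, All ρ.range (Q T)} : ℝ) ≤
        Nat.card {t : Fin m.length → PS n F // ∃ T, (∀ j, t j ^ m.get j = 1 ∧
          ∀ A : Matrix.SpecialLinearGroup (Fin n) F, mk A = t j → Q T A.1) ∧
          (List.ofFn t).prod = 1} := by
      exact_mod_cast (h1.trans (le_of_eq hc)).trans h2
    refine h4.trans (h3.trans ?_)
    exact mul_le_mul_of_nonneg_right hI hX0
  -- the exponents
  have hsum : ∑ j ∈ Finset.univ.erase i, μ * (1 - 1 / ((m.get j : ℕ) : ℝ)) * (n : ℝ) ^ 2 =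
      μ * (sig m - 1 + 1 / (k0 : ℝ)) * (n : ℝ) ^ 2 := by
    rw [← Finset.sum_mul, ← Finset.mul_sum]
    have h1 := Finset.add_sum_erase Finset.univ
      (fun j : Fin m.length => 1 - 1 / ((m.get j : ℕ) : ℝ)) (Finset.mem_univ i)
    rw [pro_sig] at h1
    simp only [hi] at h1
    have h2 : ∑ j ∈ Finset.univ.erase i, (1 - 1 / ((m.get j : ℕ) : ℝ)) =
        sig m - 1 + 1 / (k0 : ℝ) := by linarith
    rw [h2]
  have hcard : ((Finset.univ.erase i).card : ℝ) = m.length - 1 := by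
    rw [Finset.card_erase_of_mem (Finset.mem_univ i), Finset.card_univ, Fintype.card_fin,
      Nat.cast_sub hd, Nat.cast_one]
  have hXe : Bd C n F ((1 - μ) * (n : ℝ) ^ 2) * X = ((n : ℝ) + 1) ^ (C * m.length * n) *
      (Nat.card F : ℝ) ^ (C * m.length * n +
        ((1 - μ) + μ * (sig m - 1 + 1 / (k0 : ℝ))) * (n : ℝ) ^ 2) := by
    rw [hX, pro_bd, hsum, hcard]
    unfold Bd
    have e1 : ((n : ℝ) + 1) ^ (C * n) * (Nat.card F : ℝ) ^ (C * n + (1 - μ) * (n : ℝ) ^ 2) *
        (((n : ℝ) + 1) ^ (C * n * (m.length - 1)) *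
          (Nat.card F : ℝ) ^ (C * n * (m.length - 1) +
            μ * (sig m - 1 + 1 / (k0 : ℝ)) * (n : ℝ) ^ 2)) =
        (((n : ℝ) + 1) ^ (C * n) * ((n : ℝ) + 1) ^ (C * n * (m.length - 1))) *
        ((Nat.card F : ℝ) ^ (C * n + (1 - μ) * (n : ℝ) ^ 2) *
          (Nat.card F : ℝ) ^ (C * n * (m.length - 1) +
            μ * (sig m - 1 + 1 / (k0 : ℝ)) * (n : ℝ) ^ 2)) := by ring
    rw [e1, ← Real.rpow_add hN0, ← Real.rpow_add hq0]
    congr 2
    · ring
    · ring
  rw [hXe] at hnum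
  have has := hr1 n hn1 (Nat.card F) hq2
  unfold prob
  have hhN : (hN n F m : ℝ) = (Nat.card (OGroup 0 m →* PS n F) : ℝ) := rfl
  rw [hhN] at hlow
  have hnum2 : (Nat.card {ρ : OGroup 0 m →* PS n F // ∃ T, All ρ.range (Q T)} : ℝ) ≤
      (Nat.card F : ℝ) ^ (c₀ * (n : ℝ) ^ 2 - (C * m.length + C1 + 2) * n) *
      (Nat.card F : ℝ) ^ (C * m.length * n +
        ((1 - μ) + μ * (sig m - 1 + 1 / (k0 : ℝ))) * (n : ℝ) ^ 2) :=
    hnum.trans (mul_le_mul_of_nonneg_right has (Real.rpow_nonneg hq0.le _))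
  rw [← Real.rpow_add hq0] at hnum2
  have hden : 0 < (Nat.card F : ℝ) ^ ((sig m - 1) * (n : ℝ) ^ 2 - C1) :=
    Real.rpow_pos_of_pos hq0 _
  have hfrac := div_le_div₀ (Real.rpow_nonneg hq0.le _) hnum2 hden hlow
  refine hfrac.trans ?_
  rw [← Real.rpow_sub hq0]
  apply Real.rpow_le_rpow_of_exponent_le hq1.le
  have hnr : (1 : ℝ) ≤ n := by exact_mod_cast hn2
  have e3 : C1 ≤ C1 * n := le_mul_of_one_le_right hC1 hnr
  have hk1 : 0 ≤ 1 / (k0 : ℝ) := by positivity
  have e4 : ((1 - μ) + μ * (sig m - 1 + 1 / (k0 : ℝ))) - (sig m - 1) ≤ -c₀ := by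
    have h1 : μ * (1 / (k0 : ℝ)) ≤ (1 - μ) * (1 / (k0 : ℝ)) :=
      mul_le_mul_of_nonneg_right (by linarith) hk1
    have h2 : c₀ ≤ (1 - μ) * (2 * c₀) := by nlinarith
    have h3 : 2 * c₀ = sig m - 2 - 1 / (k0 : ℝ) := by rw [hc₀]; ring
    rw [h3] at h2
    linarith
  have e5 : (((1 - μ) + μ * (sig m - 1 + 1 / (k0 : ℝ))) - (sig m - 1)) * (n : ℝ) ^ 2 ≤
      -c₀ * (n : ℝ) ^ 2 := mul_le_mul_of_nonneg_right e4 (by positivity)
  linarith
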