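import Mathlib
import Pool.Agent.FGE.StE
import Pool.Agent.FL0.ABS

/-!
# FGE, module SQS: the sum of `q ^ (α sq)` over the elements of `GL_n` with `k`-th power one

MP_5b5212_al. Adaptation of `FL0.ABS.sumY`.
-/

set_option autoImplicit false

namespace FGE

open RSF FL0 Polynomial

noncomputable section

theorem t_SQS : M_SQS := by
  intro hEVS hCLS F _ _ n k hk hkq α hα0 hα1
  classical
  have hq1 : (1 : ℝ) < (Nat.card F : ℝ) := by
    exact_mod_cast Finite.one_lt_card (α := F)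
  have hq0 : (0 : ℝ) < (Nat.card F : ℝ) := by linarith
  obtain ⟨-, hE2, -, hE4, -⟩ := hEVS F (Fin n → F) k hk hkq
  rw [Module.finrank_fin_fun] at hE2 hE4
  have : Finite (Matrix (Fin n) (Fin n) F) := inferInstance
  have : Finite (GL (Fin n) F) := inferInstance
  have hfY : Finite {y : GL (Fin n) F // y ^ k = 1} := inferInstance
  have : Fintype {y : GL (Fin n) F // y ^ k = 1} := Fintype.ofFinite _
  rw [finsum_eq_sum_of_fintype]
  -- the functions of multiplicities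
  set β : {y : GL (Fin n) F // y ^ k = 1} → (F → ℕ) := fun y ζ => ev (lm y.1.1) ζ with hβ
  set T : Finset (F → ℕ) := Finset.univ.image β with hT
  have hpow : ∀ y : {y : GL (Fin n) F // y ^ k = 1}, lm y.1.1 ^ k = 1 := by
    intro y
    have h1 : (y.1.1 : Matrix (Fin n) (Fin n) F) ^ k = 1 := by
      rw [← Units.val_pow_eq_pow_val, y.2, Units.val_one]
    unfold lm
    rw [← Matrix.toLin'_pow, h1, Matrix.toLin'_one]
    rfl
  have hTcard : (T.card : ℝ) ≤ ((n : ℝ) + 1) ^ k := by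
    have hfin : {β : F → ℕ | ∃ x : (Fin n → F) →ₗ[F] (Fin n → F), x ^ k = 1 ∧
        ∀ ζ, ev x ζ = β ζ}.Finite := by
      have : Finite ((Fin n → F) →ₗ[F] (Fin n → F)) := Finite.of_injective _ DFunLike.coe_injective
      refine (Set.finite_range (fun x : (Fin n → F) →ₗ[F] (Fin n → F) => fun ζ => ev x ζ)).subset ?_
      rintro b ⟨x, -, hx⟩
      exact ⟨x, funext hx⟩
    have h1 : T.card ≤ (n + 1) ^ k := by
      refine le_trans ?_ hE4
      rw [← Set.ncard_coe_finset T]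
      apply Set.ncard_le_ncard _ hfin
      intro b hb
      rw [Finset.mem_coe, hT, Finset.mem_image] at hb
      obtain ⟨y, -, rfl⟩ := hb
      exact ⟨lm y.1.1, hpow y, fun ζ => rfl⟩
    exact_mod_cast h1
  rw [← Finset.sum_fiberwise_of_maps_to (s := Finset.univ) (t := T) (g := β)
    (fun y _ => Finset.mem_image_of_mem β (Finset.mem_univ y))]
  have hone : ∀ b ∈ T, ∑ y ∈ Finset.univ.filter (fun y => β y = b),
      (Nat.card F : ℝ) ^ (α * (FL0.sq (lm y.1.1) : ℝ)) ≤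
        4 ^ k * (Nat.card F : ℝ) ^ ((n : ℝ) ^ 2 - (1 - α) * (n : ℝ) ^ 2 / (k : ℝ)) := by
    intro b hb
    rw [hT, Finset.mem_image] at hb
    obtain ⟨y0, -, rfl⟩ := hb
    have hsame : ∀ y ∈ Finset.univ.filter (fun y => β y = β y0),
        (Nat.card F : ℝ) ^ (α * (FL0.sq (lm y.1.1) : ℝ)) =
          (Nat.card F : ℝ) ^ (α * (FL0.sq (lm y0.1.1) : ℝ)) := by
      intro y hy
      rw [Finset.mem_filter] at hy
      have h1 : FL0.sq (lm y.1.1) = FL0.sq (lm y0.1.1) :=
        FL0.ABS.sq_congr _ _ (fun ζ => congrFun hy.2 ζ)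
      rw [h1]
    rw [Finset.sum_congr rfl hsame, Finset.sum_const, nsmul_eq_mul]
    have hcard : ((Finset.univ.filter (fun y => β y = β y0)).card : ℝ) ≤
        4 ^ k * (Nat.card F : ℝ) ^ ((n : ℝ) ^ 2 - FL0.sq (lm y0.1.1)) := by
      refine le_trans ?_ (hCLS F n k hk hkq y0.1 y0.2)
      have h1 : (Finset.univ.filter (fun y => β y = β y0)).card ≤
          Nat.card {t : GL (Fin n) F // IsConj y0.1 t} := by
        have h2 : (Finset.univ.filter (fun y => β y = β y0)).card =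
            Nat.card {y : {y : GL (Fin n) F // y ^ k = 1} // β y = β y0} := by
          rw [Nat.card_eq_fintype_card, Fintype.card_subtype]
        rw [h2]
        refine Nat.card_le_card_of_injective
          (fun y : {y : {y : GL (Fin n) F // y ^ k = 1} // β y = β y0} =>
            (⟨y.1.1, FL0.ABS.conj_of hEVS hk hkq y0.1 y.1.1 y0.2 y.1.2
              (fun ζ => (congrFun y.2 ζ).symm)⟩ : {t : GL (Fin n) F // IsConj y0.1 t})) ?_
        intro y y' hyy
        exact Subtype.ext (Subtype.ext (congrArg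
          (fun x : {t : GL (Fin n) F // IsConj y0.1 t} => x.1) hyy))
      exact_mod_cast h1
    have hsq : (n : ℝ) ^ 2 / k ≤ FL0.sq (lm y0.1.1) := hE2 _ (hpow y0)
    calc ((Finset.univ.filter (fun y => β y = β y0)).card : ℝ) *
          (Nat.card F : ℝ) ^ (α * (FL0.sq (lm y0.1.1) : ℝ))
        ≤ (4 ^ k * (Nat.card F : ℝ) ^ ((n : ℝ) ^ 2 - FL0.sq (lm y0.1.1))) *
          (Nat.card F : ℝ) ^ (α * (FL0.sq (lm y0.1.1) : ℝ)) :=
          mul_le_mul_of_nonneg_right hcard (Real.rpow_nonneg hq0.le _)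
      _ = 4 ^ k * (Nat.card F : ℝ) ^ ((n : ℝ) ^ 2 - FL0.sq (lm y0.1.1) +
            α * (FL0.sq (lm y0.1.1) : ℝ)) := by
          rw [Real.rpow_add hq0]
          ring
      _ ≤ 4 ^ k * (Nat.card F : ℝ) ^ ((n : ℝ) ^ 2 - (1 - α) * (n : ℝ) ^ 2 / (k : ℝ)) := by
          apply mul_le_mul_of_nonneg_left _ (by positivity)
          apply Real.rpow_le_rpow_of_exponent_le hq1.le
          have h5 : (1 - α) * ((n : ℝ) ^ 2 / k) ≤ (1 - α) * FL0.sq (lm y0.1.1) :=
            mul_le_mul_of_nonneg_left hsq (by linarith)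
          rw [mul_div_assoc]
          linarith
  calc ∑ b ∈ T, ∑ y ∈ Finset.univ.filter (fun y => β y = b),
        (Nat.card F : ℝ) ^ (α * (FL0.sq (lm y.1.1) : ℝ))
      ≤ ∑ b ∈ T, 4 ^ k * (Nat.card F : ℝ) ^ ((n : ℝ) ^ 2 - (1 - α) * (n : ℝ) ^ 2 / (k : ℝ)) :=
        Finset.sum_le_sum hone
    _ = T.card * (4 ^ k *
          (Nat.card F : ℝ) ^ ((n : ℝ) ^ 2 - (1 - α) * (n : ℝ) ^ 2 / (k : ℝ))) := by
        rw [Finset.sum_const, nsmul_eq_mul]
    _ ≤ ((n : ℝ) + 1) ^ k * (4 ^ k *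
          (Nat.card F : ℝ) ^ ((n : ℝ) ^ 2 - (1 - α) * (n : ℝ) ^ 2 / (k : ℝ))) :=
        mul_le_mul_of_nonneg_right hTcard (by positivity)
    _ = 4 ^ k * ((n : ℝ) + 1) ^ k *
          (Nat.card F : ℝ) ^ ((n : ℝ) ^ 2 - (1 - α) * (n : ℝ) ^ 2 / (k : ℝ)) := by ring

end

end FGE
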