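import Pool.Agent.FLN.All
import Pool.Agent.FGE.C2N
import Pool.Agent.FGE.C2R
import Pool.Agent.FGE.C2S
import Pool.Agent.FGE.C2Y
import Pool.Agent.FGE.C3A
import Pool.Agent.FGE.C3B
import Pool.Agent.FGE.C3N
import Pool.Agent.FGE.C3R
import Pool.Agent.FGE.C3S
import Pool.Agent.FGE.C3Y
import Pool.Agent.FGE.C4N
import Pool.Agent.FGE.C4S
import Pool.Agent.FGE.C4Y
import Pool.Agent.FGE.C5N
import Pool.Agent.FGE.C5S
import Pool.Agent.FGE.C5Y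
import Pool.Agent.FGE.C8N
import Pool.Agent.FGE.C8R
import Pool.Agent.FGE.C8S
import Pool.Agent.FGE.C8Y
import Pool.Agent.FGE.CTK
import Pool.Agent.FGE.FXJ
import Pool.Agent.FGE.GE0
import Pool.Agent.FGE.GE1
import Pool.Agent.FGE.ISO
import Pool.Agent.FGE.JGL
import Pool.Agent.FGE.KAP
import Pool.Agent.FGE.ORB
import Pool.Agent.FGE.PRNX
import Pool.Agent.FGE.PRO
import Pool.Agent.FGE.SQS

/-!
# The geometric subgroups: assembly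
-/

namespace FGE

open RSF FL0

theorem a_SQS : S_SQS := t_SQS a_EVS a_CLS
theorem a_JGL : S_JGL := t_JGL f_T
theorem a_C2N : S_C2N := t_C2N f_PI
theorem a_C2Y : S_C2Y := t_C2Y a_JGL
theorem a_C3N : S_C3N := t_C3N t_IA
theorem a_KAP : S_KAP := t_KAP t_DIA
theorem a_C3A : S_C3A := t_C3A a_JGL
theorem a_C3B : S_C3B := t_C3B f_PI t_ORB t_CTK a_KAP a_SQS
theorem a_C3Y : S_C3Y := t_C3Y a_C3A a_C3B
theorem a_C3S : S_C3S := t_C3S t_CTK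
theorem a_C4N : S_C4N := t_C4N f_PI
theorem a_C4Y : S_C4Y := t_C4Y a_JGL
theorem a_C5N : S_C5N := t_C5N f_PI
theorem a_C5Y : S_C5Y := t_C5Y a_JGL
theorem a_FXJ : S_FXJ := t_FXJ t_DIA
theorem a_C8Y : S_C8Y := t_C8Y f_PI t_ORB t_ISO a_FXJ a_SQS
theorem a_C8S : S_C8S := t_C8S t_ISO
theorem a_PRO : S_PRO := t_PRO t_HO0 t_ROT FL0.a_LOW
theorem a_PRN : S_PRN := t_PRN FLN.t_HO t_ROT FLN.a_LOW
theorem a_GE0 : S_GE0 := t_GE0 a_PRO t_C2R a_C2N a_C2Y t_C3R a_C3N a_C3Y a_C4N a_C4Y a_C5N a_C5Y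
  t_C8R t_C8N a_C8Y
theorem a_GE1 : S_GE1 := t_GE1 a_PRN t_C2R a_C2N a_C2Y t_C2S t_C3R a_C3N a_C3Y a_C3S a_C4N a_C4Y
  t_C4S a_C5N a_C5Y t_C5S t_C8R t_C8N a_C8Y a_C8S

end FGE
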