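import Mathlib
import Pool.Agent.FGE.StE

/-!
# C5Y: elements of finite order in the subfield structures
-/

set_option autoImplicit false

namespace FGE

open RSF FL0 Polynomial

noncomputable section

section

variable {F : Type} [Field F] {n : ℕ}

/-- the scalar -/
def c5y_b (K : Subfield F) (k : ℕ) (c : F) : K :=
  open Classical in if h : c ^ k ∈ K then ⟨c ^ k, h⟩ else 0

theorem c5y_card_mat (K : Subfield F) (k : ℕ) (β : K) :
    Nat.card {A : Matrix (Fin n) (Fin n) K // A ^ k = β • (1 : Matrix (Fin n) (Fin n) K)} =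
      Nat.card {A : Module.End K (Fin n → K) // A ^ k = β • (1 : Module.End K (Fin n → K))} := by
  refine Nat.card_congr ((Matrix.toLinAlgEquiv' (R := K) (n := Fin n)).toEquiv.subtypeEquiv ?_)
  intro A
  show A ^ k = β • (1 : Matrix (Fin n) (Fin n) K) ↔
    (Matrix.toLinAlgEquiv' (R := K) (n := Fin n) A) ^ k = β • (1 : Module.End K (Fin n → K))
  rw [← map_pow]
  have h1 : β • (1 : Module.End K (Fin n → K)) =
      Matrix.toLinAlgEquiv' (R := K) (n := Fin n) (β • (1 : Matrix (Fin n) (Fin n) K)) := by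
    rw [map_smul, map_one]
  rw [h1]
  exact (Matrix.toLinAlgEquiv' (R := K) (n := Fin n)).injective.eq_iff.symm

theorem c5y_pow {R : Type} [CommRing R] (P M : Matrix (Fin n) (Fin n) R) (hP : IsUnit P) (k : ℕ) :
    (P * M * P⁻¹) ^ k = P * M ^ k * P⁻¹ := by
  have hP' : P⁻¹ * P = 1 := Matrix.nonsing_inv_mul P ((Matrix.isUnit_iff_isUnit_det P).1 hP)
  have hP'' : P * P⁻¹ = 1 := Matrix.mul_nonsing_inv P ((Matrix.isUnit_iff_isUnit_det P).1 hP)
  induction k with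
  | zero => simp [hP'']
  | succ k ih =>
    rw [pow_succ, ih, pow_succ]
    calc P * M ^ k * P⁻¹ * (P * M * P⁻¹) = P * M ^ k * (P⁻¹ * P) * M * P⁻¹ := by
          simp only [Matrix.mul_assoc]
      _ = P * (M ^ k * M) * P⁻¹ := by
          rw [hP', Matrix.mul_one]; simp only [Matrix.mul_assoc]

/-- existence of the data -/
theorem c5y_ex (K : Subfield F) (k : ℕ) (hn : 1 ≤ n) (P : GL (Fin n) F) (y : GL (Fin n) F)
    (hy : y ^ k = 1) (hP : P5 K P y.1) :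
    ∃ (c : F) (A : Matrix (Fin n) (Fin n) K), c ≠ 0 ∧
      A ^ k = c5y_b K k c • (1 : Matrix (Fin n) (Fin n) K) ∧
      A.map (fun x => (x : F)) = c • (P.1 * y.1 * P.1⁻¹) := by
  obtain ⟨c, hc, h⟩ := hP
  let A : Matrix (Fin n) (Fin n) K := Matrix.of fun i j => ⟨c * (P.1 * y.1 * P.1⁻¹) i j, h i j⟩
  have hA : A.map (fun x => (x : F)) = c • (P.1 * y.1 * P.1⁻¹) := by
    ext i j
    rfl
  have hPu : IsUnit P.1 := P.isUnit
  have hP'' : P.1 * P.1⁻¹ = 1 :=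
    Matrix.mul_nonsing_inv P.1 ((Matrix.isUnit_iff_isUnit_det P.1).1 hPu)
  have hmap : ∀ B : Matrix (Fin n) (Fin n) K, B.map (fun x => (x : F)) = K.subtype.mapMatrix B :=
    fun B => rfl
  have h1 : (A ^ k).map (fun x => (x : F)) = c ^ k • (1 : Matrix (Fin n) (Fin n) F) := by
    rw [hmap, map_pow, ← hmap, hA, _root_.smul_pow, c5y_pow _ _ hPu]
    have h2 : y.1 ^ k = 1 := by
      have := congrArg Units.val hy
      simpa using this
    rw [h2, Matrix.mul_one, hP'']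
  have i0 : Fin n := ⟨0, hn⟩
  have h3 : c ^ k ∈ K := by
    have h4 := congrFun (congrFun h1 i0) i0
    have h5 : (c ^ k • (1 : Matrix (Fin n) (Fin n) F)) i0 i0 = c ^ k := by
      simp
    rw [h5] at h4
    rw [← h4]
    exact ((A ^ k) i0 i0).2
  refine ⟨c, A, hc, ?_, hA⟩
  have h6 : ∀ B D : Matrix (Fin n) (Fin n) K, B.map (fun x => (x : F)) = D.map (fun x => (x : F)) →
      B = D := by
    intro B D hBD
    ext i j
    exact congrFun (congrFun hBD i) j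
  apply h6
  rw [h1]
  have h7 : c5y_b K k c = ⟨c ^ k, h3⟩ := by
    unfold c5y_b
    exact dif_pos h3
  rw [h7]
  ext i j
  by_cases hij : i = j
  · subst hij
    simp
  · simp [hij]

/-- the number of the pairs -/
theorem c5y_le [Finite F] (K : Subfield F) (k : ℕ) (hn : 1 ≤ n) (P : GL (Fin n) F) :
    Nat.card {y : GL (Fin n) F // y ^ k = 1 ∧ P5 K P y.1} ≤
      Nat.card (Σ c : F, {A : Matrix (Fin n) (Fin n) K //
        A ^ k = c5y_b K k c • (1 : Matrix (Fin n) (Fin n) K)}) := by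
  choose c A h1 h2 h3 using fun y : {y : GL (Fin n) F // y ^ k = 1 ∧ P5 K P y.1} =>
    c5y_ex K k hn P y.1 y.2.1 y.2.2
  have : Finite (Σ c : F, {A : Matrix (Fin n) (Fin n) K //
        A ^ k = c5y_b K k c • (1 : Matrix (Fin n) (Fin n) K)}) := inferInstance
  refine Nat.card_le_card_of_injective (fun y => ⟨c y, A y, h2 y⟩) ?_
  intro y z hyz
  have hPu : IsUnit P.1 := P.isUnit
  have hPd := (Matrix.isUnit_iff_isUnit_det P.1).1 hPu
  have hP' : P.1⁻¹ * P.1 = 1 := Matrix.nonsing_inv_mul P.1 hPd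
  have e1 : c y = c z := congrArg Sigma.fst hyz
  have e2 : A y = A z := by
    have e3 := congrArg (fun s : (Σ c : F, {A : Matrix (Fin n) (Fin n) K //
        A ^ k = c5y_b K k c • (1 : Matrix (Fin n) (Fin n) K)}) => s.2.1) hyz
    exact e3
  have e4 : c y • (P.1 * y.1.1 * P.1⁻¹) = c y • (P.1 * z.1.1 * P.1⁻¹) := by
    rw [← h3 y, e2, h3 z, e1]
  have e5 : P.1 * y.1.1 * P.1⁻¹ = P.1 * z.1.1 * P.1⁻¹ := by
    have := congrArg (fun M => (c y)⁻¹ • M) e4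
    simpa only [smul_smul, inv_mul_cancel₀ (h1 y), one_smul] using this
  have e6 : y.1.1 = z.1.1 := by
    have := congrArg (fun M => P.1⁻¹ * M * P.1) e5
    have h8 : ∀ M : Matrix (Fin n) (Fin n) F, P.1⁻¹ * (P.1 * M * P.1⁻¹) * P.1 = M := by
      intro M
      calc P.1⁻¹ * (P.1 * M * P.1⁻¹) * P.1 = (P.1⁻¹ * P.1) * M * (P.1⁻¹ * P.1) := by
            simp only [Matrix.mul_assoc]
        _ = M := by rw [hP', Matrix.one_mul, Matrix.mul_one]
    simpa only [h8] using this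
  exact Subtype.ext (Units.ext e6)

end

theorem c5y_main (hJ : S_JGL) {F : Type} [Field F] [Finite F] (n r k : ℕ) (K : Subfield F)
    (hn : 1 ≤ n) (hr : 1 ≤ r) (hk : 1 ≤ k) (hK : Nat.card K ^ r = Nat.card F) (P : GL (Fin n) F) :
    (Nat.card {y : GL (Fin n) F // y ^ k = 1 ∧ P5 K P y.1} : ℝ) ≤
      (Nat.card F : ℝ) * ((16 * ((n : ℝ) + 1) ^ 2) ^ k *
        (Nat.card F : ℝ) ^ (1 / (r : ℝ) * (1 - 1 / (k : ℝ)) * (n : ℝ) ^ 2)) := by
  classical
  have : Fintype F := Fintype.ofFinite F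
  have h1 := c5y_le K k hn P
  have h2 : Nat.card (Σ c : F, {A : Matrix (Fin n) (Fin n) K //
        A ^ k = c5y_b K k c • (1 : Matrix (Fin n) (Fin n) K)}) =
      ∑ c : F, Nat.card {A : Matrix (Fin n) (Fin n) K //
        A ^ k = c5y_b K k c • (1 : Matrix (Fin n) (Fin n) K)} := Nat.card_sigma
  have hq : (Nat.card K : ℝ) ^ ((n : ℝ) ^ 2 * (1 - 1 / (k : ℝ))) =
      (Nat.card F : ℝ) ^ (1 / (r : ℝ) * (1 - 1 / (k : ℝ)) * (n : ℝ) ^ 2) := by
    have h0 : (Nat.card F : ℝ) = (Nat.card K : ℝ) ^ (r : ℝ) := by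
      rw [Real.rpow_natCast, ← hK]
      push_cast
      rfl
    rw [h0, ← Real.rpow_mul (by positivity)]
    congr 1
    have : (r : ℝ) ≠ 0 := by positivity
    field_simp
  have h3 : ∀ c : F, (Nat.card {A : Matrix (Fin n) (Fin n) K //
        A ^ k = c5y_b K k c • (1 : Matrix (Fin n) (Fin n) K)} : ℝ) ≤
      (16 * ((n : ℝ) + 1) ^ 2) ^ k *
        (Nat.card F : ℝ) ^ (1 / (r : ℝ) * (1 - 1 / (k : ℝ)) * (n : ℝ) ^ 2) := by
    intro c
    rw [c5y_card_mat, ← hq]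
    have h4 := hJ K (Fin n → K) k (c5y_b K k c) hk
    rw [Module.finrank_fin_fun] at h4
    exact h4
  calc (Nat.card {y : GL (Fin n) F // y ^ k = 1 ∧ P5 K P y.1} : ℝ)
      ≤ ((∑ c : F, Nat.card {A : Matrix (Fin n) (Fin n) K //
        A ^ k = c5y_b K k c • (1 : Matrix (Fin n) (Fin n) K)} : ℕ) : ℝ) := by
        rw [← h2]
        exact_mod_cast h1
    _ = ∑ c : F, (Nat.card {A : Matrix (Fin n) (Fin n) K //
        A ^ k = c5y_b K k c • (1 : Matrix (Fin n) (Fin n) K)} : ℝ) := by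
        push_cast
        rfl
    _ ≤ ∑ _c : F, ((16 * ((n : ℝ) + 1) ^ 2) ^ k *
        (Nat.card F : ℝ) ^ (1 / (r : ℝ) * (1 - 1 / (k : ℝ)) * (n : ℝ) ^ 2)) :=
        Finset.sum_le_sum fun c _ => h3 c
    _ = _ := by
        rw [Finset.sum_const, nsmul_eq_mul, Finset.card_univ, Nat.card_eq_fintype_card]

theorem t_C5Y : M_C5Y := by
  intro hJ k hk
  refine ⟨6 * k, by positivity, ?_⟩
  intro F _ _ n r K hn hr hK T
  obtain ⟨P, hP⟩ := T.2
  have h1 : Nat.card {y : GL (Fin n) F // y ^ k = 1 ∧ y.1 ∈ T.1} =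
      Nat.card {y : GL (Fin n) F // y ^ k = 1 ∧ P5 K P y.1} := by
    rw [hP]
    rfl
  rw [h1]
  refine (c5y_main hJ n r k K hn hr hk hK P).trans ?_
  unfold Bd
  have hn' : (1 : ℝ) ≤ n := by exact_mod_cast hn
  have hk' : (1 : ℝ) ≤ k := by exact_mod_cast hk
  have hq1 : (1 : ℝ) ≤ Nat.card F := by
    have : 0 < Nat.card F := Nat.card_pos
    exact_mod_cast this
  have hq0 : (0 : ℝ) < Nat.card F := by linarith
  have h2 : (16 * ((n : ℝ) + 1) ^ 2) ^ k ≤ ((n : ℝ) + 1) ^ (6 * (k : ℝ) * n) := by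
    have h3 : 16 * ((n : ℝ) + 1) ^ 2 ≤ ((n : ℝ) + 1) ^ 6 := by
      have h4 : (16 : ℝ) ≤ ((n : ℝ) + 1) ^ 4 := by
        have h5 : (2 : ℝ) ≤ (n : ℝ) + 1 := by linarith
        calc (16 : ℝ) = 2 ^ 4 := by norm_num
          _ ≤ ((n : ℝ) + 1) ^ 4 := by gcongr
      calc 16 * ((n : ℝ) + 1) ^ 2 ≤ ((n : ℝ) + 1) ^ 4 * ((n : ℝ) + 1) ^ 2 := by gcongr
        _ = ((n : ℝ) + 1) ^ 6 := by ring
    calc (16 * ((n : ℝ) + 1) ^ 2) ^ k ≤ (((n : ℝ) + 1) ^ 6) ^ k := by gcongr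
      _ = ((n : ℝ) + 1) ^ ((6 * k : ℕ) : ℝ) := by rw [Real.rpow_natCast, pow_mul]
      _ ≤ ((n : ℝ) + 1) ^ (6 * (k : ℝ) * n) := by
          apply Real.rpow_le_rpow_of_exponent_le (by linarith)
          push_cast
          nlinarith
  have h6 : (Nat.card F : ℝ) * (Nat.card F : ℝ) ^ (1 / (r : ℝ) * (1 - 1 / (k : ℝ)) * (n : ℝ) ^ 2) ≤
      (Nat.card F : ℝ) ^ (6 * (k : ℝ) * n +
        1 / (r : ℝ) * (1 - 1 / (k : ℝ)) * (n : ℝ) ^ 2) := by
    rw [Real.rpow_add hq0]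
    refine mul_le_mul_of_nonneg_right ?_ (by positivity)
    calc (Nat.card F : ℝ) = (Nat.card F : ℝ) ^ (1 : ℝ) := (Real.rpow_one _).symm
      _ ≤ (Nat.card F : ℝ) ^ (6 * (k : ℝ) * n) := by
          apply Real.rpow_le_rpow_of_exponent_le hq1
          nlinarith
  calc (Nat.card F : ℝ) * ((16 * ((n : ℝ) + 1) ^ 2) ^ k *
        (Nat.card F : ℝ) ^ (1 / (r : ℝ) * (1 - 1 / (k : ℝ)) * (n : ℝ) ^ 2))
      = (16 * ((n : ℝ) + 1) ^ 2) ^ k * ((Nat.card F : ℝ) *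
        (Nat.card F : ℝ) ^ (1 / (r : ℝ) * (1 - 1 / (k : ℝ)) * (n : ℝ) ^ 2)) := by ring
    _ ≤ ((n : ℝ) + 1) ^ (6 * (k : ℝ) * n) * (Nat.card F : ℝ) ^ (6 * (k : ℝ) * n +
        1 / (r : ℝ) * (1 - 1 / (k : ℝ)) * (n : ℝ) ^ 2) :=
        mul_le_mul h2 h6 (by positivity) (by positivity)

end

end FGE
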