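import Pool.Agent.FGE.StE
import Pool.Agent.FLW.StW

/-!
# Geometric maximal subgroups: oriented genus 1, non-oriented genus 2, the classes `C6` and `C7`, and the
final theorem

MP_5b5212_al. Conventions as in `StE.lean`: module `X` proves `theorem t_X : M_X` (or `t_X : S_X` if there is no
`M_X`) in `Pool/Agent/FGE/X.lean`, namespace `FGE`, importing this file.
-/

namespace FGE

open RSF FL0 Polynomial

noncomputable section

/-! ## 1. Oriented genus 1, non-oriented genus 2 -/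

/-- **PR2**. The union bound (compare `PRNX.lean`), for `o = true` and `o = false`. For one `T` the number of the tuples
`(t, a, b)` in `PSL_n` as in `FLW.TN` all whose preimages satisfy `Q T` is at most the product over the `j ≠ i` of the
number of the possible `t j` (`t i` is determined by the others and `a`, `b`) and the square of the number of the
possible `a`: in total at most `Bd C ((1-μ) n²) ∏_(j≠i) Bd C (μ (1-1/m_j) n²) (Bd C (μ n²))²`. Divide by `FLW.S_LOW`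
(`q^((1+σ) n² - C')`): the exponent is `(1 - μ) + 2 μ + μ (σ - 1 + 1/m_i) - (1 + σ) = - (1-μ) σ + μ / m_i ≤ - (σ - 1/m_i) / 2`
(times `n²`). -/
def S_PR2 : Prop :=
  ∀ m : List ℕ, (∀ k ∈ m, 2 ≤ k) → 0 < sig m → (∃ k ∈ m, 1 / (k : ℝ) < sig m) →
    ∀ C : ℝ, 0 ≤ C → ∃ r : ℕ, ∀ n, r ≤ n → ∀ (F : Type) [Field F] [Finite F],
    (∀ k ∈ m, k ∣ Nat.card F - 1) → (∀ k ∈ m, Ord n F k) →
    ∀ (I : Type) [Finite I] (Q : I → Matrix (Fin n) (Fin n) F → Prop) (μ : ℝ), 0 ≤ μ → μ ≤ 1 / 2 →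
      (∀ T M (c : F), c ≠ 0 → Q T M → Q T (c • M)) →
      (Nat.card I : ℝ) ≤ Bd C n F ((1 - μ) * (n : ℝ) ^ 2) →
      (∀ T, ∀ k ∈ m, (Nat.card {y : GL (Fin n) F // y ^ k = 1 ∧ Q T y.1} : ℝ) ≤
        Bd C n F (μ * (1 - 1 / (k : ℝ)) * (n : ℝ) ^ 2)) →
      (∀ T, (Nat.card {y : GL (Fin n) F // Q T y.1} : ℝ) ≤ Bd C n F (μ * (n : ℝ) ^ 2)) →
      prob (OGroup 1 m) (PS n F) (fun ρ => ∃ T, All ρ.range (Q T)) ≤
        (Nat.card F : ℝ) ^ (-(2 * (n : ℝ))) ∧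
      prob (NGroup 2 m) (PS n F) (fun ρ => ∃ T, All ρ.range (Q T)) ≤
        (Nat.card F : ℝ) ^ (-(2 * (n : ℝ)))

def M_PR2 : Prop := FLW.S_HO → FL0.S_ROT → FLW.S_LOW → S_PR2

/-- **GE2** (as `GE1`, with `S_PR2`; `GE0.lean` has the general theorem `ge0_general`). -/
def S_GE2 : Prop :=
  ∀ m : List ℕ, (∀ k ∈ m, 2 ≤ k) → 0 < sig m → (∃ k ∈ m, 1 / (k : ℝ) < sig m) →
    ∃ r : ℕ, ∀ n, r ≤ n → ∀ (F : Type) [Field F] [Finite F], (∀ k ∈ m, k ∣ Nat.card F - 1) →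
    (∀ k ∈ m, Ord n F k) →
      prob (OGroup 1 m) (PS n F) (fun ρ => Irr ρ.range ∧ Geo ρ.range) ≤
        (Nat.card F : ℝ) ^ (-((n : ℝ) / 2)) ∧
      prob (NGroup 2 m) (PS n F) (fun ρ => Irr ρ.range ∧ Geo ρ.range) ≤
        (Nat.card F : ℝ) ^ (-((n : ℝ) / 2))

def M_GE2 : Prop := S_PR2 → S_C2R → S_C2N → S_C2Y → S_C2S → S_C3R → S_C3N → S_C3Y → S_C3S →
  S_C4N → S_C4Y → S_C4S → S_C5N → S_C5Y → S_C5S → S_C8R → S_C8N → S_C8Y → S_C8S → S_GE2

/-! ## 2. The classes `C6` and `C7` -/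

/-- the monomial `∏ g_i ^ e_i` -/
def mo {n s : ℕ} {F : Type} [Field F] (g : Fin s → GL (Fin n) F) (e : Fin s → ℕ) :
    Matrix (Fin n) (Fin n) F := (List.ofFn fun i => (g i).1 ^ e i).prod

/-- `M` normalizes the group generated by the `g i` and the scalars -/
def P6 {n s : ℕ} {F : Type} [Field F] (g : Fin s → GL (Fin n) F)
    (M : Matrix (Fin n) (Fin n) F) : Prop :=
  ∀ i, ∃ (c : F) (e : Fin s → ℕ), M * (g i).1 = c • (mo g e * M)

/-- the tuples `g` that commute up to scalars, with scalar `g_i ^ r`, and generate the matrix ring -/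
def I6 (F : Type) [Field F] (n r s : ℕ) : Type :=
  {g : Fin s → GL (Fin n) F // (∀ i, ∃ c : F, (g i).1 ^ r = c • (1 : Matrix (Fin n) (Fin n) F)) ∧
    (∀ i j, ∃ c : F, (g i).1 * (g j).1 = c • ((g j).1 * (g i).1)) ∧
    Submodule.span F (Set.range (mo g)) = ⊤}

/-- a group of symplectic type is normalized: generators of an absolutely irreducible group, elementary abelian
of order `n ^ 2` modulo scalars -/
def C6 {n : ℕ} {F : Type} [Field F] (H : Subgroup (PS n F)) : Prop :=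
  ∃ (r s : ℕ) (g : I6 F n r s), 2 ≤ r ∧ r ^ s = n ^ 2 ∧ All H (P6 g.1)

/-- `P M P⁻¹` is a tensor product of `t` factors of size `a` times a permutation of the factors -/
def P7 {n a t : ℕ} {F : Type} [Field F] (e : Fin n ≃ (Fin t → Fin a)) (P : GL (Fin n) F)
    (M : Matrix (Fin n) (Fin n) F) : Prop :=
  ∃ (B : Fin t → Matrix (Fin a) (Fin a) F) (π : Equiv.Perm (Fin t)),
    P.1 * M * P.1⁻¹ = Matrix.of fun i j => ∏ s, B s (e i s) (e j (π s))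

/-- tensor induced -/
def C7 {n : ℕ} {F : Type} [Field F] (H : Subgroup (PS n F)) : Prop :=
  ∃ (a t : ℕ) (e : Fin n ≃ (Fin t → Fin a)) (P : GL (Fin n) F), 2 ≤ a ∧ 2 ≤ t ∧ All H (P7 e P)

/-- **C6A**. The monomials with exponents `e_i < r` are a basis of the matrix ring (`r^s = n²` generators).
There are scalars `c(i, e)` that depend only on `l` and `γ`, and permutations `e ↦ i·e` of the exponents (`e_i + 1` modulo `r`), with
`g_i mo g e = c(i, e) mo g (i·e)`, the same for `h`. So `Π X = ∑_e mo h e X (mo g e)⁻¹` satisfies `h_i Π(X) = Π(X) g_i`. If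
`Π X = 0` for all `X` (matrix units) then, as the `mo h e` are linearly independent, `(mo g e)⁻¹ = 0`, a contradiction
(`n ≥ 1`). Take `P = Π X ≠ 0`: its kernel is invariant under the `g_i`, so under all matrices, so `P` is invertible. -/
def S_C6A : Prop :=
  ∀ (F : Type) [Field F] (n r s : ℕ), 1 ≤ n → 1 ≤ r → r ^ s = n ^ 2 →
    ∀ (g h : I6 F n r s) (l : Fin s → F) (γ : Fin s → Fin s → F),
    (∀ i, (g.1 i).1 ^ r = l i • (1 : Matrix (Fin n) (Fin n) F)) →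
    (∀ i, (h.1 i).1 ^ r = l i • (1 : Matrix (Fin n) (Fin n) F)) →
    (∀ i j, (g.1 i).1 * (g.1 j).1 = γ i j • ((g.1 j).1 * (g.1 i).1)) →
    (∀ i j, (h.1 i).1 * (h.1 j).1 = γ i j • ((h.1 j).1 * (h.1 i).1)) →
      ∃ P : GL (Fin n) F, ∀ i, P.1 * (g.1 i).1 = (h.1 i).1 * P.1

/-- **C6N**. At most `q^(s + s²)` possible scalars `(l, γ)`, and for each of them at most `|GL_n| ≤ q^(n²)` tuples (`S_C6A`).
`2^s ≤ n²`, `s + s² ≤ 20 n`. -/
def S_C6N : Prop :=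
  ∀ (F : Type) [Field F] [Finite F] (n r s : ℕ), 1 ≤ n → 2 ≤ r → r ^ s = n ^ 2 →
    (Nat.card (I6 F n r s) : ℝ) ≤ Bd 20 n F ((n : ℝ) ^ 2)

def M_C6N : Prop := S_C6A → S_C6N

/-- **C6S**. We may take `e_i < r` (the `g_i ^ r` are scalars), so there are at most `(q n²)^s` possible `(c, e)`; two invertible
`y`, `y'` with the same `(c, e)` differ by a matrix that commutes with all `g_i`, so with all matrices: a scalar. So at
most `q (q n²)^s` elements; `2^s ≤ n²`, `s ≤ 2 n`. -/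
def S_C6S : Prop :=
  ∀ (F : Type) [Field F] [Finite F] (n r s : ℕ), 1 ≤ n → 2 ≤ r → r ^ s = n ^ 2 →
    ∀ g : I6 F n r s, (Nat.card {y : GL (Fin n) F // P6 g.1 y.1} : ℝ) ≤ Bd 20 n F 0

/-- the sets of matrices that preserve a tensor decomposition in `t` factors -/
def I7 (F : Type) [Field F] (n a t : ℕ) : Type :=
  {T : Set (Matrix (Fin n) (Fin n) F) // ∃ (e : Fin n ≃ (Fin t → Fin a)) (P : GL (Fin n) F),
    T = {M | P7 e P M}}

/-- **C7N**. At most `n!` bijections `e` (`n! ≤ (n+1)^n`), `|GL_n| ≤ q^(n²)` matrices `P`. -/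
def S_C7N : Prop :=
  ∀ (F : Type) [Field F] [Finite F] (n a t : ℕ),
    (Nat.card (I7 F n a t) : ℝ) ≤ Bd 1 n F ((n : ℝ) ^ 2)

/-- **C7S**. At most `t! q^(t a²)` pairs `(π, B)`; `a^t = n` (if there is such a `T`), `t ≤ n`, `t a² ≤ 2 n` (`t ≤ 2 a^(t-2)`). -/
def S_C7S : Prop :=
  ∀ (F : Type) [Field F] [Finite F] (n a t : ℕ), 2 ≤ a → 2 ≤ t → ∀ T : I7 F n a t,
    (Nat.card {y : GL (Fin n) F // y.1 ∈ T.1} : ℝ) ≤ Bd 2 n F 0

/-- **GA0**. Union over the `r`, `s` (`2 ≤ r ≤ n²`, `s ≤ 2 n`), resp. `a`, `t` (at most `n`); each of them by `S_PRO` with `μ = 0`,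
`C = 20`: at most `q^(-2n)`. In total at most `(2 n + 1) (n² + 1) + (n+1)²` times `q^(-2n)`, at most `q^(-n/2)`. The
properties do not change if `M` is multiplied by a scalar (`P6`: `c • M`, clear; `P7`: multiply one `B s`). -/
def S_GA0 : Prop :=
  ∀ m : List ℕ, (∀ k ∈ m, 2 ≤ k) → 2 < sig m → (∃ k ∈ m, 1 / (k : ℝ) < sig m - 2) →
    ∃ r : ℕ, ∀ n, r ≤ n → ∀ (F : Type) [Field F] [Finite F], (∀ k ∈ m, k ∣ Nat.card F - 1) →
    (∀ k ∈ m, Ord n F k) →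
      prob (OGroup 0 m) (PS n F) (fun ρ => C6 ρ.range ∨ C7 ρ.range) ≤
        (Nat.card F : ℝ) ^ (-((n : ℝ) / 2))

def M_GA0 : Prop := S_PRO → S_C6N → S_C6S → S_C7N → S_C7S → S_GA0

/-- **GA1**, the same with `S_PRN`. -/
def S_GA1 : Prop :=
  ∀ m : List ℕ, (∀ k ∈ m, 2 ≤ k) → 1 < sig m → (∃ k ∈ m, 1 / (k : ℝ) < sig m - 1) →
    ∃ r : ℕ, ∀ n, r ≤ n → ∀ (F : Type) [Field F] [Finite F], (∀ k ∈ m, k ∣ Nat.card F - 1) →
    (∀ k ∈ m, Ord n F k) →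
      prob (NGroup 1 m) (PS n F) (fun ρ => C6 ρ.range ∨ C7 ρ.range) ≤
        (Nat.card F : ℝ) ^ (-((n : ℝ) / 2))

def M_GA1 : Prop := S_PRN → S_C6N → S_C6S → S_C7N → S_C7S → S_GA1

/-- **GA2**, the same with `S_PR2`. -/
def S_GA2 : Prop :=
  ∀ m : List ℕ, (∀ k ∈ m, 2 ≤ k) → 0 < sig m → (∃ k ∈ m, 1 / (k : ℝ) < sig m) →
    ∃ r : ℕ, ∀ n, r ≤ n → ∀ (F : Type) [Field F] [Finite F], (∀ k ∈ m, k ∣ Nat.card F - 1) →
    (∀ k ∈ m, Ord n F k) →
      prob (OGroup 1 m) (PS n F) (fun ρ => C6 ρ.range ∨ C7 ρ.range) ≤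
        (Nat.card F : ℝ) ^ (-((n : ℝ) / 2)) ∧
      prob (NGroup 2 m) (PS n F) (fun ρ => C6 ρ.range ∨ C7 ρ.range) ≤
        (Nat.card F : ℝ) ^ (-((n : ℝ) / 2))

def M_GA2 : Prop := S_PR2 → S_C6N → S_C6S → S_C7N → S_C7S → S_GA2

/-! ## 3. The final statement -/

/-- one of the geometric classes `C2`, …, `C8` of Aschbacher's theorem (`C1`: reducible) -/
def Asch {n : ℕ} {F : Type} [Field F] (H : Subgroup (PS n F)) : Prop :=
  C2 H ∨ C3 H ∨ C4 H ∨ C5 H ∨ C6 H ∨ C7 H ∨ C8 H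

/-- The statement for the group `Γ` with the periods `m`; `h = 0` for oriented groups of genus `0`, `h = 1` for
non-oriented groups of genus `1`, `h = 2` for oriented groups of genus `1` and non-oriented ones of genus `2`. -/
def St (h : ℕ) (Γ : Type) [Group Γ] (m : List ℕ) : Prop :=
  2 < sig m + h → ∀ θ : ℝ, m.length - sig m < θ * (m.length + h - 2) →
    ∃ (c : ℝ) (r : ℕ), 0 < c ∧ ∀ n, r ≤ n →
    ∀ (F : Type) [Field F] [Finite F], (∀ k ∈ m, k * Nat.gcd n (Nat.card F - 1) ∣ Nat.card F - 1) →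
      |(Nat.card (Γ →* PS n F) : ℝ) * (Nat.card (PS n F) : ℝ) ^ (1 - (h : ℤ)) /
          (m.map fun k => (Nat.card {t : PS n F // t ^ k = 1} : ℝ)).prod - 1| ≤
        (Nat.card F : ℝ) ^ (-c * (n : ℝ)) ∧
      ∀ S : Set (Subgroup (PS n F)), (S.ncard : ℝ) ≤ (Nat.card F : ℝ) ^ (c * (n : ℝ) ^ 2) →
        (∀ M ∈ S, (Nat.card F : ℝ) ^ (θ * (n : ℝ) ^ 2) ≤ M.index) →
        1 - (Nat.card F : ℝ) ^ (-c * (n : ℝ)) ≤ prob Γ (PS n F)
          (fun ρ => Irr ρ.range ∧ (∀ M ∈ S, ¬ InConj ρ.range M) ∧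
            ((∃ k ∈ m, 1 / (k : ℝ) < sig m + h - 2) → ¬ Asch ρ.range))

/-- The theorem. -/
def Main : Prop :=
  ∀ m : List ℕ, (∀ k ∈ m, 2 ≤ k) →
    St 0 (OGroup 0 m) m ∧ St 1 (NGroup 1 m) m ∧ St 2 (OGroup 1 m) m ∧ St 2 (NGroup 2 m) m

/-- **FN0**: `FL0.S_CNT0`, and the sum of the four probabilities (`FL0.S_FII`, `FL0.S_FIII`, `S_GE0`, `S_GA0`); see
`FL0/MAIN.lean`, `FLN/StN.lean`. `Ord n F k` implies `k ∣ q - 1`. -/
def M_FN0 : Prop := FL0.S_CNT0 → FL0.S_FII → FL0.S_FIII → S_GE0 → S_GA0 →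
  ∀ m : List ℕ, (∀ k ∈ m, 2 ≤ k) → St 0 (OGroup 0 m) m

/-- **FN1**: the same. -/
def M_FN1 : Prop := FLN.S_CNT → FLN.S_FII → FLN.S_FIII → S_GE1 → S_GA1 →
  ∀ m : List ℕ, (∀ k ∈ m, 2 ≤ k) → St 1 (NGroup 1 m) m

/-- **FN2**: the same; `FLW.S_HO` with `E = True` for the count. -/
def M_FN2 : Prop := FLW.S_HO → FLW.S_CNT → FLW.S_FII → FLW.S_FIII → S_GE2 → S_GA2 →
  ∀ m : List ℕ, (∀ k ∈ m, 2 ≤ k) → St 2 (OGroup 1 m) m ∧ St 2 (NGroup 2 m) m

end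

end FGE
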