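import Mathlib
import Pool.Agent.FGE.StF

/-!
# Module C6A: tuples of class `C6` with the same scalars are conjugate
-/

set_option autoImplicit false

namespace FGE

open RSF FL0 Polynomial Module

noncomputable section

/-- the monomial `∏ k_i ^ e_i` in a monoid -/
def c6a_mo {B : Type} [Monoid B] {s : ℕ} (k : Fin s → B) (e : Fin s → ℕ) : B :=
  (List.ofFn fun i => k i ^ e i).prod

lemma c6a_mo_succ {B : Type} [Monoid B] {s : ℕ} (k : Fin (s + 1) → B) (e : Fin (s + 1) → ℕ) :
    c6a_mo k e = k 0 ^ e 0 * c6a_mo (fun i => k i.succ) (fun i => e i.succ) := by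
  unfold c6a_mo
  rw [List.ofFn_succ, List.prod_cons]

lemma c6a_comm {F B : Type} [Field F] [Ring B] [Algebra F B] {a b : B}
    (h : ∃ c : F, a * b = c • (b * a)) (m : ℕ) : ∃ c : F, a * b ^ m = c • (b ^ m * a) := by
  obtain ⟨c, hc⟩ := h
  refine ⟨c ^ m, ?_⟩
  induction m with
  | zero => simp
  | succ m ih =>
    calc a * b ^ (m + 1) = (a * b ^ m) * b := by rw [pow_succ, mul_assoc]
      _ = c ^ m • (b ^ m * (a * b)) := by rw [ih, smul_mul_assoc, mul_assoc]
      _ = c ^ m • (c • (b ^ m * (b * a))) := by rw [hc, mul_smul_comm]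
      _ = c ^ (m + 1) • (b ^ (m + 1) * a) := by
        rw [smul_smul, ← pow_succ, ← mul_assoc, ← pow_succ]

lemma c6a_mul {F B : Type} [Field F] [Ring B] [Algebra F B] (s : ℕ) :
    ∀ (k : Fin s → B), (∀ i j, ∃ c : F, k i * k j = c • (k j * k i)) → ∀ (e : Fin s → ℕ)
      (i : Fin s), ∃ (c : F) (e' : Fin s → ℕ), k i * c6a_mo k e = c • c6a_mo k e' := by
  induction s with
  | zero => exact fun k _ e i => i.elim0
  | succ s ih =>
    intro k h e i
    refine Fin.cases ?_ (fun j => ?_) i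
    · refine ⟨1, Fin.cons (e 0 + 1) fun j => e j.succ, ?_⟩
      rw [c6a_mo_succ, c6a_mo_succ, one_smul]
      simp only [Fin.cons_zero, Fin.cons_succ]
      rw [pow_succ', mul_assoc]
    · obtain ⟨c1, h1⟩ := c6a_comm (h j.succ 0) (e 0)
      obtain ⟨c2, e2, h2⟩ := ih (fun j => k j.succ) (fun a b => h a.succ b.succ)
        (fun j => e j.succ) j
      refine ⟨c1 * c2, Fin.cons (e 0) e2, ?_⟩
      rw [c6a_mo_succ, c6a_mo_succ]
      simp only [Fin.cons_zero, Fin.cons_succ]
      rw [← mul_assoc, h1, smul_mul_assoc, mul_assoc, h2, mul_smul_comm, smul_smul]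

lemma c6a_red {F B : Type} [Field F] [Ring B] [Algebra F B] {r : ℕ} (hr : 1 ≤ r) (s : ℕ) :
    ∀ (k : Fin s → B), (∀ i, ∃ c : F, k i ^ r = c • (1 : B)) → ∀ (e : Fin s → ℕ),
      ∃ (c : F) (e' : Fin s → Fin r), c6a_mo k e = c • c6a_mo k (fun i => (e' i : ℕ)) := by
  induction s with
  | zero =>
    intro k _ e
    exact ⟨1, fun i => i.elim0, by rw [one_smul]; simp [c6a_mo]⟩
  | succ s ih =>
    intro k h e
    obtain ⟨c1, h1⟩ := h 0
    obtain ⟨c2, e2, h2⟩ := ih (fun j => k j.succ) (fun a => h a.succ) (fun j => e j.succ)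
    refine ⟨c1 ^ (e 0 / r) * c2, Fin.cons ⟨e 0 % r, Nat.mod_lt _ (by omega)⟩ e2, ?_⟩
    rw [c6a_mo_succ, c6a_mo_succ]
    simp only [Fin.cons_zero, Fin.cons_succ]
    have h3 : k 0 ^ e 0 = c1 ^ (e 0 / r) • k 0 ^ (e 0 % r) := by
      conv_lhs => rw [← Nat.div_add_mod (e 0) r]
      rw [pow_add, pow_mul, h1, _root_.smul_pow, one_pow, smul_mul_assoc, one_mul]
    rw [h3, h2, smul_mul_assoc, mul_smul_comm, smul_smul]

/-- the algebra generated by the `k i` has dimension at most `r ^ s` -/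
lemma c6a_adjoin {F B : Type} [Field F] [Ring B] [Algebra F B] {r s : ℕ} (hr : 1 ≤ r)
    (k : Fin s → B) (h1 : ∀ i, ∃ c : F, k i ^ r = c • (1 : B))
    (h2 : ∀ i j, ∃ c : F, k i * k j = c • (k j * k i)) :
    Subalgebra.toSubmodule (Algebra.adjoin F (Set.range k)) ≤
      Submodule.span F (Set.range fun e : Fin s → Fin r => c6a_mo k fun i => (e i : ℕ)) := by
  set S := Submodule.span F (Set.range fun e : Fin s → Fin r => c6a_mo k fun i => (e i : ℕ))
    with hS
  have hmo : ∀ e : Fin s → ℕ, c6a_mo k e ∈ S := by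
    intro e
    obtain ⟨c, e', he⟩ := c6a_red hr s k h1 e
    rw [he]
    exact S.smul_mem c (Submodule.subset_span ⟨e', rfl⟩)
  have hk : ∀ i, ∀ y ∈ S, k i * y ∈ S := by
    intro i y hy
    induction hy using Submodule.span_induction with
    | mem y hy =>
      obtain ⟨e, rfl⟩ := hy
      obtain ⟨c, e', he⟩ := c6a_mul s k h2 (fun i => (e i : ℕ)) i
      show k i * c6a_mo k (fun i => (e i : ℕ)) ∈ S
      rw [he]
      exact S.smul_mem c (hmo e')
    | zero => rw [mul_zero]; exact S.zero_mem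
    | add y z _ _ hy hz => rw [mul_add]; exact S.add_mem hy hz
    | smul c y _ hy => rw [mul_smul_comm]; exact S.smul_mem c hy
  have hT : ∀ x ∈ Algebra.adjoin F (Set.range k), ∀ y ∈ S, x * y ∈ S := by
    intro x hx
    induction hx using Algebra.adjoin_induction with
    | mem x hx =>
      obtain ⟨i, rfl⟩ := hx
      exact hk i
    | algebraMap c =>
      intro y hy
      rw [← Algebra.smul_def]
      exact S.smul_mem c hy
    | add x z _ _ hx hz =>
      intro y hy
      rw [add_mul]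
      exact S.add_mem (hx y hy) (hz y hy)
    | mul x z _ _ hx hz =>
      intro y hy
      rw [mul_assoc]
      exact hx _ (hz y hy)
  intro x hx
  have h := hT x hx 1 (by
    have := hmo (fun _ => 0)
    simpa [c6a_mo] using this)
  rwa [mul_one] at h

lemma c6a_mo_mem {F B : Type} [Field F] [Ring B] [Algebra F B] {s : ℕ} (k : Fin s → B)
    (e : Fin s → ℕ) : c6a_mo k e ∈ Algebra.adjoin F (Set.range k) := by
  refine Subalgebra.list_prod_mem _ fun x hx => ?_
  rw [List.mem_ofFn] at hx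
  obtain ⟨i, rfl⟩ := hx
  exact Subalgebra.pow_mem _ (Algebra.subset_adjoin (Set.mem_range_self i)) _

lemma c6a_map {B B' : Type} [Monoid B] [Monoid B'] {s : ℕ} (f : B →* B') (k : Fin s → B)
    (e : Fin s → ℕ) : f (c6a_mo k e) = c6a_mo (fun i => f (k i)) e := by
  unfold c6a_mo
  rw [map_list_prod, List.map_ofFn]
  simp [Function.comp_def]

/-- a projection of the algebra generated by the `k i` to the matrix ring is bijective -/
lemma c6a_bij {F B : Type} [Field F] [Ring B] [Algebra F B] {n r s : ℕ} (hr : 1 ≤ r)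
    (hn : r ^ s = n ^ 2) (k : Fin s → B) (h1 : ∀ i, ∃ c : F, k i ^ r = c • (1 : B))
    (h2 : ∀ i j, ∃ c : F, k i * k j = c • (k j * k i)) (f : B →ₐ[F] Matrix (Fin n) (Fin n) F)
    (hf : Submodule.span F (Set.range (c6a_mo fun i => f (k i))) = ⊤) :
    Function.Bijective (f.comp (Algebra.adjoin F (Set.range k)).val) := by
  set T := Algebra.adjoin F (Set.range k) with hT
  set S := Submodule.span F (Set.range fun e : Fin s → Fin r => c6a_mo k fun i => (e i : ℕ))
    with hS
  have hTS : Subalgebra.toSubmodule T ≤ S := c6a_adjoin hr k h1 h2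
  have : FiniteDimensional F S := FiniteDimensional.span_of_finite F (Set.finite_range _)
  have : FiniteDimensional F (Subalgebra.toSubmodule T) := Submodule.finiteDimensional_of_le hTS
  have : FiniteDimensional F T := this
  have hfS : finrank F S ≤ n ^ 2 := by
    rw [← hn]
    have := finrank_range_le_card (R := F)
      (fun e : Fin s → Fin r => c6a_mo k fun i => (e i : ℕ))
    simpa [Set.finrank] using this
  have hfT : finrank F T ≤ n ^ 2 := (Submodule.finrank_mono hTS).trans hfS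
  have hsurj : Function.Surjective (f.comp T.val) := by
    have h3 : LinearMap.range (f.comp T.val).toLinearMap = ⊤ := by
      rw [eq_top_iff, ← hf, Submodule.span_le]
      rintro _ ⟨e, rfl⟩
      refine ⟨⟨c6a_mo k e, c6a_mo_mem k e⟩, ?_⟩
      exact c6a_map (f : B →* Matrix (Fin n) (Fin n) F) k e
    exact LinearMap.range_eq_top.1 h3
  have hfin : finrank F (Matrix (Fin n) (Fin n) F) = n ^ 2 := by
    rw [Module.finrank_matrix]
    simp [_root_.sq]
  have hge : finrank F (Matrix (Fin n) (Fin n) F) ≤ finrank F T :=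
    LinearMap.finrank_le_finrank_of_surjective (f := (f.comp T.val).toLinearMap) hsurj
  have heq : finrank F T = finrank F (Matrix (Fin n) (Fin n) F) := by omega
  exact ⟨(LinearMap.injective_iff_surjective_of_finrank_eq_finrank heq
    (f := (f.comp T.val).toLinearMap)).2 hsurj, hsurj⟩

/-- automorphisms of the matrix ring are inner -/
lemma c6a_inner {F : Type} [Field F] {n : ℕ}
    (φ : Matrix (Fin n) (Fin n) F ≃ₐ[F] Matrix (Fin n) (Fin n) F) :
    ∃ P : GL (Fin n) F, ∀ X, P.1 * X = φ X * P.1 := by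
  obtain ⟨T, hT⟩ := AlgEquiv.eq_linearEquivConjAlgEquiv
    ((Matrix.toLinAlgEquiv' (R := F) (n := Fin n)).symm.trans
      (φ.trans (Matrix.toLinAlgEquiv' (R := F) (n := Fin n))))
  have h1 : (LinearMap.toMatrix' T.toLinearMap) * (LinearMap.toMatrix' T.symm.toLinearMap) = 1 := by
    rw [← LinearMap.toMatrix'_comp]
    simp
  have h2 : (LinearMap.toMatrix' T.symm.toLinearMap) * (LinearMap.toMatrix' T.toLinearMap) = 1 := by
    rw [← LinearMap.toMatrix'_comp]
    simp
  refine ⟨⟨LinearMap.toMatrix' T.toLinearMap, LinearMap.toMatrix' T.symm.toLinearMap, h1, h2⟩,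
    fun X => ?_⟩
  show LinearMap.toMatrix' T.toLinearMap * X = φ X * LinearMap.toMatrix' T.toLinearMap
  have h3 : Matrix.toLinAlgEquiv' (φ X) =
      T.toLinearMap ∘ₗ (Matrix.toLinAlgEquiv' X) ∘ₗ T.symm.toLinearMap := by
    have h4 := congrArg (fun f => f (Matrix.toLinAlgEquiv' X)) hT
    simpa [LinearEquiv.conjAlgEquiv_apply] using h4
  apply (Matrix.toLinAlgEquiv' (R := F) (n := Fin n)).injective
  rw [map_mul, map_mul, h3]
  have h5 : Matrix.toLinAlgEquiv' (LinearMap.toMatrix' T.toLinearMap) = T.toLinearMap :=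
    Matrix.toLin'_toMatrix' T.toLinearMap
  rw [h5]
  ext v i
  simp [Module.End.mul_apply]

/-- Module C6A. -/
theorem t_C6A : S_C6A := by
  intro F _ n r s hn hr hrs g h l γ hg1 hh1 hg2 hh2
  set k : Fin s → Matrix (Fin n) (Fin n) F × Matrix (Fin n) (Fin n) F :=
    fun i => ((g.1 i).1, (h.1 i).1) with hk
  have h1 : ∀ i, ∃ c : F, k i ^ r = c • (1 : Matrix (Fin n) (Fin n) F × Matrix (Fin n) (Fin n) F) := by
    intro i
    refine ⟨l i, Prod.ext ?_ ?_⟩
    · exact hg1 i
    · exact hh1 i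
  have h2 : ∀ i j, ∃ c : F, k i * k j = c • (k j * k i) := by
    intro i j
    refine ⟨γ i j, Prod.ext ?_ ?_⟩
    · exact hg2 i j
    · exact hh2 i j
  have b1 := c6a_bij hr hrs k h1 h2 (AlgHom.fst F _ _) g.2.2.2
  have b2 := c6a_bij hr hrs k h1 h2 (AlgHom.snd F _ _) h.2.2.2
  obtain ⟨P, hP⟩ := c6a_inner ((AlgEquiv.ofBijective _ b1).symm.trans (AlgEquiv.ofBijective _ b2))
  refine ⟨P, fun i => ?_⟩
  rw [hP]
  congr 1
  have h3 : (AlgEquiv.ofBijective _ b1).symm (g.1 i).1 =
      ⟨k i, Algebra.subset_adjoin ⟨i, rfl⟩⟩ := by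
    rw [AlgEquiv.symm_apply_eq]
    rfl
  rw [AlgEquiv.trans_apply, h3]
  rfl

end

end FGE
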