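import Mathlib
import Pool.Agent.FGE.StF

/-!
# C6N: the number of the structures of class `C6`
-/

set_option autoImplicit false

namespace FGE

open RSF FL0 Polynomial

theorem c6n_num (s : ℕ) : (s + s ^ 2) ^ 2 ≤ 400 * 2 ^ s := by
  rcases lt_or_ge s 5 with h | h
  · interval_cases s <;> norm_num
  · induction s, h using Nat.le_induction with
    | base => norm_num
    | succ s hs ih =>
      have h1 : (s + 2) ^ 2 ≤ 2 * s ^ 2 := by nlinarith
      have e1 : (s + 1 + (s + 1) ^ 2) ^ 2 = (s + 1) ^ 2 * (s + 2) ^ 2 := by ring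
      have e2 : (s + s ^ 2) ^ 2 = (s + 1) ^ 2 * s ^ 2 := by ring
      rw [e2] at ih
      rw [e1, pow_succ 2 s]
      calc (s + 1) ^ 2 * (s + 2) ^ 2 ≤ (s + 1) ^ 2 * (2 * s ^ 2) := Nat.mul_le_mul_left _ h1
        _ = 2 * ((s + 1) ^ 2 * s ^ 2) := by ring
        _ ≤ 2 * (400 * 2 ^ s) := Nat.mul_le_mul_left _ ih
        _ = 400 * (2 ^ s * 2) := by ring

theorem c6n_exp {n r s : ℕ} (hr : 2 ≤ r) (h : r ^ s = n ^ 2) : s + s ^ 2 ≤ 20 * n := by
  have h1 : 2 ^ s ≤ n ^ 2 := by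
    rw [← h]
    exact Nat.pow_le_pow_left hr s
  have h2 : (s + s ^ 2) ^ 2 ≤ (20 * n) ^ 2 := by
    calc (s + s ^ 2) ^ 2 ≤ 400 * 2 ^ s := c6n_num s
      _ ≤ 400 * n ^ 2 := Nat.mul_le_mul_left _ h1
      _ = (20 * n) ^ 2 := by ring
  exact (Nat.pow_le_pow_iff_left (by norm_num)).mp h2

theorem c6n_card {F : Type} [Field F] [Finite F] (n s : ℕ) :
    Nat.card ((Fin s → F) × (Fin s → Fin s → F) × GL (Fin n) F) ≤
      Nat.card F ^ (s + s ^ 2 + n ^ 2) := by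
  have h1 : Nat.card (Fin s → F) = Nat.card F ^ s := by
    rw [Nat.card_fun, Nat.card_eq_fintype_card (α := Fin s), Fintype.card_fin]
  have h2 : Nat.card (Fin s → Fin s → F) = Nat.card F ^ (s ^ 2) := by
    rw [Nat.card_fun, h1, Nat.card_eq_fintype_card (α := Fin s), Fintype.card_fin, ← pow_mul,
      pow_two]
  have h3 : Nat.card (GL (Fin n) F) ≤ Nat.card F ^ (n ^ 2) := by
    have h4 : Nat.card (Matrix (Fin n) (Fin n) F) = Nat.card F ^ (n ^ 2) := by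
      change Nat.card (Fin n → Fin n → F) = _
      rw [Nat.card_fun, Nat.card_fun, Nat.card_eq_fintype_card (α := Fin n), Fintype.card_fin,
        ← pow_mul, pow_two]
    rw [← h4]
    exact Nat.card_le_card_of_injective (fun g : GL (Fin n) F => g.1) Units.val_injective
  rw [Nat.card_prod, Nat.card_prod, h1, h2, pow_add, pow_add, mul_assoc]
  exact Nat.mul_le_mul_left _ (Nat.mul_le_mul_left _ h3)

theorem c6n_inj (hA : S_C6A) (F : Type) [Field F] [Finite F] (n r s : ℕ) (hn : 1 ≤ n)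
    (hr : 2 ≤ r) (h : r ^ s = n ^ 2) :
    ∃ φ : I6 F n r s → (Fin s → F) × (Fin s → Fin s → F) × GL (Fin n) F,
      Function.Injective φ := by
  classical
  -- the scalars
  have hl : ∀ g : I6 F n r s, ∃ l : Fin s → F,
      ∀ i, (g.1 i).1 ^ r = l i • (1 : Matrix (Fin n) (Fin n) F) := by
    intro g
    choose l hl using g.2.1
    exact ⟨l, hl⟩
  have hγ : ∀ g : I6 F n r s, ∃ γ : Fin s → Fin s → F,
      ∀ i j, (g.1 i).1 * (g.1 j).1 = γ i j • ((g.1 j).1 * (g.1 i).1) := by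
    intro g
    choose γ hγ using g.2.2.1
    exact ⟨γ, hγ⟩
  choose L hL using hl
  choose Γ hΓ using hγ
  -- a representative
  have hrep : ∀ p : (Fin s → F) × (Fin s → Fin s → F), ∃ g₀ : Fin s → GL (Fin n) F,
      ∀ g : I6 F n r s, (L g, Γ g) = p →
        ∃ P : GL (Fin n) F, ∀ i, P.1 * (g₀ i).1 = (g.1 i).1 * P.1 := by
    intro p
    by_cases hp : ∃ g₀ : I6 F n r s, (L g₀, Γ g₀) = p
    · obtain ⟨g₀, hg₀⟩ := hp
      refine ⟨g₀.1, fun g hg => ?_⟩
      have e := hg.trans hg₀.symm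
      have e1 : L g = L g₀ := congrArg Prod.fst e
      have e2 : Γ g = Γ g₀ := congrArg Prod.snd e
      exact hA F n r s hn (by omega) h g₀ g (L g₀) (Γ g₀) (hL g₀) (fun i => by rw [← e1]; exact hL g i)
        (hΓ g₀) (fun i j => by rw [← e2]; exact hΓ g i j)
    · exact ⟨fun _ => 1, fun g hg => absurd ⟨g, hg⟩ hp⟩
  choose G₀ hG₀ using hrep
  have hP : ∀ g : I6 F n r s, ∃ P : GL (Fin n) F,
      ∀ i, P.1 * (G₀ (L g, Γ g) i).1 = (g.1 i).1 * P.1 := fun g => hG₀ _ g rfl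
  choose P hP using hP
  refine ⟨fun g => (L g, Γ g, P g), fun g g' hgg => ?_⟩
  have e1 : L g = L g' := congrArg Prod.fst hgg
  have e2 : Γ g = Γ g' := congrArg (fun z => z.2.1) hgg
  have e3 : P g = P g' := congrArg (fun z => z.2.2) hgg
  apply Subtype.ext
  funext i
  apply Units.ext
  have h1 := hP g i
  have h2 := hP g' i
  rw [e1, e2, e3, h2] at h1
  have h3 : (g'.1 i) * P g' = (g.1 i) * P g' := Units.ext h1
  have h4 := mul_right_cancel h3
  rw [h4]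

theorem t_C6N : M_C6N := by
  intro hA F _ _ n r s hn hr h
  obtain ⟨φ, hφ⟩ := c6n_inj hA F n r s hn hr h
  have h1 : Nat.card (I6 F n r s) ≤ Nat.card F ^ (s + s ^ 2 + n ^ 2) :=
    (Nat.card_le_card_of_injective φ hφ).trans (c6n_card n s)
  have hq : (1 : ℝ) ≤ (Nat.card F : ℝ) := by exact_mod_cast Nat.card_pos
  have h2 : (Nat.card (I6 F n r s) : ℝ) ≤ (Nat.card F : ℝ) ^ (20 * (n : ℝ) + (n : ℝ) ^ 2) := by
    have h3 : (Nat.card (I6 F n r s) : ℝ) ≤ (Nat.card F : ℝ) ^ (s + s ^ 2 + n ^ 2) := by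
      exact_mod_cast h1
    refine h3.trans ?_
    rw [← Real.rpow_natCast]
    refine Real.rpow_le_rpow_of_exponent_le hq ?_
    have h4 : ((s + s ^ 2 : ℕ) : ℝ) ≤ ((20 * n : ℕ) : ℝ) := by exact_mod_cast c6n_exp hr h
    push_cast at h4 ⊢
    linarith
  have h5 : (1 : ℝ) ≤ ((n : ℝ) + 1) ^ (20 * (n : ℝ)) := by
    refine Real.one_le_rpow ?_ (by positivity)
    have : (0 : ℝ) ≤ n := Nat.cast_nonneg n
    linarith
  unfold Bd
  calc (Nat.card (I6 F n r s) : ℝ) ≤ (Nat.card F : ℝ) ^ (20 * (n : ℝ) + (n : ℝ) ^ 2) := h2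
    _ ≤ ((n : ℝ) + 1) ^ (20 * (n : ℝ)) * (Nat.card F : ℝ) ^ (20 * (n : ℝ) + (n : ℝ) ^ 2) :=
      le_mul_of_one_le_left (by positivity) h5

end FGE
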