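import Mathlib
import Pool.Agent.FGE.StF

/-!
# FGE, module C6S: few elements normalize a group of symplectic type
-/

set_option autoImplicit false

namespace FGE

lemma c6s_list {n : ℕ} {F : Type} [Field F] : ∀ {s : ℕ} (a : Fin s → F)
    (M : Fin s → Matrix (Fin n) (Fin n) F),
    (List.ofFn fun i => a i • M i).prod = (∏ i, a i) • (List.ofFn M).prod
  | 0, a, M => by simp
  | s + 1, a, M => by
    rw [List.ofFn_succ, List.prod_cons, c6s_list, List.ofFn_succ, List.prod_cons,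
      Fin.prod_univ_succ, smul_mul_smul_comm]

lemma c6s_red {n r s : ℕ} {F : Type} [Field F] (hr : 0 < r) (g : I6 F n r s) (e : Fin s → ℕ) :
    ∃ (a : F) (e' : Fin s → Fin r), mo g.1 e = a • mo g.1 (fun i => (e' i : ℕ)) := by
  choose l hl using g.2.1
  refine ⟨∏ i, l i ^ (e i / r), fun i => ⟨e i % r, Nat.mod_lt _ hr⟩, ?_⟩
  unfold mo
  rw [← c6s_list]
  congr 2
  funext i
  show (g.1 i).1 ^ e i = l i ^ (e i / r) • (g.1 i).1 ^ (e i % r)
  conv_lhs => rw [← Nat.div_add_mod (e i) r]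
  rw [pow_add, pow_mul, hl i, smul_pow, one_pow, smul_mul_assoc, one_mul]

lemma c6s_mo_mem {n s : ℕ} {F : Type} [Field F] (g : Fin s → GL (Fin n) F)
    (C : Subalgebra F (Matrix (Fin n) (Fin n) F)) (h : ∀ i, (g i).1 ∈ C) (e : Fin s → ℕ) :
    mo g e ∈ C := by
  unfold mo
  refine Subalgebra.list_prod_mem C fun M hM => ?_
  obtain ⟨i, rfl⟩ := (List.mem_ofFn' _ _).1 hM
  exact Subalgebra.pow_mem C (h i) _

theorem t_C6S : S_C6S := by
  classical
  intro F _ _ n r s hn hr hrs g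
  let A := {y : GL (Fin n) F // P6 g.1 y.1}
  have hP : ∀ y : A, ∃ φ : Fin s → F × (Fin s → Fin r), ∀ i, y.1.1 * (g.1 i).1 =
      ((φ i).1 • mo g.1 (fun j => ((φ i).2 j : ℕ))) * y.1.1 := by
    intro y
    have h1 : ∀ i, ∃ x : F × (Fin s → Fin r), y.1.1 * (g.1 i).1 =
        (x.1 • mo g.1 (fun j => (x.2 j : ℕ))) * y.1.1 := by
      intro i
      obtain ⟨c, e, h⟩ := y.2 i
      obtain ⟨a, e', h'⟩ := c6s_red (by omega) g e
      refine ⟨(c * a, e'), ?_⟩
      rw [h, h', smul_mul_assoc, smul_mul_assoc, smul_smul]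
    choose φ hφ using h1
    exact ⟨φ, hφ⟩
  choose Φ hΦ using hP
  have hfib : ∀ y z : A, Φ y = Φ z → ∃ a : F, y.1.1 = a • z.1.1 := by
    intro y z hyz
    set zi : Matrix (Fin n) (Fin n) F := (z.1⁻¹ : GL (Fin n) F).1 with hzi
    have h1 : zi * z.1.1 = 1 := z.1.inv_mul
    have h2 : z.1.1 * zi = 1 := z.1.mul_inv
    have h3 : ∀ i, (zi * y.1.1) * (g.1 i).1 = (g.1 i).1 * (zi * y.1.1) := by
      intro i
      set m := (Φ y i).1 • mo g.1 (fun j => ((Φ y i).2 j : ℕ)) with hm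
      have h4 : y.1.1 * (g.1 i).1 = m * y.1.1 := hΦ y i
      have h5 : z.1.1 * (g.1 i).1 = m * z.1.1 := by
        rw [hm, hyz]
        exact hΦ z i
      have h6 : m = z.1.1 * (g.1 i).1 * zi := by
        rw [h5, Matrix.mul_assoc, h2, Matrix.mul_one]
      calc (zi * y.1.1) * (g.1 i).1 = zi * (y.1.1 * (g.1 i).1) := Matrix.mul_assoc _ _ _
        _ = zi * ((z.1.1 * (g.1 i).1 * zi) * y.1.1) := by rw [h4, ← h6]
        _ = (zi * z.1.1) * ((g.1 i).1 * (zi * y.1.1)) := by simp only [Matrix.mul_assoc]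
        _ = _ := by rw [h1, Matrix.one_mul]
    have h7 : ∀ M : Matrix (Fin n) (Fin n) F, (zi * y.1.1) * M = M * (zi * y.1.1) := by
      intro M
      have h8 : Submodule.span F (Set.range (mo g.1)) ≤
          (Subalgebra.centralizer F {zi * y.1.1}).toSubmodule := by
        rw [Submodule.span_le]
        rintro _ ⟨e, rfl⟩
        refine c6s_mo_mem g.1 _ (fun i => ?_) e
        rw [Subalgebra.mem_centralizer_iff]
        rintro _ rfl
        exact h3 i
      rw [g.2.2.2] at h8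
      have h9 : M ∈ Subalgebra.centralizer F {zi * y.1.1} := h8 Submodule.mem_top
      exact (Subalgebra.mem_centralizer_iff F).1 h9 _ rfl
    obtain ⟨a, ha⟩ := Matrix.mem_range_scalar_of_commute_single (M := zi * y.1.1)
      fun i j _ => (h7 _).symm
    refine ⟨a, ?_⟩
    calc y.1.1 = z.1.1 * (zi * y.1.1) := by rw [← Matrix.mul_assoc, h2, Matrix.one_mul]
      _ = z.1.1 * Matrix.scalar (Fin n) a := by rw [ha]
      _ = a • z.1.1 := by
        rw [Matrix.scalar_apply, ← Matrix.smul_one_eq_diagonal, Matrix.mul_smul, Matrix.mul_one]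
  let rep : Set.range Φ → A := Set.rangeSplitting Φ
  have hrep : ∀ x, Φ (rep x) = x.1 := fun x => Set.apply_rangeSplitting Φ x
  have h10 : ∀ y : A, ∃ a : F, y.1.1 = a • (rep ⟨Φ y, Set.mem_range_self y⟩).1.1 := fun y =>
    hfib y _ (hrep ⟨Φ y, Set.mem_range_self y⟩).symm
  choose a ha using h10
  have hinj : Function.Injective fun y : A => (a y, Φ y) := by
    intro y z hyz
    have e1 : a y = a z := congrArg Prod.fst hyz
    have e2 : Φ y = Φ z := congrArg Prod.snd hyz
    have e3 : (⟨Φ y, Set.mem_range_self y⟩ : Set.range Φ) = ⟨Φ z, Set.mem_range_self z⟩ :=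
      Subtype.ext e2
    apply Subtype.ext
    apply Units.ext
    rw [ha y, ha z, e1, e3]
  have hcard : Nat.card A ≤ Nat.card (F × (Fin s → F × (Fin s → Fin r))) :=
    Nat.card_le_card_of_injective _ hinj
  rw [Nat.card_prod, Nat.card_fun, Nat.card_prod, Nat.card_fun, Nat.card_fin, Nat.card_fin, hrs]
    at hcard
  have hs : s ≤ 2 * n := by
    have h11 : 2 ^ s ≤ n ^ 2 := by
      rw [← hrs]
      exact Nat.pow_le_pow_left hr s
    have h12 : n ^ 2 < 2 ^ (2 * n) := by
      rw [mul_comm, pow_mul]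
      exact Nat.pow_lt_pow_left Nat.lt_two_pow_self (by norm_num)
    have h13 : 2 ^ s < 2 ^ (2 * n) := h11.trans_lt h12
    exact (Nat.pow_lt_pow_iff_right (by norm_num)).1 h13 |>.le
  set q := Nat.card F with hq
  have hq1 : 1 ≤ q := Nat.card_pos
  have hfin : Nat.card A ≤ (n + 1) ^ (20 * n) * q ^ (20 * n) := by
    calc Nat.card A ≤ q * (q * n ^ 2) ^ s := hcard
      _ = n ^ (2 * s) * q ^ (s + 1) := by rw [mul_pow, ← pow_mul]; ring
      _ ≤ (n + 1) ^ (20 * n) * q ^ (20 * n) := by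
        apply Nat.mul_le_mul
        · exact (Nat.pow_le_pow_left (Nat.le_succ n) _).trans
            (Nat.pow_le_pow_right (by omega) (by omega))
        · exact Nat.pow_le_pow_right hq1 (by omega)
  have hBd : Bd 20 n F 0 = (((n + 1) ^ (20 * n) * q ^ (20 * n) : ℕ) : ℝ) := by
    unfold Bd
    have e1 : (20 : ℝ) * n = ((20 * n : ℕ) : ℝ) := by push_cast; ring
    rw [e1, add_zero, Real.rpow_natCast, Real.rpow_natCast]
    push_cast
    rfl
  rw [hBd]
  exact_mod_cast hfin

end FGE
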