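import Mathlib
import Pool.Agent.FGE.StF
import Pool.Agent.FL0.CLS

/-!
# Module C7N: the number of tensor decompositions in `t` factors
-/

set_option autoImplicit false

namespace FGE

open RSF FL0

noncomputable section

theorem c7n_equiv (n a t : ℕ) : Nat.card (Fin n ≃ (Fin t → Fin a)) ≤ n ^ n := by
  classical
  by_cases h : Nonempty (Fin n ≃ (Fin t → Fin a))
  · obtain ⟨e⟩ := h
    have h8 : Nat.card (Fin n ≃ (Fin t → Fin a)) ≤ Nat.card (Fin n → (Fin t → Fin a)) :=
      Nat.card_le_card_of_injective (fun e => ⇑e) fun e e' h => Equiv.coe_fn_injective h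
    refine h8.trans (le_of_eq ?_)
    rw [Nat.card_fun, ← Nat.card_congr e]
    simp only [Nat.card_eq_fintype_card, Fintype.card_fin]
  · rw [not_nonempty_iff] at h
    rw [Nat.card_of_isEmpty]
    exact Nat.zero_le _

theorem t_C7N : S_C7N := by
  intro F _ _ n a t
  classical
  have hq2 : 2 ≤ Nat.card F := by
    have := Fintype.ofFinite F
    rw [Nat.card_eq_fintype_card]
    exact Fintype.one_lt_card
  have hq : (2 : ℝ) ≤ (Nat.card F : ℝ) := by exact_mod_cast hq2
  have hq1 : (1 : ℝ) ≤ (Nat.card F : ℝ) := by linarith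
  have hn0 : (0 : ℝ) ≤ n := Nat.cast_nonneg n
  have h1 : Nat.card (I7 F n a t) ≤ n ^ n * Nat.card F ^ (n ^ 2) := by
    have h2 : Nat.card (I7 F n a t) ≤
        Nat.card ((Fin n ≃ (Fin t → Fin a)) × GL (Fin n) F) := by
      refine Nat.card_le_card_of_surjective
        (fun z : (Fin n ≃ (Fin t → Fin a)) × GL (Fin n) F =>
          (⟨{M | P7 z.1 z.2 M}, z.1, z.2, rfl⟩ : I7 F n a t)) ?_
      rintro ⟨T, e, P, hT⟩
      exact ⟨(e, P), Subtype.ext hT.symm⟩
    rw [Nat.card_prod] at h2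
    exact h2.trans (Nat.mul_le_mul (c7n_equiv n a t) (CLS.card_GL_le' (F := F) n))
  have h3 : (Nat.card (I7 F n a t) : ℝ) ≤ (n : ℝ) ^ n * (Nat.card F : ℝ) ^ (n ^ 2) := by
    exact_mod_cast h1
  refine h3.trans ?_
  unfold Bd
  refine mul_le_mul ?_ ?_ (by positivity) (by positivity)
  · rw [one_mul, Real.rpow_natCast]
    exact pow_le_pow_left₀ hn0 (by linarith) n
  · rw [← Real.rpow_natCast]
    refine Real.rpow_le_rpow_of_exponent_le hq1 ?_
    push_cast
    linarith

end

end FGE
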