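import Mathlib
import Pool.Agent.FGE.StF

/-!
# FGE, module C7S: at most `t! q ^ (t a²)` elements preserve a tensor decomposition in `t` factors
-/

set_option autoImplicit false

namespace FGE

theorem c7s_two (t : ℕ) (ht : 2 ≤ t) : t ≤ 2 * 2 ^ (t - 2) := by
  obtain ⟨k, rfl⟩ := Nat.exists_eq_add_of_le ht
  have h : k + 2 - 2 = k := by omega
  rw [add_comm 2 k, h]
  have h2 : k < 2 ^ k := Nat.lt_two_pow_self
  have h1 : 1 ≤ 2 ^ k := Nat.one_le_two_pow
  omega

theorem t_C7S : S_C7S := by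
  classical
  intro F _ _ n a t ha ht T
  obtain ⟨S, e, P, rfl⟩ := T
  have hP : P.1 * P.1⁻¹ = 1 := by
    apply Matrix.mul_nonsing_inv
    exact (Matrix.isUnit_iff_isUnit_det _).1 P.isUnit
  have hP' : P.1⁻¹ * P.1 = 1 := by
    apply Matrix.nonsing_inv_mul
    exact (Matrix.isUnit_iff_isUnit_det _).1 P.isUnit
  have hrec : ∀ M : Matrix (Fin n) (Fin n) F, P.1⁻¹ * (P.1 * M * P.1⁻¹) * P.1 = M := by
    intro M
    calc P.1⁻¹ * (P.1 * M * P.1⁻¹) * P.1 = (P.1⁻¹ * P.1) * M * (P.1⁻¹ * P.1) := by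
          simp only [Matrix.mul_assoc]
      _ = M := by rw [hP', Matrix.one_mul, Matrix.mul_one]
  let A := {y : GL (Fin n) F // y.1 ∈ {M | P7 e P M}}
  have hch : ∀ y : A, ∃ BC : (Fin t → Matrix (Fin a) (Fin a) F) × Equiv.Perm (Fin t),
      P.1 * y.1.1 * P.1⁻¹ = Matrix.of fun i j => ∏ s, BC.1 s (e i s) (e j (BC.2 s)) := by
    intro y
    obtain ⟨B, C, h⟩ := y.2
    exact ⟨(B, C), h⟩
  choose g hg using hch
  have hinj : Function.Injective g := by
    intro y z hyz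
    apply Subtype.ext
    apply Units.ext
    have h1 := hg y
    have h2 := hg z
    rw [hyz, ← h2] at h1
    rw [← hrec y.1.1, h1, hrec]
  have hcard : Nat.card A ≤
      Nat.card ((Fin t → Matrix (Fin a) (Fin a) F) × Equiv.Perm (Fin t)) :=
    Nat.card_le_card_of_injective g hinj
  have hmat : ∀ m : ℕ, Nat.card (Matrix (Fin m) (Fin m) F) = Nat.card F ^ (m ^ 2) := by
    intro m
    have h1 : Nat.card (Matrix (Fin m) (Fin m) F) = Nat.card (Fin m → Fin m → F) := rfl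
    rw [h1, Nat.card_fun, Nat.card_fun, Nat.card_fin, ← pow_mul, sq]
  have hperm : Nat.card (Equiv.Perm (Fin t)) = t.factorial := by
    rw [Nat.card_perm, Nat.card_fin]
  rw [Nat.card_prod, Nat.card_fun, hmat, Nat.card_fin, hperm, ← pow_mul] at hcard
  have hn : n = a ^ t := by
    have h := Nat.card_congr e
    rw [Nat.card_fin, Nat.card_fun, Nat.card_fin, Nat.card_fin] at h
    exact h
  have htn : t ≤ n := by
    rw [hn]
    have h1 : t < 2 ^ t := Nat.lt_two_pow_self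
    exact h1.le.trans (Nat.pow_le_pow_left ha t)
  have hexp : a ^ 2 * t ≤ 2 * n := by
    have h1 : t ≤ 2 * a ^ (t - 2) :=
      (c7s_two t ht).trans (Nat.mul_le_mul_left 2 (Nat.pow_le_pow_left ha _))
    have h2 : n = a ^ 2 * a ^ (t - 2) := by
      rw [hn, ← pow_add]
      congr 1
      omega
    calc a ^ 2 * t ≤ a ^ 2 * (2 * a ^ (t - 2)) := Nat.mul_le_mul_left _ h1
      _ = 2 * n := by rw [h2]; ring
  have hq : 1 ≤ Nat.card F := Nat.card_pos
  have hfac : t.factorial ≤ (n + 1) ^ (2 * n) := by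
    calc t.factorial ≤ t ^ t := Nat.factorial_le_pow t
      _ ≤ (n + 1) ^ t := Nat.pow_le_pow_left (by omega) t
      _ ≤ (n + 1) ^ (2 * n) := Nat.pow_le_pow_right (by omega) (by omega)
  have hpow : Nat.card F ^ (a ^ 2 * t) ≤ Nat.card F ^ (2 * n) :=
    Nat.pow_le_pow_right hq hexp
  have hall : Nat.card A ≤ (n + 1) ^ (2 * n) * Nat.card F ^ (2 * n) := by
    calc Nat.card A ≤ Nat.card F ^ (a ^ 2 * t) * t.factorial := hcard
      _ ≤ Nat.card F ^ (2 * n) * (n + 1) ^ (2 * n) := Nat.mul_le_mul hpow hfac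
      _ = _ := by ring
  have hBd : Bd 2 n F 0 = (((n + 1) ^ (2 * n) * Nat.card F ^ (2 * n) : ℕ) : ℝ) := by
    unfold Bd
    have e1 : (2 : ℝ) * (n : ℝ) = ((2 * n : ℕ) : ℝ) := by push_cast; ring
    rw [add_zero, e1, Real.rpow_natCast, Real.rpow_natCast]
    push_cast
    ring
  rw [hBd]
  exact_mod_cast hall

end FGE
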