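import Pool.Agent.FGE.StF
import Pool.Agent.FGE.GE0
import Pool.Agent.FL0.MAIN

/-!
# The final statement from its parts, for all four classes of groups; oriented groups of genus 0
-/

set_option autoImplicit false

namespace FGE

open RSF FL0 Polynomial

noncomputable section

/-- the sum of the four probabilities -/
theorem fn0_gen {Γ : Type} [Group Γ] (n : ℕ) (F : Type) [Field F] [Finite F]
    [Finite (Γ →* PS n F)] (S : Set (Subgroup (PS n F))) (E : Prop) (p : ℝ) (hp : 0 ≤ p)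
    (h1 : prob Γ (PS n F) (fun ρ => ¬ Irr ρ.range) ≤ p)
    (h2 : prob Γ (PS n F) (fun ρ => ∃ M ∈ S, InConj ρ.range M) ≤ p)
    (h3 : E → prob Γ (PS n F) (fun ρ => Irr ρ.range ∧ Geo ρ.range) ≤ p)
    (h4 : E → prob Γ (PS n F) (fun ρ => C6 ρ.range ∨ C7 ρ.range) ≤ p) :
    1 - 4 * p ≤ prob Γ (PS n F) (fun ρ => Irr ρ.range ∧ (∀ M ∈ S, ¬ InConj ρ.range M) ∧
      (E → ¬ Asch ρ.range)) := by
  have hQ : prob Γ (PS n F) (fun ρ => (∃ M ∈ S, InConj ρ.range M) ∨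
      (E ∧ ((Irr ρ.range ∧ Geo ρ.range) ∨ (C6 ρ.range ∨ C7 ρ.range)))) ≤ 3 * p := by
    refine (ge0_prob_or _ _).trans ?_
    have h5 : prob Γ (PS n F) (fun ρ => E ∧ ((Irr ρ.range ∧ Geo ρ.range) ∨
        (C6 ρ.range ∨ C7 ρ.range))) ≤ 2 * p := by
      by_cases hE : E
      · refine (ge0_prob_mono _ (fun ρ => (Irr ρ.range ∧ Geo ρ.range) ∨
          (C6 ρ.range ∨ C7 ρ.range)) fun ρ h => h.2).trans ?_
        refine (ge0_prob_or _ _).trans ?_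
        have := h3 hE
        have := h4 hE
        linarith
      · rw [ge0_prob_false _ fun ρ h => hE h.1]
        linarith
    linarith
  have h0 : 0 < Nat.card (Γ →* PS n F) := Nat.card_pos
  have h6 := FL0.MAIN.prob_ge (fun ρ : Γ →* PS n F => Irr ρ.range) (fun ρ =>
    (∃ M ∈ S, InConj ρ.range M) ∨
      (E ∧ ((Irr ρ.range ∧ Geo ρ.range) ∨ (C6 ρ.range ∨ C7 ρ.range)))) h0
  have h7 : prob Γ (PS n F) (fun ρ => Irr ρ.range ∧ ¬ ((∃ M ∈ S, InConj ρ.range M) ∨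
      (E ∧ ((Irr ρ.range ∧ Geo ρ.range) ∨ (C6 ρ.range ∨ C7 ρ.range))))) ≤
      prob Γ (PS n F) (fun ρ => Irr ρ.range ∧ (∀ M ∈ S, ¬ InConj ρ.range M) ∧
        (E → ¬ Asch ρ.range)) := by
    refine ge0_prob_mono _ _ fun ρ h => ⟨h.1, fun M hM hc => h.2 (Or.inl ⟨M, hM, hc⟩), ?_⟩
    intro hE hA
    refine h.2 (Or.inr ⟨hE, ?_⟩)
    rcases hA with hA | hA | hA | hA | hA | hA | hA
    · exact Or.inl ⟨h.1, Or.inl hA⟩
    · exact Or.inl ⟨h.1, Or.inr (Or.inl hA)⟩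
    · exact Or.inl ⟨h.1, Or.inr (Or.inr (Or.inl hA))⟩
    · exact Or.inl ⟨h.1, Or.inr (Or.inr (Or.inr (Or.inl hA)))⟩
    · exact Or.inr (Or.inl hA)
    · exact Or.inr (Or.inr hA)
    · exact Or.inl ⟨h.1, Or.inr (Or.inr (Or.inr (Or.inr hA)))⟩
  linarith

/-- `4 q^(-a n) ≤ q^(-(a/2) n)` for `n ≥ 4 / a` -/
theorem fn0_four_mul_le (a : ℝ) (ha : 0 < a) : ∃ r : ℕ, ∀ n : ℕ, r ≤ n → ∀ q : ℝ, 2 ≤ q →
    4 * q ^ (-a * (n : ℝ)) ≤ q ^ (-(a / 2) * (n : ℝ)) := by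
  obtain ⟨r, hr⟩ := exists_nat_ge (4 / a)
  refine ⟨r, fun n hn q hq => ?_⟩
  have hn' : 4 / a ≤ (n : ℝ) := hr.trans (by exact_mod_cast hn)
  have h1 : 2 ≤ a / 2 * (n : ℝ) := by
    rw [div_le_iff₀ ha] at hn'
    linarith
  have hq0 : 0 < q := by linarith
  calc 4 * q ^ (-a * (n : ℝ)) ≤ q ^ (2 : ℝ) * q ^ (-a * (n : ℝ)) := by
        refine mul_le_mul_of_nonneg_right ?_ (Real.rpow_nonneg hq0.le _)
        rw [Real.rpow_two]
        nlinarith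
    _ = q ^ (2 + -a * (n : ℝ)) := (Real.rpow_add hq0 _ _).symm
    _ ≤ q ^ (-(a / 2) * (n : ℝ)) := by
        refine Real.rpow_le_rpow_of_exponent_le (by linarith) ?_
        linarith

/-- The final statement from its parts. -/
theorem fn0_St (h : ℕ) (Γ : Type) [Group Γ] (m : List ℕ)
    (hfin : ∀ (n : ℕ) (F : Type) [Field F] [Finite F], Finite (Γ →* PS n F))
    (hC : 2 < sig m + h → ∃ (c : ℝ) (r : ℕ), 0 < c ∧ ∀ n, r ≤ n →
      ∀ (F : Type) [Field F] [Finite F], (∀ k ∈ m, k ∣ Nat.card F - 1) → (∀ k ∈ m, Ord n F k) →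
      |(Nat.card (Γ →* PS n F) : ℝ) * (Nat.card (PS n F) : ℝ) ^ (1 - (h : ℤ)) /
          (m.map fun k => (Nat.card {t : PS n F // t ^ k = 1} : ℝ)).prod - 1| ≤
        (Nat.card F : ℝ) ^ (-c * (n : ℝ)))
    (h2 : 2 < sig m + h → ∃ (c : ℝ) (r : ℕ), 0 < c ∧ ∀ n, r ≤ n →
      ∀ (F : Type) [Field F] [Finite F], (∀ k ∈ m, k ∣ Nat.card F - 1) → (∀ k ∈ m, Ord n F k) →
      prob Γ (PS n F) (fun ρ => ¬ Irr ρ.range) ≤ (Nat.card F : ℝ) ^ (-c * (n : ℝ)))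
    (h3 : 2 < sig m + h → ∀ θ : ℝ, m.length - sig m < θ * (m.length + h - 2) →
      ∃ (η : ℝ) (r : ℕ), 0 < η ∧ ∀ n, r ≤ n →
      ∀ (F : Type) [Field F] [Finite F], (∀ k ∈ m, k ∣ Nat.card F - 1) → (∀ k ∈ m, Ord n F k) →
      ∀ S : Set (Subgroup (PS n F)), (S.ncard : ℝ) ≤ (Nat.card F : ℝ) ^ (η * (n : ℝ) ^ 2) →
        (∀ M ∈ S, (Nat.card F : ℝ) ^ (θ * (n : ℝ) ^ 2) ≤ M.index) →
        prob Γ (PS n F) (fun ρ => ∃ M ∈ S, InConj ρ.range M) ≤ (Nat.card F : ℝ) ^ (-(n : ℝ)))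
    (h4 : 2 < sig m + h → (∃ k ∈ m, 1 / (k : ℝ) < sig m + h - 2) → ∃ r : ℕ, ∀ n, r ≤ n →
      ∀ (F : Type) [Field F] [Finite F], (∀ k ∈ m, k ∣ Nat.card F - 1) → (∀ k ∈ m, Ord n F k) →
      prob Γ (PS n F) (fun ρ => Irr ρ.range ∧ Geo ρ.range) ≤
        (Nat.card F : ℝ) ^ (-((n : ℝ) / 2)))
    (h5 : 2 < sig m + h → (∃ k ∈ m, 1 / (k : ℝ) < sig m + h - 2) → ∃ r : ℕ, ∀ n, r ≤ n →
      ∀ (F : Type) [Field F] [Finite F], (∀ k ∈ m, k ∣ Nat.card F - 1) → (∀ k ∈ m, Ord n F k) →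
      prob Γ (PS n F) (fun ρ => C6 ρ.range ∨ C7 ρ.range) ≤
        (Nat.card F : ℝ) ^ (-((n : ℝ) / 2))) :
    St h Γ m := by
  intro hσ θ hθ
  obtain ⟨c1, r1, hc1, H1⟩ := hC hσ
  obtain ⟨c2, r2, hc2, H2⟩ := h2 hσ
  obtain ⟨η, r3, hη, H3⟩ := h3 hσ θ hθ
  have H4 : ∃ r : ℕ, ∀ n, r ≤ n → ∀ (F : Type) [Field F] [Finite F],
      (∀ k ∈ m, k ∣ Nat.card F - 1) → (∀ k ∈ m, Ord n F k) →
      (∃ k ∈ m, 1 / (k : ℝ) < sig m + h - 2) →
      prob Γ (PS n F) (fun ρ => Irr ρ.range ∧ Geo ρ.range) ≤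
        (Nat.card F : ℝ) ^ (-((n : ℝ) / 2)) := by
    by_cases hE : ∃ k ∈ m, 1 / (k : ℝ) < sig m + h - 2
    · obtain ⟨r, hr⟩ := h4 hσ hE
      exact ⟨r, fun n hn F _ _ g1 g2 _ => hr n hn F g1 g2⟩
    · exact ⟨0, fun n hn F _ _ g1 g2 g3 => (hE g3).elim⟩
  have H5 : ∃ r : ℕ, ∀ n, r ≤ n → ∀ (F : Type) [Field F] [Finite F],
      (∀ k ∈ m, k ∣ Nat.card F - 1) → (∀ k ∈ m, Ord n F k) →
      (∃ k ∈ m, 1 / (k : ℝ) < sig m + h - 2) →
      prob Γ (PS n F) (fun ρ => C6 ρ.range ∨ C7 ρ.range) ≤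
        (Nat.card F : ℝ) ^ (-((n : ℝ) / 2)) := by
    by_cases hE : ∃ k ∈ m, 1 / (k : ℝ) < sig m + h - 2
    · obtain ⟨r, hr⟩ := h5 hσ hE
      exact ⟨r, fun n hn F _ _ g1 g2 _ => hr n hn F g1 g2⟩
    · exact ⟨0, fun n hn F _ _ g1 g2 g3 => (hE g3).elim⟩
  obtain ⟨r4, H4⟩ := H4
  obtain ⟨r5, H5⟩ := H5
  set a : ℝ := min c2 (1 / 2) with ha
  have ha0 : 0 < a := lt_min hc2 (by norm_num)
  have ha1 : a ≤ 1 / 2 := min_le_right _ _
  obtain ⟨r6, H6⟩ := fn0_four_mul_le a ha0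
  set c : ℝ := min (min c1 η) (a / 2) with hc
  have hc0 : 0 < c := lt_min (lt_min hc1 hη) (by linarith)
  refine ⟨c, r1 + r2 + r3 + r4 + r5 + r6, hc0, ?_⟩
  intro n hn F _ _ hord
  have hdvd : ∀ k ∈ m, k ∣ Nat.card F - 1 := fun k hk => (Dvd.intro _ rfl).trans (hord k hk)
  have hfin' := hfin n F
  have hn0 : (0 : ℝ) ≤ n := Nat.cast_nonneg n
  refine ⟨?_, ?_⟩
  · refine (H1 n (by omega) F hdvd hord).trans (MAIN.exp_le F (mul_le_mul_of_nonneg_right ?_ hn0))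
    have : c ≤ c1 := (min_le_left _ _).trans (min_le_left _ _)
    linarith
  · intro S hS hM
    have g0 := fn0_gen n F S (∃ k ∈ m, 1 / (k : ℝ) < sig m + h - 2)
      ((Nat.card F : ℝ) ^ (-a * (n : ℝ))) (Real.rpow_nonneg (Nat.cast_nonneg _) _)
      ((H2 n (by omega) F hdvd hord).trans (MAIN.exp_le F (mul_le_mul_of_nonneg_right
        (neg_le_neg (min_le_left _ _)) hn0)))
      ((H3 n (by omega) F hdvd hord S (hS.trans (MAIN.exp_le F (mul_le_mul_of_nonneg_right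
        ((min_le_left _ _).trans (min_le_right _ _)) (by positivity)))) hM).trans
          (MAIN.exp_le F (by nlinarith)))
      (fun hE => (H4 n (by omega) F hdvd hord hE).trans (MAIN.exp_le F (by nlinarith)))
      (fun hE => (H5 n (by omega) F hdvd hord hE).trans (MAIN.exp_le F (by nlinarith)))
    have g1 := H6 n (by omega) _ (MAIN.card_ge F)
    have g2 : (Nat.card F : ℝ) ^ (-(a / 2) * (n : ℝ)) ≤ (Nat.card F : ℝ) ^ (-c * (n : ℝ)) := by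
      refine MAIN.exp_le F (mul_le_mul_of_nonneg_right ?_ hn0)
      have : c ≤ a / 2 := min_le_right _ _
      linarith
    linarith

theorem t_FN0 : M_FN0 := by
  intro hC h2 h3 h4 h5 m hm
  have e0 : sig m + ((0 : ℕ) : ℝ) = sig m := by simp
  have e1 : (m.length : ℝ) + ((0 : ℕ) : ℝ) - 2 = m.length - 2 := by simp
  have e2 : sig m + ((0 : ℕ) : ℝ) - 2 = sig m - 2 := by simp
  refine fn0_St 0 (OGroup 0 m) m (fun n F _ _ => MAIN.finO n F m) ?_ ?_ ?_ ?_ ?_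
  · intro hσ
    rw [e0] at hσ
    obtain ⟨c, r, hc, -, H⟩ := hC m hm hσ
    refine ⟨c, r, hc, fun n hn F _ _ g1 g2 => ?_⟩
    have h := H n hn F g1 g2
    rw [MAIN.cast_JJ] at h
    have e3 : (Nat.card (PS n F) : ℝ) ^ (1 - ((0 : ℕ) : ℤ)) = Nat.card (PS n F) := by
      simp
    rw [e3]
    exact h
  · intro hσ
    rw [e0] at hσ
    exact h2 m hm hσ
  · intro hσ θ hθ
    rw [e0] at hσ
    rw [e1] at hθ
    exact h3 m hm hσ θ hθ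
  · intro hσ hE
    rw [e0] at hσ
    simp only [e2] at hE
    exact h4 m hm hσ hE
  · intro hσ hE
    rw [e0] at hσ
    simp only [e2] at hE
    exact h5 m hm hσ hE

end

end FGE
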