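import Mathlib
import Pool.Agent.FGE.StF
import Pool.Agent.FL0.MAIN

/-!
# Module FN1: assembly for the non-oriented groups of genus 1
-/

set_option autoImplicit false

namespace FGE

open RSF FL0

noncomputable section

theorem fn1_congr {Γ G : Type} [Group Γ] [Group G] {P Q : (Γ →* G) → Prop}
    (h : ∀ ρ, P ρ ↔ Q ρ) : prob Γ G P = prob Γ G Q := by
  have : P = Q := by
    funext ρ
    exact propext (h ρ)
  rw [this]

theorem fn1_false {Γ G : Type} [Group Γ] [Group G] {P : (Γ →* G) → Prop}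
    (h : ∀ ρ, ¬ P ρ) : prob Γ G P = 0 := by
  have : IsEmpty {ρ : Γ →* G // P ρ} := ⟨fun x => h x.1 x.2⟩
  unfold prob
  rw [Nat.card_of_isEmpty]
  simp

/-- union bound for the complement -/
theorem fn1_union {Γ G : Type} [Group Γ] [Group G] [Finite (Γ →* G)]
    (P B1 B2 B3 B4 : (Γ →* G) → Prop) (h0 : 0 < Nat.card (Γ →* G))
    (h : ∀ ρ, P ρ ∨ B1 ρ ∨ B2 ρ ∨ B3 ρ ∨ B4 ρ) :
    1 - (prob Γ G B1 + prob Γ G B2 + prob Γ G B3 + prob Γ G B4) ≤ prob Γ G P := by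
  unfold prob
  have h0' : (0 : ℝ) < Nat.card (Γ →* G) := by exact_mod_cast h0
  have key : Nat.card (Γ →* G) ≤ Nat.card {ρ : Γ →* G // P ρ} +
      (Nat.card {ρ : Γ →* G // B1 ρ} + (Nat.card {ρ : Γ →* G // B2 ρ} +
        (Nat.card {ρ : Γ →* G // B3 ρ} + Nat.card {ρ : Γ →* G // B4 ρ}))) := by
    rw [← Nat.card_sum, ← Nat.card_sum, ← Nat.card_sum, ← Nat.card_sum]
    refine Nat.card_le_card_of_surjective (fun x => Sum.elim (fun y => y.1)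
      (Sum.elim (fun y => y.1) (Sum.elim (fun y => y.1)
        (Sum.elim (fun y => y.1) (fun y => y.1)))) x) ?_
    intro ρ
    rcases h ρ with h1 | h1 | h1 | h1 | h1
    · exact ⟨Sum.inl ⟨ρ, h1⟩, rfl⟩
    · exact ⟨Sum.inr (Sum.inl ⟨ρ, h1⟩), rfl⟩
    · exact ⟨Sum.inr (Sum.inr (Sum.inl ⟨ρ, h1⟩)), rfl⟩
    · exact ⟨Sum.inr (Sum.inr (Sum.inr (Sum.inl ⟨ρ, h1⟩))), rfl⟩
    · exact ⟨Sum.inr (Sum.inr (Sum.inr (Sum.inr ⟨ρ, h1⟩))), rfl⟩
  have key' : (Nat.card (Γ →* G) : ℝ) ≤ Nat.card {ρ : Γ →* G // P ρ} +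
      (Nat.card {ρ : Γ →* G // B1 ρ} + (Nat.card {ρ : Γ →* G // B2 ρ} +
        (Nat.card {ρ : Γ →* G // B3 ρ} + Nat.card {ρ : Γ →* G // B4 ρ}))) := by
    exact_mod_cast key
  rw [← add_div, ← add_div, ← add_div, le_div_iff₀ h0', sub_mul, one_mul,
    div_mul_cancel₀ _ h0'.ne']
  linarith

/-- `4 q^(-a n) ≤ q^(-(a/2) n)` for `n ≥ 4 / a` -/
theorem fn1_four (a : ℝ) (ha : 0 < a) : ∃ r : ℕ, ∀ n : ℕ, r ≤ n → ∀ q : ℝ, 2 ≤ q →
    4 * q ^ (-a * (n : ℝ)) ≤ q ^ (-(a / 2) * (n : ℝ)) := by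
  obtain ⟨r, hr⟩ := exists_nat_ge (4 / a)
  refine ⟨r, fun n hn q hq => ?_⟩
  have hn' : 4 / a ≤ (n : ℝ) := hr.trans (by exact_mod_cast hn)
  have h1 : 2 ≤ a / 2 * (n : ℝ) := by
    rw [div_le_iff₀ ha] at hn'
    linarith
  have hq0 : 0 < q := by linarith
  calc 4 * q ^ (-a * (n : ℝ)) ≤ q ^ (2 : ℝ) * q ^ (-a * (n : ℝ)) := by
        refine mul_le_mul_of_nonneg_right ?_ (Real.rpow_nonneg hq0.le _)
        rw [Real.rpow_two]
        nlinarith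
    _ = q ^ (2 + -a * (n : ℝ)) := (Real.rpow_add hq0 _ _).symm
    _ ≤ q ^ (-(a / 2) * (n : ℝ)) := by
        refine Real.rpow_le_rpow_of_exponent_le (by linarith) ?_
        linarith

/-- the last step -/
theorem fn1_last {Γ G : Type} [Group Γ] [Group G] (F : Type) [Field F] [Finite F]
    [Finite (Γ →* G)] (h0 : 0 < Nat.card (Γ →* G)) (n : ℕ) (c a : ℝ)
    (P B1 B2 B3 B4 : (Γ →* G) → Prop) (hc : c ≤ a / 2)
    (h4 : 4 * (Nat.card F : ℝ) ^ (-a * (n : ℝ)) ≤ (Nat.card F : ℝ) ^ (-(a / 2) * (n : ℝ)))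
    (h : ∀ ρ, P ρ ∨ B1 ρ ∨ B2 ρ ∨ B3 ρ ∨ B4 ρ)
    (h1 : prob Γ G B1 ≤ (Nat.card F : ℝ) ^ (-a * (n : ℝ)))
    (h2 : prob Γ G B2 ≤ (Nat.card F : ℝ) ^ (-a * (n : ℝ)))
    (h3 : prob Γ G B3 ≤ (Nat.card F : ℝ) ^ (-a * (n : ℝ)))
    (h5 : prob Γ G B4 ≤ (Nat.card F : ℝ) ^ (-a * (n : ℝ))) :
    1 - (Nat.card F : ℝ) ^ (-c * (n : ℝ)) ≤ prob Γ G P := by
  have h6 := fn1_union P B1 B2 B3 B4 h0 h
  have h7 : (Nat.card F : ℝ) ^ (-(a / 2) * (n : ℝ)) ≤ (Nat.card F : ℝ) ^ (-c * (n : ℝ)) := by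
    refine MAIN.exp_le F (mul_le_mul_of_nonneg_right ?_ (Nat.cast_nonneg n))
    linarith
  linarith

theorem t_FN1 : M_FN1 := by
  intro hC h2 h3 hGE hGA m hm hσ θ hθ
  have hσ' : 1 < sig m := by
    push_cast at hσ
    linarith
  have hθ' : (m.length : ℝ) - sig m < θ * ((m.length : ℝ) - 1) := by
    have e : (m.length : ℝ) + ((1 : ℕ) : ℝ) - 2 = (m.length : ℝ) - 1 := by
      push_cast
      ring
    rw [e] at hθ
    exact hθ
  obtain ⟨c1, r1, hc1, hr1, H1⟩ := hC m hm hσ'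
  obtain ⟨c2, r2, hc2, H2⟩ := h2 m hm hσ'
  obtain ⟨η, r3, hη, H3⟩ := h3 m hm hσ' θ hθ'
  have hcd : (∃ k ∈ m, 1 / (k : ℝ) < sig m + ((1 : ℕ) : ℝ) - 2) →
      ∃ k ∈ m, 1 / (k : ℝ) < sig m - 1 := by
    rintro ⟨k, hk, h⟩
    refine ⟨k, hk, ?_⟩
    push_cast at h
    linarith
  have H5 : ∃ r : ℕ, ∀ n, r ≤ n → ∀ (F : Type) [Field F] [Finite F],
      (∀ k ∈ m, k ∣ Nat.card F - 1) → (∀ k ∈ m, Ord n F k) →
      prob (NGroup 1 m) (PS n F) (fun ρ => (∃ k ∈ m, 1 / (k : ℝ) < sig m + ((1 : ℕ) : ℝ) - 2) ∧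
        Irr ρ.range ∧ Geo ρ.range) ≤ (Nat.card F : ℝ) ^ (-((n : ℝ) / 2)) := by
    by_cases hc : ∃ k ∈ m, 1 / (k : ℝ) < sig m + ((1 : ℕ) : ℝ) - 2
    · obtain ⟨r, H⟩ := hGE m hm hσ' (hcd hc)
      refine ⟨r, fun n hn F _ _ hd ho => ?_⟩
      rw [fn1_congr (Q := fun ρ => Irr ρ.range ∧ Geo ρ.range) fun ρ => by
        simp only [hc, true_and]]
      exact H n hn F hd ho
    · refine ⟨0, fun n _ F _ _ _ _ => ?_⟩
      rw [fn1_false fun ρ h => hc h.1]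
      exact Real.rpow_nonneg (Nat.cast_nonneg _) _
  have H6 : ∃ r : ℕ, ∀ n, r ≤ n → ∀ (F : Type) [Field F] [Finite F],
      (∀ k ∈ m, k ∣ Nat.card F - 1) → (∀ k ∈ m, Ord n F k) →
      prob (NGroup 1 m) (PS n F) (fun ρ => (∃ k ∈ m, 1 / (k : ℝ) < sig m + ((1 : ℕ) : ℝ) - 2) ∧
        (C6 ρ.range ∨ C7 ρ.range)) ≤ (Nat.card F : ℝ) ^ (-((n : ℝ) / 2)) := by
    by_cases hc : ∃ k ∈ m, 1 / (k : ℝ) < sig m + ((1 : ℕ) : ℝ) - 2
    · obtain ⟨r, H⟩ := hGA m hm hσ' (hcd hc)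
      refine ⟨r, fun n hn F _ _ hd ho => ?_⟩
      rw [fn1_congr (Q := fun ρ => C6 ρ.range ∨ C7 ρ.range) fun ρ => by
        simp only [hc, true_and]]
      exact H n hn F hd ho
    · refine ⟨0, fun n _ F _ _ _ _ => ?_⟩
      rw [fn1_false fun ρ h => hc h.1]
      exact Real.rpow_nonneg (Nat.cast_nonneg _) _
  obtain ⟨r5, H5⟩ := H5
  obtain ⟨r6, H6⟩ := H6
  set a : ℝ := min c2 (1 / 2) with ha
  have ha0 : 0 < a := lt_min hc2 (by norm_num)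
  have ha2 : a ≤ 1 / 2 := min_le_right _ _
  obtain ⟨r4, H4⟩ := fn1_four a ha0
  set c : ℝ := min (min c1 η) (a / 2) with hc
  have hc0 : 0 < c := lt_min (lt_min hc1 hη) (by linarith)
  refine ⟨c, max (max (max r1 r2) (max r3 r4)) (max r5 r6), hc0, ?_⟩
  intro n hn F _ _ hord
  have hna := (le_max_left _ _).trans hn
  have hnb := (le_max_right _ _).trans hn
  have hn1 : r1 ≤ n := ((le_max_left _ _).trans (le_max_left _ _)).trans hna
  have hn2 : r2 ≤ n := ((le_max_right _ _).trans (le_max_left _ _)).trans hna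
  have hn3 : r3 ≤ n := ((le_max_left _ _).trans (le_max_right _ _)).trans hna
  have hn4 : r4 ≤ n := ((le_max_right _ _).trans (le_max_right _ _)).trans hna
  have hn5 : r5 ≤ n := (le_max_left _ _).trans hnb
  have hn6 : r6 ≤ n := (le_max_right _ _).trans hnb
  have hdvd : ∀ k ∈ m, k ∣ Nat.card F - 1 := fun k hk =>
    (Dvd.intro _ rfl).trans (hord k hk)
  have hfin' := MAIN.finN n F m
  have h7 : (0 : ℝ) ≤ n := Nat.cast_nonneg n
  have hhalf : (Nat.card F : ℝ) ^ (-((n : ℝ) / 2)) ≤ (Nat.card F : ℝ) ^ (-a * (n : ℝ)) :=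
    MAIN.exp_le F (by nlinarith)
  refine ⟨?_, ?_⟩
  · have h5 := H1 n hn1 F hdvd hord
    rw [MAIN.cast_JJ] at h5
    have e : (Nat.card (PS n F) : ℝ) ^ (1 - ((1 : ℕ) : ℤ)) = 1 := by simp
    rw [e, mul_one]
    refine h5.trans (MAIN.exp_le F (mul_le_mul_of_nonneg_right ?_ h7))
    have : c ≤ c1 := (min_le_left _ _).trans (min_le_left _ _)
    linarith
  · intro S hS hM
    refine fn1_last F (Nat.card_pos (α := NGroup 1 m →* PS n F)) n c a _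
      (fun ρ => ¬ Irr ρ.range) (fun ρ => ∃ M ∈ S, InConj ρ.range M)
      (fun ρ => (∃ k ∈ m, 1 / (k : ℝ) < sig m + ((1 : ℕ) : ℝ) - 2) ∧ Irr ρ.range ∧ Geo ρ.range)
      (fun ρ => (∃ k ∈ m, 1 / (k : ℝ) < sig m + ((1 : ℕ) : ℝ) - 2) ∧
        (C6 ρ.range ∨ C7 ρ.range))
      (min_le_right _ _) (H4 n hn4 _ (MAIN.card_ge F)) ?_ ?_ ?_ ?_ ?_
    · intro ρ
      by_cases hI : Irr ρ.range
      · by_cases hS' : ∃ M ∈ S, InConj ρ.range M
        · exact Or.inr (Or.inr (Or.inl hS'))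
        · by_cases hcc : ∃ k ∈ m, 1 / (k : ℝ) < sig m + ((1 : ℕ) : ℝ) - 2
          · by_cases hA : Asch ρ.range
            · have h8 : Geo ρ.range ∨ (C6 ρ.range ∨ C7 ρ.range) := by
                rcases hA with h | h | h | h | h | h | h
                · exact Or.inl (Or.inl h)
                · exact Or.inl (Or.inr (Or.inl h))
                · exact Or.inl (Or.inr (Or.inr (Or.inl h)))
                · exact Or.inl (Or.inr (Or.inr (Or.inr (Or.inl h))))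
                · exact Or.inr (Or.inl h)
                · exact Or.inr (Or.inr h)
                · exact Or.inl (Or.inr (Or.inr (Or.inr (Or.inr h))))
              rcases h8 with h8 | h8
              · exact Or.inr (Or.inr (Or.inr (Or.inl ⟨hcc, hI, h8⟩)))
              · exact Or.inr (Or.inr (Or.inr (Or.inr ⟨hcc, h8⟩)))
            · exact Or.inl ⟨hI, fun M hM' hMc => hS' ⟨M, hM', hMc⟩, fun _ => hA⟩
          · exact Or.inl ⟨hI, fun M hM' hMc => hS' ⟨M, hM', hMc⟩, fun h => absurd h hcc⟩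
      · exact Or.inr (Or.inl hI)
    · exact (H2 n hn2 F hdvd hord).trans (MAIN.exp_le F (mul_le_mul_of_nonneg_right
        (neg_le_neg (min_le_left _ _)) h7))
    · exact (H3 n hn3 F hdvd hord S (hS.trans (MAIN.exp_le F (mul_le_mul_of_nonneg_right
        ((min_le_left _ _).trans (min_le_right _ _)) (by positivity)))) hM).trans
        (MAIN.exp_le F (by nlinarith))
    · exact (H5 n hn5 F hdvd hord).trans hhalf
    · exact (H6 n hn6 F hdvd hord).trans hhalf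

end

end FGE
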