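import Mathlib
import Pool.Agent.FGE.StF

/-!
# FN2: the final statement for oriented groups of genus 1 and non-oriented groups of genus 2
-/

set_option autoImplicit false

namespace FGE

open RSF FL0 Polynomial

noncomputable section

/-- `4 q^(-a n) ≤ q^(-(a/2) n)` for `n ≥ 4 / a` -/
theorem fn2_four (a : ℝ) (ha : 0 < a) : ∃ r : ℕ, ∀ n : ℕ, r ≤ n → ∀ q : ℝ, 2 ≤ q →
    4 * q ^ (-a * (n : ℝ)) ≤ q ^ (-(a / 2) * (n : ℝ)) := by
  obtain ⟨r, hr⟩ := exists_nat_ge (4 / a)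
  refine ⟨r, fun n hn q hq => ?_⟩
  have hn' : 4 / a ≤ (n : ℝ) := hr.trans (by exact_mod_cast hn)
  have h1 : 2 ≤ a / 2 * (n : ℝ) := by
    rw [div_le_iff₀ ha] at hn'
    linarith
  have hq0 : 0 < q := by linarith
  calc 4 * q ^ (-a * (n : ℝ)) ≤ q ^ (2 : ℝ) * q ^ (-a * (n : ℝ)) := by
        refine mul_le_mul_of_nonneg_right ?_ (Real.rpow_nonneg hq0.le _)
        rw [Real.rpow_two]
        nlinarith
    _ = q ^ (2 + -a * (n : ℝ)) := (Real.rpow_add hq0 _ _).symm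
    _ ≤ q ^ (-(a / 2) * (n : ℝ)) := by
        refine Real.rpow_le_rpow_of_exponent_le (by linarith) ?_
        linarith

theorem fn2_card_ge (F : Type) [Field F] [Finite F] : (2 : ℝ) ≤ (Nat.card F : ℝ) := by
  have : 1 < Nat.card F := Finite.one_lt_card
  exact_mod_cast this

theorem fn2_exp_le (F : Type) [Field F] [Finite F] {a b : ℝ} (h : a ≤ b) :
    (Nat.card F : ℝ) ^ a ≤ (Nat.card F : ℝ) ^ b :=
  Real.rpow_le_rpow_of_exponent_le (by linarith [fn2_card_ge F]) h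

/-- the union bound for four properties -/
theorem fn2_prob_ge {Γ G : Type} [Group Γ] [Group G] [Finite (Γ →* G)]
    (R P1 P2 P3 P4 : (Γ →* G) → Prop)
    (h : ∀ ρ, R ρ ∨ P1 ρ ∨ P2 ρ ∨ P3 ρ ∨ P4 ρ) :
    1 - (prob Γ G P1 + (prob Γ G P2 + (prob Γ G P3 + prob Γ G P4))) ≤ prob Γ G R := by
  have h0 : 0 < Nat.card (Γ →* G) := Nat.card_pos
  unfold prob
  have h0' : (0 : ℝ) < Nat.card (Γ →* G) := by exact_mod_cast h0
  have key : Nat.card (Γ →* G) ≤ Nat.card {ρ : Γ →* G // R ρ} +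
      (Nat.card {ρ : Γ →* G // P1 ρ} + (Nat.card {ρ : Γ →* G // P2 ρ} +
        (Nat.card {ρ : Γ →* G // P3 ρ} + Nat.card {ρ : Γ →* G // P4 ρ}))) := by
    classical
    rw [← Nat.card_sum, ← Nat.card_sum, ← Nat.card_sum, ← Nat.card_sum]
    refine Nat.card_le_card_of_surjective (fun x => Sum.elim (fun y => y.1)
      (Sum.elim (fun y => y.1) (Sum.elim (fun y => y.1) (Sum.elim (fun y => y.1)
        (fun y => y.1)))) x) ?_
    intro ρ
    rcases h ρ with h1 | h1 | h1 | h1 | h1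
    · exact ⟨Sum.inl ⟨ρ, h1⟩, rfl⟩
    · exact ⟨Sum.inr (Sum.inl ⟨ρ, h1⟩), rfl⟩
    · exact ⟨Sum.inr (Sum.inr (Sum.inl ⟨ρ, h1⟩)), rfl⟩
    · exact ⟨Sum.inr (Sum.inr (Sum.inr (Sum.inl ⟨ρ, h1⟩))), rfl⟩
    · exact ⟨Sum.inr (Sum.inr (Sum.inr (Sum.inr ⟨ρ, h1⟩))), rfl⟩
  rw [← add_div, ← add_div, ← add_div, le_div_iff₀ h0', sub_mul, one_mul,
    div_mul_cancel₀ _ h0'.ne']
  have key' : (Nat.card (Γ →* G) : ℝ) ≤ Nat.card {ρ : Γ →* G // R ρ} +
      (Nat.card {ρ : Γ →* G // P1 ρ} + (Nat.card {ρ : Γ →* G // P2 ρ} +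
        (Nat.card {ρ : Γ →* G // P3 ρ} + Nat.card {ρ : Γ →* G // P4 ρ}))) := by
    exact_mod_cast key
  linarith

theorem fn2_prob_false {Γ G : Type} [Group Γ] [Group G] (P : (Γ →* G) → Prop)
    (h : ∀ ρ, ¬ P ρ) : prob Γ G P = 0 := by
  unfold prob
  have : IsEmpty {ρ : Γ →* G // P ρ} := ⟨fun x => h x.1 x.2⟩
  rw [Nat.card_of_isEmpty]
  simp

/-- the last step -/
theorem fn2_last {Γ : Type} [Group Γ] (n : ℕ) (F : Type) [Field F] [Finite F]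
    [Finite (Γ →* PS n F)] (a c : ℝ) (hc : c ≤ a / 2)
    (h4 : 4 * (Nat.card F : ℝ) ^ (-a * (n : ℝ)) ≤ (Nat.card F : ℝ) ^ (-(a / 2) * (n : ℝ)))
    (S : Set (Subgroup (PS n F))) (E : Prop)
    (hI : prob Γ (PS n F) (fun ρ => ¬ Irr ρ.range) ≤ (Nat.card F : ℝ) ^ (-a * (n : ℝ)))
    (hS : prob Γ (PS n F) (fun ρ => ∃ M ∈ S, InConj ρ.range M) ≤
      (Nat.card F : ℝ) ^ (-a * (n : ℝ)))
    (hG : E → prob Γ (PS n F) (fun ρ => Irr ρ.range ∧ Geo ρ.range) ≤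
      (Nat.card F : ℝ) ^ (-a * (n : ℝ)))
    (hA : E → prob Γ (PS n F) (fun ρ => C6 ρ.range ∨ C7 ρ.range) ≤
      (Nat.card F : ℝ) ^ (-a * (n : ℝ))) :
    1 - (Nat.card F : ℝ) ^ (-c * (n : ℝ)) ≤ prob Γ (PS n F)
      (fun ρ => Irr ρ.range ∧ (∀ M ∈ S, ¬ InConj ρ.range M) ∧ (E → ¬ Asch ρ.range)) := by
  have hpos : (0 : ℝ) ≤ (Nat.card F : ℝ) ^ (-a * (n : ℝ)) :=
    Real.rpow_nonneg (Nat.cast_nonneg _) _
  have h3 : (Nat.card F : ℝ) ^ (-(a / 2) * (n : ℝ)) ≤ (Nat.card F : ℝ) ^ (-c * (n : ℝ)) := by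
    refine fn2_exp_le F (mul_le_mul_of_nonneg_right ?_ (Nat.cast_nonneg n))
    linarith
  have h1 := fn2_prob_ge (Γ := Γ) (G := PS n F)
    (fun ρ => Irr ρ.range ∧ (∀ M ∈ S, ¬ InConj ρ.range M) ∧ (E → ¬ Asch ρ.range))
    (fun ρ => ¬ Irr ρ.range) (fun ρ => ∃ M ∈ S, InConj ρ.range M)
    (fun ρ => E ∧ (Irr ρ.range ∧ Geo ρ.range)) (fun ρ => E ∧ (C6 ρ.range ∨ C7 ρ.range)) (by
      intro ρ
      by_cases hi : Irr ρ.range
      · by_cases hs : ∃ M ∈ S, InConj ρ.range M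
        · exact Or.inr (Or.inr (Or.inl hs))
        · by_cases hE : E ∧ Asch ρ.range
          · have hA := hE.2
            rcases hA with h | h | h | h | h | h | h
            · exact Or.inr (Or.inr (Or.inr (Or.inl ⟨hE.1, hi, Or.inl h⟩)))
            · exact Or.inr (Or.inr (Or.inr (Or.inl ⟨hE.1, hi, Or.inr (Or.inl h)⟩)))
            · exact Or.inr (Or.inr (Or.inr (Or.inl ⟨hE.1, hi, Or.inr (Or.inr (Or.inl h))⟩)))
            · exact Or.inr (Or.inr (Or.inr (Or.inl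
                ⟨hE.1, hi, Or.inr (Or.inr (Or.inr (Or.inl h)))⟩)))
            · exact Or.inr (Or.inr (Or.inr (Or.inr ⟨hE.1, Or.inl h⟩)))
            · exact Or.inr (Or.inr (Or.inr (Or.inr ⟨hE.1, Or.inr h⟩)))
            · exact Or.inr (Or.inr (Or.inr (Or.inl
                ⟨hE.1, hi, Or.inr (Or.inr (Or.inr (Or.inr h)))⟩)))
          · refine Or.inl ⟨hi, fun M hM hc => hs ⟨M, hM, hc⟩, fun h h' => hE ⟨h, h'⟩⟩
      · exact Or.inr (Or.inl hi))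
  have hG' : prob Γ (PS n F) (fun ρ => E ∧ (Irr ρ.range ∧ Geo ρ.range)) ≤
      (Nat.card F : ℝ) ^ (-a * (n : ℝ)) := by
    by_cases hE : E
    · simpa [hE] using hG hE
    · rw [fn2_prob_false _ (fun ρ h => hE h.1)]
      exact hpos
  have hA' : prob Γ (PS n F) (fun ρ => E ∧ (C6 ρ.range ∨ C7 ρ.range)) ≤
      (Nat.card F : ℝ) ^ (-a * (n : ℝ)) := by
    by_cases hE : E
    · simpa [hE] using hA hE
    · rw [fn2_prob_false _ (fun ρ h => hE h.1)]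
      exact hpos
  linarith

theorem fn2_cast_JJ (G : Type) [Group G] (m : List ℕ) :
    (JJ G m : ℝ) = (m.map fun k => (Nat.card {t : G // t ^ k = 1} : ℝ)).prod := by
  unfold JJ jn
  induction m with
  | nil => simp
  | cons k m ih =>
    rw [List.map_cons, List.prod_cons, List.map_cons, List.prod_cons, Nat.cast_mul, ih]

theorem fn2_finPS (n : ℕ) (F : Type) [Field F] [Finite F] : Finite (PS n F) := by
  have : Finite (Matrix (Fin n) (Fin n) F) := inferInstanceAs (Finite (Fin n → Fin n → F))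
  have : Finite (Matrix.SpecialLinearGroup (Fin n) F) :=
    Finite.of_injective (fun g : Matrix.SpecialLinearGroup (Fin n) F => g.1)
      Subtype.val_injective
  exact Quotient.finite _

theorem fn2_finO (n : ℕ) (F : Type) [Field F] [Finite F] (m : List ℕ) :
    Finite (OGroup 1 m →* PS n F) := by
  have := fn2_finPS n F
  refine Finite.of_injective (fun (ρ : OGroup 1 m →* PS n F) =>
    ((fun j : Fin m.length => ρ (ox 1 m j)), ρ (oa m), ρ (ob m))) ?_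
  intro ρ ρ' h
  refine PresentedGroup.ext fun x => ?_
  rcases x with i | i | j
  · have hi : i = 0 := Subsingleton.elim _ _
    subst hi
    exact congrArg (fun p => p.2.1) h
  · have hi : i = 0 := Subsingleton.elim _ _
    subst hi
    exact congrArg (fun p => p.2.2) h
  · exact congrFun (congrArg Prod.fst h) j

theorem fn2_finN (n : ℕ) (F : Type) [Field F] [Finite F] (m : List ℕ) :
    Finite (NGroup 2 m →* PS n F) := by
  have := fn2_finPS n F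
  refine Finite.of_injective (fun (ρ : NGroup 2 m →* PS n F) =>
    ((fun j : Fin m.length => ρ (nx 2 m j)), (fun i : Fin 2 => ρ (na m i)))) ?_
  intro ρ ρ' h
  refine PresentedGroup.ext fun x => ?_
  rcases x with i | j
  · exact congrFun (congrArg Prod.snd h) i
  · exact congrFun (congrArg Prod.fst h) j

/-- the number of all homomorphisms -/
theorem fn2_cntO (hHO : FLW.S_HO) (n : ℕ) (F : Type) [Field F] (m : List ℕ) :
    Nat.card (OGroup 1 m →* PS n F) = FLW.TN true (PS n F) m (fun _ _ _ => True) := by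
  rw [← (hHO (PS n F) m (fun _ _ _ => True)).1]
  exact Nat.card_congr (Equiv.subtypeUnivEquiv fun _ => trivial).symm

theorem fn2_cntN (hHO : FLW.S_HO) (n : ℕ) (F : Type) [Field F] (m : List ℕ) :
    Nat.card (NGroup 2 m →* PS n F) = FLW.TN false (PS n F) m (fun _ _ _ => True) := by
  rw [← (hHO (PS n F) m (fun _ _ _ => True)).2]
  exact Nat.card_congr (Equiv.subtypeUnivEquiv fun _ => trivial).symm

/-- the statement for one group -/
theorem fn2_one (m : List ℕ) (Γ : Type) [Group Γ] (hfin : ∀ (n : ℕ) (F : Type) [Field F]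
      [Finite F], Finite (Γ →* PS n F))
    (hC : 0 < sig m → ∃ (c : ℝ) (r : ℕ), 0 < c ∧ 1 ≤ r ∧ ∀ n, r ≤ n →
      ∀ (F : Type) [Field F] [Finite F], (∀ k ∈ m, k ∣ Nat.card F - 1) → (∀ k ∈ m, Ord n F k) →
      |(Nat.card (Γ →* PS n F) : ℝ) / (Nat.card (PS n F) * JJ (PS n F) m) - 1| ≤
        (Nat.card F : ℝ) ^ (-c * (n : ℝ)))
    (h2 : 0 < sig m → ∃ (c : ℝ) (r : ℕ), 0 < c ∧ ∀ n, r ≤ n →
      ∀ (F : Type) [Field F] [Finite F], (∀ k ∈ m, k ∣ Nat.card F - 1) → (∀ k ∈ m, Ord n F k) →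
      prob Γ (PS n F) (fun ρ => ¬ Irr ρ.range) ≤ (Nat.card F : ℝ) ^ (-c * (n : ℝ)))
    (h3 : 0 < sig m → ∀ θ : ℝ, (m.length - sig m) < θ * m.length →
      ∃ (η : ℝ) (r : ℕ), 0 < η ∧ ∀ n, r ≤ n →
      ∀ (F : Type) [Field F] [Finite F], (∀ k ∈ m, k ∣ Nat.card F - 1) → (∀ k ∈ m, Ord n F k) →
      ∀ S : Set (Subgroup (PS n F)), (S.ncard : ℝ) ≤ (Nat.card F : ℝ) ^ (η * (n : ℝ) ^ 2) →
        (∀ M ∈ S, (Nat.card F : ℝ) ^ (θ * (n : ℝ) ^ 2) ≤ M.index) →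
        prob Γ (PS n F) (fun ρ => ∃ M ∈ S, InConj ρ.range M) ≤
          (Nat.card F : ℝ) ^ (-(n : ℝ)))
    (hG : 0 < sig m → (∃ k ∈ m, 1 / (k : ℝ) < sig m) →
      ∃ r : ℕ, ∀ n, r ≤ n → ∀ (F : Type) [Field F] [Finite F], (∀ k ∈ m, k ∣ Nat.card F - 1) →
      (∀ k ∈ m, Ord n F k) →
        prob Γ (PS n F) (fun ρ => Irr ρ.range ∧ Geo ρ.range) ≤
          (Nat.card F : ℝ) ^ (-((n : ℝ) / 2)))
    (hA : 0 < sig m → (∃ k ∈ m, 1 / (k : ℝ) < sig m) →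
      ∃ r : ℕ, ∀ n, r ≤ n → ∀ (F : Type) [Field F] [Finite F], (∀ k ∈ m, k ∣ Nat.card F - 1) →
      (∀ k ∈ m, Ord n F k) →
        prob Γ (PS n F) (fun ρ => C6 ρ.range ∨ C7 ρ.range) ≤
          (Nat.card F : ℝ) ^ (-((n : ℝ) / 2))) : St 2 Γ m := by
  intro hs θ hθ
  have hσ : 0 < sig m := by
    push_cast at hs
    linarith
  have hθ' : (m.length - sig m) < θ * m.length := by
    push_cast at hθ
    have e : (m.length : ℝ) + 2 - 2 = m.length := by ring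
    rwa [e] at hθ
  obtain ⟨c1, r1, hc1, -, H1⟩ := hC hσ
  obtain ⟨c2, r2, hc2, H2⟩ := h2 hσ
  obtain ⟨η, r3, hη, H3⟩ := h3 hσ θ hθ'
  obtain ⟨r5, H5⟩ : ∃ r : ℕ, ∀ n, r ≤ n → ∀ (F : Type) [Field F] [Finite F],
      (∀ k ∈ m, k ∣ Nat.card F - 1) → (∀ k ∈ m, Ord n F k) →
      (∃ k ∈ m, 1 / (k : ℝ) < sig m) →
        prob Γ (PS n F) (fun ρ => Irr ρ.range ∧ Geo ρ.range) ≤
          (Nat.card F : ℝ) ^ (-((n : ℝ) / 2)) := by
    by_cases hE : ∃ k ∈ m, 1 / (k : ℝ) < sig m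
    · obtain ⟨r, hr⟩ := hG hσ hE
      exact ⟨r, fun n hn F _ _ h1 h2 _ => hr n hn F h1 h2⟩
    · exact ⟨0, fun n hn F _ _ h1 h2 h => absurd h hE⟩
  obtain ⟨r6, H6⟩ : ∃ r : ℕ, ∀ n, r ≤ n → ∀ (F : Type) [Field F] [Finite F],
      (∀ k ∈ m, k ∣ Nat.card F - 1) → (∀ k ∈ m, Ord n F k) →
      (∃ k ∈ m, 1 / (k : ℝ) < sig m) →
        prob Γ (PS n F) (fun ρ => C6 ρ.range ∨ C7 ρ.range) ≤
          (Nat.card F : ℝ) ^ (-((n : ℝ) / 2)) := by
    by_cases hE : ∃ k ∈ m, 1 / (k : ℝ) < sig m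
    · obtain ⟨r, hr⟩ := hA hσ hE
      exact ⟨r, fun n hn F _ _ h1 h2 _ => hr n hn F h1 h2⟩
    · exact ⟨0, fun n hn F _ _ h1 h2 h => absurd h hE⟩
  set a : ℝ := min c2 (1 / 2) with ha
  have ha0 : 0 < a := lt_min hc2 (by norm_num)
  have ha2 : a ≤ 1 / 2 := min_le_right _ _
  obtain ⟨r4, H4⟩ := fn2_four a ha0
  set c : ℝ := min (min c1 η) (a / 2) with hc
  have hc0 : 0 < c := lt_min (lt_min hc1 hη) (by linarith)
  refine ⟨c, r1 + r2 + r3 + r4 + r5 + r6, hc0, ?_⟩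
  intro n hn F _ _ hord
  have hdvd : ∀ k ∈ m, k ∣ Nat.card F - 1 := fun k hk =>
    (Dvd.intro _ rfl).trans (hord k hk)
  have hord' : ∀ k ∈ m, Ord n F k := hord
  have hfin' := hfin n F
  have hn0 : (0 : ℝ) ≤ n := Nat.cast_nonneg n
  refine ⟨?_, ?_⟩
  · have h5 := H1 n (by omega) F hdvd hord'
    rw [fn2_cast_JJ] at h5
    have e1 : (1 - ((2 : ℕ) : ℤ)) = -1 := by norm_num
    rw [e1, zpow_neg_one, ← div_eq_mul_inv, div_div]
    refine h5.trans (fn2_exp_le F (mul_le_mul_of_nonneg_right ?_ hn0))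
    have : c ≤ c1 := (min_le_left _ _).trans (min_le_left _ _)
    linarith
  · intro S hS hM
    have hE : (∃ k ∈ m, 1 / (k : ℝ) < sig m + ((2 : ℕ) : ℝ) - 2) ↔
        (∃ k ∈ m, 1 / (k : ℝ) < sig m) := by
      push_cast
      have e : sig m + 2 - 2 = sig m := by ring
      rw [e]
    refine fn2_last n F a c (min_le_right _ _) (H4 n (by omega) _ (fn2_card_ge F)) S _ ?_ ?_ ?_ ?_
    · refine (H2 n (by omega) F hdvd hord').trans (fn2_exp_le F (mul_le_mul_of_nonneg_right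
        (neg_le_neg (min_le_left _ _)) hn0))
    · refine (H3 n (by omega) F hdvd hord' S (hS.trans (fn2_exp_le F (mul_le_mul_of_nonneg_right
        ((min_le_left _ _).trans (min_le_right _ _)) (by positivity)))) hM).trans (fn2_exp_le F ?_)
      nlinarith
    · intro h
      refine (H5 n (by omega) F hdvd hord' (hE.1 h)).trans (fn2_exp_le F ?_)
      nlinarith
    · intro h
      refine (H6 n (by omega) F hdvd hord' (hE.1 h)).trans (fn2_exp_le F ?_)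
      nlinarith

theorem t_FN2 : M_FN2 := by
  intro hHO hC h2 h3 hG hA m hm
  refine ⟨fn2_one m _ (fun n F _ _ => fn2_finO n F m) ?_ ?_ ?_ ?_ ?_,
    fn2_one m _ (fun n F _ _ => fn2_finN n F m) ?_ ?_ ?_ ?_ ?_⟩
  · intro hσ
    obtain ⟨c, r, hc, hr, H⟩ := hC m hm hσ
    refine ⟨c, r, hc, hr, fun n hn F _ _ h1 h2 => ?_⟩
    rw [fn2_cntO hHO]
    exact H n hn F h1 h2 true
  · intro hσ
    obtain ⟨c, r, hc, H⟩ := h2 m hm hσ
    exact ⟨c, r, hc, fun n hn F _ _ h1 h2 => (H n hn F h1 h2).1⟩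
  · intro hσ θ hθ
    obtain ⟨c, r, hc, H⟩ := h3 m hm hσ θ hθ
    exact ⟨c, r, hc, fun n hn F _ _ h1 h2 S hS hM => (H n hn F h1 h2 S hS hM).1⟩
  · intro hσ hE
    obtain ⟨r, H⟩ := hG m hm hσ hE
    exact ⟨r, fun n hn F _ _ h1 h2 => (H n hn F h1 h2).1⟩
  · intro hσ hE
    obtain ⟨r, H⟩ := hA m hm hσ hE
    exact ⟨r, fun n hn F _ _ h1 h2 => (H n hn F h1 h2).1⟩
  · intro hσ
    obtain ⟨c, r, hc, hr, H⟩ := hC m hm hσ
    refine ⟨c, r, hc, hr, fun n hn F _ _ h1 h2 => ?_⟩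
    rw [fn2_cntN hHO]
    exact H n hn F h1 h2 false
  · intro hσ
    obtain ⟨c, r, hc, H⟩ := h2 m hm hσ
    exact ⟨c, r, hc, fun n hn F _ _ h1 h2 => (H n hn F h1 h2).2⟩
  · intro hσ θ hθ
    obtain ⟨c, r, hc, H⟩ := h3 m hm hσ θ hθ
    exact ⟨c, r, hc, fun n hn F _ _ h1 h2 S hS hM => (H n hn F h1 h2 S hS hM).2⟩
  · intro hσ hE
    obtain ⟨r, H⟩ := hG m hm hσ hE
    exact ⟨r, fun n hn F _ _ h1 h2 => (H n hn F h1 h2).2⟩
  · intro hσ hE
    obtain ⟨r, H⟩ := hA m hm hσ hE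
    exact ⟨r, fun n hn F _ _ h1 h2 => (H n hn F h1 h2).2⟩

end

end FGE
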