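import Pool.Agent.FGE.GAG

/-!
# GA1: the classes `C6` and `C7` for the non-oriented groups of genus `1`
-/

set_option autoImplicit false

namespace FGE

open RSF FL0 Polynomial

noncomputable section

theorem t_GA1 : M_GA1 := by
  intro hPRN hN6 hS6 hN7 hS7 m hm hsig hk
  obtain ⟨r, hr⟩ := hPRN m hm hsig hk 20 (by norm_num)
  refine ⟨max r 12, fun n hn F _ _ hF hOrd => ?_⟩
  have hfin : Finite (NGroup 1 m →* PS n F) := RSF.A.finite_nhom 1 m (PS n F)
  refine gag_general True hN6 hS6 hN7 hS7 m n (le_trans (le_max_right _ _) hn) F (NGroup 1 m) ?_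
  intro I _ Q μ h0 h1 h2 h3 h4 h5
  exact hr n (le_trans (le_max_left _ _) hn) F hF hOrd I Q μ h0 h1 h2 h3 h4 (h5 trivial)

end

end FGE
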