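import Mathlib
import Pool.Agent.FGE.StF
import Pool.Agent.FGE.GE0

/-!
# GA2: the classes `C6` and `C7` for the oriented groups of genus 1 and the non-oriented ones of genus 2
-/

set_option autoImplicit false

namespace FGE

open RSF FL0 Polynomial

noncomputable section

/-- the conclusion of the union bound for the group `Γ`, with `μ = 0` and `C = 20` -/
def ga2_HP (n : ℕ) (F : Type) [Field F] (Γ : Type) [Group Γ] : Prop :=
  ∀ (I : Type) [Finite I] (Q : I → Matrix (Fin n) (Fin n) F → Prop),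
    (∀ T M (c : F), c ≠ 0 → Q T M → Q T (c • M)) →
    (Nat.card I : ℝ) ≤ Bd 20 n F ((n : ℝ) ^ 2) →
    (∀ T, (Nat.card {y : GL (Fin n) F // Q T y.1} : ℝ) ≤ Bd 20 n F 0) →
    prob Γ (PS n F) (fun ρ => ∃ T, All ρ.range (Q T)) ≤
      (Nat.card F : ℝ) ^ (-(2 * (n : ℝ)))

theorem ga2_P6_smul {n s : ℕ} {F : Type} [Field F] (g : Fin s → GL (Fin n) F)
    (M : Matrix (Fin n) (Fin n) F) (c : F) (h : P6 g M) : P6 g (c • M) := by
  intro i
  obtain ⟨d, e, hd⟩ := h i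
  refine ⟨d, e, ?_⟩
  rw [Matrix.smul_mul, hd, Matrix.mul_smul, smul_comm]

theorem ga2_P7_smul {n a t : ℕ} {F : Type} [Field F] (ht : 1 ≤ t) (e : Fin n ≃ (Fin t → Fin a))
    (P : GL (Fin n) F) (M : Matrix (Fin n) (Fin n) F) (c : F) (h : P7 e P M) :
    P7 e P (c • M) := by
  obtain ⟨B, π, hB⟩ := h
  refine ⟨fun s => (if s = ⟨0, ht⟩ then c else 1) • B s, π, ?_⟩
  rw [Matrix.mul_smul, Matrix.smul_mul, hB]
  ext i j
  simp only [Matrix.smul_apply, Matrix.of_apply, smul_eq_mul]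
  rw [Finset.prod_mul_distrib, Finset.prod_ite_eq']
  simp

theorem ga2_c6 (n : ℕ) (hn : 1 ≤ n) (F : Type) [Field F] [Finite F] (Γ : Type) [Group Γ]
    [Finite (Γ →* PS n F)] (hHP : ga2_HP n F Γ) (hN : S_C6N) (hS : S_C6S) (p : ℕ × ℕ) :
    prob Γ (PS n F) (fun ρ => ∃ g : I6 F n p.1 p.2, 2 ≤ p.1 ∧ p.1 ^ p.2 = n ^ 2 ∧
      All ρ.range (P6 g.1)) ≤ (Nat.card F : ℝ) ^ (-(2 * (n : ℝ))) := by
  by_cases h : 2 ≤ p.1 ∧ p.1 ^ p.2 = n ^ 2
  · obtain ⟨h1, h2⟩ := h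
    refine (ge0_prob_mono _ (fun ρ => ∃ g : I6 F n p.1 p.2, All ρ.range (P6 g.1)) ?_).trans ?_
    · rintro ρ ⟨g, -, -, h3⟩
      exact ⟨g, h3⟩
    · have hfin : Finite (I6 F n p.1 p.2) := by
        unfold I6
        infer_instance
      refine hHP (I6 F n p.1 p.2) (fun g => P6 g.1) ?_ ?_ ?_
      · intro g M c _ hM
        exact ga2_P6_smul g.1 M c hM
      · exact hN F n p.1 p.2 hn h1 h2
      · intro g
        exact hS F n p.1 p.2 hn h1 h2 g
  · rw [ge0_prob_false]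
    · positivity
    · rintro ρ ⟨g, h1, h2, -⟩
      exact h ⟨h1, h2⟩

theorem ga2_c7 (n : ℕ) (F : Type) [Field F] [Finite F] (Γ : Type) [Group Γ]
    [Finite (Γ →* PS n F)] (hHP : ga2_HP n F Γ) (hN : S_C7N) (hS : S_C7S) (p : ℕ × ℕ) :
    prob Γ (PS n F) (fun ρ => ∃ T : I7 F n p.1 p.2, 2 ≤ p.1 ∧ 2 ≤ p.2 ∧
      All ρ.range (fun M => M ∈ T.1)) ≤ (Nat.card F : ℝ) ^ (-(2 * (n : ℝ))) := by
  by_cases h : 2 ≤ p.1 ∧ 2 ≤ p.2
  · obtain ⟨h1, h2⟩ := h
    refine (ge0_prob_mono _ (fun ρ => ∃ T : I7 F n p.1 p.2, All ρ.range (fun M => M ∈ T.1))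
      ?_).trans ?_
    · rintro ρ ⟨g, -, -, h3⟩
      exact ⟨g, h3⟩
    · have hfin : Finite (I7 F n p.1 p.2) := by
        unfold I7
        infer_instance
      refine hHP (I7 F n p.1 p.2) (fun T M => M ∈ T.1) ?_ ?_ ?_
      · rintro ⟨T, e, P, rfl⟩ M c _ hM
        exact ga2_P7_smul (by omega) e P M c hM
      · exact (hN F n p.1 p.2).trans (ge0_Bd_mono _ _ (by norm_num) _ _ _)
      · intro T
        exact (hS F n p.1 p.2 h1 h2 T).trans (ge0_Bd_mono _ _ (by norm_num) _ _ _)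
  · rw [ge0_prob_false]
    · positivity
    · rintro ρ ⟨T, h1, h2, -⟩
      exact h ⟨h1, h2⟩

theorem ga2_cube (n : ℕ) (hn : 10 ≤ n) : n ^ 3 ≤ 2 ^ n := by
  induction n, hn using Nat.le_induction with
  | base => norm_num
  | succ n hn ih =>
    have h1 : (n + 1) ^ 3 ≤ 2 * n ^ 3 := by
      have h2 : 10 * n ^ 2 ≤ n ^ 3 := by
        calc 10 * n ^ 2 ≤ n * n ^ 2 := Nat.mul_le_mul_right _ hn
          _ = n ^ 3 := by ring
      nlinarith
    calc (n + 1) ^ 3 ≤ 2 * n ^ 3 := h1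
      _ ≤ 2 * 2 ^ n := Nat.mul_le_mul_left _ ih
      _ = 2 ^ (n + 1) := by ring

theorem ga2_final (n : ℕ) (hn : 10 ≤ n) (q : ℝ) (hq : 2 ≤ q) :
    ((((n : ℝ) ^ 2 + 1) * (2 * n + 1)) + ((n : ℝ) + 1) * (n + 1)) * q ^ (-(2 * (n : ℝ))) ≤
      q ^ (-((n : ℝ) / 2)) := by
  have hq0 : 0 < q := by linarith
  have hn0 : (10 : ℝ) ≤ n := by exact_mod_cast hn
  have h1 : (((n : ℝ) ^ 2 + 1) * (2 * n + 1)) + ((n : ℝ) + 1) * (n + 1) ≤
      q ^ ((3 : ℝ) * n / 2) := by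
    have h2 : (2 : ℝ) ^ n ≤ q ^ n := pow_le_pow_left₀ (by norm_num) hq n
    have h3 : (n : ℝ) ^ 3 ≤ 2 ^ n := by exact_mod_cast ga2_cube n hn
    have h4 : (((n : ℝ) ^ 2 + 1) * (2 * n + 1)) + ((n : ℝ) + 1) * (n + 1) ≤ 4 * (n : ℝ) ^ 3 := by
      have h5 : (10 : ℝ) * n ≤ (n : ℝ) ^ 2 := by nlinarith
      have h6 : (10 : ℝ) * (n : ℝ) ^ 2 ≤ (n : ℝ) ^ 3 := by
        calc (10 : ℝ) * (n : ℝ) ^ 2 ≤ n * (n : ℝ) ^ 2 :=
              mul_le_mul_of_nonneg_right hn0 (by positivity)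
          _ = (n : ℝ) ^ 3 := by ring
      nlinarith
    have h8 : 4 * q ^ n ≤ q ^ (n + 2) := by
      rw [pow_add]
      have h10 : 0 < q ^ n := pow_pos hq0 n
      have h11 : 4 ≤ q ^ 2 := by nlinarith
      have h12 := mul_le_mul_of_nonneg_left h11 h10.le
      linarith
    have h9 : q ^ (n + 2) ≤ q ^ ((3 : ℝ) * n / 2) := by
      rw [← Real.rpow_natCast]
      refine Real.rpow_le_rpow_of_exponent_le (by linarith) ?_
      push_cast
      linarith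
    linarith
  calc ((((n : ℝ) ^ 2 + 1) * (2 * n + 1)) + ((n : ℝ) + 1) * (n + 1)) * q ^ (-(2 * (n : ℝ))) ≤
      q ^ ((3 : ℝ) * n / 2) * q ^ (-(2 * (n : ℝ))) :=
        mul_le_mul_of_nonneg_right h1 (Real.rpow_nonneg hq0.le _)
    _ = q ^ (-((n : ℝ) / 2)) := by
        rw [← Real.rpow_add hq0]
        congr 1
        ring

/-- the union bound for one group -/
theorem ga2_union (hN6 : S_C6N) (hS6 : S_C6S) (hN7 : S_C7N) (hS7 : S_C7S)
    (n : ℕ) (hn : 10 ≤ n) (F : Type) [Field F] [Finite F]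
    (Γ : Type) [Group Γ] [Finite (Γ →* PS n F)] (hHP : ga2_HP n F Γ) :
    prob Γ (PS n F) (fun ρ => C6 ρ.range ∨ C7 ρ.range) ≤
      (Nat.card F : ℝ) ^ (-((n : ℝ) / 2)) := by
  classical
  set δ : ℝ := (Nat.card F : ℝ) ^ (-(2 * (n : ℝ))) with hδ
  have b6 := ge0_prob_ex (Finset.range (n ^ 2 + 1) ×ˢ Finset.range (2 * n + 1)) _ δ
    (fun p => ga2_c6 n (by omega) F Γ hHP hN6 hS6 p)
  have b7 := ge0_prob_ex (Finset.range (n + 1) ×ˢ Finset.range (n + 1)) _ δ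
    (fun p => ga2_c7 n F Γ hHP hN7 hS7 p)
  rw [Finset.card_product, Finset.card_range, Finset.card_range] at b6
  rw [Finset.card_product, Finset.card_range] at b7
  refine le_trans ?_ (ga2_final n hn (Nat.card F) (by
    have : 1 < Nat.card F := Finite.one_lt_card
    exact_mod_cast this))
  have key : prob Γ (PS n F) (fun ρ => C6 ρ.range ∨ C7 ρ.range) ≤
      prob Γ (PS n F) (fun ρ =>
        (∃ p ∈ Finset.range (n ^ 2 + 1) ×ˢ Finset.range (2 * n + 1),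
          ∃ g : I6 F n p.1 p.2, 2 ≤ p.1 ∧ p.1 ^ p.2 = n ^ 2 ∧ All ρ.range (P6 g.1)) ∨
        (∃ p ∈ Finset.range (n + 1) ×ˢ Finset.range (n + 1),
          ∃ T : I7 F n p.1 p.2, 2 ≤ p.1 ∧ 2 ≤ p.2 ∧ All ρ.range (fun M => M ∈ T.1))) := by
    refine ge0_prob_mono _ _ ?_
    rintro ρ (h6 | h7)
    · obtain ⟨r, s, g, hr, hrs, hg⟩ := h6
      refine Or.inl ⟨(r, s), ?_, g, hr, hrs, hg⟩
      have hs : s ≠ 0 := by
        rintro rfl
        rw [pow_zero] at hrs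
        nlinarith
      have h1 : r ≤ n ^ 2 := by
        rw [← hrs]
        exact Nat.le_self_pow hs r
      have h2 : s < 2 * n := by
        have h3 : 2 ^ s < 2 ^ (2 * n) := by
          calc 2 ^ s ≤ r ^ s := Nat.pow_le_pow_left hr s
            _ = n ^ 2 := hrs
            _ < (2 ^ n) ^ 2 := Nat.pow_lt_pow_left n.lt_two_pow_self (by norm_num)
            _ = 2 ^ (2 * n) := by rw [← pow_mul, mul_comm]
        exact (Nat.pow_lt_pow_iff_right (by norm_num)).1 h3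
      exact Finset.mem_product.2 ⟨Finset.mem_range.2 (by omega), Finset.mem_range.2 (by omega)⟩
    · obtain ⟨a, t, e, P, ha, ht, hP⟩ := h7
      refine Or.inr ⟨(a, t), ?_, ⟨{M | P7 e P M}, e, P, rfl⟩, ha, ht, hP⟩
      have hat : a ^ t = n := by
        have h := Fintype.card_congr e
        rw [Fintype.card_fun, Fintype.card_fin, Fintype.card_fin, Fintype.card_fin] at h
        exact h.symm
      have h1 : a ≤ n := by
        rw [← hat]
        exact Nat.le_self_pow (by omega) a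
      have h2 : t < n := by
        calc t < 2 ^ t := t.lt_two_pow_self
          _ ≤ a ^ t := Nat.pow_le_pow_left ha t
          _ = n := hat
      exact Finset.mem_product.2 ⟨Finset.mem_range.2 (by simp; omega),
        Finset.mem_range.2 (by simp; omega)⟩
  refine key.trans ((ge0_prob_or _ _).trans ((add_le_add b6 b7).trans (le_of_eq ?_)))
  push_cast
  ring

theorem t_GA2 : M_GA2 := by
  intro hPR hN6 hS6 hN7 hS7 m hm hsig hk
  obtain ⟨r, hr⟩ := hPR m hm hsig hk 20 (by norm_num)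
  refine ⟨max r 10, fun n hn F _ _ hF hOrd => ?_⟩
  have hn1 : r ≤ n := le_trans (le_max_left _ _) hn
  have hn2 : 10 ≤ n := le_trans (le_max_right _ _) hn
  have key : ∀ (I : Type) [Finite I] (Q : I → Matrix (Fin n) (Fin n) F → Prop),
      (∀ T M (c : F), c ≠ 0 → Q T M → Q T (c • M)) →
      (Nat.card I : ℝ) ≤ Bd 20 n F ((n : ℝ) ^ 2) →
      (∀ T, (Nat.card {y : GL (Fin n) F // Q T y.1} : ℝ) ≤ Bd 20 n F 0) →
      prob (OGroup 1 m) (PS n F) (fun ρ => ∃ T, All ρ.range (Q T)) ≤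
        (Nat.card F : ℝ) ^ (-(2 * (n : ℝ))) ∧
      prob (NGroup 2 m) (PS n F) (fun ρ => ∃ T, All ρ.range (Q T)) ≤
        (Nat.card F : ℝ) ^ (-(2 * (n : ℝ))) := by
    intro I _ Q h1 h2 h3
    refine hr n hn1 F hF hOrd I Q 0 le_rfl (by norm_num) h1 ?_ ?_ ?_
    · rw [sub_zero, one_mul]
      exact h2
    · intro T k _
      rw [zero_mul, zero_mul]
      refine le_trans ?_ (h3 T)
      refine Nat.cast_le.2 (Nat.card_le_card_of_injective (fun x => ⟨x.1, x.2.2⟩) ?_)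
      intro x y hxy
      exact Subtype.ext (congrArg (fun z : {y : GL (Fin n) F // Q T y.1} => z.1) hxy)
    · intro T
      rw [zero_mul]
      exact h3 T
  have f1 : Finite (OGroup 1 m →* PS n F) := RSF.A.finite_ohom 1 m (PS n F)
  have f2 : Finite (NGroup 2 m →* PS n F) := RSF.A.finite_nhom 2 m (PS n F)
  exact ⟨ga2_union hN6 hS6 hN7 hS7 n hn2 F (OGroup 1 m) fun I _ Q h1 h2 h3 =>
      (key I Q h1 h2 h3).1,
    ga2_union hN6 hS6 hN7 hS7 n hn2 F (NGroup 2 m) fun I _ Q h1 h2 h3 => (key I Q h1 h2 h3).2⟩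

end

end FGE
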