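import Pool.Agent.FG2.All
import Pool.Agent.FLW.All
import Pool.Agent.FGE.C6A
import Pool.Agent.FGE.C6N
import Pool.Agent.FGE.C6S
import Pool.Agent.FGE.C7N
import Pool.Agent.FGE.C7S
import Pool.Agent.FGE.GA0
import Pool.Agent.FGE.GA1
import Pool.Agent.FGE.GA2
import Pool.Agent.FGE.FN0
import Pool.Agent.FGE.FN1
import Pool.Agent.FGE.FN2

/-!
# The final theorem for all four classes of groups: assembly
-/

namespace FGE

open RSF FL0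

theorem a_C6N : S_C6N := t_C6N t_C6A
theorem a_GA0 : S_GA0 := t_GA0 a_PRO a_C6N t_C6S t_C7N t_C7S
theorem a_GA1 : S_GA1 := t_GA1 a_PRN a_C6N t_C6S t_C7N t_C7S
theorem a_PR2 : S_PR2 := fun m hm _ hk => FG2.a_PR2 m hm hk
theorem a_GE2 : S_GE2 := fun m hm _ hk => FG2.a_GE2 m hm hk
theorem a_GA2 : S_GA2 := t_GA2 a_PR2 a_C6N t_C6S t_C7N t_C7S

theorem a_Main : Main := fun m hm =>
  ⟨t_FN0 FL0.a_CNT0 FL0.a_FII FL0.a_FIII a_GE0 a_GA0 m hm,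
    t_FN1 FLN.a_CNT FLN.a_FII FLN.a_FIII a_GE1 a_GA1 m hm,
    (t_FN2 FLW.t_HO FLW.a_CNT FLW.a_FII FLW.a_FIII a_GE2 a_GA2 m hm).1,
    (t_FN2 FLW.t_HO FLW.a_CNT FLW.a_FII FLW.a_FIII a_GE2 a_GA2 m hm).2⟩

end FGE
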