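import Mathlib
import Pool.Agent.FGE.StF
import Pool.Agent.FGE.GE0

/-!
# GAG: the union bound for the classes `C6` and `C7`, for an arbitrary group
-/

set_option autoImplicit false

namespace FGE

open RSF FL0 Polynomial

noncomputable section

/-- the family of `C6` for fixed `r`, `s` -/
theorem gag_c6 (w : Prop) (m : List ℕ) (n : ℕ) (hn : 1 ≤ n) (F : Type)
    [Field F] [Finite F] (Γ : Type) [Group Γ] [Finite (Γ →* PS n F)] (hHP : ge0_HP w m 20 n F Γ)
    (hN : S_C6N) (hS : S_C6S) (r s : ℕ) :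
    prob Γ (PS n F) (fun ρ => 2 ≤ r ∧ r ^ s = n ^ 2 ∧ ∃ g : I6 F n r s, All ρ.range (P6 g.1)) ≤
      (Nat.card F : ℝ) ^ (-(2 * (n : ℝ))) := by
  by_cases h : 2 ≤ r ∧ r ^ s = n ^ 2
  · obtain ⟨hr, hrs⟩ := h
    refine (ge0_prob_mono _ (fun ρ => ∃ g : I6 F n r s, All ρ.range (P6 g.1))
      (fun ρ h => h.2.2)).trans ?_
    have hfin : Finite (I6 F n r s) := by
      unfold I6
      infer_instance
    have hb : ∀ g : I6 F n r s,
        (Nat.card {y : GL (Fin n) F // P6 g.1 y.1} : ℝ) ≤ Bd 20 n F 0 :=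
      fun g => hS F n r s hn hr hrs g
    refine hHP (I6 F n r s) (fun g => P6 g.1) 0 le_rfl (by norm_num) ?_ ?_ ?_ ?_
    · intro g M c hc h i
      obtain ⟨d, e, hd⟩ := h i
      refine ⟨d, e, ?_⟩
      rw [Matrix.smul_mul, hd, Matrix.mul_smul, smul_comm]
    · refine (hN F n r s hn hr hrs).trans (le_of_eq ?_)
      congr 1
      ring
    · intro g k _
      refine le_trans ?_ ((hb g).trans (le_of_eq ?_))
      · refine Nat.cast_le.2 (Nat.card_le_card_of_injective
          (fun y : {y : GL (Fin n) F // y ^ k = 1 ∧ P6 g.1 y.1} =>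
            (⟨y.1, y.2.2⟩ : {y : GL (Fin n) F // P6 g.1 y.1})) ?_)
        intro a b hab
        exact Subtype.ext (congrArg (fun x : {y : GL (Fin n) F // P6 g.1 y.1} => x.1) hab)
      · congr 1
        ring
    · intro _ g
      refine (hb g).trans (le_of_eq ?_)
      congr 1
      ring
  · rw [ge0_prob_false]
    · positivity
    · rintro ρ ⟨h1, h2, -⟩
      exact h ⟨h1, h2⟩

/-- the property `P7` does not change if the matrix is multiplied by a scalar -/
theorem gag_p7 {n a t : ℕ} {F : Type} [Field F] (e : Fin n ≃ (Fin t → Fin a))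
    (P : GL (Fin n) F) (ht : 1 ≤ t) (M : Matrix (Fin n) (Fin n) F) (c : F) (h : P7 e P M) :
    P7 e P (c • M) := by
  classical
  obtain ⟨B, π, hB⟩ := h
  refine ⟨fun s => (if s = (⟨0, ht⟩ : Fin t) then c else 1) • B s, π, ?_⟩
  rw [Matrix.mul_smul, Matrix.smul_mul, hB]
  ext i j
  simp only [Matrix.smul_apply, Matrix.of_apply, smul_eq_mul]
  rw [Finset.prod_mul_distrib, Finset.prod_ite_eq']
  simp

/-- the family of `C7` for fixed `a`, `t` -/
theorem gag_c7 (w : Prop) (m : List ℕ) (n : ℕ) (F : Type)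
    [Field F] [Finite F] (Γ : Type) [Group Γ] [Finite (Γ →* PS n F)] (hHP : ge0_HP w m 20 n F Γ)
    (hN : S_C7N) (hS : S_C7S) (a t : ℕ) :
    prob Γ (PS n F) (fun ρ => 2 ≤ a ∧ 2 ≤ t ∧ ∃ T : I7 F n a t,
      All ρ.range (fun M => M ∈ T.1)) ≤ (Nat.card F : ℝ) ^ (-(2 * (n : ℝ))) := by
  by_cases h : 2 ≤ a ∧ 2 ≤ t
  · obtain ⟨ha, ht⟩ := h
    refine (ge0_prob_mono _ (fun ρ => ∃ T : I7 F n a t, All ρ.range (fun M => M ∈ T.1))
      (fun ρ h => h.2.2)).trans ?_
    have hfin : Finite (I7 F n a t) := by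
      unfold I7
      infer_instance
    have hb : ∀ T : I7 F n a t,
        (Nat.card {y : GL (Fin n) F // y.1 ∈ T.1} : ℝ) ≤ Bd 20 n F 0 :=
      fun T => (hS F n a t ha ht T).trans (ge0_Bd_mono _ _ (by norm_num) _ _ _)
    refine hHP (I7 F n a t) (fun T M => M ∈ T.1) 0 le_rfl (by norm_num) ?_ ?_ ?_ ?_
    · rintro ⟨T, e, P, rfl⟩ M c hc h
      exact gag_p7 e P (by omega) M c h
    · refine ((hN F n a t).trans (ge0_Bd_mono 1 20 (by norm_num) _ _ _)).trans (le_of_eq ?_)
      congr 1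
      ring
    · intro T k _
      refine le_trans ?_ ((hb T).trans (le_of_eq ?_))
      · refine Nat.cast_le.2 (Nat.card_le_card_of_injective
          (fun y : {y : GL (Fin n) F // y ^ k = 1 ∧ y.1 ∈ T.1} =>
            (⟨y.1, y.2.2⟩ : {y : GL (Fin n) F // y.1 ∈ T.1})) ?_)
        intro a b hab
        exact Subtype.ext (congrArg (fun x : {y : GL (Fin n) F // y.1 ∈ T.1} => x.1) hab)
      · congr 1
        ring
    · intro _ T
      refine (hb T).trans (le_of_eq ?_)
      congr 1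
      ring
  · rw [ge0_prob_false]
    · positivity
    · rintro ρ ⟨h1, h2, -⟩
      exact h ⟨h1, h2⟩

theorem gag_final (n : ℕ) (hn : 12 ≤ n) (q : ℝ) (hq : 2 ≤ q) :
    (((n : ℝ) ^ 2 + 1) * (2 * n + 1) + ((n : ℝ) + 1) ^ 2) * q ^ (-(2 * (n : ℝ))) ≤
      q ^ (-((n : ℝ) / 2)) := by
  have hq0 : 0 < q := by linarith
  have h1 : ((n : ℝ) ^ 2 + 1) * (2 * n + 1) + ((n : ℝ) + 1) ^ 2 ≤ q ^ ((3 : ℝ) * n / 2) := by
    have h2 : ((n : ℝ) ^ 2 + 1) * (2 * n + 1) + ((n : ℝ) + 1) ^ 2 ≤ 2 ^ n := by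
      induction n, hn using Nat.le_induction with
      | base => norm_num
      | succ n hn ih =>
        have h5 : (12 : ℝ) ≤ n := by exact_mod_cast hn
        push_cast
        rw [pow_succ (2 : ℝ) n]
        have h6 : 0 ≤ (n : ℝ) ^ 2 * ((n : ℝ) - 12) := mul_nonneg (sq_nonneg _) (by linarith)
        nlinarith [ih]
    have h3 : (2 : ℝ) ^ n ≤ q ^ n := pow_le_pow_left₀ (by norm_num) hq n
    have h9 : q ^ n ≤ q ^ ((3 : ℝ) * n / 2) := by
      rw [← Real.rpow_natCast]
      refine Real.rpow_le_rpow_of_exponent_le (by linarith) ?_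
      have : (0 : ℝ) ≤ n := Nat.cast_nonneg n
      linarith
    linarith
  calc _ ≤ q ^ ((3 : ℝ) * n / 2) * q ^ (-(2 * (n : ℝ))) :=
        mul_le_mul_of_nonneg_right h1 (Real.rpow_nonneg hq0.le _)
    _ = q ^ (-((n : ℝ) / 2)) := by
        rw [← Real.rpow_add hq0]
        congr 1
        ring

/-- The union bound for `C6` and `C7`, for the group `Γ`. -/
theorem gag_general (w : Prop) (hN6 : S_C6N) (hS6 : S_C6S) (hN7 : S_C7N) (hS7 : S_C7S)
    (m : List ℕ) (n : ℕ) (hn : 12 ≤ n) (F : Type) [Field F] [Finite F]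
    (Γ : Type) [Group Γ] [Finite (Γ →* PS n F)] (hHP : ge0_HP w m 20 n F Γ) :
    prob Γ (PS n F) (fun ρ => C6 ρ.range ∨ C7 ρ.range) ≤
      (Nat.card F : ℝ) ^ (-((n : ℝ) / 2)) := by
  set δ : ℝ := (Nat.card F : ℝ) ^ (-(2 * (n : ℝ))) with hδ
  have b6 := ge0_prob_ex (Finset.range (n ^ 2 + 1) ×ˢ Finset.range (2 * n + 1)) _ δ
    (fun i : ℕ × ℕ => gag_c6 w m n (by omega) F Γ hHP hN6 hS6 i.1 i.2)
  have b7 := ge0_prob_ex (Finset.range (n + 1) ×ˢ Finset.range (n + 1)) _ δ
    (fun i : ℕ × ℕ => gag_c7 w m n F Γ hHP hN7 hS7 i.1 i.2)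
  rw [Finset.card_product, Finset.card_range, Finset.card_range] at b6
  rw [Finset.card_product, Finset.card_range] at b7
  refine le_trans ?_ (gag_final n hn (Nat.card F) (by
    have : 1 < Nat.card F := Finite.one_lt_card
    exact_mod_cast this))
  refine (ge0_prob_mono _ _ ?_).trans ((ge0_prob_or _ _).trans ((add_le_add b6 b7).trans ?_))
  · rintro ρ (h6 | h7)
    · left
      obtain ⟨r, s, g, hr, hrs, hg⟩ := h6
      refine ⟨(r, s), ?_, hr, hrs, g, hg⟩
      have hs : s ≠ 0 := by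
        rintro rfl
        rw [pow_zero] at hrs
        have : n ^ 2 ≥ 12 ^ 2 := Nat.pow_le_pow_left hn 2
        omega
      have h1 : r ≤ n ^ 2 := by
        rw [← hrs]
        exact Nat.le_self_pow hs r
      have h2 : s < 2 * n + 1 := by
        have h3 : 2 ^ s ≤ 2 ^ (2 * n) := by
          calc 2 ^ s ≤ r ^ s := Nat.pow_le_pow_left hr s
            _ = n ^ 2 := hrs
            _ ≤ (2 ^ n) ^ 2 := Nat.pow_le_pow_left n.lt_two_pow_self.le 2
            _ = 2 ^ (2 * n) := by rw [← pow_mul, Nat.mul_comm]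
        have h4 := (Nat.pow_le_pow_iff_right (by norm_num : 1 < 2)).1 h3
        omega
      rw [Finset.mem_product, Finset.mem_range, Finset.mem_range]
      exact ⟨by show r < n ^ 2 + 1; omega, h2⟩
    · right
      obtain ⟨a, t, e, P, ha, ht, hP⟩ := h7
      refine ⟨(a, t), ?_, ha, ht, ⟨{M | P7 e P M}, e, P, rfl⟩, hP⟩
      have hat : a ^ t = n := by
        have h := Fintype.card_congr e
        rw [Fintype.card_fin, Fintype.card_fun, Fintype.card_fin, Fintype.card_fin] at h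
        exact h.symm
      have h1 : a ≤ n := by
        rw [← hat]
        exact Nat.le_self_pow (by omega) a
      have h2 : t < n := by
        rw [← hat]
        exact Nat.lt_pow_self (by omega)
      rw [Finset.mem_product, Finset.mem_range, Finset.mem_range]
      exact ⟨by show a < n + 1; omega, by show t < n + 1; omega⟩
  · push_cast
    refine le_of_eq ?_
    ring

end

end FGE
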