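import Mathlib
import Pool.Agent.FGE.StF
import Pool.Agent.FGE.GE0

/-!
# The geometric classes for the oriented groups of genus 1 and the non-oriented groups of genus 2
-/

set_option autoImplicit false

namespace FGE

open RSF FL0 Polynomial

noncomputable section

theorem t_GE2 : M_GE2 := by
  intro hPR2 hR2 hN2 hY2 hS2 hR3 hN3 hY3 hS3 hN4 hY4 hS4 hN5 hY5 hS5 hR8 hN8 hY8 hS8 m hm hsig hk
  obtain ⟨C, hC, h⟩ := ge0_general True hR2 hN2 hY2 (fun _ => hS2) hR3 hN3 hY3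
    (fun _ => hS3) hN4 hY4 (fun _ => hS4) hN5 hY5 (fun _ => hS5) hR8 hN8 hY8
    (fun _ => hS8) m hm
  obtain ⟨r, hr⟩ := hPR2 m hm hsig hk C hC
  refine ⟨max r 4, fun n hn F _ _ hF hOrd => ⟨?_, ?_⟩⟩
  · have hfin : Finite (OGroup 1 m →* PS n F) := RSF.A.finite_ohom 1 m (PS n F)
    refine h n (le_trans (le_max_right _ _) hn) F hF (OGroup 1 m) ?_
    intro I _ Q μ h0 h1 h2 h3 h4 h5
    exact (hr n (le_trans (le_max_left _ _) hn) F hF hOrd I Q μ h0 h1 h2 h3 h4 (h5 trivial)).1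
  · have hfin : Finite (NGroup 2 m →* PS n F) := RSF.A.finite_nhom 2 m (PS n F)
    refine h n (le_trans (le_max_right _ _) hn) F hF (NGroup 2 m) ?_
    intro I _ Q μ h0 h1 h2 h3 h4 h5
    exact (hr n (le_trans (le_max_left _ _) hn) F hF hOrd I Q μ h0 h1 h2 h3 h4 (h5 trivial)).2

end

end FGE
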